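import Pool.Agent.P.MP_aabf10_an.Lenard

/-!
# Asymptotics on the real axis; size of the lacunae
-/

open scoped ContDiff Topology Real
open Filter Finset Set MeasureTheory

namespace Pool.Agent.P.MP_aabf10_an

variable {q : ℝ → ℝ}

theorem est_real (hq : Continuous q) {Q : ℝ} (hQ : ∀ x, |q x| ≤ Q) {k : ℝ} (hk0 : 0 < k)
    (hk : 2 * Q ≤ k) {x : ℝ} (hx : x ∈ Icc (0 : ℝ) 1) :
    |thr q (k ^ 2) x - Real.cos (k * x)| ≤ 2 * Q / k ∧
    |thr' q (k ^ 2) x + k * Real.sin (k * x)| ≤ 2 * Q ∧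
    |k * phr q (k ^ 2) x - Real.sin (k * x)| ≤ 2 * Q / k ∧
    |phr' q (k ^ 2) x - Real.cos (k * x)| ≤ 2 * Q / k := by
  have hn : ‖(k : ℂ)‖ = k := by simp [abs_of_pos hk0]
  have := est hq hQ (k := k) (by exact_mod_cast hk0.ne') (by rw [hn]; exact hk) hx
  rw [hn, ← Complex.ofReal_pow, th_real hq, th'_real hq, ph_real hq, ph'_real hq] at this
  simp only [Complex.ofReal_im, abs_zero, zero_mul, Real.exp_zero, mul_one] at this
  exact_mod_cast this

theorem cauchy_one {f : ℂ → ℂ} {k C : ℝ} (hk : 2 ≤ k)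
    (hf : ∀ z : ℂ, z ≠ 0 → DifferentiableAt ℂ f z)
    (h : ∀ z : ℂ, (k / 2 ≤ ‖z‖) → |z.im| ≤ 1 → ‖f z‖ ≤ C) : ‖deriv f k‖ ≤ C := by
  have hz : ∀ z ∈ Metric.closedBall (k : ℂ) 1, k / 2 ≤ ‖z‖ ∧ |z.im| ≤ 1 := by
    intro z hz
    rw [mem_closedBall_iff_norm] at hz
    constructor
    · have := norm_sub_norm_le (k : ℂ) z
      rw [norm_sub_rev, Complex.norm_real, Real.norm_eq_abs, abs_of_pos (by linarith)] at this
      linarith
    · simpa using (Complex.abs_im_le_norm (z - k)).trans hz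
  have := Complex.norm_deriv_le_of_forall_mem_sphere_norm_le (c := k) (R := 1) (C := C) (f := f)
    one_pos (DifferentiableOn.diffContOnCl fun z hz' => (hf z (by
      rw [closure_ball _ one_ne_zero] at hz'
      have := (hz z hz').1
      exact norm_pos_iff.1 (by linarith))).differentiableWithinAt)
    (fun z hz' => h z (hz z (Metric.sphere_subset_closedBall hz')).1
      (hz z (Metric.sphere_subset_closedBall hz')).2)
  simpa using this

theorem deriv_est (hq : Continuous q) {Q : ℝ} (hQ : ∀ x, |q x| ≤ Q) {k : ℝ} (hk : 4 * Q + 2 ≤ k) :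
    (∃ b', HasDerivAt (fun k => k * br q (k ^ 2)) b' k ∧ |b' - Real.cos k| ≤ 12 * Q / k) ∧
    (∃ c', HasDerivAt (fun k => cr q (k ^ 2) / k) c' k ∧ |c' + Real.cos k| ≤ 12 * Q / k) ∧
    ∃ n', HasDerivAt (fun k => Nr q (k ^ 2)) n' k ∧ |n'| ≤ 12 * Q / k := by
  have hQ0 : 0 ≤ Q := (abs_nonneg _).trans (hQ 0)
  have hk0 : 0 < k := by linarith
  have hb : ∀ z : ℂ, k / 2 ≤ ‖z‖ → |z.im| ≤ 1 → 2 * Q / ‖z‖ * Real.exp |z.im| ≤ 12 * Q / k := by
    intro z h1 h2
    have h3 : Real.exp |z.im| ≤ 3 :=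
      (Real.exp_le_exp.2 h2).trans (Real.exp_one_lt_d9.le.trans (by norm_num))
    have h4 : 2 * Q / ‖z‖ ≤ 4 * Q / k := by
      rw [div_le_div_iff₀ (by linarith) hk0]; nlinarith
    calc _ ≤ 4 * Q / k * 3 := mul_le_mul h4 h3 (Real.exp_pos _).le (by positivity)
      _ = _ := by ring
  have key : ∀ (f : ℂ → ℂ) (g : ℝ → ℝ), (∀ z : ℂ, z ≠ 0 → DifferentiableAt ℂ f z) →
      (∀ s : ℝ, f s = g s) → (∀ z : ℂ, z ≠ 0 → 2 * Q ≤ ‖z‖ →
        ‖f z‖ ≤ 2 * Q / ‖z‖ * Real.exp |z.im|) →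
      ∃ g', HasDerivAt g g' k ∧ |g'| ≤ 12 * Q / k := by
    intro f g hf e h
    have h1 := cauchy_one (k := k) (by linarith) hf fun z a b =>
      (h z (norm_pos_iff.1 (by linarith)) (by linarith)).trans (hb z a b)
    have h2 := (hf k (by exact_mod_cast hk0.ne')).hasDerivAt.real_of_complex
    refine ⟨_, by simpa [e] using h2, (Complex.abs_re_le_norm _).trans h1⟩
  have sq : ∀ {f : ℂ → ℂ}, Differentiable ℂ f → Differentiable ℂ fun z => f (z ^ 2) :=
    fun hf => hf.comp (differentiable_pow 2)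
  refine ⟨?_, ?_, ?_⟩
  · obtain ⟨g', h1, h2⟩ := key (fun z => z * mb q (z ^ 2) - Complex.sin z)
      (fun k => k * br q (k ^ 2) - Real.sin k)
      (fun z _ => ((differentiable_id.mul (sq (mb_diff hq))).sub Complex.differentiable_sin) z)
      (fun s => by rw [← Complex.ofReal_pow, mb_real hq]; push_cast; rfl)
      (fun z a b => mb_est hq hQ a b)
    exact ⟨g' + Real.cos k, by simpa using h1.fun_add (Real.hasDerivAt_sin k), by simpa using h2⟩
  · obtain ⟨g', h1, h2⟩ := key (fun z => mc q (z ^ 2) / z + Complex.sin z)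
      (fun k => cr q (k ^ 2) / k + Real.sin k)
      (fun z hz => ((sq (mc_diff hq) z).div differentiableAt_id hz).add
        (Complex.differentiable_sin z))
      (fun s => by rw [← Complex.ofReal_pow, mc_real hq]; push_cast; rfl)
      (fun z a b => by
        have := mc_est hq hQ a b
        have hz : 0 < ‖z‖ := norm_pos_iff.2 a
        rw [show mc q (z ^ 2) / z + Complex.sin z = (mc q (z ^ 2) + z * Complex.sin z) / z by
          field_simp, norm_div, div_mul_eq_mul_div]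
        exact div_le_div_of_nonneg_right this hz.le)
    exact ⟨g' - Real.cos k, by simpa using h1.fun_sub (Real.hasDerivAt_sin k), by simpa using h2⟩
  · exact key (fun z => Nn q (z ^ 2)) (fun k => Nr q (k ^ 2)) (fun z _ => sq (Nn_diff hq) z)
      (fun s => by rw [← Complex.ofReal_pow, Nn_real hq]) (fun z a b => Nn_est hq hQ a b)

theorem mvt_range {f : ℝ → ℝ} {a b lo hi : ℝ} (hab : lo ≤ hi)
    (h : ∀ x ∈ uIcc a b, ∃ f', HasDerivAt f f' x ∧ lo ≤ f' ∧ f' ≤ hi) :
    ∃ s, lo ≤ s ∧ s ≤ hi ∧ f b = f a + s * (b - a) := by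
  have aux : ∀ a b : ℝ, a < b → (∀ x ∈ Icc a b, ∃ f', HasDerivAt f f' x ∧ lo ≤ f' ∧ f' ≤ hi) →
      ∃ s, lo ≤ s ∧ s ≤ hi ∧ f b = f a + s * (b - a) := by
    intro a b hlt h
    obtain ⟨c, hc, e⟩ := exists_deriv_eq_slope f hlt
      (fun x hx => (h x hx).choose_spec.1.continuousAt.continuousWithinAt)
      (fun x hx => (h x (Ioo_subset_Icc_self hx)).choose_spec.1.differentiableAt.differentiableWithinAt)
    obtain ⟨f', h1, h2, h3⟩ := h c (Ioo_subset_Icc_self hc)
    refine ⟨f', h2, h3, ?_⟩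
    rw [← h1.deriv, e]
    have : b - a ≠ 0 := (sub_pos.2 hlt).ne'
    field_simp; ring
  rcases lt_trichotomy a b with e | e | e
  · exact aux a b e (by rwa [uIcc_of_le e.le] at h)
  · exact ⟨lo, le_rfl, hab, by simp [e]⟩
  · obtain ⟨s, h1, h2, h3⟩ := aux b a e (by rwa [uIcc_of_ge e.le] at h)
    exact ⟨s, h1, h2, by linarith⟩

/-- Facts at a large Dirichlet eigenvalue. -/
theorem IsDir.large_facts {Q : ℝ} (hQ : 1 ≤ Q) {mu : ℕ → ℝ} (h : IsDir q Q mu) {j : ℕ}
    (hj : 200 * Q ≤ j) : ∃ k : ℝ, k ^ 2 = mu j ∧ 3 * j - 1 ≤ k ∧ k ≤ 4 * j ∧ 400 * Q ≤ k ∧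
      |k - j * π| ≤ Q / k := by
  have hpi := Real.pi_gt_three
  have hpi' := Real.pi_lt_d2
  have h1 := h.large j (by nlinarith)
  have h2 := h.asym j h1
  have h3 : 1 ≤ √(mu j) := Real.one_le_sqrt.2 h1
  have h4 : Q / √(mu j) ≤ Q := div_le_self (by linarith) h3
  have h5 := abs_le.1 (h2.trans h4)
  have h6 : 400 * Q ≤ √(mu j) := by nlinarith
  have h7 : Q / √(mu j) ≤ 1 := by rw [div_le_one (by linarith)]; linarith
  have h8 := abs_le.1 (h2.trans h7)
  exact ⟨√(mu j), Real.sq_sqrt (by linarith), by nlinarith, by nlinarith, h6, h2⟩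

theorem local_form (hq : Continuous q) {Q : ℝ} (hQ1 : 1 ≤ Q) (hQ : ∀ x, |q x| ≤ Q) {j : ℕ} {k : ℝ}
    (hk : 400 * Q ≤ k) (hkj : |k - j * π| ≤ Q / k) (hb : br q (k ^ 2) = 0) {δ : ℝ}
    (hδ : |δ| ≤ 1 / 2) : ∃ s₁ s₂ s₃ : ℝ, 7 / 10 ≤ s₁ ∧ s₁ ≤ 11 / 10 ∧ 7 / 10 ≤ s₂ ∧ s₂ ≤ 11 / 10 ∧
      |s₃| ≤ 1 / 10 ∧ Dr q ((k + δ) ^ 2) ^ 2 - 1 = (Nr q (k ^ 2) + s₃ * δ) ^ 2 +
        s₁ * δ * ((-1) ^ j * (cr q (k ^ 2) / k)) - s₁ * s₂ * δ ^ 2 := by
  have hδ' := abs_le.1 hδ
  have hs := neg_one_pow_sq j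
  have hwin : ∀ x ∈ uIcc k (k + δ), 4 * Q + 2 ≤ x ∧ 12 * Q / x ≤ 1 / 10 ∧
      8 / 10 ≤ (-1) ^ j * Real.cos x ∧ (-1) ^ j * Real.cos x ≤ 1 := by
    intro x hx
    have h1 : |x - k| ≤ 1 / 2 := by
      rw [Set.mem_uIcc] at hx
      rw [abs_le]
      rcases hx with hx | hx <;> constructor <;> linarith [hx.1, hx.2]
    have h1' := abs_le.1 h1
    have h2 : Q / k ≤ 1 / 10 := by rw [div_le_iff₀ (by linarith)]; linarith
    have h3 := abs_le.1 (hkj.trans h2)
    refine ⟨by linarith, by rw [div_le_iff₀ (by linarith)]; linarith, ?_, ?_⟩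
    · rw [← Real.cos_sub_nat_mul_pi]
      have := Real.one_sub_sq_div_two_le_cos (x := x - j * π)
      nlinarith
    · rw [← Real.cos_sub_nat_mul_pi]; exact Real.cos_le_one _
  have habs : ∀ y : ℝ, |(-1) ^ j * y| = |y| := fun y => by simp [abs_mul]
  obtain ⟨s₁, a1, a2, a3⟩ := mvt_range (f := fun x => (-1) ^ j * (x * br q (x ^ 2))) (a := k)
    (b := k + δ) (lo := 7 / 10) (hi := 11 / 10) (by norm_num) fun x hx => by
      obtain ⟨w1, w2, w3, w4⟩ := hwin x hx
      obtain ⟨⟨b', h1, h2⟩, -, -⟩ := deriv_est hq hQ w1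
      rw [← habs, mul_sub] at h2
      have := abs_le.1 (h2.trans w2)
      exact ⟨_, h1.const_mul _, by linarith, by linarith⟩
  obtain ⟨s₂, b1, b2, b3⟩ := mvt_range (f := fun x => -((-1) ^ j * (cr q (x ^ 2) / x))) (a := k)
    (b := k + δ) (lo := 7 / 10) (hi := 11 / 10) (by norm_num) fun x hx => by
      obtain ⟨w1, w2, w3, w4⟩ := hwin x hx
      obtain ⟨-, ⟨b', h1, h2⟩, -⟩ := deriv_est hq hQ w1
      rw [← habs, mul_add] at h2
      have := abs_le.1 (h2.trans w2)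
      exact ⟨_, (h1.const_mul _).fun_neg, by linarith, by linarith⟩
  obtain ⟨s₃, c1, c2, c3⟩ := mvt_range (f := fun x => Nr q (x ^ 2)) (a := k)
    (b := k + δ) (lo := -(1 / 10)) (hi := 1 / 10) (by norm_num) fun x hx => by
      obtain ⟨w1, w2, w3, w4⟩ := hwin x hx
      obtain ⟨-, -, ⟨b', h1, h2⟩⟩ := deriv_est hq hQ w1
      have := abs_le.1 (h2.trans w2)
      exact ⟨_, h1, this.1, this.2⟩
  refine ⟨s₁, s₂, s₃, a1, a2, b1, b2, abs_le.2 ⟨c1, c2⟩, ?_⟩
  simp only [hb, mul_zero, zero_add, add_sub_cancel_left] at a3 b3 c3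
  have hk' : k + δ ≠ 0 := by linarith
  have e : br q ((k + δ) ^ 2) * cr q ((k + δ) ^ 2) =
      ((-1) ^ j * ((k + δ) * br q ((k + δ) ^ 2))) * ((-1) ^ j * (cr q ((k + δ) ^ 2) / (k + δ))) := by
    field_simp
    rw [hs]; ring
  rw [discr hq, e, a3, c3]
  linear_combination (-s₁ * δ) * b3

/-- amplitude of the `j`-th Dirichlet datum -/
noncomputable def om (q : ℝ → ℝ) (mu : ℕ → ℝ) (j : ℕ) : ℝ :=
  j * |Nr q (mu j)| + |cr q (mu j)|

theorem IsGap.ge_one {mu al be : ℕ → ℝ} (g : IsGap q mu al be) {j : ℕ} (hj : 1 ≤ j) {t : ℝ}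
    (ht : t ∈ Icc (al j) (be j)) : 1 ≤ Dr q t ^ 2 := by
  rcases ht.1.eq_or_lt with e | e
  · rw [← e, g.al_sq j hj]
  rcases ht.2.eq_or_lt with e' | e'
  · rw [e', g.be_sq j]
  · exact (g.gap j hj t ⟨e, e'⟩).le

theorem gap_size (hq : Continuous q) {Q : ℝ} (hQ1 : 1 ≤ Q) (hQ : ∀ x, |q x| ≤ Q)
    {mu al be : ℕ → ℝ} (h : IsDir q Q mu) (g : IsGap q mu al be) {j : ℕ} (hj : 200 * Q ≤ j) :
    om q mu j ≤ 4 * (be j - al j) ∧ be j - al j ≤ 120 * om q mu j := by
  obtain ⟨k, hk2, hk3, hk4, hk5, hk6⟩ := h.large_facts hQ1 hj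
  have hj1' : (1 : ℝ) ≤ j := by linarith
  have hj1 : 1 ≤ j := by exact_mod_cast hj1'
  have hk0 : 0 < k := by linarith
  have hb : br q (k ^ 2) = 0 := (h.zero_iff _).2 ⟨j, hj1, hk2⟩
  have LF := fun δ (hδ : |δ| ≤ 1 / 2) => local_form hq hQ1 hQ hk5 hk6 hb hδ
  set N := Nr q (k ^ 2)
  set c := (-1) ^ j * (cr q (k ^ 2) / k)
  have hc : |c| * k = |cr q (mu j)| := by
    simp only [c, abs_mul, abs_pow, abs_neg, abs_one, one_pow, one_mul, abs_div, abs_of_pos hk0, hk2]
    field_simp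
  have hQk : Q / k ≤ 1 / 400 := by rw [div_le_iff₀ hk0]; linarith
  have hN : |N| ≤ 1 / 200 := by
    obtain ⟨a, -, -, d⟩ := est_real hq hQ hk0 (by linarith) (x := 1) (by simp)
    have a' := abs_le.1 a
    have d' := abs_le.1 d
    have e : 2 * Q / k = 2 * (Q / k) := by ring
    rw [abs_le]; simp only [N, Nr, ar, dr]; constructor <;> linarith
  have hc' : |c| ≤ 3 / 400 := by
    obtain ⟨-, a, -, -⟩ := est_real hq hQ hk0 (by linarith) (x := 1) (by simp)
    rw [mul_one] at a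
    have hs : |Real.sin k| ≤ Q / k := by
      have := Real.abs_sin_le_abs (x := k - j * π)
      rw [Real.sin_sub_nat_mul_pi, abs_mul, abs_pow, abs_neg, abs_one, one_pow, one_mul] at this
      exact this.trans hk6
    have h1 := abs_sub (thr' q (k ^ 2) 1 + k * Real.sin k) (k * Real.sin k)
    rw [add_sub_cancel_right, abs_mul, abs_of_pos hk0] at h1
    have h2 : k * |Real.sin k| ≤ Q := by rwa [le_div_iff₀ hk0, mul_comm] at hs
    have h3 : |c| * k ≤ 3 * Q := by rw [hc, ← hk2]; unfold cr; linarith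
    nlinarith only [h3, hk5, hk0]
  have homeq : om q mu j = j * |N| + |c| * k := by rw [om, hc, ← hk2]
  set m := |N| + |c|
  have hm0 : 0 ≤ m := by positivity
  have hal := g.al_le j hj1
  have hbe := g.le_be j
  have hNsq : N ^ 2 = |N| ^ 2 := (sq_abs N).symm
  constructor
  · have hpos : ∀ x, 0 < x → x ≤ m / 4 → ∀ δ, |δ| = x → 0 ≤ δ * c →
        1 < Dr q ((k + δ) ^ 2) ^ 2 := by
      intro x hx1 hx2 δ e hs
      obtain ⟨s₁, s₂, s₃, a1, a2, b1, b2, c1, F⟩ := LF δ (by rw [e]; simp only [m] at hx2; linarith)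
      have e1 : δ * c = x * |c| := by rw [← e, ← abs_mul, abs_of_nonneg hs]
      have e2 : δ ^ 2 = x ^ 2 := by rw [← e, sq_abs]
      have e3 : |N| - x / 10 ≤ |N + s₃ * δ| := by
        have := abs_sub (N + s₃ * δ) (s₃ * δ)
        rw [add_sub_cancel_right, abs_mul, e] at this
        nlinarith only [this, c1, hx1]
      have e4 : s₁ * s₂ * δ ^ 2 ≤ 121 / 100 * x ^ 2 := by
        rw [e2]; exact mul_le_mul_of_nonneg_right (by nlinarith only [a1, a2, b1, b2]) (sq_nonneg _)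
      have e5 : 7 / 10 * (x * |c|) ≤ s₁ * δ * c := by
        rw [mul_assoc, e1]; exact mul_le_mul_of_nonneg_right a1 (by positivity)
      rcases le_total |c| |N| with hh | hh
      · have e6 : 19 / 40 * m ≤ |N + s₃ * δ| := by simp only [m] at *; linarith
        have e7 : (19 / 40 * m) ^ 2 ≤ (N + s₃ * δ) ^ 2 := by
          rw [← sq_abs (N + s₃ * δ)]; exact pow_le_pow_left₀ (by positivity) e6 2
        have : 0 ≤ x * |c| := by positivity
        linarith only [F, e4, e5, e7, this, mul_pos hx1 hx1,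
          mul_nonneg hx1.le (sub_nonneg.2 hx2), sq_nonneg (m / 4 - x)]
      · have : x * (m / 2) ≤ x * |c| :=
          mul_le_mul_of_nonneg_left (by simp only [m]; linarith) hx1.le
        linarith only [F, e4, e5, this, sq_nonneg (N + s₃ * δ), mul_pos hx1 hx1,
          mul_nonneg hx1.le (sub_nonneg.2 hx2)]
    have hm1 : m ≤ 1 := by simp only [m]; linarith
    have hom : om q mu j ≤ k * m := by
      rw [homeq]; simp only [m]
      linarith only [mul_le_mul_of_nonneg_right (show (j : ℝ) ≤ k by linarith) (abs_nonneg N)]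
    rcases le_total 0 c with hs | hs
    · have : (k + m / 4) ^ 2 ≤ be j := by
        by_contra hh
        obtain ⟨t, ht1, ht2⟩ := exists_between (lt_min (g.be_lt j) (not_le.1 hh))
        have ht3 : k < √t := Real.lt_sqrt_of_sq_lt (by linarith)
        have ht4 : √t ≤ k + m / 4 :=
          Real.sqrt_le_iff.2 ⟨by linarith, (ht2.trans_le (min_le_right _ _)).le⟩
        have := hpos (√t - k) (by linarith) (by linarith) (√t - k) (abs_of_pos (by linarith))
          (mul_nonneg (by linarith) hs)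
        rw [add_sub_cancel, Real.sq_sqrt (by linarith only [ht1, hbe, hk2, sq_nonneg k])] at this
        linarith [g.band j t ⟨ht1, ht2.trans_le (min_le_left _ _)⟩]
      nlinarith only [this, hom, hal, hk2, hm0, hk0, hm1]
    · have : al j ≤ (k - m / 4) ^ 2 := by
        by_contra hh
        obtain ⟨i, rfl⟩ := Nat.exists_eq_add_of_le' hj1
        obtain ⟨t, ht1, ht2⟩ := exists_between (max_lt (g.be_lt i) (not_le.1 hh))
        have ht0 : 0 ≤ t := (sq_nonneg _).trans ((le_max_right _ _).trans ht1.le)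
        have ht3 : √t < k := (Real.sqrt_lt' hk0).2 (by linarith)
        have ht4 : k - m / 4 ≤ √t := Real.le_sqrt_of_sq_le ((le_max_right _ _).trans ht1.le)
        have := hpos (k - √t) (by linarith) (by linarith) (√t - k)
          (by rw [abs_of_neg (by linarith)]; ring) (mul_nonneg_of_nonpos_of_nonpos (by linarith) hs)
        rw [add_sub_cancel, Real.sq_sqrt ht0] at this
        linarith [g.band i t ⟨(le_max_left _ _).trans_lt ht1, ht2⟩]
      nlinarith only [this, hom, hbe, hk2, hm0, hk0, hm1, hk5, hQ1]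
  · have hneg : ∀ δ, |δ| ≤ 1 / 2 → 1 ≤ Dr q ((k + δ) ^ 2) ^ 2 → |δ| ≤ 5 * m := by
      intro δ hδ hD
      obtain ⟨s₁, s₂, s₃, a1, a2, b1, b2, c1, F⟩ := LF δ hδ
      set x := |δ|
      have hx0 : 0 ≤ x := abs_nonneg _
      have e2 : δ ^ 2 = x ^ 2 := (sq_abs δ).symm
      have e3 : (N + s₃ * δ) ^ 2 ≤ 2 * |N| ^ 2 + 2 / 100 * x ^ 2 := by
        have : s₃ ^ 2 ≤ 1 / 100 := by rw [← sq_abs]; nlinarith only [abs_nonneg s₃, c1]
        have := mul_le_mul_of_nonneg_right this (sq_nonneg x)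
        rw [← hNsq, ← e2] at *
        linarith only [sq_nonneg (N - s₃ * δ), this]
      have e4 : 49 / 100 * x ^ 2 ≤ s₁ * s₂ * δ ^ 2 := by
        rw [e2]; exact mul_le_mul_of_nonneg_right (by nlinarith only [a1, a2, b1, b2]) (sq_nonneg _)
      have e5 : s₁ * δ * c ≤ 11 / 10 * (x * |c|) := by
        have := le_abs_self (δ * c)
        rw [abs_mul] at this
        have h0 : 0 ≤ x * |c| := by positivity
        nlinarith only [this, h0, a1, a2]
      by_contra hh
      have h1 : 5 * |N| ≤ x := by simp only [m] at hh; linarith [abs_nonneg c]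
      have h2 : 5 * |c| ≤ x := by simp only [m] at hh; linarith [abs_nonneg N]
      have h3 : 0 < x := by linarith
      linarith only [F, hD, e3, e4, e5, mul_pos h3 h3, mul_le_mul_of_nonneg_left h2 hx0,
        pow_le_pow_left₀ (by positivity) h1 2]
    have hm1 : 5 * m < 1 / 2 := by simp only [m]; linarith
    have h1 : be j ≤ (k + 5 * m) ^ 2 := by
      by_contra hh
      obtain ⟨y, hy1, hy2⟩ := exists_between (lt_min hm1 (show 5 * m < √(be j) - k by
        have := Real.lt_sqrt_of_sq_lt (not_le.1 hh); linarith))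
      have hy3 := hy2.trans_le (min_le_left _ _)
      have hy4 := hy2.trans_le (min_le_right _ _)
      have hy0 : 0 ≤ y := by linarith
      have := hneg y (by rw [abs_of_nonneg hy0]; exact hy3.le) (g.ge_one hj1 ⟨by nlinarith only [hal, hk2, hy0, hk0],
        (Real.le_sqrt (by linarith) (by linarith only [hbe, hk2, sq_nonneg k])).1 (by linarith)⟩)
      rw [abs_of_nonneg hy0] at this; linarith
    have h2 : (k - 5 * m) ^ 2 ≤ al j := by
      by_contra hh
      obtain ⟨y, hy1, hy2⟩ := exists_between (lt_min hm1 (show 5 * m < k - √(al j) by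
        have := (Real.sqrt_lt' (by linarith)).2 (not_le.1 hh); linarith))
      have hy3 := hy2.trans_le (min_le_left _ _)
      have hy4 := hy2.trans_le (min_le_right _ _)
      have hy0 : 0 ≤ y := by linarith
      have := hneg (-y) (by rw [abs_neg, abs_of_nonneg hy0]; exact hy3.le) (g.ge_one hj1
        ⟨Real.sqrt_le_left (by linarith) |>.1 (by linarith), by nlinarith only [hbe, hk2, hy0, hy3, hk5, hQ1]⟩)
      rw [abs_neg, abs_of_nonneg hy0] at this; linarith
    have hom : k * m ≤ 4 * om q mu j := by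
      rw [homeq]; simp only [m]
      linarith only [mul_le_mul_of_nonneg_right hk4 (abs_nonneg N), mul_nonneg (abs_nonneg c) hk0.le]
    linarith only [h1, h2, hom, mul_nonneg hk0.le hm0]

end Pool.Agent.P.MP_aabf10_an
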