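import Pool.Agent.P.MP_aabf10_an.Defs

/-!
# Second order linear equations: existence, Wronskians, the gauge identity
-/

open scoped ContDiff Topology Real
open Filter Finset Set MeasureTheory

namespace Pool.Agent.P.MP_aabf10_an

section generic
variable {𝕜 : Type*} [RCLike 𝕜]

/-- `y'' = p y` on the whole line, with `y'` the derivative of `y`. -/
structure IsSol (p y y' : ℝ → 𝕜) : Prop where
  d1 : ∀ x, HasDerivAt y (y' x) x
  d2 : ∀ x, HasDerivAt y' (p x * y x) x

theorem IsSol.cont {p y y' : ℝ → 𝕜} (h : IsSol p y y') : Continuous y :=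
  continuous_iff_continuousAt.2 fun x => (h.d1 x).continuousAt

theorem IsSol.cont' {p y y' : ℝ → 𝕜} (h : IsSol p y y') : Continuous y' :=
  continuous_iff_continuousAt.2 fun x => (h.d2 x).continuousAt

theorem IsSol.lin {p y y' z z' : ℝ → 𝕜} (h : IsSol p y y') (g : IsSol p z z') (a b : 𝕜) :
    IsSol p (fun x => a * y x + b * z x) (fun x => a * y' x + b * z' x) :=
  ⟨fun x => ((h.d1 x).const_mul a).fun_add ((g.d1 x).const_mul b), fun x =>
    (((h.d2 x).const_mul a).fun_add ((g.d2 x).const_mul b)).congr_deriv (by ring)⟩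

theorem IsSol.shift {p y y' : ℝ → 𝕜} (h : IsSol p y y') (c : ℝ) :
    IsSol (fun x => p (x + c)) (fun x => y (x + c)) (fun x => y' (x + c)) :=
  ⟨fun x => (h.d1 (x + c)).comp_add_const x c, fun x => (h.d2 (x + c)).comp_add_const x c⟩

theorem IsSol.reflect {p y y' : ℝ → 𝕜} (h : IsSol p y y') (c : ℝ) :
    IsSol (fun x => p (c - x)) (fun x => y (c - x)) (fun x => -y' (c - x)) :=
  ⟨fun x => by
    have := (h.d1 (c - x)).scomp x ((hasDerivAt_id x).const_sub c)
    simpa [Function.comp_def] using this,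
   fun x => by
    have := ((h.d2 (c - x)).scomp x ((hasDerivAt_id x).const_sub c)).fun_neg
    exact this.congr_deriv (by simp)⟩

theorem ftc {f f' : ℝ → 𝕜} (h : ∀ x, HasDerivAt f (f' x) x) (hc : Continuous f') (a b : ℝ) :
    ∫ x in a..b, f' x = f b - f a :=
  intervalIntegral.integral_eq_sub_of_hasDerivAt (fun x _ => h x) (hc.intervalIntegrable a b)

theorem hasDerivAt_prim {f : ℝ → 𝕜} (hc : Continuous f) (a x : ℝ) :
    HasDerivAt (fun u => ∫ s in a..u, f s) (f x) x :=
  intervalIntegral.integral_hasDerivAt_right (hc.intervalIntegrable a x)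
    (hc.stronglyMeasurableAtFilter _ _) hc.continuousAt

theorem const_of_hasDerivAt_zero {f : ℝ → 𝕜} (h : ∀ x, HasDerivAt f 0 x) (x y : ℝ) : f x = f y := by
  have := ftc h continuous_const y x
  simp only [intervalIntegral.integral_zero] at this
  exact (sub_eq_zero.1 this.symm)

theorem wr_hasDerivAt {p r y y' z z' : ℝ → 𝕜} (h : IsSol p y y') (g : IsSol r z z') (x : ℝ) :
    HasDerivAt (fun x => y x * z' x - y' x * z x) ((r x - p x) * (y x * z x)) x :=
  (((h.d1 x).fun_mul (g.d2 x)).fun_sub ((h.d2 x).fun_mul (g.d1 x))).congr_deriv (by ring)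

theorem wr_const {p y y' z z' : ℝ → 𝕜} (h : IsSol p y y') (g : IsSol p z z') (x u : ℝ) :
    y x * z' x - y' x * z x = y u * z' u - y' u * z u :=
  const_of_hasDerivAt_zero (f := fun x => y x * z' x - y' x * z x)
    (fun x => by simpa using wr_hasDerivAt h g x) x u

theorem wr_integral {p r y y' z z' : ℝ → 𝕜} (hp : Continuous p) (hr : Continuous r)
    (h : IsSol p y y') (g : IsSol r z z') (a b : ℝ) :
    ∫ x in a..b, (r x - p x) * (y x * z x) =
      (y b * z' b - y' b * z b) - (y a * z' a - y' a * z a) :=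
  ftc (f := fun x => y x * z' x - y' x * z x) (wr_hasDerivAt h g)
    ((hr.sub hp).mul (h.cont.mul g.cont)) a b

/-- The concomitant appearing in the gauge identity. -/
noncomputable def conc (p w w1 w2 y y' z z' : ℝ → 𝕜) (x : ℝ) : 𝕜 :=
  -(1 / 2) * w2 x * (y x * z x) + 1 / 2 * w1 x * (y' x * z x + y x * z' x)
    + p x * w x * (y x * z x) - w x * (y' x * z' x)

theorem conc_hasDerivAt {p p1 w w1 w2 w3 y y' z z' : ℝ → 𝕜} (hp : ∀ x, HasDerivAt p (p1 x) x)
    (hw : ∀ x, HasDerivAt w (w1 x) x) (hw1 : ∀ x, HasDerivAt w1 (w2 x) x)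
    (hw2 : ∀ x, HasDerivAt w2 (w3 x) x) (h : IsSol p y y') (g : IsSol p z z') (x : ℝ) :
    HasDerivAt (conc p w w1 w2 y y' z z')
      ((-(1 / 2) * w3 x + 2 * p x * w1 x + p1 x * w x) * (y x * z x)) x := by
  have hyz := (h.d1 x).fun_mul (g.d1 x)
  have h1 := (((hw2 x).const_mul (-(1 / 2) : 𝕜)).fun_mul hyz)
  have h2 := (((hw1 x).const_mul (1 / 2 : 𝕜)).fun_mul (((h.d2 x).fun_mul (g.d1 x)).fun_add
    ((h.d1 x).fun_mul (g.d2 x))))
  have h3 := (((hp x).fun_mul (hw x)).fun_mul hyz)
  have h4 := ((hw x).fun_mul ((h.d2 x).fun_mul (g.d2 x)))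
  exact (((h1.fun_add h2).fun_add h3).fun_sub h4).congr_deriv (by ring)

theorem gauge {p p1 w w1 w2 w3 y y' z z' : ℝ → 𝕜} (hp : ∀ x, HasDerivAt p (p1 x) x)
    (hp1 : Continuous p1) (hw : ∀ x, HasDerivAt w (w1 x) x) (hw1 : ∀ x, HasDerivAt w1 (w2 x) x)
    (hw2 : ∀ x, HasDerivAt w2 (w3 x) x) (hw3 : Continuous w3) (h : IsSol p y y')
    (g : IsSol p z z') (a b : ℝ) :
    ∫ x in a..b, (-(1 / 2) * w3 x + 2 * p x * w1 x + p1 x * w x) * (y x * z x) =
      conc p w w1 w2 y y' z z' b - conc p w w1 w2 y y' z z' a := by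
  have c0 : Continuous p := continuous_iff_continuousAt.2 fun x => (hp x).continuousAt
  have c1 : Continuous w := continuous_iff_continuousAt.2 fun x => (hw x).continuousAt
  have c2 : Continuous w1 := continuous_iff_continuousAt.2 fun x => (hw1 x).continuousAt
  have c3 := h.cont
  have c4 := g.cont
  exact ftc (conc_hasDerivAt hp hw hw1 hw2 h g) (by fun_prop) a b

end generic

/-- Picard iterates. -/
noncomputable def picard (p : ℝ → ℂ) (v : ℂ × ℂ) : ℕ → ℝ → ℂ × ℂ
  | 0 => fun _ => v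
  | j + 1 => fun x => ∫ s in (0 : ℝ)..x, ((picard p v j s).2, p s * (picard p v j s).1)

theorem picard_cont {p : ℝ → ℂ} (hp : Continuous p) (v : ℂ × ℂ) (j : ℕ) :
    Continuous (picard p v j) := by
  induction j with
  | zero => exact continuous_const
  | succ j ih =>
    have hc : Continuous fun s => ((picard p v j s).2, p s * (picard p v j s).1) := by fun_prop
    exact continuous_iff_continuousAt.2 fun x =>
      (intervalIntegral.integral_hasDerivAt_right (hc.intervalIntegrable 0 x)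
        (hc.stronglyMeasurableAtFilter _ _) hc.continuousAt).continuousAt

theorem picard_hasDerivAt {p : ℝ → ℂ} (hp : Continuous p) (v : ℂ × ℂ) (j : ℕ) (x : ℝ) :
    HasDerivAt (picard p v (j + 1)) ((picard p v j x).2, p x * (picard p v j x).1) x := by
  have ih := picard_cont hp v j
  have hc : Continuous fun s => ((picard p v j s).2, p s * (picard p v j s).1) := by fun_prop
  exact intervalIntegral.integral_hasDerivAt_right (hc.intervalIntegrable 0 x)
    (hc.stronglyMeasurableAtFilter _ _) hc.continuousAt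

theorem norm_step {p : ℂ} {u : ℂ × ℂ} {L : ℝ} (h1 : 1 ≤ L) (hp : ‖p‖ ≤ L) :
    ‖(u.2, p * u.1)‖ ≤ L * ‖u‖ := by
  rw [Prod.norm_def]
  refine max_le ?_ ?_
  · calc ‖u.2‖ ≤ ‖u‖ := norm_snd_le u
      _ ≤ L * ‖u‖ := le_mul_of_one_le_left (norm_nonneg _) h1
  · simp only [norm_mul]
    exact mul_le_mul hp (norm_fst_le u) (norm_nonneg _) (by linarith)

theorem picard_bound {p : ℝ → ℂ} (hp : Continuous p) (v : ℂ × ℂ) {L R : ℝ} (h1 : 1 ≤ L)
    (hL : ∀ x, |x| ≤ R → ‖p x‖ ≤ L) (j : ℕ) :
    ∀ x, |x| ≤ R → ‖picard p v j x‖ ≤ ‖v‖ * (1 / 2) ^ j * Real.cosh (2 * L * x) := by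
  induction j with
  | zero =>
    intro x _
    simp only [picard, pow_zero, mul_one]
    exact le_mul_of_one_le_right (norm_nonneg _) (Real.one_le_cosh _)
  | succ j ih =>
    intro x hx
    have hL0 : 0 < L := by linarith
    have hb : ‖picard p v (j + 1) x‖ ≤
        |∫ s in (0 : ℝ)..x, L * (‖v‖ * (1 / 2) ^ j * Real.cosh (2 * L * s))| := by
      refine intervalIntegral.norm_integral_le_abs_of_norm_le ?_
        ((by fun_prop : Continuous fun s : ℝ =>
          L * (‖v‖ * (1 / 2) ^ j * Real.cosh (2 * L * s))).intervalIntegrable _ _)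
      refine (ae_restrict_iff' measurableSet_uIoc).2 (Eventually.of_forall fun s hs => ?_)
      have hs' : |s| ≤ R := by
        have := Set.uIoc_subset_uIcc hs
        rw [Set.mem_uIcc] at this
        rw [abs_le] at hx ⊢
        rcases this with h | h <;> constructor <;> linarith [h.1, h.2, hx.1, hx.2]
      exact (norm_step h1 (hL s hs')).trans (mul_le_mul_of_nonneg_left (ih s hs') hL0.le)
    have hI : ∫ s in (0 : ℝ)..x, L * (‖v‖ * (1 / 2) ^ j * Real.cosh (2 * L * s)) =
        ‖v‖ * (1 / 2) ^ (j + 1) * Real.sinh (2 * L * x) := by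
      rw [ftc (f := fun s => ‖v‖ * (1 / 2) ^ (j + 1) * Real.sinh (2 * L * s))]
      · simp
      · intro s
        have := ((Real.hasDerivAt_sinh (2 * L * s)).comp s
          ((hasDerivAt_id s).const_mul (2 * L))).const_mul (‖v‖ * (1 / 2) ^ (j + 1))
        exact this.congr_deriv (by ring)
      · fun_prop
    rw [hI, abs_mul, abs_of_nonneg (by positivity)] at hb
    refine hb.trans (mul_le_mul_of_nonneg_left ?_ (by positivity))
    rw [abs_le]
    constructor
    · have := Real.sinh_lt_cosh (-(2 * L * x))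
      rw [Real.sinh_neg, Real.cosh_neg] at this
      linarith
    · exact (Real.sinh_lt_cosh _).le

theorem exists_bound_abs {f : ℝ → ℂ} (hf : Continuous f) (R : ℝ) :
    ∃ L, 1 ≤ L ∧ ∀ x, |x| ≤ R → ‖f x‖ ≤ L := by
  obtain ⟨L, hL⟩ := (isCompact_Icc (a := -R) (b := R)).exists_bound_of_continuousOn hf.continuousOn
  exact ⟨max 1 L, le_max_left _ _, fun x hx => (hL x (abs_le.1 hx)).trans (le_max_right _ _)⟩

theorem exists_sol {p : ℝ → ℂ} (hp : Continuous p) (a b : ℂ) :
    ∃ y y' : ℝ → ℂ, IsSol p y y' ∧ y 0 = a ∧ y' 0 = b := by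
  set v : ℂ × ℂ := (a, b)
  let Y : ℝ → ℂ × ℂ := fun x => v + ∑' j, picard p v (j + 1) x
  have key : ∀ x, HasDerivAt Y ((Y x).2, p x * (Y x).1) x := by
    intro x
    obtain ⟨L, h1, hL⟩ := exists_bound_abs hp (|x| + 1)
    set R := |x| + 1
    have hb := picard_bound hp v h1 hL
    have hcosh : ∀ y, |y| ≤ R → Real.cosh (2 * L * y) ≤ Real.cosh (2 * L * R) := by
      intro y hy
      rw [Real.cosh_le_cosh, abs_mul, abs_mul (2 * L)]
      refine mul_le_mul_of_nonneg_left (hy.trans (le_abs_self _)) (abs_nonneg _)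
    have hb' : ∀ j y, |y| ≤ R → ‖picard p v j y‖ ≤ ‖v‖ * Real.cosh (2 * L * R) * (1 / 2) ^ j := by
      intro j y hy
      refine (hb j y hy).trans ?_
      have := hcosh y hy
      have h0 : 0 ≤ ‖v‖ * (1 / 2 : ℝ) ^ j := by positivity
      nlinarith
    have hs : Summable fun j : ℕ => ‖v‖ * Real.cosh (2 * L * R) * (1 / 2 : ℝ) ^ j :=
      summable_geometric_two.mul_left _
    have hxR : |x| ≤ R := by simp [R]
    have hd := hasDerivAt_tsum_of_isPreconnected (g := fun j => picard p v (j + 1))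
      (g' := fun j y => ((picard p v j y).2, p y * (picard p v j y).1))
      (t := Ioo (-R) R) (y₀ := 0) (y := x) (hs.mul_left L) isOpen_Ioo isPreconnected_Ioo
      (fun j y _ => picard_hasDerivAt hp v j y)
      (fun j y hy => by
        have hy' : |y| ≤ R := abs_le.2 ⟨hy.1.le, hy.2.le⟩
        exact (norm_step h1 (hL y hy')).trans
          (mul_le_mul_of_nonneg_left (hb' j y hy') (by linarith)))
      (by constructor <;> simp only [R] <;> linarith [abs_nonneg x])
      (by simp [picard, summable_zero])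
      (by constructor <;> simp only [R] <;> linarith [le_abs_self x, neg_abs_le x])
    have hsum : Summable fun j => picard p v j x :=
      Summable.of_norm_bounded hs fun j => hb' j x hxR
    have hY : Y x = ∑' j, picard p v j x := by
      rw [hsum.tsum_eq_zero_add]; rfl
    have h2 : HasSum (fun j => ((picard p v j x).2, p x * (picard p v j x).1))
        ((Y x).2, p x * (Y x).1) := by
      rw [hY]
      exact (hsum.hasSum.map (AddMonoidHom.snd ℂ ℂ) continuous_snd).prodMk
        ((hsum.hasSum.map (AddMonoidHom.fst ℂ ℂ) continuous_fst).mul_left (p x))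
    rw [h2.tsum_eq] at hd
    exact hd.const_add v
  refine ⟨fun x => (Y x).1, fun x => (Y x).2, ⟨fun x => ?_, fun x => ?_⟩, ?_, ?_⟩
  · exact ((ContinuousLinearMap.fst ℝ ℂ ℂ).hasFDerivAt.comp_hasDerivAt x (key x))
  · exact ((ContinuousLinearMap.snd ℝ ℂ ℂ).hasFDerivAt.comp_hasDerivAt x (key x))
  · simp [Y, picard, v]
  · simp [Y, picard, v]

end Pool.Agent.P.MP_aabf10_an
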