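import Pool.Agent.P.MP_aabf10_an.Tang

/-!
# Bessel type inequalities for almost trigonometric families
-/

open scoped ContDiff Topology Real
open Filter Finset Set MeasureTheory

namespace Pool.Agent.P.MP_aabf10_an

variable {q : ℝ → ℝ}

theorem int_exp_orth (m n : ℕ) : ∫ x in (0 : ℝ)..1,
    Complex.exp (2 * π * m * x * Complex.I) * (starRingEnd ℂ) (Complex.exp (2 * π * n * x * Complex.I))
      = if m = n then 1 else 0 := by
  have e : ∀ x : ℝ, Complex.exp (2 * π * m * x * Complex.I) *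
      (starRingEnd ℂ) (Complex.exp (2 * π * n * x * Complex.I)) =
      Complex.exp ((2 * π * ((m : ℂ) - n) * Complex.I) * x) := by
    intro x
    rw [← Complex.exp_conj, ← Complex.exp_add]
    congr 1
    simp only [map_mul, Complex.conj_ofReal, Complex.conj_I, Complex.conj_natCast, map_ofNat]
    ring
  simp only [e]
  split_ifs with h
  · simp [h]
  · have h1 : (2 * π * ((m : ℂ) - n) * Complex.I) ≠ 0 := by
      have : (m : ℂ) - n ≠ 0 := sub_ne_zero.2 (by exact_mod_cast h)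
      simp [this, Real.pi_ne_zero]
    rw [integral_exp_mul_complex h1]
    have : Complex.exp (2 * π * ((m : ℂ) - n) * Complex.I) = 1 := by
      have := Complex.exp_int_mul_two_pi_mul_I ((m : ℤ) - n)
      push_cast at this
      rw [← this]; congr 1; ring
    simp [this]

theorem trig_bessel (T : Finset ℕ) (A B : ℕ → ℝ) :
    ∫ x in (0 : ℝ)..1, (∑ j ∈ T, (A j * Real.cos (2 * π * (j + 1 : ℕ) * x)
      + B j * Real.sin (2 * π * (j + 1 : ℕ) * x))) ^ 2 ≤ ∑ j ∈ T, (A j ^ 2 + B j ^ 2) := by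
  set γ := fun j => (A j : ℂ) + (-B j : ℝ) * Complex.I
  set e := fun (j : ℕ) (x : ℝ) => Complex.exp (2 * π * (j + 1 : ℕ) * x * Complex.I)
  set Z := fun x => ∑ j ∈ T, γ j * e j x
  have ce : ∀ j, Continuous (e j) := fun j => by simp only [e]; fun_prop
  have cZ : Continuous Z := continuous_finsetSum _ fun j _ => continuous_const.mul (ce j)
  have h1 : ∀ x, ∑ j ∈ T, (A j * Real.cos (2 * π * (j + 1 : ℕ) * x)
      + B j * Real.sin (2 * π * (j + 1 : ℕ) * x)) = (Z x).re := by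
    intro x
    simp only [Z, Complex.re_sum]
    refine sum_congr rfl fun j _ => ?_
    have : e j x = Real.cos (2 * π * (j + 1 : ℕ) * x) + Real.sin (2 * π * (j + 1 : ℕ) * x)
        * Complex.I := by
      simp only [e]
      rw [Complex.ofReal_cos, Complex.ofReal_sin, ← Complex.exp_mul_I]; push_cast; ring_nf
    rw [this]
    simp only [γ, Complex.mul_re, Complex.add_re, Complex.add_im, Complex.ofReal_re,
      Complex.ofReal_im, Complex.mul_im, Complex.I_re, Complex.I_im]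
    ring
  have h2 : ((∫ x in (0 : ℝ)..1, Complex.normSq (Z x) : ℝ) : ℂ) =
      ((∑ j ∈ T, (A j ^ 2 + B j ^ 2) : ℝ) : ℂ) := by
    rw [← intervalIntegral.integral_ofReal]
    have : ∀ x, ((Complex.normSq (Z x) : ℝ) : ℂ) = ∑ j ∈ T, ∑ m ∈ T,
        γ j * (starRingEnd ℂ) (γ m) * (e j x * (starRingEnd ℂ) (e m x)) := by
      intro x
      rw [← Complex.mul_conj]
      simp only [Z, map_sum, map_mul, sum_mul_sum]
      exact sum_congr rfl fun j _ => sum_congr rfl fun m _ => by ring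
    simp only [this]
    have ci : ∀ j m, Continuous fun x =>
        γ j * (starRingEnd ℂ) (γ m) * (e j x * (starRingEnd ℂ) (e m x)) :=
      fun j m => continuous_const.mul ((ce j).mul (Complex.continuous_conj.comp (ce m)))
    rw [intervalIntegral.integral_finsetSum fun j _ =>
      (continuous_finsetSum _ fun m _ => ci j m).intervalIntegrable _ _]
    push_cast
    refine sum_congr rfl fun j hj => ?_
    rw [intervalIntegral.integral_finsetSum fun m _ => (ci j m).intervalIntegrable _ _]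
    simp only [intervalIntegral.integral_const_mul, e, int_exp_orth, Nat.add_right_cancel_iff,
      mul_ite, mul_one, mul_zero, sum_ite_eq, hj, if_true, Complex.mul_conj]
    simp only [γ, Complex.normSq_add_mul_I]
    push_cast; ring
  rw [← Complex.ofReal_inj.1 h2]
  simp only [h1]
  refine intervalIntegral.integral_mono_on zero_le_one
    (((Complex.continuous_re.comp cZ).pow 2).intervalIntegrable _ _)
    ((Complex.continuous_normSq.comp cZ).intervalIntegrable _ _) fun x _ => ?_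
  rw [Complex.normSq_apply]
  nlinarith [mul_self_nonneg (Z x).im]

/-- `f` is within `C a / (j + 1)` of a trigonometric monomial of frequency `j + 1` and amplitude at
most `C a`. -/
def Near (C a : ℝ) (j : ℕ) (f : ℝ → ℝ) : Prop :=
  ∃ A B : ℝ, |A| ≤ C * a ∧ |B| ≤ C * a ∧ ∀ x ∈ Icc (0 : ℝ) 1,
    |f x - (A * Real.cos (2 * π * (j + 1 : ℕ) * x) + B * Real.sin (2 * π * (j + 1 : ℕ) * x))| ≤
      C * a / (j + 1)

theorem Near.mono {C C' a : ℝ} {j : ℕ} {f : ℝ → ℝ} (h : Near C a j f) (ha : 0 ≤ a) (hC : C ≤ C') :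
    Near C' a j f := by
  obtain ⟨A, B, h1, h2, h3⟩ := h
  have := mul_le_mul_of_nonneg_right hC ha
  exact ⟨A, B, h1.trans this, h2.trans this, fun x hx =>
    (h3 x hx).trans (div_le_div_of_nonneg_right this (by positivity))⟩

theorem near_all {g : ℕ → ℝ → ℝ} {a : ℕ → ℝ} (hg : ∀ j, Continuous (g j)) (ha : ∀ j, 0 ≤ a j)
    (h0 : ∀ j, a j = 0 → ∀ x, g j x = 0) {C : ℝ} (h : ∀ᶠ j in atTop, Near C (a j) j (g j)) :
    ∃ C', 0 < C' ∧ ∀ j, Near C' (a j) j (g j) := by
  obtain ⟨N, hN⟩ := eventually_atTop.1 h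
  have hb : ∀ j, ∃ M, (a j = 0 → M ≤ 0) ∧ ∀ x ∈ Icc (0 : ℝ) 1, |g j x| ≤ M := fun j => by
    by_cases e : a j = 0
    · exact ⟨0, fun _ => le_rfl, fun x _ => by simp [h0 j e x]⟩
    · obtain ⟨M, hM⟩ := isCompact_Icc.exists_bound_of_continuousOn (hg j).continuousOn
      exact ⟨M, fun e' => absurd e' e, hM⟩
  choose M h1 h2 using hb
  obtain ⟨D, hD, H⟩ := exists_const (f := fun j => if j < N then (j + 1) * M j else 0) ha
    (fun j e => by
      split_ifs
      · exact mul_nonpos_of_nonneg_of_nonpos (by positivity) (h1 j e)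
      · exact le_rfl) (C := 0)
    (eventually_atTop.2 ⟨N, fun j hj => by simp [not_lt.2 hj]⟩)
  refine ⟨max C D, lt_max_of_lt_right hD, fun j => ?_⟩
  rcases lt_or_ge j N with hj | hj
  · refine Near.mono ⟨0, 0, by simpa using mul_nonneg hD.le (ha j),
      by simpa using mul_nonneg hD.le (ha j), fun x hx => ?_⟩ (ha j) (le_max_right _ _)
    have := H j
    simp only [hj, if_true] at this
    simp only [zero_mul, add_zero, sub_zero]
    rw [le_div_iff₀ (by positivity)]
    nlinarith [h2 j x hx, mul_le_mul_of_nonneg_right (h2 j x hx) (by positivity : (0 : ℝ) ≤ j + 1)]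
  · exact (hN j hj).mono (ha j) (le_max_left _ _)

theorem sum_inv_sq_le (T : Finset ℕ) : ∑ j ∈ T, (1 / ((j : ℝ) + 1)) ^ 2 ≤ 2 := by
  have h := (hasSum_nat_add_iff' 1).2 hasSum_zeta_two
  have h2 := sum_le_hasSum T (fun j _ => by positivity) h
  have h3 := Real.pi_lt_d2
  have h4 := Real.pi_pos
  simp only [range_one, sum_singleton, Nat.cast_zero] at h2
  push_cast at h2
  simp only [div_pow, one_pow]
  norm_num at h2 ⊢
  nlinarith

theorem synth {g : ℕ → ℝ → ℝ} {a : ℕ → ℝ} (hg : ∀ j, Continuous (g j)) {C : ℝ}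
    (h : ∀ j, Near C (a j) j (g j)) (T : Finset ℕ) (y : ℕ → ℝ) :
    ∫ x in (0 : ℝ)..1, (∑ j ∈ T, y j * g j x) ^ 2 ≤ 8 * C ^ 2 * ∑ j ∈ T, (y j * a j) ^ 2 := by
  choose A B h1 h2 h3 using h
  set S := ∑ j ∈ T, (y j * a j) ^ 2
  set P := fun x => ∑ j ∈ T, (y j * A j * Real.cos (2 * π * (j + 1 : ℕ) * x)
      + y j * B j * Real.sin (2 * π * (j + 1 : ℕ) * x))
  have cP : Continuous P := by simp only [P]; fun_prop
  have b1 : ∫ x in (0 : ℝ)..1, P x ^ 2 ≤ 2 * C ^ 2 * S := by
    refine (trig_bessel T (fun j => y j * A j) (fun j => y j * B j)).trans ?_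
    simp only [S, mul_sum]
    refine sum_le_sum fun j _ => ?_
    have a1 := sq_le_sq' (abs_le.1 (h1 j)).1 (abs_le.1 (h1 j)).2
    have a2 := sq_le_sq' (abs_le.1 (h2 j)).1 (abs_le.1 (h2 j)).2
    nlinarith [mul_le_mul_of_nonneg_left a1 (sq_nonneg (y j)),
      mul_le_mul_of_nonneg_left a2 (sq_nonneg (y j))]
  have b2 : ∀ x ∈ Icc (0 : ℝ) 1, (∑ j ∈ T, y j * g j x) ^ 2 ≤ 2 * P x ^ 2 + 4 * C ^ 2 * S := by
    intro x hx
    have e1 : |∑ j ∈ T, y j * g j x - P x| ≤ ∑ j ∈ T, (|y j| * (C * a j)) * (1 / (j + 1)) := by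
      simp only [P]
      rw [← sum_sub_distrib]
      refine (abs_sum_le_sum_abs _ _).trans (sum_le_sum fun j _ => ?_)
      have := mul_le_mul_of_nonneg_left (h3 j x hx) (abs_nonneg (y j))
      rw [← abs_mul] at this
      convert this using 1
      · congr 1; ring
      · ring
    have e2 := sum_mul_sq_le_sq_mul_sq T (fun j => |y j| * (C * a j)) (fun j => 1 / ((j : ℝ) + 1))
    have e3 : ∑ j ∈ T, (|y j| * (C * a j)) ^ 2 = C ^ 2 * S := by
      simp only [S, mul_sum, mul_pow, sq_abs]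
      exact sum_congr rfl fun j _ => by ring
    have e4 : (∑ j ∈ T, y j * g j x - P x) ^ 2 ≤ 2 * C ^ 2 * S := by
      rw [← sq_abs]
      refine (pow_le_pow_left₀ (abs_nonneg _) e1 2).trans (e2.trans ?_)
      rw [e3]
      have : 0 ≤ C ^ 2 * S := by positivity
      nlinarith [sum_inv_sq_le T]
    nlinarith [sq_nonneg (∑ j ∈ T, y j * g j x - 2 * P x)]
  have b3 := intervalIntegral.integral_mono_on (μ := volume) zero_le_one
    (Continuous.intervalIntegrable (by fun_prop) _ _)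
    (Continuous.intervalIntegrable (by fun_prop) _ _) b2
  rw [intervalIntegral.integral_add (Continuous.intervalIntegrable (by fun_prop) _ _)
    (Continuous.intervalIntegrable (by fun_prop) _ _), intervalIntegral.integral_const_mul] at b3
  simp only [intervalIntegral.integral_const, sub_zero, smul_eq_mul, one_mul] at b3
  linarith

theorem analysis {g : ℕ → ℝ → ℝ} (hg : ∀ j, Continuous (g j)) {C : ℝ} (hC : 0 < C)
    (h : ∀ j, Near C 1 j (g j)) (T : Finset ℕ) {V : ℝ → ℝ} (hV : Continuous V) :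
    ∑ j ∈ T, (∫ x in (0 : ℝ)..1, V x * g j x) ^ 2 ≤ 8 * C ^ 2 * ∫ x in (0 : ℝ)..1, V x ^ 2 := by
  set y := fun j => ∫ x in (0 : ℝ)..1, V x * g j x
  have s := synth (a := fun _ => 1) hg h T y
  simp only [mul_one] at s
  set K := 8 * C ^ 2
  have K0 : 0 < K := by positivity
  have e : ∑ j ∈ T, y j ^ 2 = ∫ x in (0 : ℝ)..1, V x * ∑ j ∈ T, y j * g j x := by
    simp only [mul_sum]
    rw [intervalIntegral.integral_finsetSum fun j _ =>
      Continuous.intervalIntegrable (by have := hg j; fun_prop) _ _]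
    refine sum_congr rfl fun j _ => ?_
    rw [sq]
    nth_rewrite 2 [show y j = ∫ x in (0 : ℝ)..1, V x * g j x from rfl]
    rw [← intervalIntegral.integral_const_mul]
    congr 1; funext x; ring
  have b := intervalIntegral.integral_mono_on (μ := volume) (a := 0) (b := 1)
    (f := fun x => (2 * K) * (V x * ∑ j ∈ T, y j * g j x))
    (g := fun x => (∑ j ∈ T, y j * g j x) ^ 2 + K ^ 2 * V x ^ 2) zero_le_one
    (Continuous.intervalIntegrable (by fun_prop) _ _)
    (Continuous.intervalIntegrable (by fun_prop) _ _)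
    (fun x _ => by nlinarith [sq_nonneg (∑ j ∈ T, y j * g j x - K * V x)])
  rw [intervalIntegral.integral_add (Continuous.intervalIntegrable (by fun_prop) _ _)
    (Continuous.intervalIntegrable (by fun_prop) _ _), intervalIntegral.integral_const_mul,
    intervalIntegral.integral_const_mul, ← e] at b
  refine le_of_mul_le_mul_left ?_ K0
  nlinarith

theorem mul_approx {a b a₀ b₀ e : ℝ} (h1 : |a - a₀| ≤ e) (h2 : |b - b₀| ≤ e) (h3 : |a₀| ≤ 1)
    (h4 : |b₀| ≤ 1) (he : e ≤ 1) : |a * b - a₀ * b₀| ≤ 3 * e := by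
  have e0 : 0 ≤ e := (abs_nonneg _).trans h1
  rw [show a * b - a₀ * b₀ = (a - a₀) * (b - b₀) + (a - a₀) * b₀ + a₀ * (b - b₀) by ring]
  refine (abs_add_three _ _ _).trans ?_
  rw [abs_mul, abs_mul, abs_mul]
  have := mul_le_mul h1 (h2.trans he) (abs_nonneg _) e0
  have := mul_le_mul h1 h4 (abs_nonneg _) e0
  have := mul_le_mul h3 h2 (abs_nonneg _) zero_le_one
  linarith

theorem trig_est (hq : Continuous q) {Q : ℝ} (hQ1 : 1 ≤ Q) (hQ : ∀ x, |q x| ≤ Q) {n : ℕ} {k : ℝ}
    (hk : 400 * Q ≤ k) (hkn : |k - n * π| ≤ Q / k) {x : ℝ} (hx : x ∈ Icc (0 : ℝ) 1) :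
    |thr' q (k ^ 2) x * phr q (k ^ 2) x + thr q (k ^ 2) x * phr' q (k ^ 2) x
      - Real.cos (2 * π * n * x)| ≤ 14 * Q / k ∧
    |k * (2 * (phr q (k ^ 2) x * phr' q (k ^ 2) x)) - Real.sin (2 * π * n * x)| ≤ 14 * Q / k ∧
    |(k * phr q (k ^ 2) x) ^ 2 - 1 / 2 + 1 / 2 * Real.cos (2 * π * n * x)| ≤ 14 * Q / k ∧
    |thr q (k ^ 2) x * (k * phr q (k ^ 2) x) - 1 / 2 * Real.sin (2 * π * n * x)| ≤ 14 * Q / k := by
  have hk0 : 0 < k := by linarith
  obtain ⟨a, b, c, d⟩ := est_real hq hQ hk0 (by linarith) hx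
  have b' : |thr' q (k ^ 2) x / k - -Real.sin (k * x)| ≤ 2 * Q / k := by
    rw [show thr' q (k ^ 2) x / k - -Real.sin (k * x) =
      (thr' q (k ^ 2) x + k * Real.sin (k * x)) / k by field_simp; ring, abs_div, abs_of_pos hk0]
    exact div_le_div_of_nonneg_right b hk0.le
  have he : 2 * Q / k ≤ 1 := by rw [div_le_one hk0]; linarith
  have hc := Real.abs_cos_le_one (k * x)
  have hs := Real.abs_sin_le_one (k * x)
  have hx' : |2 * (k * x) - 2 * π * n * x| ≤ 2 * Q / k := by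
    rw [show 2 * (k * x) - 2 * π * n * x = 2 * x * (k - n * π) by ring, abs_mul,
      abs_of_nonneg (by linarith [hx.1]), mul_div_assoc]
    exact mul_le_mul (by linarith [hx.2]) hkn (abs_nonneg _) zero_le_two
  have c2 := abs_le.1 ((Real.abs_cos_sub_cos_le _ _).trans hx')
  have s2 := abs_le.1 ((Real.abs_sin_sub_sin_le _ _).trans hx')
  rw [Real.cos_two_mul] at c2
  rw [Real.sin_two_mul] at s2
  have p1 := abs_le.1 (mul_approx b' c (by rwa [abs_neg]) hs he)
  have p2 := abs_le.1 (mul_approx a d hc hc he)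
  have p3 := abs_le.1 (mul_approx c d hs hc he)
  have p4 := abs_le.1 (mul_approx c c hs hs he)
  have p5 := abs_le.1 (mul_approx a c hc hs he)
  rw [show thr' q (k ^ 2) x / k * (k * phr q (k ^ 2) x) = thr' q (k ^ 2) x * phr q (k ^ 2) x by
    field_simp] at p1
  have sc := Real.sin_sq_add_cos_sq (k * x)
  have e14 : 14 * Q / k = 7 * (2 * Q / k) := by ring
  have e0 : 0 ≤ 2 * Q / k := by positivity
  rw [e14]
  refine ⟨abs_le.2 ⟨?_, ?_⟩, abs_le.2 ⟨?_, ?_⟩, abs_le.2 ⟨?_, ?_⟩, abs_le.2 ⟨?_, ?_⟩⟩ <;>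
    linarith only [c2.1, c2.2, s2.1, s2.2, p1.1, p1.2, p2.1, p2.2, p3.1, p3.2, p4.1, p4.2, p5.1,
      p5.2, sc, e0]

theorem tv_cont (hq : Continuous q) (t : ℝ) : Continuous (tv q t) :=
  continuous_const.mul ((bx1r_cont hq).comp (f := fun x : ℝ => (t, x)) (by fun_prop))

theorem tv_near (hq : Continuous q) {Q : ℝ} (hQ1 : 1 ≤ Q) (hQ : ∀ x, |q x| ≤ Q) {mu : ℕ → ℝ}
    (h : IsDir q Q mu) : ∃ C, 0 < C ∧
      ∀ j, Near C (((j + 1 : ℕ) : ℝ) * om q mu (j + 1)) j (tv q (mu (j + 1))) := by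
  refine near_all (fun j => tv_cont hq _) (fun j => mul_nonneg (by positivity) (om_nonneg _ _ _))
    (fun j e x => ?_) (C := 6048 * Q) ?_
  · obtain ⟨h1, h2, h3⟩ := (om_eq_zero h (by omega)).1
      ((mul_eq_zero.1 e).resolve_left (by positivity))
    simp [tv, bx1r, h1, h2, h3]
  filter_upwards [ev_large (200 * Q)] with j hj
  obtain ⟨k, hk2, hk3, hk4, hk5, hk6, -, d2, hJ⟩ := h.large_facts' hq hQ1 hQ (j := j + 1)
    (by push_cast; linarith)
  have hb : br q (mu (j + 1)) = 0 := (h.zero_iff _).2 ⟨j + 1, by omega, rfl⟩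
  have hk0 : 0 < k := by linarith
  set n : ℝ := ((j + 1 : ℕ) : ℝ)
  have hn : n = j + 1 := by simp [n]
  have n1 : 1 ≤ n := by rw [hn]; linarith
  have hJ0 := J2_pos hq (mu (j + 1))
  set r := dr q (mu (j + 1)) / J2 q (mu (j + 1)) 1
  have hr : |r| ≤ 12 * k ^ 2 := by
    simp only [r]
    rw [abs_div, abs_of_pos hJ0, div_le_iff₀ hJ0]
    rw [div_le_iff₀ (by positivity)] at hJ
    linarith
  set N := Nr q (mu (j + 1))
  set c := cr q (mu (j + 1))
  have hom : om q mu (j + 1) = n * |N| + |c| := rfl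
  have hA : |r * (2 * N)| ≤ 384 * (n * om q mu (j + 1)) := by
    rw [abs_mul, abs_mul, abs_two, hom]
    have h1 : k ^ 2 ≤ (4 * n) ^ 2 := pow_le_pow_left₀ hk0.le hk4 2
    have := mul_le_mul_of_nonneg_right (hr.trans (by linarith : 12 * k ^ 2 ≤ 192 * n ^ 2))
      (abs_nonneg N)
    linarith only [this, mul_nonneg (by linarith : 0 ≤ n) (abs_nonneg c)]
  have hB : |-(r * c / k)| ≤ 48 * (n * om q mu (j + 1)) := by
    rw [abs_neg, abs_div, abs_mul, abs_of_pos hk0, div_le_iff₀ hk0, hom]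
    have := mul_le_mul_of_nonneg_right hr (abs_nonneg c)
    have h2 := mul_le_mul_of_nonneg_right hk4 (mul_nonneg hk0.le (abs_nonneg c))
    linarith only [this, h2, mul_nonneg (mul_nonneg (by positivity : 0 ≤ n * n) (abs_nonneg N)) hk0.le]
  have a0 : 0 ≤ n * om q mu (j + 1) := mul_nonneg (by linarith) (om_nonneg _ _ _)
  refine ⟨r * (2 * N), -(r * c / k), by nlinarith only [hA, a0, hQ1],
    by nlinarith only [hB, a0, hQ1], fun x hx => ?_⟩
  obtain ⟨t1, t2, -, -⟩ := trig_est hq hQ1 hQ hk5 hk6 hx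
  rw [hk2] at t1 t2
  have e : tv q (mu (j + 1)) x - (r * (2 * N) * Real.cos (2 * π * n * x)
      + -(r * c / k) * Real.sin (2 * π * n * x)) =
      r * (2 * N) * (thr' q (mu (j + 1)) x * phr q (mu (j + 1)) x
        + thr q (mu (j + 1)) x * phr' q (mu (j + 1)) x - Real.cos (2 * π * n * x))
      + -(r * c / k) * (k * (2 * (phr q (mu (j + 1)) x * phr' q (mu (j + 1)) x))
        - Real.sin (2 * π * n * x)) := by
    have e0 : tv q (mu (j + 1)) x = r * bx1r q (mu (j + 1)) x := rfl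
    have e1 : bx1r q (mu (j + 1)) x = 2 * N * (thr' q (mu (j + 1)) x * phr q (mu (j + 1)) x
        + thr q (mu (j + 1)) x * phr' q (mu (j + 1)) x)
        - 2 * c * (phr q (mu (j + 1)) x * phr' q (mu (j + 1)) x) := by
      simp only [bx1r, hb, N, c]; ring
    rw [e0, e1]
    field_simp
    ring
  rw [e, ← hn]
  refine (abs_add_le _ _).trans ?_
  rw [abs_mul (r * (2 * N)), abs_mul (-(r * c / k))]
  have hq14 : 14 * Q / k ≤ 14 * Q / n := div_le_div_of_nonneg_left (by linarith) (by linarith)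
    (by linarith)
  have u1 := mul_le_mul hA (t1.trans hq14) (abs_nonneg _) (by positivity)
  have u2 := mul_le_mul hB (t2.trans hq14) (abs_nonneg _) (by positivity)
  refine (add_le_add u1 u2).trans_eq ?_
  ring

theorem dual_bessel (hq : Continuous q) {Q : ℝ} (hQ1 : 1 ≤ Q) (hQ : ∀ x, |q x| ≤ Q) {mu : ℕ → ℝ}
    (h : IsDir q Q mu) : ∃ C, 0 < C ∧ ∀ V : ℝ → ℝ, Continuous V → ∫ x in (0 : ℝ)..1, V x = 0 →
      ∀ T : Finset ℕ, ∑ j ∈ T, ((((j + 1 : ℕ) : ℝ) ^ 2 * J2 q (mu (j + 1)) V) ^ 2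
        + (((j + 1 : ℕ) : ℝ) * J1 q (mu (j + 1)) V) ^ 2) ≤ C * ∫ x in (0 : ℝ)..1, V x ^ 2 := by
  have c1 := fun t => (thr_sol hq t).cont
  have c2 := fun t => (phr_sol hq t).cont
  have key : ∀ᶠ j : ℕ in atTop, Near (14 * Q) 1 j (fun x => ((j + 1 : ℕ) : ℝ) ^ 2 *
        (phr q (mu (j + 1)) x * phr q (mu (j + 1)) x) - ((j + 1 : ℕ) : ℝ) ^ 2 / (2 * mu (j + 1))) ∧
      Near (14 * Q) 1 j fun x => ((j + 1 : ℕ) : ℝ) * (thr q (mu (j + 1)) x * phr q (mu (j + 1)) x) := by
    filter_upwards [ev_large (200 * Q)] with j hj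
    obtain ⟨k, hk2, hk3, hk4, hk5, hk6⟩ := h.large_facts hQ1 (j := j + 1) (by push_cast; linarith)
    have hk0 : 0 < k := by linarith
    set n : ℝ := ((j + 1 : ℕ) : ℝ)
    have hn : n = j + 1 := by simp [n]
    have n1 : 1 ≤ n := by rw [hn]; linarith
    have hρ : n / k ≤ 1 := by rw [div_le_one hk0]; linarith
    have hρ0 : 0 ≤ n / k := by positivity
    have hρ2 : (n / k) ^ 2 ≤ 1 := pow_le_one₀ hρ0 hρ
    have hq14 : 14 * Q / k ≤ 14 * Q * 1 / (j + 1) := by
      rw [mul_one, ← hn]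
      exact div_le_div_of_nonneg_left (by linarith) (by linarith) (by linarith)
    rw [← hk2]
    refine ⟨⟨-((n / k) ^ 2 / 2), 0, ?_, by simp; linarith, fun x hx => ?_⟩,
      ⟨0, n / k / 2, by simp; linarith, ?_, fun x hx => ?_⟩⟩
    · rw [abs_neg, abs_of_nonneg (by positivity)]; linarith
    · obtain ⟨-, -, t, -⟩ := trig_est hq hQ1 hQ hk5 hk6 hx
      have := mul_le_mul hρ2 (t.trans hq14) (abs_nonneg _) zero_le_one
      rw [one_mul, ← abs_of_nonneg (sq_nonneg (n / k)), ← abs_mul] at this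
      refine le_of_eq_of_le (congrArg abs ?_) this
      beta_reduce
      field_simp; ring
    · rw [abs_of_nonneg (by positivity)]; linarith
    · obtain ⟨-, -, -, t⟩ := trig_est hq hQ1 hQ hk5 hk6 hx
      have := mul_le_mul hρ (t.trans hq14) (abs_nonneg _) zero_le_one
      rw [one_mul, ← abs_of_nonneg hρ0, ← abs_mul] at this
      refine le_of_eq_of_le (congrArg abs ?_) this
      beta_reduce
      field_simp; ring
  obtain ⟨C2, p2, n2⟩ := near_all (a := fun _ => 1) (fun j => by have := c2 (mu (j + 1)); fun_prop)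
    (fun _ => zero_le_one) (fun j e => absurd e one_ne_zero) (key.mono fun j hj => hj.1)
  obtain ⟨C1, p1, n1⟩ := near_all (a := fun _ => 1)
    (fun j => by have := c2 (mu (j + 1)); have := c1 (mu (j + 1)); fun_prop)
    (fun _ => zero_le_one) (fun j e => absurd e one_ne_zero) (key.mono fun j hj => hj.2)
  refine ⟨8 * C2 ^ 2 + 8 * C1 ^ 2, by positivity, fun V hV h0 T => ?_⟩
  have a2 := analysis (fun j => by have := c2 (mu (j + 1)); fun_prop) p2 n2 T hV
  have a1 := analysis (fun j => by have := c2 (mu (j + 1)); have := c1 (mu (j + 1)); fun_prop)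
    p1 n1 T hV
  have e2 : ∀ (j : ℕ) (a b : ℝ), ∫ x in (0 : ℝ)..1, V x * (a *
      (phr q (mu (j + 1)) x * phr q (mu (j + 1)) x) - b) = a * J2 q (mu (j + 1)) V := by
    intro j a b
    have := c2 (mu (j + 1))
    have e : ∀ x, V x * (a * (phr q (mu (j + 1)) x * phr q (mu (j + 1)) x) - b) =
        a * (V x * (phr q (mu (j + 1)) x * phr q (mu (j + 1)) x)) - b * V x := fun x => by ring
    simp only [e]
    rw [intervalIntegral.integral_sub (Continuous.intervalIntegrable (by fun_prop) _ _)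
      (Continuous.intervalIntegrable (by fun_prop) _ _), intervalIntegral.integral_const_mul,
      intervalIntegral.integral_const_mul, h0, mul_zero, sub_zero, J2]
  have e1 : ∀ (j : ℕ) (a : ℝ), ∫ x in (0 : ℝ)..1, V x * (a *
      (thr q (mu (j + 1)) x * phr q (mu (j + 1)) x)) = a * J1 q (mu (j + 1)) V := by
    intro j a
    rw [J1, ← intervalIntegral.integral_const_mul]
    congr 1; funext x; ring
  simp only [e2] at a2
  simp only [e1] at a1
  rw [sum_add_distrib]
  linarith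

end Pool.Agent.P.MP_aabf10_an
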