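import Pool.Agent.P.MP_aabf10_an.Expand

/-!
# Borg type uniqueness and decay estimates on the negative axis
-/

open scoped ContDiff Topology Real
open Filter Finset Set MeasureTheory

namespace Pool.Agent.P.MP_aabf10_an

namespace Borg

theorem deriv_zero_on {f f' : ℝ → ℂ} (h : ∀ x, HasDerivAt f (f' x) x)
    (h0 : ∀ x ∈ Ioo (0 : ℝ) 1, f x = 0) : ∀ x ∈ Ioo (0 : ℝ) 1, f' x = 0 := by
  intro x hx
  have h1 : f =ᶠ[𝓝 x] fun _ => 0 :=
    Filter.mem_of_superset (Ioo_mem_nhds hx.1 hx.2) h0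
  exact (h x).unique ((hasDerivAt_const x (0 : ℂ)).congr_of_eventuallyEq h1)

theorem exists_bound_two {p q : ℝ → ℝ} (hp : Cinf p) (hq : Cinf q) :
    ∃ Q, 1 ≤ Q ∧ (∀ x, |p x| ≤ Q) ∧ ∀ x, |q x| ≤ Q := by
  obtain ⟨P, -, hP⟩ := exists_bound_periodic hp.cont hp.2
  obtain ⟨Q, hQ1, hQ⟩ := exists_bound_periodic hq.cont hq.2
  exact ⟨max P Q, le_max_of_le_right hQ1, fun x => le_max_of_le_left (hP x),
    fun x => le_max_of_le_right (hQ x)⟩

theorem chi_sol {q : ℝ → ℝ} (hq : Continuous q) (z : ℂ) : IsSol (pot q z) (chi q z) (chi' q z) :=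
  (th_sol hq z).lin (ph_sol hq z) _ _

theorem det_zero {p q : ℝ → ℝ} (hp : Cinf p) (hq : Cinf q) (ha : ∀ z, ma p z = ma q z)
    (hb : ∀ z, mb p z = mb q z) {x : ℝ} (hx : x ∈ Icc (0 : ℝ) 1) (z : ℂ) :
    th q z x * ph p z x - ph q z x * th p z x = 0 := by
  obtain ⟨Q, hQ1, hP, hQ⟩ := exists_bound_two hp hq
  refine vanish (fun z => th q z x * ph p z x - ph q z x * th p z x) (fun _ => 1)
    (((th_diff hq.cont x).mul (ph_diff hp.cont x)).sub
      ((ph_diff hq.cont x).mul (th_diff hp.cont x))) (differentiable_const _)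
    (fun z h => absurd h one_ne_zero) (fun ε hε => ?_) z
  filter_upwards [eventually_bd_ge (16 * Q + 1), eventually_bd_ge (64 / ε)] with n h1 h2 k hk
  refine ⟨one_ne_zero, ?_⟩
  have k1 := h1 k hk
  have k2 := h2 k hk
  have kpos : 0 < ‖k‖ := by linarith
  have k0 : k ≠ 0 := norm_pos_iff.1 kpos
  have k3 : 2 * Q ≤ ‖k‖ := by linarith
  have e1 := mb_lower hq.cont hQ hk k1
  have e2 := (chi_bd hq.cont hQ k0 k3 hx).1
  have e3 := (chi_bd hp.cont hP k0 k3 hx).1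
  have e4 := (est_bd hq.cont hQ k0 k3 hx).2.2.1
  have e5 := (est_bd hp.cont hP k0 k3 hx).2.2.1
  set U := th q (k ^ 2) x * ph p (k ^ 2) x - ph q (k ^ 2) x * th p (k ^ 2) x with hU
  have e6 : mb q (k ^ 2) * U =
      chi q (k ^ 2) x * ph p (k ^ 2) x - ph q (k ^ 2) x * chi p (k ^ 2) x := by
    simp only [chi, ha, hb, hU]; ring
  have e7 : 2 / ‖k‖ * Real.exp (|k.im| * (1 - x)) * (2 / ‖k‖ * Real.exp (|k.im| * x)) =
      4 / ‖k‖ ^ 2 * Real.exp |k.im| := by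
    rw [show |k.im| = |k.im| * (1 - x) + |k.im| * x by ring, Real.exp_add]
    simp only [show |k.im| * (1 - x) + |k.im| * x = |k.im| by ring]
    field_simp
    ring
  have e8 : ‖mb q (k ^ 2)‖ * ‖U‖ ≤ 8 / ‖k‖ ^ 2 * Real.exp |k.im| := by
    rw [← norm_mul, e6]
    refine (norm_sub_le _ _).trans ?_
    rw [norm_mul, norm_mul]
    have a1 := mul_le_mul e2 e5 (norm_nonneg _) (by positivity)
    have a2 := mul_le_mul e3 e4 (norm_nonneg _) (by positivity)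
    rw [e7] at a1 a2
    have : 8 / ‖k‖ ^ 2 * Real.exp |k.im| =
      4 / ‖k‖ ^ 2 * Real.exp |k.im| + 4 / ‖k‖ ^ 2 * Real.exp |k.im| := by ring
    rw [this, mul_comm ‖ph q (k ^ 2) x‖]
    exact add_le_add a1 a2
  have hE := Real.exp_pos |k.im|
  have e9 : Real.exp |k.im| / 8 * ‖U‖ ≤ 8 / ‖k‖ * Real.exp |k.im| := by
    calc Real.exp |k.im| / 8 * ‖U‖ ≤ ‖k‖ * ‖mb q (k ^ 2)‖ * ‖U‖ :=
          mul_le_mul_of_nonneg_right e1 (norm_nonneg _)
      _ = ‖k‖ * (‖mb q (k ^ 2)‖ * ‖U‖) := by ring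
      _ ≤ ‖k‖ * (8 / ‖k‖ ^ 2 * Real.exp |k.im|) := mul_le_mul_of_nonneg_left e8 kpos.le
      _ = 8 / ‖k‖ * Real.exp |k.im| := by field_simp
  have e10 : ‖U‖ ≤ 64 / ‖k‖ := by
    have : Real.exp |k.im| * ‖U‖ ≤ Real.exp |k.im| * (64 / ‖k‖) := by
      have : Real.exp |k.im| * (64 / ‖k‖) = 8 * (8 / ‖k‖ * Real.exp |k.im|) := by ring
      linarith
    exact le_of_mul_le_mul_left this hE
  rw [norm_one, mul_one]
  refine e10.trans ?_
  rw [div_le_iff₀ kpos]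
  rw [div_le_iff₀ hε] at k2
  linarith

theorem ev_neg (R : ℝ) : ∀ᶠ t : ℝ in atBot, ∃ κ : ℝ, R ≤ κ ∧ t = -κ ^ 2 := by
  filter_upwards [eventually_le_atBot (-R ^ 2)] with t ht
  have h0 : 0 ≤ -t := by nlinarith [sq_nonneg R]
  exact ⟨√(-t), Real.le_sqrt_of_sq_le (by linarith), by rw [Real.sq_sqrt h0]; ring⟩

theorem sq_I (κ : ℝ) : ((κ : ℂ) * Complex.I) ^ 2 = ((-κ ^ 2 : ℝ) : ℂ) := by
  rw [mul_pow, Complex.I_sq]; push_cast; ring

theorem norm_I {κ : ℝ} (h : 0 ≤ κ) : ‖(κ : ℂ) * Complex.I‖ = κ := by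
  simp [abs_of_nonneg h]

theorem im_I {κ : ℝ} (h : 0 ≤ κ) : |((κ : ℂ) * Complex.I).im| = κ := by
  simp [abs_of_nonneg h]

theorem neg_lower {q : ℝ → ℝ} (hq : Continuous q) {Q : ℝ} (hQ1 : 1 ≤ Q) (hQ : ∀ x, |q x| ≤ Q)
    {κ : ℝ} (hκ : 16 * Q ≤ κ) :
    Real.exp κ / 8 ≤ κ * ‖mb q ((-κ ^ 2 : ℝ) : ℂ)‖ ∧ Real.exp κ / 4 ≤ ‖Dl q ((-κ ^ 2 : ℝ) : ℂ)‖ := by
  have kpos : 0 < κ := by linarith
  have n1 := norm_I kpos.le
  have k0 : (κ : ℂ) * Complex.I ≠ 0 := norm_pos_iff.1 (by rw [n1]; exact kpos)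
  have e1 := mb_est hq hQ k0 (by rw [n1]; linarith)
  have e2 := Dl_est hq hQ k0 (by rw [n1]; linarith)
  rw [sq_I, n1, im_I kpos.le] at e1 e2
  have hE := Real.exp_pos κ
  have e3 : 2 * Q / κ * Real.exp κ ≤ Real.exp κ / 8 := by
    have : 2 * Q / κ ≤ 1 / 8 := by rw [div_le_iff₀ kpos]; linarith
    nlinarith
  have h2 : Real.exp (-κ) ≤ 1 := Real.exp_le_one_iff.mpr (by linarith)
  have h3 : 2 ≤ Real.exp κ := by linarith [Real.add_one_le_exp κ]
  have h4 := Real.exp_pos (-κ)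
  have s1 : ‖Complex.sin (κ * Complex.I)‖ = Real.sinh κ := by
    rw [Complex.sin_mul_I, norm_mul, Complex.norm_I, mul_one, ← Complex.ofReal_sinh,
      Complex.norm_real, Real.norm_eq_abs, abs_of_nonneg (Real.sinh_nonneg_iff.2 kpos.le)]
  have s2 : ‖Complex.cos (κ * Complex.I)‖ = Real.cosh κ := by
    rw [Complex.cos_mul_I, ← Complex.ofReal_cosh, Complex.norm_real, Real.norm_eq_abs,
      abs_of_pos (Real.cosh_pos κ)]
  constructor
  · have := norm_sub_norm_le (Complex.sin (κ * Complex.I))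
      (κ * Complex.I * mb q ((-κ ^ 2 : ℝ) : ℂ))
    rw [norm_sub_rev, s1, norm_mul, n1, Real.sinh_eq] at this
    linarith
  · have := norm_sub_norm_le (Complex.cos (κ * Complex.I)) (Dl q ((-κ ^ 2 : ℝ) : ℂ))
    rw [norm_sub_rev, s2, Real.cosh_eq] at this
    linarith

theorem flat_bound (M : ℕ) : ∀ {h : ℝ → ℝ}, ContDiff ℝ ∞ h → (∀ k, iteratedDeriv k h 0 = 0) →
    ∃ C, 0 ≤ C ∧ ∀ x ∈ Icc (0 : ℝ) 1, |h x| ≤ C * x ^ M := by
  induction M with
  | zero =>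
    intro h hh _
    obtain ⟨C, hC⟩ := (isCompact_Icc (a := (0 : ℝ)) (b := 1)).exists_bound_of_continuousOn
      hh.continuous.continuousOn
    exact ⟨max C 0, le_max_right _ _, fun x hx => by
      simpa using Or.inl (hC x hx)⟩
  | succ M ih =>
    intro h hh h0
    obtain ⟨C, hC0, hC⟩ := ih (h := deriv h) (contDiff_infty_iff_deriv.1 hh).2 fun k => by
      rw [← iteratedDeriv_succ']; exact h0 _
    refine ⟨C, hC0, fun x hx => ?_⟩
    have hd := (contDiff_infty_iff_deriv.1 hh).1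
    have := (convex_Icc (0 : ℝ) x).norm_image_sub_le_of_norm_deriv_le (f := h) (C := C * x ^ M)
      (fun s _ => hd s) (fun s hs => (hC s ⟨hs.1, hs.2.trans hx.2⟩).trans
        (mul_le_mul_of_nonneg_left (pow_le_pow_left₀ hs.1 hs.2 M) hC0))
      (left_mem_Icc.2 hx.1) (right_mem_Icc.2 hx.1)
    have h00 : h 0 = 0 := by simpa using h0 0
    rw [h00, sub_zero, sub_zero, Real.norm_eq_abs, Real.norm_eq_abs, abs_of_nonneg hx.1] at this
    rw [pow_succ, ← mul_assoc]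
    exact this

theorem flat_bound_two {h : ℝ → ℝ} (hh : Cinf h) (h0 : ∀ k, iteratedDeriv k h 0 = 0) (M : ℕ) :
    ∃ C, 0 ≤ C ∧ ∀ x ∈ Icc (0 : ℝ) 1, |h x| ≤ C * x ^ M ∧ |h x| ≤ C * (1 - x) ^ M := by
  obtain ⟨C, hC0, hC⟩ := flat_bound M hh.1 h0
  obtain ⟨D, -, hD⟩ := flat_bound M (h := fun x => h (-x)) (hh.1.comp contDiff_neg) fun k => by
    rw [iteratedDeriv_comp_neg, neg_zero, h0, smul_zero]
  refine ⟨max C D, le_max_of_le_left hC0, fun x hx => ⟨(hC x hx).trans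
    (mul_le_mul_of_nonneg_right (le_max_left _ _) (pow_nonneg hx.1 _)), ?_⟩⟩
  have hx' : 1 - x ∈ Icc (0 : ℝ) 1 := ⟨by linarith [hx.2], by linarith [hx.1]⟩
  have := hD _ hx'
  simp only [neg_sub] at this
  rw [hh.2.sub_eq] at this
  exact this.trans (mul_le_mul_of_nonneg_right (le_max_right _ _) (pow_nonneg hx'.1 _))

theorem pt_bound {κ u C : ℝ} (hκ : 0 < κ) (hu : 0 ≤ u) (hC : 0 ≤ C) (M : ℕ) {a b c : ℂ}
    (ha : ‖a‖ ≤ C * u ^ M) (hb : ‖b‖ ≤ 2 / κ * Real.exp (κ * (1 - u)))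
    (hc : ‖c‖ ≤ 2 / κ * Real.exp (κ * (1 - u))) :
    ‖a * (b * c)‖ ≤ 4 * C * M.factorial * Real.exp κ ^ 2 / (κ ^ M * κ ^ 2) := by
  have h1 := Real.pow_div_factorial_le_exp (κ * u) (by positivity) M
  have hF : (0 : ℝ) < M.factorial := by exact_mod_cast M.factorial_pos
  rw [div_le_iff₀ hF, mul_pow] at h1
  have h2 : Real.exp (κ * (1 - u)) * Real.exp (κ * u) = Real.exp κ := by
    rw [← Real.exp_add]; congr 1; ring
  have h3 : Real.exp (κ * (1 - u)) ≤ Real.exp κ := Real.exp_le_exp.2 (by nlinarith)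
  have hE := Real.exp_pos (κ * (1 - u))
  rw [norm_mul, norm_mul, le_div_iff₀ (by positivity)]
  have h4 := mul_le_mul ha (mul_le_mul hb hc (norm_nonneg _) (by positivity)) (by positivity)
    (by positivity)
  calc ‖a‖ * (‖b‖ * ‖c‖) * (κ ^ M * κ ^ 2)
      ≤ C * u ^ M * (2 / κ * Real.exp (κ * (1 - u)) * (2 / κ * Real.exp (κ * (1 - u)))) *
        (κ ^ M * κ ^ 2) := mul_le_mul_of_nonneg_right h4 (by positivity)
    _ = 4 * C * (κ ^ M * u ^ M) * (Real.exp (κ * (1 - u)) * Real.exp (κ * (1 - u))) := by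
        field_simp; ring
    _ ≤ 4 * C * (Real.exp (κ * u) * M.factorial) * (Real.exp (κ * (1 - u)) * Real.exp κ) := by
        gcongr
    _ = 4 * C * M.factorial * (Real.exp (κ * (1 - u)) * Real.exp (κ * u)) * Real.exp κ := by ring
    _ = 4 * C * M.factorial * Real.exp κ ^ 2 := by rw [h2]; ring

theorem wr_bounds {p q : ℝ → ℝ} (hp : Continuous p) (hq : Continuous q) {Q : ℝ} (hQ1 : 1 ≤ Q)
    (hP : ∀ x, |p x| ≤ Q) (hQ : ∀ x, |q x| ≤ Q) {C : ℝ} {M : ℕ} (hC0 : 0 ≤ C)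
    (hC : ∀ x ∈ Icc (0 : ℝ) 1, |q x - p x| ≤ C * x ^ M ∧ |q x - p x| ≤ C * (1 - x) ^ M)
    {κ : ℝ} (hκ : 16 * Q ≤ κ) {z : ℂ} (hz : z = ((-κ ^ 2 : ℝ) : ℂ)) :
    ‖mb p z * md q z - md p z * mb q z‖ ≤
        4 * C * M.factorial * Real.exp κ ^ 2 / (κ ^ M * κ ^ 2) ∧
      ‖mb p z * ma q z - ma p z * mb q z‖ ≤
        4 * C * M.factorial * Real.exp κ ^ 2 / (κ ^ M * κ ^ 2) := by
  have kpos : 0 < κ := by linarith
  have n1 := norm_I kpos.le
  have k0 : (κ : ℂ) * Complex.I ≠ 0 := norm_pos_iff.1 (by rw [n1]; exact kpos)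
  have k3 : 2 * Q ≤ ‖(κ : ℂ) * Complex.I‖ := by rw [n1]; linarith
  have hn : ∀ x, ‖pot q z x - pot p z x‖ = |q x - p x| := fun x => by
    rw [pot, pot, sub_sub_sub_cancel_right, ← Complex.ofReal_sub, Complex.norm_real,
      Real.norm_eq_abs]
  constructor
  · have w := wr_integral (pot_cont hp z) (pot_cont hq z) (ph_sol hp z) (ph_sol hq z) 0 1
    rw [ph_zero hp, ph_zero hq, zero_mul, mul_zero, sub_zero, sub_zero] at w
    change _ = mb p z * md q z - md p z * mb q z at w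
    rw [← w]
    refine norm_int_le' le_rfl zero_le_one le_rfl (by positivity) fun s hs => ?_
    have e4 := (est_bd hq hQ k0 k3 hs).2.2.1
    have e5 := (est_bd hp hP k0 k3 hs).2.2.1
    rw [sq_I, n1, im_I kpos.le, ← hz] at e4 e5
    refine pt_bound (u := 1 - s) kpos (by linarith [hs.2]) hC0 M (by rw [hn]; exact (hC s hs).2)
      (by rw [sub_sub_cancel]; exact e5) (by rw [sub_sub_cancel]; exact e4)
  · have w := wr_integral (pot_cont hp z) (pot_cont hq z) (chi_sol hp z) (chi_sol hq z) 0 1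
    have w2 : chi p z 1 * chi' q z 1 - chi' p z 1 * chi q z 1 -
        (chi p z 0 * chi' q z 0 - chi' p z 0 * chi q z 0) = mb p z * ma q z - ma p z * mb q z := by
      simp only [chi, chi', th_zero hp, th_zero hq, th'_zero hp, th'_zero hq, ph_zero hp,
        ph_zero hq, ph'_zero hp, ph'_zero hq, ma, mb]
      ring
    rw [← w2, ← w]
    refine norm_int_le' le_rfl zero_le_one le_rfl (by positivity) fun s hs => ?_
    have e4 := (chi_bd hq hQ k0 k3 hs).1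
    have e5 := (chi_bd hp hP k0 k3 hs).1
    rw [sq_I, n1, im_I kpos.le, ← hz] at e4 e5
    exact pt_bound (u := s) kpos hs.1 hC0 M (by rw [hn]; exact (hC s hs).1) e5 e4

end Borg

open Borg

theorem eq_of_monodromy {p q : ℝ → ℝ} (hp : Cinf p) (hq : Cinf q) (ha : ∀ z, ma p z = ma q z)
    (hb : ∀ z, mb p z = mb q z) : p = q := by
  have a1 := th_sol hq.cont 0
  have a2 := ph_sol hq.cont 0
  have a3 := th_sol hp.cont 0
  have a4 := ph_sol hp.cont 0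
  have u0 : ∀ x ∈ Ioo (0 : ℝ) 1, th q 0 x * ph p 0 x - ph q 0 x * th p 0 x = 0 :=
    fun x hx => det_zero hp hq ha hb (Ioo_subset_Icc_self hx) 0
  have u1 := deriv_zero_on (f' := fun x => th' q 0 x * ph p 0 x + th q 0 x * ph' p 0 x -
      (ph' q 0 x * th p 0 x + ph q 0 x * th' p 0 x))
    (fun x => ((a1.d1 x).fun_mul (a4.d1 x)).fun_sub ((a2.d1 x).fun_mul (a3.d1 x))) u0
  have u2 := deriv_zero_on (fun x => (((a1.d2 x).fun_mul (a4.d1 x)).fun_add
    ((a1.d1 x).fun_mul (a4.d2 x))).fun_sub (((a2.d2 x).fun_mul (a3.d1 x)).fun_add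
    ((a2.d1 x).fun_mul (a3.d2 x)))) u1
  have u3 : ∀ x ∈ Ioo (0 : ℝ) 1, th' q 0 x * ph' p 0 x - ph' q 0 x * th' p 0 x = 0 := by
    intro x hx
    have b0 := u0 x hx
    have b2 := u2 x hx
    linear_combination (1 / 2 : ℂ) * b2 - (1 / 2 : ℂ) * (pot q 0 x + pot p 0 x) * b0
  have u4 := deriv_zero_on
    (fun x => ((a1.d2 x).fun_mul (a4.d2 x)).fun_sub ((a2.d2 x).fun_mul (a3.d2 x))) u3
  have u5 : EqOn (fun x => p x - q x) (fun _ => 0) (Ioo (0 : ℝ) 1) := by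
    intro x hx
    have b0 := u0 x hx
    have b1 := u1 x hx
    have b4 := u4 x hx
    have w1 := wr hq.cont 0 x
    have w2 := wr hp.cont 0 x
    have c1 : (pot q 0 x - pot p 0 x) * (th q 0 x * ph' p 0 x - ph q 0 x * th' p 0 x) = 0 := by
      linear_combination b4 - pot p 0 x * b1
    have c2 : th q 0 x * ph' p 0 x - ph q 0 x * th' p 0 x ≠ 0 := by
      intro c
      have : (1 : ℂ) = 0 := by
        linear_combination (-(th p 0 x * ph' p 0 x - th' p 0 x * ph p 0 x)) * w1 - w2 +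
          (th' q 0 x * ph' p 0 x - ph' q 0 x * th' p 0 x) * b0 -
          (th' q 0 x * ph p 0 x - ph' q 0 x * th p 0 x) * c
      exact one_ne_zero this
    have c3 := (mul_eq_zero.1 c1).resolve_right c2
    simp only [pot, sub_zero] at c3
    have c4 : q x - p x = 0 := by exact_mod_cast c3
    simp only
    linarith
  have u6 := u5.closure (hp.cont.sub hq.cont) continuous_const
  rw [closure_Ioo zero_ne_one] at u6
  funext x
  obtain ⟨y, hy, e⟩ := (hp.sub hq).2.exists_mem_Ico₀ one_pos x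
  have := u6 (Ico_subset_Icc_self hy)
  simp only at this e
  linarith

theorem mb_ratio_bd {p q : ℝ → ℝ} (hp : Cinf p) (hq : Cinf q) :
    (∃ C : ℝ, ∀ᶠ n : ℕ in atTop, ∀ k, Bd n k →
      ‖mb p (k ^ 2)‖ ≤ C * ‖mb q (k ^ 2)‖ ∧ ‖Nn p (k ^ 2)‖ ≤ C * ‖mb q (k ^ 2)‖) ∧
    ∃ C : ℝ, ∀ᶠ t : ℝ in atBot, ‖mb p t‖ ≤ C * ‖mb q t‖ := by
  obtain ⟨Q, hQ1, hP, hQ⟩ := exists_bound_two hp hq
  have key : ∀ {r E b a c : ℝ}, 0 < r → 0 ≤ c → E / 8 ≤ r * b → a ≤ 2 * c / r * E →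
      a ≤ 16 * c * b := by
    intro r E b a c hr hc h1 h2
    refine h2.trans ?_
    rw [div_mul_eq_mul_div, div_le_iff₀ hr]
    nlinarith
  constructor
  · refine ⟨16 * Q, ?_⟩
    filter_upwards [eventually_bd_ge (16 * Q + 1)] with n h1 k hk
    have k1 := h1 k hk
    have kpos : 0 < ‖k‖ := by linarith
    have k0 : k ≠ 0 := norm_pos_iff.1 kpos
    have k3 : 2 * Q ≤ ‖k‖ := by linarith
    have e1 := mb_lower hq.cont hQ hk k1
    have e5 := (est_bd hp.cont hP k0 k3 (right_mem_Icc.2 zero_le_one)).2.2.1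
    refine ⟨?_, key kpos (by linarith) e1 (Nn_est hp.cont hP k0 k3)⟩
    have := key (c := 1) kpos zero_le_one e1 (a := ‖mb p (k ^ 2)‖) (by simpa [mb] using e5)
    nlinarith [norm_nonneg (mb q (k ^ 2))]
  · refine ⟨16 * 1, ?_⟩
    filter_upwards [ev_neg (16 * Q)] with t ⟨κ, hκ, ht⟩
    have kpos : 0 < κ := by linarith
    have n1 := norm_I kpos.le
    have k0 : (κ : ℂ) * Complex.I ≠ 0 := norm_pos_iff.1 (by rw [n1]; exact kpos)
    have e5 := (est_bd hp.cont hP k0 (by rw [n1]; linarith)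
      (right_mem_Icc.2 zero_le_one)).2.2.1
    rw [sq_I, n1, im_I kpos.le] at e5
    rw [ht]
    exact key kpos zero_le_one (neg_lower hq.cont hQ1 hQ hκ).1 (by simpa [mb] using e5)

theorem flat_decay {p q : ℝ → ℝ} (hq : Cinf q) (hp : p ∈ Iso q)
    (hf : ∀ k : ℕ, iteratedDeriv k p 0 = iteratedDeriv k q 0) (N : ℕ) :
    (∃ C : ℝ, ∀ᶠ t : ℝ in atBot, ‖mb p t - mb q t‖ * |t| ^ N ≤ C * ‖mb q t‖) ∧
    ((∀ z, mb p z = mb q z) →
      ∃ C : ℝ, ∀ᶠ t : ℝ in atBot, ‖Nn p t - Nn q t‖ * |t| ^ N ≤ C * ‖mb q t‖) := by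
  have hp' : Cinf p := hp.1
  obtain ⟨Q, hQ1, hP, hQ⟩ := exists_bound_two hp' hq
  obtain ⟨C, hC0, hC⟩ := flat_bound_two (hq.sub hp') (fun k => by
    rw [iteratedDeriv_fun_sub (hq.1.contDiffAt.of_le (by exact_mod_cast le_top))
      (hp'.1.contDiffAt.of_le (by exact_mod_cast le_top)), hf, sub_self]) (2 * N)
  set K : ℝ := 4 * C * (2 * N).factorial with hK
  have hK0 : 0 ≤ K := by positivity
  have habs : ∀ κ : ℝ, |-κ ^ 2| ^ N = κ ^ (2 * N) := fun κ => by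
    rw [abs_neg, abs_of_nonneg (sq_nonneg κ), pow_mul]
  constructor
  · refine ⟨32 * K, ?_⟩
    filter_upwards [ev_neg (16 * Q)] with t ⟨κ, hκ, ht⟩
    have k1 : 1 ≤ κ := by linarith
    have kpos : 0 < κ := by linarith
    obtain ⟨w1, w2⟩ := wr_bounds hp'.cont hq.cont hQ1 hP hQ hC0 hC hκ rfl
    obtain ⟨l1, l2⟩ := neg_lower hq.cont hQ1 hQ hκ
    rw [ht, habs]
    set z : ℂ := ((-κ ^ 2 : ℝ) : ℂ)
    have hD := Dl_eq_of_iso hq hp z
    have e1 : 2 * Dl q z * (mb p z - mb q z) =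
        (mb p z * md q z - md p z * mb q z) + (mb p z * ma q z - ma p z * mb q z) := by
      unfold Dl at hD ⊢
      linear_combination 2 * mb q z * hD
    have e2 : 2 * ‖Dl q z‖ * ‖mb p z - mb q z‖ ≤
        2 * (K * Real.exp κ ^ 2 / (κ ^ (2 * N) * κ ^ 2)) := by
      have := (norm_add_le _ _).trans (add_le_add w1 w2)
      rw [← e1, norm_mul, norm_mul, Complex.norm_two] at this
      linarith
    have hE := Real.exp_pos κ
    have e3 : Real.exp κ / 4 * ‖mb p z - mb q z‖ ≤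
        K * Real.exp κ ^ 2 / (κ ^ (2 * N) * κ ^ 2) := by
      nlinarith [norm_nonneg (mb p z - mb q z)]
    rw [le_div_iff₀ (by positivity)] at e3
    have e4 : ‖mb p z - mb q z‖ * κ ^ (2 * N) * κ ^ 2 ≤ 4 * K * Real.exp κ := by
      refine le_of_mul_le_mul_left ?_ hE
      nlinarith
    have e5 : 4 * K * Real.exp κ ≤ 32 * K * ‖mb q z‖ * κ := by nlinarith
    have e6 : ‖mb p z - mb q z‖ * κ ^ (2 * N) * κ ≤ ‖mb p z - mb q z‖ * κ ^ (2 * N) * κ ^ 2 :=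
      mul_le_mul_of_nonneg_left (by nlinarith) (by positivity)
    exact le_of_mul_le_mul_right (e6.trans (e4.trans e5)) kpos
  · intro hb
    refine ⟨64 * K, ?_⟩
    filter_upwards [ev_neg (16 * Q)] with t ⟨κ, hκ, ht⟩
    have kpos : 0 < κ := by linarith
    obtain ⟨w1, -⟩ := wr_bounds hp'.cont hq.cont hQ1 hP hQ hC0 hC hκ rfl
    obtain ⟨l1, -⟩ := neg_lower hq.cont hQ1 hQ hκ
    rw [ht, habs]
    set z : ℂ := ((-κ ^ 2 : ℝ) : ℂ)
    have hD := Dl_eq_of_iso hq hp z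
    have e1 : mb p z * md q z - md p z * mb q z = -(mb q z * (Nn p z - Nn q z)) := by
      unfold Dl at hD
      unfold Nn
      rw [hb]
      linear_combination (-mb q z) * hD
    rw [e1, norm_neg, norm_mul, le_div_iff₀ (by positivity)] at w1
    have hE := Real.exp_pos κ
    have bpos : 0 < ‖mb q z‖ := by
      by_contra hc
      have : ‖mb q z‖ = 0 := le_antisymm (not_lt.1 hc) (norm_nonneg _)
      rw [this] at l1
      linarith
    have e2 : Real.exp κ ^ 2 ≤ (8 * (κ * ‖mb q z‖)) ^ 2 :=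
      pow_le_pow_left₀ hE.le (by linarith) 2
    refine le_of_mul_le_mul_right ?_ (mul_pos bpos (pow_pos kpos 2))
    have e3 := mul_le_mul_of_nonneg_left e2 hK0
    nlinarith

end Pool.Agent.P.MP_aabf10_an
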