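import Pool.Agent.P.MP_aabf10_an.Expand

/-!
# The double Darboux transformation
-/

open scoped ContDiff Topology Real
open Filter Finset Set MeasureTheory

namespace Pool.Agent.P.MP_aabf10_an

variable {q : ℝ → ℝ}

theorem IsSol.smooth {p y y' : ℝ → ℝ} (hp : ContDiff ℝ ∞ p) (h : IsSol p y y') :
    ContDiff ℝ ∞ y ∧ ContDiff ℝ ∞ y' := by
  have e1 : deriv y = y' := funext fun x => (h.d1 x).deriv
  have e2 : deriv y' = fun x => p x * y x := funext fun x => (h.d2 x).deriv
  have key : ∀ n : ℕ, ContDiff ℝ n y ∧ ContDiff ℝ n y' := by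
    intro n
    induction n with
    | zero => exact ⟨contDiff_zero.2 h.cont, contDiff_zero.2 h.cont'⟩
    | succ n ih =>
      push_cast
      rw [contDiff_succ_iff_deriv, contDiff_succ_iff_deriv, e1, e2]
      exact ⟨⟨fun x => (h.d1 x).differentiableAt, by simp, ih.2⟩,
        fun x => (h.d2 x).differentiableAt, by simp,
        (hp.of_le (by exact_mod_cast le_top)).mul ih.1⟩
  exact ⟨contDiff_infty.2 fun n => (key n).1, contDiff_infty.2 fun n => (key n).2⟩

/-- the correction term of the transformation -/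
noncomputable def eta1 (u u' w w' : ℝ → ℝ) (t : ℝ) (x : ℝ) : ℝ :=
  (u' x * w x + u x * w' x) * (u x * w' x - u' x * w x)⁻¹
    + t * (u x * w x * (u x * w' x - u' x * w x)⁻¹) ^ 2

/-- Data for a double Darboux transformation. -/
structure DData (q : ℝ → ℝ) (ν₀ ν₁ ρ σ : ℝ) (u u' w w' : ℝ → ℝ) : Prop where
  su : IsSol (fun x => q x - ν₀) u u'
  sw : IsSol (fun x => q x - ν₁) w w'
  pu : ∀ x, u (x + 1) = ρ * u x
  pu' : ∀ x, u' (x + 1) = ρ * u' x
  pw : ∀ x, w (x + 1) = σ * w x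
  pw' : ∀ x, w' (x + 1) = σ * w' x
  ne : ∀ x, u x * w' x - u' x * w x ≠ 0

namespace DData
variable {ν₀ ν₁ ρ σ : ℝ} {u u' w w' : ℝ → ℝ}

theorem rs_ne (h : DData q ν₀ ν₁ ρ σ u u' w w') : ρ * σ ≠ 0 := by
  intro e
  have := h.ne (0 + 1)
  rw [h.pu, h.pu', h.pw, h.pw'] at this
  exact this (by linear_combination (u 0 * w' 0 - u' 0 * w 0) * e)

theorem inv_shift (h : DData q ν₀ ν₁ ρ σ u u' w w') (x : ℝ) :
    ρ * σ * (u (x + 1) * w' (x + 1) - u' (x + 1) * w (x + 1))⁻¹ = (u x * w' x - u' x * w x)⁻¹ := by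
  have := h.rs_ne
  have := h.ne x
  rw [h.pu, h.pu', h.pw, h.pw', show ρ * u x * (σ * w' x) - ρ * u' x * (σ * w x) =
    (ρ * σ) * (u x * w' x - u' x * w x) by ring, mul_inv, ← mul_assoc, mul_inv_cancel₀ ‹_›, one_mul]

theorem cinf (hq : Cinf q) (h : DData q ν₀ ν₁ ρ σ u u' w w') (t : ℝ) : Cinf (eta1 u u' w w' t) := by
  obtain ⟨a, b⟩ := h.su.smooth (hq.1.sub contDiff_const)
  obtain ⟨c, d⟩ := h.sw.smooth (hq.1.sub contDiff_const)
  have e : ContDiff ℝ ∞ fun x => (u x * w' x - u' x * w x)⁻¹ :=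
    ((a.mul d).sub (b.mul c)).inv h.ne
  refine ⟨(((b.mul c).add (a.mul d)).mul e).add (contDiff_const.mul (((a.mul c).mul e).pow 2)),
    fun x => ?_⟩
  unfold eta1
  rw [← h.inv_shift x]
  generalize (u (x + 1) * w' (x + 1) - u' (x + 1) * w (x + 1))⁻¹ = i
  rw [h.pu, h.pu', h.pw, h.pw']; ring

theorem inv_hasDerivAt (h : DData q ν₀ ν₁ ρ σ u u' w w') (x : ℝ) :
    HasDerivAt (fun x => (u x * w' x - u' x * w x)⁻¹)
      ((ν₁ - ν₀) * (u x * w x) * (u x * w' x - u' x * w x)⁻¹ ^ 2) x :=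
  ((wr_hasDerivAt h.su h.sw x).fun_inv (h.ne x)).congr_deriv (by
    have := h.ne x
    field_simp; ring)

/-- the image of a solution -/
theorem image_sol (h : DData q ν₀ ν₁ ρ σ u u' w w') {s κ : ℝ} (hκ : κ * (ν₁ - s) = ν₁ - ν₀)
    {y y' : ℝ → ℝ} (hy : IsSol (fun x => q x - s) y y') :
    IsSol (fun x => (q x + 2 * (ν₁ - ν₀) * eta1 u u' w w' (ν₁ - ν₀) x) - s)
      (fun x => y x + κ * (u x * (u x * w' x - u' x * w x)⁻¹) * (w x * y' x - w' x * y x))
      (fun x => y' x + κ * (u' x * (u x * w' x - u' x * w x)⁻¹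
          + (ν₁ - ν₀) * (u x ^ 2 * w x * (u x * w' x - u' x * w x)⁻¹ ^ 2)) * (w x * y' x - w' x * y x)
        + (ν₁ - ν₀) * (u x * w x * (u x * w' x - u' x * w x)⁻¹) * y x) := by
  constructor
  · intro x
    have hi := h.inv_hasDerivAt x
    refine ((hy.d1 x).fun_add ((((h.su.d1 x).fun_mul hi).const_mul κ).fun_mul
      (wr_hasDerivAt h.sw hy x))).congr_deriv ?_
    generalize (u x * w' x - u' x * w x)⁻¹ = i
    linear_combination (u x * i * w x * y x) * hκ
  · intro x
    have hi := h.inv_hasDerivAt x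
    have hW := mul_inv_cancel₀ (h.ne x)
    refine (((hy.d2 x).fun_add (((((h.su.d2 x).fun_mul hi).fun_add
      ((((((h.su.d1 x).fun_pow 2).fun_mul (h.sw.d1 x)).fun_mul (hi.fun_pow 2))).const_mul
      (ν₁ - ν₀))).const_mul κ).fun_mul (wr_hasDerivAt h.sw hy x))).fun_add
      ((((((h.su.d1 x).fun_mul (h.sw.d1 x)).fun_mul hi)).const_mul (ν₁ - ν₀)).fun_mul
      (hy.d1 x))).congr_deriv ?_
    unfold eta1
    generalize (u x * w' x - u' x * w x)⁻¹ = i at *
    simp only [Nat.cast_ofNat, Nat.add_one_sub_one, pow_one]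
    linear_combination ((u' x * i + (ν₁ - ν₀) * u x ^ 2 * w x * i ^ 2) * w x * y x
        + u x * i * (w x * y' x - w' x * y x) * (-1)) * hκ
      + (-(κ * (ν₁ - ν₀)) * u x * i * (w x * y' x - w' x * y x)) * hW

theorem Dr_eq (hq : Cinf q) (h : DData q ν₀ ν₁ ρ σ u u' w w') :
    Dr (fun x => q x + 2 * (ν₁ - ν₀) * eta1 u u' w w' (ν₁ - ν₀) x) = Dr q := by
  have c := hq.cont
  have cn : Continuous fun x => q x + 2 * (ν₁ - ν₀) * eta1 u u' w w' (ν₁ - ν₀) x :=
    (hq.add ((Cinf.const _).mul (h.cinf hq _))).cont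
  refine Continuous.ext_on (Set.Countable.dense_compl ℝ (s := {ν₀, ν₁})
    (Set.toFinite _).countable) (Dr_cont cn) (Dr_cont c) fun s hs => ?_
  simp only [Set.mem_compl_iff, Set.mem_insert_iff, Set.mem_singleton_iff, not_or] at hs
  have h1 : ν₁ - s ≠ 0 := sub_ne_zero.2 (Ne.symm hs.2)
  have hκ : (ν₁ - ν₀) / (ν₁ - s) * (ν₁ - s) = ν₁ - ν₀ := div_mul_cancel₀ _ h1
  have hκ1 : 1 - (ν₁ - ν₀) / (ν₁ - s) ≠ 0 := by
    intro e
    apply hs.1
    rw [← sub_eq_zero.1 e] at hκ
    linarith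
  set κ := (ν₁ - ν₀) / (ν₁ - s)
  have a := solr_rep cn (h.image_sol hκ (thr_sol c s)) 1
  have b := solr_rep cn (h.image_sol hκ (phr_sol c s)) 1
  have i0 := h.inv_shift 0
  have hW := mul_inv_cancel₀ (h.ne 0)
  have p1 := h.pu 0
  have p2 := h.pu' 0
  have p3 := h.pw 0
  have p4 := h.pw' 0
  simp only [zero_add] at i0 p1 p2 p3 p4
  simp only [thr_zero c, thr'_zero c, phr_zero c, phr'_zero c] at a b
  rw [← i0] at a b hW
  generalize (u 1 * w' 1 - u' 1 * w 1)⁻¹ = i at *
  rw [p1, p2, p3, p4] at a b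
  refine mul_left_cancel₀ hκ1 ?_
  unfold Dr ar dr
  set t := ν₁ - ν₀
  set j := ρ * σ * i
  set l11 := 1 - κ * (u 0 * j) * w' 0
  set l12 := κ * (u 0 * j) * w 0
  set l21 := -κ * (u' 0 * j + t * (u 0 ^ 2 * w 0 * j ^ 2)) * w' 0 + t * (u 0 * w 0 * j)
  set l22 := 1 + κ * (u' 0 * j + t * (u 0 ^ 2 * w 0 * j ^ 2)) * w 0
  have det : l11 * l22 - l12 * l21 = 1 - κ := by
    simp only [l11, l12, l21, l22]
    linear_combination (-κ) * hW
  set qn := fun x => q x + 2 * t * eta1 u u' w w' t x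
  have a1 : l11 * thr q s 1 + l12 * thr' q s 1 = l11 * thr qn s 1 + l21 * phr qn s 1 := by
    simp only [l11, l12, l21, j]; linear_combination a.1
  have a2 : l21 * thr q s 1 + l22 * thr' q s 1 = l11 * thr' qn s 1 + l21 * phr' qn s 1 := by
    simp only [l11, l21, l22, j]; linear_combination a.2
  have b1 : l11 * phr q s 1 + l12 * phr' q s 1 = l12 * thr qn s 1 + l22 * phr qn s 1 := by
    simp only [l11, l12, l22, j]; linear_combination b.1
  have b2 : l21 * phr q s 1 + l22 * phr' q s 1 = l12 * thr' qn s 1 + l22 * phr' qn s 1 := by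
    simp only [l12, l21, l22, j]; linear_combination b.2
  rw [← det]
  linear_combination (-l22 / 2) * a1 + (l21 / 2) * b1 + (l12 / 2) * a2 - (l11 / 2) * b2

theorem mem_iso (hq : Cinf q) (h : DData q ν₀ ν₁ ρ σ u u' w w') :
    (fun x => q x + 2 * (ν₁ - ν₀) * eta1 u u' w w' (ν₁ - ν₀) x) ∈ Iso q :=
  mem_iso_of_Dr hq (hq.add ((Cinf.const _).mul (h.cinf hq _))) (h.Dr_eq hq)

end DData

/-- Bloch solutions -/
noncomputable def Bl (q : ℝ → ℝ) (t η x : ℝ) : ℝ := br q t * thr q t x + (Nr q t + η) * phr q t x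
noncomputable def Bl' (q : ℝ → ℝ) (t η x : ℝ) : ℝ := br q t * thr' q t x + (Nr q t + η) * phr' q t x

theorem Bl_sol (hq : Continuous q) (t η : ℝ) : IsSol (fun x => q x - t) (Bl q t η) (Bl' q t η) :=
  (thr_sol hq t).lin (phr_sol hq t) _ _

theorem real_add_one (hq : Continuous q) (hp : Function.Periodic q 1) (t x : ℝ) :
    thr q t (x + 1) = ar q t * thr q t x + cr q t * phr q t x ∧
    thr' q t (x + 1) = ar q t * thr' q t x + cr q t * phr' q t x ∧
    phr q t (x + 1) = br q t * thr q t x + dr q t * phr q t x ∧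
    phr' q t (x + 1) = br q t * thr' q t x + dr q t * phr' q t x := by
  have a := solr_rep hq ((thr_sol hq t).shift_one_real hp) x
  have b := solr_rep hq ((phr_sol hq t).shift_one_real hp) x
  simp only [zero_add] at a b
  exact ⟨a.1, a.2, b.1, b.2⟩

theorem Bl_shift (hq : Continuous q) (hp : Function.Periodic q 1) {t η : ℝ}
    (h : η ^ 2 = Dr q t ^ 2 - 1) (x : ℝ) : Bl q t η (x + 1) = (Dr q t + η) * Bl q t η x ∧
      Bl' q t η (x + 1) = (Dr q t + η) * Bl' q t η x := by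
  obtain ⟨a, b, c, d⟩ := real_add_one hq hp t x
  rw [discr hq] at h
  unfold Bl Bl'
  rw [a, b, c, d]
  unfold Dr Nr at *
  constructor
  · linear_combination (-phr q t x) * h
  · linear_combination (-phr' q t x) * h

/-- all `x`-derivatives up to order `k` are jointly continuous -/
def JC : ℕ → (ℝ → ℝ → ℝ) → Prop
  | 0, f => Continuous fun u : ℝ × ℝ => f u.1 u.2
  | k + 1, f => (Continuous fun u : ℝ × ℝ => f u.1 u.2) ∧
      ∃ g, (∀ t x, HasDerivAt (f t) (g t x) x) ∧ JC k g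

theorem JC.cont {k : ℕ} {f : ℝ → ℝ → ℝ} (h : JC k f) : Continuous fun u : ℝ × ℝ => f u.1 u.2 := by
  cases k with
  | zero => exact h
  | succ k => exact h.1

theorem JC.mono {k : ℕ} {f : ℝ → ℝ → ℝ} (h : JC (k + 1) f) : JC k f := by
  induction k generalizing f with
  | zero => exact h.1
  | succ k ih => obtain ⟨a, g, b, c⟩ := h; exact ⟨a, g, b, ih c⟩

theorem JC.param {k : ℕ} {c : ℝ → ℝ} (hc : Continuous c) : JC k fun t _ => c t := by
  induction k generalizing c with
  | zero => exact hc.comp continuous_fst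
  | succ k ih =>
    exact ⟨hc.comp continuous_fst, fun _ _ => 0, fun t x => hasDerivAt_const _ _,
      ih continuous_const⟩

theorem JC.add {k : ℕ} {f g : ℝ → ℝ → ℝ} (h : JC k f) (j : JC k g) :
    JC k fun t x => f t x + g t x := by
  induction k generalizing f g with
  | zero => exact h.cont.add j.cont
  | succ k ih =>
    obtain ⟨a, f', b, c⟩ := h
    obtain ⟨d, g', e, i⟩ := j
    exact ⟨a.add d, _, fun t x => (b t x).fun_add (e t x), ih c i⟩

theorem JC.mul {k : ℕ} {f g : ℝ → ℝ → ℝ} (h : JC k f) (j : JC k g) :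
    JC k fun t x => f t x * g t x := by
  induction k generalizing f g with
  | zero => exact h.cont.mul j.cont
  | succ k ih =>
    have h' := h.mono
    have j' := j.mono
    obtain ⟨a, f', b, c⟩ := h
    obtain ⟨d, g', e, i⟩ := j
    exact ⟨a.mul d, _, fun t x => (b t x).fun_mul (e t x), (ih c j').add (ih h' i)⟩

theorem JC.sub {k : ℕ} {f g : ℝ → ℝ → ℝ} (h : JC k f) (j : JC k g) :
    JC k fun t x => f t x - g t x := by
  have := h.add ((JC.param (c := fun _ => -1) continuous_const).mul j)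
  simpa [sub_eq_add_neg] using this

theorem JC.inv {k : ℕ} {f : ℝ → ℝ → ℝ} (h : JC k f) (h0 : ∀ t x, f t x ≠ 0) :
    JC k fun t x => (f t x)⁻¹ := by
  induction k generalizing f with
  | zero => exact h.cont.inv₀ fun u => h0 _ _
  | succ k ih =>
    have h' := ih h.mono h0
    obtain ⟨a, f', b, c⟩ := h
    refine ⟨a.inv₀ fun u => h0 _ _, fun t x => -1 * f' t x * ((f t x)⁻¹ * (f t x)⁻¹),
      fun t x => ((b t x).fun_inv (h0 t x)).congr_deriv (by field_simp),
      ((JC.param (c := fun _ => -1) continuous_const).mul c).mul (h'.mul h')⟩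

theorem JC.of_smooth {k : ℕ} {f : ℝ → ℝ} (h : ContDiff ℝ ∞ f) : JC k fun _ x => f x := by
  induction k generalizing f with
  | zero => exact h.continuous.comp continuous_snd
  | succ k ih =>
    exact ⟨h.continuous.comp continuous_snd, fun _ x => deriv f x,
      fun _ x => (h.differentiable (by simp) x).hasDerivAt, ih (contDiff_infty_iff_deriv.1 h).2⟩

theorem JC.of_sol {p y y' : ℝ → ℝ → ℝ} (hp : ∀ k, JC k p) (h : ∀ t, IsSol (p t) (y t) (y' t))
    (c1 : Continuous fun u : ℝ × ℝ => y u.1 u.2) (c2 : Continuous fun u : ℝ × ℝ => y' u.1 u.2)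
    (k : ℕ) : JC k y ∧ JC k y' := by
  induction k with
  | zero => exact ⟨c1, c2⟩
  | succ k ih =>
    exact ⟨⟨c1, y', fun t x => (h t).d1 x, ih.2⟩, c2, _, fun t x => (h t).d2 x, (hp k).mul ih.1⟩

theorem JC.iter {k : ℕ} {f : ℝ → ℝ → ℝ} (h : JC k f) :
    Continuous fun u : ℝ × ℝ => iteratedDeriv k (f u.1) u.2 := by
  induction k generalizing f with
  | zero => simpa using h.cont
  | succ k ih =>
    obtain ⟨-, g, b, c⟩ := h
    have : ∀ t, deriv (f t) = g t := fun t => funext fun x => (b t x).deriv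
    simp only [iteratedDeriv_succ', this]
    exact ih c

theorem Cinf.iter {f : ℝ → ℝ} (h : Cinf f) (k : ℕ) : Cinf (iteratedDeriv k f) := by
  induction k with
  | zero => simpa using h
  | succ k ih => rw [iteratedDeriv_succ]; exact ih.deriv

theorem unif_of_jc {F : ℝ → ℝ → ℝ} (hc : Continuous fun u : ℝ × ℝ => F u.1 u.2)
    (hp : ∀ t, Function.Periodic (F t) 1) (t₀ : ℝ) : TendstoUniformly F (F t₀) (𝓝 t₀) := by
  rw [Metric.tendstoUniformly_iff]
  intro ε hε
  have := (isCompact_Icc (a := (0 : ℝ)) (b := 1)).eventually_forall_of_forall_eventually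
    (x₀ := t₀) (P := fun t x => dist (F t₀ x) (F t x) < ε) (fun x _ => by
      have h1 : ContinuousAt (fun u : ℝ × ℝ => dist (F t₀ u.2) (F u.1 u.2)) (t₀, x) :=
        ((hc.comp (f := fun u : ℝ × ℝ => (t₀, u.2)) (by fun_prop)).dist hc).continuousAt
      exact h1.eventually (Iio_mem_nhds (by simpa using hε)))
  filter_upwards [this] with t ht x
  have hx : x - ⌊x⌋ * 1 ∈ Icc (0 : ℝ) 1 := by
    rw [mul_one]
    exact ⟨Int.fract_nonneg x, (Int.fract_lt_one x).le⟩
  have := ht _ hx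
  rwa [(hp t).sub_int_mul_eq, (hp t₀).sub_int_mul_eq] at this

theorem tangent_bx1 (hq : Cinf q) {ν : ℝ} (hD : 1 < Dr q ν ^ 2) (hb : br q ν ≠ 0) :
    ∃ c : ℝ, c ≠ 0 ∧ Tangent (Iso q) q fun x => c * bx1r q ν x := by
  have c := hq.cont
  set y := fun s => √(Dr q s ^ 2 - 1)
  have cy : Continuous y := by have := Dr_cont c; simp only [y]; fun_prop
  have y0 : 0 < y ν := Real.sqrt_pos.2 (by linarith)
  have y2 : y ν ^ 2 = Dr q ν ^ 2 - 1 := Real.sq_sqrt (by linarith)
  set u := Bl q ν (y ν)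
  set u' := Bl' q ν (y ν)
  have cw : Continuous (fun v : ℝ × ℝ => Bl q v.1 (-y v.1) v.2) ∧
      Continuous fun v : ℝ × ℝ => Bl' q v.1 (-y v.1) v.2 := by
    have := thr_jc c
    have := thr'_jc c
    have := phr_jc c
    have := phr'_jc c
    have := br_cont c
    have := Nr_cont c
    unfold Bl Bl'
    constructor <;> fun_prop
  have cu := (Bl_sol c ν (y ν)).cont
  have cu' := (Bl_sol c ν (y ν)).cont'
  have W0 : ∀ x, u x * Bl' q ν (-y ν) x - u' x * Bl q ν (-y ν) x = -2 * br q ν * y ν := by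
    intro x
    simp only [u, u', Bl, Bl']
    linear_combination (-2 * br q ν * y ν) * wrr c ν x
  have ev : ∀ᶠ s in 𝓝 ν, 1 < Dr q s ^ 2 ∧
      ∀ x ∈ Icc (0 : ℝ) 1, u x * Bl' q s (-y s) x - u' x * Bl q s (-y s) x ≠ 0 := by
    refine (((Dr_cont c).pow 2).continuousAt.eventually (Ioi_mem_nhds hD)).and ?_
    refine isCompact_Icc.eventually_forall_of_forall_eventually fun x _ => ?_
    have h1 : ContinuousAt (fun v : ℝ × ℝ =>
        u v.2 * Bl' q v.1 (-y v.1) v.2 - u' v.2 * Bl q v.1 (-y v.1) v.2) (ν, x) :=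
      (((cu.comp continuous_snd).mul cw.2).sub ((cu'.comp continuous_snd).mul cw.1)).continuousAt
    exact h1.eventually_ne (by simp only [W0]; simp [hb, y0.ne'])
  obtain ⟨δ, hδ, hev⟩ := Metric.eventually_nhds_iff.1 ev
  set cl := fun t : ℝ => max (-(δ / 2)) (min (δ / 2) t)
  have ccl : Continuous cl := by simp only [cl]; fun_prop
  have hcl : ∀ t, dist (ν + cl t) ν < δ := fun t => by
    rw [Real.dist_eq, add_sub_cancel_left, abs_lt]
    constructor
    · linarith [le_max_left (-(δ / 2)) (min (δ / 2) t)]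
    · exact max_lt (by linarith) (lt_of_le_of_lt (min_le_left _ _) (by linarith))
  have hcl0 : ∀ᶠ t in 𝓝 (0 : ℝ), cl t = t := by
    filter_upwards [Icc_mem_nhds (show -(δ / 2) < 0 by linarith) (show 0 < δ / 2 by linarith)]
      with t ht
    simp only [cl, min_eq_right ht.2, max_eq_right ht.1]
  have c0 : cl 0 = 0 := hcl0.self_of_nhds
  set w := fun t => Bl q (ν + cl t) (-y (ν + cl t))
  set w' := fun t => Bl' q (ν + cl t) (-y (ν + cl t))
  have D : ∀ t, DData q ν (ν + cl t) (Dr q ν + y ν) (Dr q (ν + cl t) + -y (ν + cl t))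
      u u' (w t) (w' t) := by
    intro t
    have e2 : (-y (ν + cl t)) ^ 2 = Dr q (ν + cl t) ^ 2 - 1 := by
      rw [neg_sq]; exact Real.sq_sqrt (by linarith [(hev (hcl t)).1])
    have pu := Bl_shift c hq.2 y2
    have pw := Bl_shift c hq.2 e2
    refine ⟨Bl_sol c _ _, Bl_sol c _ _, fun x => (pu x).1, fun x => (pu x).2, fun x => (pw x).1,
      fun x => (pw x).2, ?_⟩
    have r1 : Dr q ν + y ν ≠ 0 := by
      intro e; rw [eq_neg_of_add_eq_zero_left e] at y2; linarith
    have r2 : Dr q (ν + cl t) + -y (ν + cl t) ≠ 0 := by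
      intro e; rw [eq_neg_of_add_eq_zero_left e] at e2; linarith
    have per : Function.Periodic (fun x => u x * w' t x - u' x * w t x = 0) 1 := fun x => by
      simp only [u, u', w, w', (pu x).1, (pu x).2, (pw x).1, (pw x).2, eq_iff_iff]
      rw [show ∀ a b c d e f : ℝ, a * b * (c * d) - a * e * (c * f) = (a * c) * (b * d - e * f) by
        intros; ring, mul_eq_zero, or_iff_right (mul_ne_zero r1 r2)]
    intro x hx
    obtain ⟨z, hz, e⟩ := per.exists_mem_Ico₀ one_pos x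
    exact (hev (hcl t)).2 z ⟨hz.1, hz.2.le⟩ (e ▸ hx)
  have J : ∀ k, JC k fun t x => eta1 u u' (w t) (w' t) (cl t) x := by
    intro k
    obtain ⟨a, b⟩ := (Bl_sol c ν (y ν)).smooth (hq.1.sub contDiff_const)
    have a' := JC.of_smooth (k := k) a
    have b' := JC.of_smooth (k := k) b
    obtain ⟨d, e⟩ := JC.of_sol (p := fun t x => q x - (ν + cl t)) (y := w) (y' := w')
      (fun k => (JC.of_smooth hq.1).sub (JC.param (continuous_const.add ccl)))
      (fun t => Bl_sol c _ _)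
      (cw.1.comp (f := fun v : ℝ × ℝ => (ν + cl v.1, v.2)) (by fun_prop))
      (cw.2.comp (f := fun v : ℝ × ℝ => (ν + cl v.1, v.2)) (by fun_prop)) k
    have i := ((a'.mul e).sub (b'.mul d)).inv fun t x => (D t).ne x
    have := (((b'.mul d).add (a'.mul e)).mul i).add ((JC.param ccl).mul
      (((a'.mul d).mul i).mul ((a'.mul d).mul i)))
    simpa only [eta1, sq] using this
  have hv : (fun x => -(y ν)⁻¹ * bx1r q ν x) = fun x => 2 * eta1 u u' (w 0) (w' 0) (cl 0) x := by
    funext x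
    simp only [eta1, w, w', c0, add_zero, W0, zero_mul]
    have h3 := discr c ν
    have := y0.ne'
    simp only [u, u', Bl, Bl', bx1r]
    field_simp
    linear_combination (-2 * phr q ν x * phr' q ν x) * (y2.trans h3)
  refine ⟨-(y ν)⁻¹, neg_ne_zero.2 (inv_ne_zero y0.ne'), ?_⟩
  rw [hv]
  have CI := fun t => (D t).cinf hq (cl t)
  refine ⟨(Cinf.const 2).mul (CI 0),
    fun t x => q x + 2 * cl t * eta1 u u' (w t) (w' t) (cl t) x, fun t => ?_, ?_, fun k => ?_⟩
  · simpa only [add_sub_cancel_left] using (D t).mem_iso hq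
  · funext x; simp [c0]
  · have h1 := unif_of_jc (F := fun t x => 2 * iteratedDeriv k (eta1 u u' (w t) (w' t) (cl t)) x)
      (continuous_const.mul (J k).iter) (fun t x => by simp only [((CI t).iter k).2 x]) 0
    have hk : (k : WithTop ℕ∞) ≤ ∞ := by exact_mod_cast le_top
    have e : ∀ (a : ℝ) t x, iteratedDeriv k (fun x => a * eta1 u u' (w t) (w' t) (cl t) x) x =
        a * iteratedDeriv k (eta1 u u' (w t) (w' t) (cl t)) x := fun a t x =>
      iteratedDeriv_const_mul a ((CI t).1.of_le hk).contDiffAt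
    rw [show iteratedDeriv k (fun x => 2 * eta1 u u' (w 0) (w' 0) (cl 0) x) = _ from
      funext (e 2 0)]
    rw [Metric.tendstoUniformly_iff] at h1 ⊢
    intro ε hε
    filter_upwards [nhdsWithin_le_nhds (h1 ε hε), nhdsWithin_le_nhds hcl0, self_mem_nhdsWithin]
      with t h2 h3 h4 x
    have h5 : t ≠ 0 := h4
    rw [iteratedDeriv_fun_add (hq.1.of_le hk).contDiffAt
      (contDiff_const.mul ((CI t).1.of_le hk)).contDiffAt, e, add_sub_cancel_left]
    convert h2 x using 2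
    rw [h3]; field_simp

end Pool.Agent.P.MP_aabf10_an
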