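import Pool.Agent.P.MP_aabf10_an.Asym

/-!
# Comparison of amplitudes with gap lengths; rapid decay
-/

open scoped ContDiff Topology Real
open Filter Finset Set MeasureTheory

namespace Pool.Agent.P.MP_aabf10_an

variable {q : ℝ → ℝ}

theorem exists_const {f g : ℕ → ℝ} (hg : ∀ j, 0 ≤ g j) (h0 : ∀ j, g j = 0 → f j ≤ 0) {C : ℝ}
    (h : ∀ᶠ j in atTop, f j ≤ C * g j) : ∃ D, 0 < D ∧ ∀ j, f j ≤ D * g j := by
  obtain ⟨N, hN⟩ := eventually_atTop.1 h
  refine ⟨|C| + 1 + ∑ i ∈ range N, |f i / g i|, by positivity, fun j => ?_⟩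
  have hs : 0 ≤ ∑ i ∈ range N, |f i / g i| := sum_nonneg fun _ _ => abs_nonneg _
  rcases lt_or_ge j N with hj | hj
  · rcases (hg j).eq_or_lt with e | e
    · rw [← e, mul_zero]; exact h0 j e.symm
    · have h1 := single_le_sum (f := fun i => |f i / g i|) (fun _ _ => abs_nonneg _)
        (mem_range.2 hj)
      have h2 : f j / g j ≤ |C| + 1 + ∑ i ∈ range N, |f i / g i| := by
        linarith [le_abs_self (f j / g j), abs_nonneg C]
      rwa [div_le_iff₀ e] at h2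
  · refine (hN j hj).trans (mul_le_mul_of_nonneg_right ?_ (hg j))
    linarith [le_abs_self C]

theorem ev_large (Q : ℝ) : ∀ᶠ j : ℕ in atTop, Q ≤ j :=
  tendsto_natCast_atTop_atTop.eventually (eventually_ge_atTop Q)

theorem om_nonneg (q : ℝ → ℝ) (mu : ℕ → ℝ) (j : ℕ) : 0 ≤ om q mu j := by unfold om; positivity

theorem om_eq_zero {Q : ℝ} {mu : ℕ → ℝ} (h : IsDir q Q mu) {j : ℕ} (hj : 1 ≤ j) :
    om q mu j = 0 ↔ Dbl q (mu j) := by
  have hb := (h.zero_iff _).2 ⟨j, hj, rfl⟩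
  have hj' : (0 : ℝ) < j := by exact_mod_cast hj
  constructor
  · intro e
    unfold om at e
    have h1 : 0 ≤ (j : ℝ) * |Nr q (mu j)| := by positivity
    have h2 := abs_nonneg (cr q (mu j))
    refine ⟨hb, abs_eq_zero.1 (by linarith), abs_eq_zero.1 ?_⟩
    exact (mul_eq_zero.1 (by linarith : (j : ℝ) * |Nr q (mu j)| = 0)).resolve_left hj'.ne'
  · rintro ⟨-, h1, h2⟩; simp [om, h1, h2]

/-- gap lengths -/
noncomputable def ell (al be : ℕ → ℝ) (j : ℕ) : ℝ := if j = 0 then 0 else be j - al j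

theorem IsGap.ell_nonneg {mu al be : ℕ → ℝ} (g : IsGap q mu al be) (j : ℕ) : 0 ≤ ell al be j := by
  unfold ell
  split_ifs with h
  · exact le_rfl
  · linarith [g.al_le j (by omega), g.le_be j]

theorem ell_succ (al be : ℕ → ℝ) (j : ℕ) : ell al be (j + 1) = be (j + 1) - al (j + 1) := by
  simp [ell]

theorem om_ell (hq : Continuous q) {Q : ℝ} (hQ1 : 1 ≤ Q) (hQ : ∀ x, |q x| ≤ Q)
    {mu al be : ℕ → ℝ} (h : IsDir q Q mu) (g : IsGap q mu al be) : ∃ D, 0 < D ∧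
    ∀ j, om q mu (j + 1) ≤ D * ell al be (j + 1) ∧ ell al be (j + 1) ≤ D * om q mu (j + 1) := by
  have ev : ∀ᶠ j : ℕ in atTop, 200 * Q ≤ ((j + 1 : ℕ) : ℝ) := by
    filter_upwards [ev_large (200 * Q)] with j hj
    push_cast; linarith
  obtain ⟨D1, p1, h1⟩ := exists_const (f := fun j => om q mu (j + 1))
    (g := fun j => ell al be (j + 1)) (fun j => g.ell_nonneg _) (fun j e => by
      rw [ell_succ, sub_eq_zero] at e
      exact ((om_eq_zero h (by omega)).2 ((g.dbl _ (by omega)).2 e.symm)).le) (C := 4)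
      (ev.mono fun j hj => by rw [ell_succ]; exact (gap_size hq hQ1 hQ h g hj).1)
  obtain ⟨D2, p2, h2⟩ := exists_const (f := fun j => ell al be (j + 1))
    (g := fun j => om q mu (j + 1)) (fun j => om_nonneg _ _ _) (fun j e => by
      rw [ell_succ, (g.dbl _ (by omega)).1 ((om_eq_zero h (by omega)).1 e), sub_self]) (C := 120)
      (ev.mono fun j hj => by rw [ell_succ]; exact (gap_size hq hQ1 hQ h g hj).2)
  refine ⟨max D1 D2, lt_max_of_lt_left p1, fun j => ⟨(h1 j).trans ?_, (h2 j).trans ?_⟩⟩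
  · exact mul_le_mul_of_nonneg_right (le_max_left _ _) (g.ell_nonneg _)
  · exact mul_le_mul_of_nonneg_right (le_max_right _ _) (om_nonneg _ _ _)

theorem bd_real (hq : Continuous q) {Q : ℝ} (hQ : ∀ x, |q x| ≤ Q) {k : ℝ} (hk0 : 0 < k)
    (hk : 2 * Q ≤ k) {x : ℝ} (hx : x ∈ Icc (0 : ℝ) 1) :
    |thr q (k ^ 2) x| ≤ 2 ∧ |thr' q (k ^ 2) x| ≤ 2 * k ∧ |phr q (k ^ 2) x| ≤ 2 / k ∧
      |phr' q (k ^ 2) x| ≤ 2 := by
  have hn : ‖(k : ℂ)‖ = k := by simp [abs_of_pos hk0]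
  have := est_bd hq hQ (k := k) (by exact_mod_cast hk0.ne') (by rw [hn]; exact hk) hx
  rw [hn, ← Complex.ofReal_pow, th_real hq, th'_real hq, ph_real hq, ph'_real hq] at this
  simpa using this

theorem abs_int_le {f : ℝ → ℝ} {C : ℝ} (h : ∀ x ∈ Icc (0 : ℝ) 1, |f x| ≤ C) :
    |∫ x in (0 : ℝ)..1, f x| ≤ C := by
  have := intervalIntegral.norm_integral_le_of_norm_le_const (a := 0) (b := 1) (C := C) (f := f)
    (fun x hx => h x (by rw [uIoc_of_le zero_le_one] at hx; exact ⟨hx.1.le, hx.2⟩))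
  simpa using this

theorem J_bound (hq : Continuous q) {Q : ℝ} (hQ : ∀ x, |q x| ≤ Q) {k : ℝ} (hk0 : 0 < k)
    (hk : 2 * Q ≤ k) {h : ℝ → ℝ} {H : ℝ} (hH : ∀ x, |h x| ≤ H) :
    |J2 q (k ^ 2) h| ≤ 4 * H / k ^ 2 ∧ |J1 q (k ^ 2) h| ≤ 4 * H / k := by
  have H0 : 0 ≤ H := (abs_nonneg _).trans (hH 0)
  constructor
  · refine abs_int_le fun x hx => ?_
    obtain ⟨-, -, c, -⟩ := bd_real hq hQ hk0 hk hx
    rw [abs_mul, abs_mul]
    calc _ ≤ H * (2 / k * (2 / k)) := mul_le_mul (hH x)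
          (mul_le_mul c c (abs_nonneg _) (by positivity)) (by positivity) H0
      _ = _ := by field_simp; ring
  · refine abs_int_le fun x hx => ?_
    obtain ⟨a, -, c, -⟩ := bd_real hq hQ hk0 hk hx
    rw [abs_mul, abs_mul]
    calc _ ≤ H * (2 * (2 / k)) := mul_le_mul (hH x)
          (mul_le_mul a c (abs_nonneg _) (by positivity)) (by positivity) H0
      _ = _ := by field_simp; ring

theorem IsDir.large_facts' (hq : Continuous q) {Q : ℝ} (hQ1 : 1 ≤ Q) (hQ : ∀ x, |q x| ≤ Q)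
    {mu : ℕ → ℝ} (h : IsDir q Q mu) {j : ℕ} (hj : 200 * Q ≤ j) :
    ∃ k : ℝ, k ^ 2 = mu j ∧ 3 * j - 1 ≤ k ∧ k ≤ 4 * j ∧ 400 * Q ≤ k ∧ |k - j * π| ≤ Q / k ∧
      1 / 2 ≤ |dr q (mu j)| ∧ |dr q (mu j)| ≤ 2 ∧ 1 / (6 * k ^ 2) ≤ J2 q (mu j) 1 := by
  obtain ⟨k, hk2, hk3, hk4, hk5, hk6⟩ := h.large_facts hQ1 hj
  have hj1' : (1 : ℝ) ≤ j := by linarith
  have hj1 : 1 ≤ j := by exact_mod_cast hj1'
  have hk0 : 0 < k := by linarith
  have hb : br q (mu j) = 0 := (h.zero_iff _).2 ⟨j, hj1, rfl⟩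
  obtain ⟨a, -, -, d⟩ := bd_real hq hQ hk0 (by linarith) (x := 1) (by simp)
  rw [hk2] at a d
  have had := congrArg abs (ar_mul_dr hq hb)
  rw [abs_mul, abs_one] at had
  refine ⟨k, hk2, hk3, hk4, hk5, hk6, ?_, d, ?_⟩
  · have a' : |ar q (mu j)| ≤ 2 := a
    nlinarith [abs_nonneg (dr q (mu j))]
  · obtain ⟨⟨b', h1, h2⟩, -, -⟩ := deriv_est hq hQ (k := k) (by linarith)
    have h3 := (hasDerivAt_id k).fun_mul
      ((br_hasDerivAt hq (k ^ 2)).comp k (hasDerivAt_pow 2 k))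
    have e := h1.unique h3
    simp only [Function.comp, id, hk2, hb] at e
    have hQk : Q / k ≤ 1 / 400 := by rw [div_le_iff₀ hk0]; linarith
    have hcos : 9 / 10 ≤ |Real.cos k| := by
      have h4 := Real.one_sub_sq_div_two_le_cos (x := k - j * π)
      have h5 := abs_le.1 (hk6.trans hQk)
      have h6 := le_abs_self (Real.cos (k - j * π))
      rw [Real.cos_sub_nat_mul_pi, abs_mul, abs_pow, abs_neg, abs_one, one_pow, one_mul] at h6
      rw [Real.cos_sub_nat_mul_pi] at h4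
      nlinarith
    have h7 : 8 / 10 ≤ |b'| := by
      have := abs_sub b' (b' - Real.cos k)
      rw [sub_sub_cancel] at this
      have e2 : 12 * Q / k = 12 * (Q / k) := by ring
      linarith
    have hJ := J2_pos hq (mu j)
    have e3 : |b'| = 2 * k ^ 2 * (|ar q (mu j)| * J2 q (mu j) 1) := by
      rw [e, show (1 : ℝ) * 0 + k * ((ar q (mu j) * J2 q (mu j) 1 - 0 * J1 q (mu j) 1) *
        ((2 : ℕ) * k ^ (2 - 1))) = (2 * k ^ 2 * J2 q (mu j) 1) * ar q (mu j) by push_cast; ring,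
        abs_mul, abs_of_pos (by positivity)]
      ring
    have a' : |ar q (mu j)| ≤ 2 := a
    rw [div_le_iff₀ (by positivity)]
    nlinarith [mul_le_mul_of_nonneg_right a' (by positivity : 0 ≤ k ^ 2 * J2 q (mu j) 1)]

theorem PP_lower (q : ℝ → ℝ) (m : ℕ) : ∀ᶠ t : ℝ in atTop, t ^ m ≤ (PP q m).eval t := by
  induction m with
  | zero => simp [PP]
  | succ m ih =>
    filter_upwards [ih, eventually_ge_atTop 0, (tendsto_pow_atTop (Nat.succ_ne_zero m)).eventually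
      (eventually_ge_atTop |gradH q (m + 1) 0|)] with t h1 h2 h3
    simp only [PP, Polynomial.eval_add, Polynomial.eval_C, Polynomial.eval_mul, Polynomial.eval_X]
    have := mul_le_mul_of_nonneg_left h1 h2
    rw [pow_succ] at h3 ⊢
    linarith [neg_abs_le (gradH q (m + 1) 0)]

theorem om_decay (hq : Cinf q) {Q : ℝ} (hQ1 : 1 ≤ Q) (hQ : ∀ x, |q x| ≤ Q) {mu : ℕ → ℝ}
    (h : IsDir q Q mu) (K : ℕ) : Summable fun j : ℕ => (j : ℝ) ^ K * om q mu j := by
  obtain ⟨C, hC⟩ := h.exists_bound (by linarith)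
  obtain ⟨H, H1, hH⟩ := exists_bound_periodic (locX_cinf hq (K + 1 + 1)).cont
    (locX_cinf hq (K + 1 + 1)).2
  refine Summable.of_norm_bounded_eventually_nat (g := fun j => 12 * H * (1 / (j : ℝ) ^ 2))
    ((Real.summable_one_div_nat_pow.2 one_lt_two).mul_left _) ?_
  filter_upwards [ev_large (200 * Q), (tendsto_of_bound hC).eventually (PP_lower q (K + 1))]
    with j hj hP
  obtain ⟨k, hk2, hk3, hk4, hk5, -, d1, -, -⟩ := h.large_facts' hq.cont hQ1 hQ hj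
  have hj1' : (1 : ℝ) ≤ j := by linarith
  have hj1 : 1 ≤ j := by exact_mod_cast hj1'
  have hk0 : 0 < k := by linarith
  have hjk : (j : ℝ) ≤ k := by linarith
  obtain ⟨e2, e1⟩ := J_locX hq ((h.zero_iff _).2 ⟨j, hj1, rfl⟩) (K + 1)
  obtain ⟨b2, b1⟩ := J_bound hq.cont hQ hk0 (by linarith) hH
  rw [hk2] at b1
  rw [show J2 q (k ^ 2) = J2 q (mu j) by rw [hk2]] at b2
  set P := (PP q (K + 1)).eval (mu j)
  have hP2 : (j : ℝ) ^ K * j ^ 2 ≤ P := by
    refine le_trans ?_ hP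
    rw [← hk2, ← pow_mul, ← pow_add]
    exact (pow_le_pow_left₀ (by linarith) hjk _).trans (pow_le_pow_right₀ (by linarith) (by omega))
  have hP0 : 0 < P := lt_of_lt_of_le (by positivity) hP2
  rw [e2, abs_mul, abs_neg, abs_mul, abs_mul, abs_two, abs_of_pos hP0] at b2
  rw [e1, abs_mul, abs_neg, abs_mul, abs_of_pos hP0] at b1
  have c2 : (j : ℝ) * |Nr q (mu j)| * P ≤ 4 * H := by
    have h1 : |Nr q (mu j)| * P ≤ 4 * H / k ^ 2 := by
      nlinarith [mul_nonneg (abs_nonneg (Nr q (mu j))) hP0.le]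
    have h2 : (j : ℝ) ≤ k ^ 2 := by nlinarith
    rw [le_div_iff₀ (by positivity)] at h1
    nlinarith [mul_nonneg (abs_nonneg (Nr q (mu j))) hP0.le]
  have c1 : |cr q (mu j)| * P ≤ 8 * H := by
    have h1 : 4 * H / k ≤ 4 * H := div_le_self (by linarith) (by linarith)
    nlinarith [mul_nonneg (abs_nonneg (cr q (mu j))) hP0.le]
  rw [Real.norm_eq_abs, abs_of_nonneg (mul_nonneg (by positivity) (om_nonneg _ _ _)),
    mul_one_div, le_div_iff₀ (by positivity)]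
  have := mul_le_mul_of_nonneg_left hP2 (om_nonneg q mu j)
  unfold om at *
  nlinarith

theorem ell_decay (hq : Cinf q) {Q : ℝ} (hQ1 : 1 ≤ Q) (hQ : ∀ x, |q x| ≤ Q) {mu al be : ℕ → ℝ}
    (h : IsDir q Q mu) (g : IsGap q mu al be) (K : ℕ) :
    Summable fun j : ℕ => (j : ℝ) ^ K * ell al be j := by
  obtain ⟨D, hD, H⟩ := om_ell hq.cont hQ1 hQ h g
  rw [← summable_nat_add_iff 1]
  refine Summable.of_nonneg_of_le (fun j => mul_nonneg (by positivity) (g.ell_nonneg _))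
    (fun j => ?_) (((summable_nat_add_iff 1).2 (om_decay hq hQ1 hQ h K)).mul_left D)
  have := mul_le_mul_of_nonneg_left (H j).2 (by positivity : (0 : ℝ) ≤ ((j + 1 : ℕ) : ℝ) ^ K)
  linarith

end Pool.Agent.P.MP_aabf10_an
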