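import Mathlib

/-!
# Hill's operator, its isospectral manifold and the local KdV vector fields: definitions
-/

open scoped ContDiff Topology Real
open Filter Finset

namespace Pool.Agent.P.MP_aabf10_an

/-- The class of real smooth functions of period one. -/
def Cinf (q : ℝ → ℝ) : Prop := ContDiff ℝ ∞ q ∧ Function.Periodic q 1

/-- Solutions of `-f'' + q f = t f` with `f (x + 1) = s * f x` (`s = 1` periodic, `s = -1`
anti-periodic). -/
def eigSpace (q : ℝ → ℝ) (s t : ℝ) : Submodule ℝ (ℝ → ℝ) where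
  carrier := {f | ContDiff ℝ 2 f ∧ (∀ x, -deriv (deriv f) x + q x * f x = t * f x) ∧
    ∀ x, f (x + 1) = s * f x}
  zero_mem' := ⟨contDiff_const, fun x => by simp, fun x => by simp⟩
  add_mem' := by
    rintro f g ⟨hf, hf1, hf2⟩ ⟨hg, hg1, hg2⟩
    refine ⟨hf.add hg, fun x => ?_, fun x => ?_⟩
    · have h1 : deriv (f + g) = deriv f + deriv g := by
        funext y
        exact deriv_add (hf.differentiable (by norm_num) y) (hg.differentiable (by norm_num) y)
      have hf' : Differentiable ℝ (deriv f) :=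
        (hf.iterate_deriv' 1 1).differentiable (by norm_num)
      have hg' : Differentiable ℝ (deriv g) :=
        (hg.iterate_deriv' 1 1).differentiable (by norm_num)
      rw [h1, deriv_add (hf' x) (hg' x)]
      simp only [Pi.add_apply]
      linarith [hf1 x, hg1 x]
    · simp only [Pi.add_apply, hf2 x, hg2 x]; ring
  smul_mem' := by
    rintro c f ⟨hf, hf1, hf2⟩
    refine ⟨hf.const_smul c, fun x => ?_, fun x => ?_⟩
    · have h1 : deriv (c • f) = c • deriv f := by
        funext y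
        exact deriv_const_smul c (hf.differentiable (by norm_num) y)
      have hf' : Differentiable ℝ (deriv f) :=
        (hf.iterate_deriv' 1 1).differentiable (by norm_num)
      rw [h1, deriv_const_smul c (hf' x)]
      simp only [Pi.smul_apply, smul_eq_mul]
      linear_combination c * hf1 x
    · simp only [Pi.smul_apply, smul_eq_mul, hf2 x]; ring

/-- Multiplicity of `t` as a periodic (`s = 1`) or anti-periodic (`s = -1`) eigenvalue. -/
noncomputable def mult (q : ℝ → ℝ) (s t : ℝ) : ℕ := Module.finrank ℝ (eigSpace q s t)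

/-- The isospectral manifold `M` of `q`. -/
def Iso (q : ℝ → ℝ) : Set (ℝ → ℝ) :=
  {p | Cinf p ∧ ∀ t, mult p 1 t = mult q 1 t ∧ mult p (-1) t = mult q (-1) t}

/-- `lam 0 ≤ lam 1 ≤ ...` lists the periodic and anti-periodic eigenvalues with multiplicity. -/
def IsEnum (q : ℝ → ℝ) (lam : ℕ → ℝ) : Prop :=
  Monotone lam ∧ ∀ t, {i | lam i = t}.encard = ((mult q 1 t + mult q (-1) t : ℕ) : ℕ∞)

/-- The operator `q D + D q - D^3 / 2`. -/
noncomputable def opK (q w : ℝ → ℝ) : ℝ → ℝ := fun x =>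
  q x * deriv w x + deriv (fun y => q y * w y) x - 1 / 2 * deriv (deriv (deriv w)) x

/-- `gradH q m = grad H_m`: `1, q, 3 q^2 / 2 - q'' / 2, ...`, the differential polynomials without
constant term with `D (gradH q (m + 1)) = opK q (gradH q m)`. -/
noncomputable def gradH (q : ℝ → ℝ) : ℕ → ℝ → ℝ
  | 0 => fun _ => 1
  | m + 1 => fun x =>
      1 / 2 * (∑ i : Fin (m + 1),
        (2 * q x * gradH q i x * gradH q (m - i) x
          - gradH q i x * deriv (deriv (gradH q (m - i))) x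
          + 1 / 2 * deriv (gradH q i) x * deriv (gradH q (m - i)) x)
        - ∑ i : Fin m, gradH q (i + 1) x * gradH q (m - i) x)
decreasing_by all_goals omega

/-- The local vector field `X_m q = (q D + D q - D^3 / 2) grad H_(m-1)`, `m ≥ 1`. -/
noncomputable def locX (q : ℝ → ℝ) (m : ℕ) : ℝ → ℝ := opK q (gradH q (m - 1))

/-- `v` is the velocity at `p`, in the smooth topology, of a curve in `M` through `p`. -/
def Tangent (M : Set (ℝ → ℝ)) (p v : ℝ → ℝ) : Prop :=
  Cinf v ∧ ∃ γ : ℝ → ℝ → ℝ, (∀ t, γ t ∈ M) ∧ γ 0 = p ∧ ∀ k : ℕ,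
    TendstoUniformly (fun t x => (iteratedDeriv k (γ t) x - iteratedDeriv k p x) / t)
      (iteratedDeriv k v) (𝓝[≠] 0)

/-- The local fields span the tangent space of `M` at `p` (closure in `L^2 [0, 1]`). -/
def SpansAt (M : Set (ℝ → ℝ)) (p : ℝ → ℝ) : Prop :=
  ∀ v, Tangent M p v → ∀ ε > 0, ∃ (n : ℕ) (c : ℕ → ℝ),
    ∫ x in (0 : ℝ)..1, (v x - ∑ m ∈ range n, c m * locX p (m + 1) x) ^ 2 < ε

/-- Fourier coefficient of a function of period one. -/
noncomputable def fc (f : ℝ → ℝ) (n : ℕ) : ℂ :=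
  ∫ x in (0 : ℝ)..1, (f x : ℂ) * Complex.exp (-(2 * π * n * x : ℝ) * Complex.I)

/-- The class of mean-zero smooth periodic functions with `∑ |fc f n|^2 / (w n)^2 < ∞`
(`fc f n = 0` where `w n = 0`). -/
def InClass (w : ℕ → ℝ) (f : ℝ → ℝ) : Prop :=
  Cinf f ∧ fc f 0 = 0 ∧ ∃ s : ℕ → ℝ, Summable (fun n => s n ^ 2) ∧
    ∀ n, 1 ≤ n → ‖fc f n‖ ≤ s n * w n

/-- All derivatives vanish at the origin. -/
def Flat (f : ℝ → ℝ) : Prop := ∀ k : ℕ, iteratedDeriv k f 0 = 0

/-- Every unit vector on the support of `w` is an `l^2`-limit of weighted polynomial values at the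
nodes `a n`. -/
def Dens (a w : ℕ → ℝ) : Prop :=
  ∀ n₀, w n₀ ≠ 0 → ∀ ε > 0, ∃ p : Polynomial ℝ, p.eval (a n₀) = 1 ∧
    ∀ T : Finset ℕ, n₀ ∉ T → ∑ n ∈ T, (w n * p.eval (a n)) ^ 2 ≤ ε

end Pool.Agent.P.MP_aabf10_an
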