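import Pool.Agent.P.MP_aabf10_an.Defs

/-!
# The Lenard recursion and spanning by the local fields: definitions
-/

namespace Pool.Agent.P.MP_aabf10_an

/-- `G m = grad H_m`: `G 0 = 1` and `D (G (m + 1)) = (p D + D p - D^3 / 2) (G m)`, with any choice
of the constants of integration. -/
def IsLenard (p : ℝ → ℝ) (G : ℕ → ℝ → ℝ) : Prop :=
  (∀ x, G 0 x = 1) ∧ ∀ m, Cinf (G m) ∧ deriv (G (m + 1)) = opK p (G m)

/-- Every tangent vector of `M` at `p` lies in the `L^2 [0, 1]` closure of the linear span of the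
local fields `X_(m+1) p = (p D + D p - D^3 / 2) (G m)`. -/
def SpansL2 (M : Set (ℝ → ℝ)) (p : ℝ → ℝ) (G : ℕ → ℝ → ℝ) : Prop :=
  ∀ v, Tangent M p v → ∀ ε > 0, ∃ w ∈ Submodule.span ℝ (Set.range fun m => opK p (G m)),
    ∫ x in (0 : ℝ)..1, (v x - w x) ^ 2 < ε

end Pool.Agent.P.MP_aabf10_an
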