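import Pool.Agent.P.MP_aabf10_an.Defs2

/-!
# Uniform spanning and quasi-analyticity of the isospectral manifold: definitions
-/

namespace Pool.Agent.P.MP_aabf10_an

/-- Every tangent vector of `M` at `p` lies in the uniform closure of the linear span of the
local fields `X_(m+1) p = (p D + D p - D^3 / 2) (G m)`. -/
def SpansSup (M : Set (ℝ → ℝ)) (p : ℝ → ℝ) (G : ℕ → ℝ → ℝ) : Prop :=
  ∀ v, Tangent M p v → ∀ ε > 0, ∃ w ∈ Submodule.span ℝ (Set.range fun m => opK p (G m)),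
    ∀ x, |v x - w x| < ε

/-- Members of `M` are determined by their Taylor series at the origin. -/
def QuasiAn (M : Set (ℝ → ℝ)) : Prop :=
  ∀ p ∈ M, ∀ r ∈ M, (∀ k : ℕ, iteratedDeriv k p 0 = iteratedDeriv k r 0) → p = r

/-- The class of mean-zero smooth periodic functions with `|fc f n| ≤ C * w n`. -/
def InClassSup (w : ℕ → ℝ) (f : ℝ → ℝ) : Prop :=
  Cinf f ∧ fc f 0 = 0 ∧ ∃ C : ℝ, ∀ n, 1 ≤ n → ‖fc f n‖ ≤ C * w n

/-- Every unit vector on the support of `w` is an `l^1`-limit of weighted polynomial values at the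
nodes `a n`. -/
def Dens1 (a w : ℕ → ℝ) : Prop :=
  ∀ n₀, w n₀ ≠ 0 → ∀ ε > 0, ∃ p : Polynomial ℝ, p.eval (a n₀) = 1 ∧
    ∀ T : Finset ℕ, n₀ ∉ T → ∑ n ∈ T, |w n * p.eval (a n)| ≤ ε

end Pool.Agent.P.MP_aabf10_an
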