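import Mathlib

/-!
# The canonical product over a set of lacunae: definition
-/

namespace Pool.Agent.P.MP_aabf10_an

/-- The infinite product of `1 - n ^ 2 / m ^ 2` over all `m ∈ N` with `m ≠ n`. -/
noncomputable def gapProd (N : Set ℕ) (n : ℕ) : ℝ :=
  ∏' m : ↥(N \ {n}), (1 - (n : ℝ) ^ 2 / ((m : ℕ) : ℝ) ^ 2)

end Pool.Agent.P.MP_aabf10_an
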