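import Pool.Agent.P.MP_aabf10_an.Defs4

/-!
# Canonical annihilators of the polynomials at the nodes `n ^ 2`
-/

open scoped Topology Classical
open Filter Finset

namespace Pool.Agent.P.MP_aabf10_an

/-- the nodes -/
noncomputable def xx (n : ℕ) : ℝ := (n : ℝ) ^ 2

lemma xx_nonneg (n : ℕ) : 0 ≤ xx n := sq_nonneg _
lemma xx_pos {n : ℕ} (h : n ≠ 0) : 0 < xx n := by unfold xx; positivity
lemma xx_mono : StrictMono xx := fun a b h =>
  pow_lt_pow_left₀ (by exact_mod_cast h) (by positivity) two_ne_zero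
lemma xx_injOn (S : Set ℕ) : Set.InjOn xx S := xx_mono.injective.injOn
lemma xx_summable : Summable fun m => 1 / xx m := Real.summable_one_div_nat_pow.2 one_lt_two

/-- the factors of the canonical product, minus one -/
noncomputable def fa (N : Set ℕ) (n m : ℕ) : ℝ := if m ∈ N ∧ m ≠ n then -(xx n / xx m) else 0

lemma gapProd_eq (N : Set ℕ) (n : ℕ) : gapProd N n = ∏' m, (1 + fa N n m) := by
  unfold gapProd
  rw [tprod_subtype (N \ {n}) fun m : ℕ => 1 - (n : ℝ) ^ 2 / (m : ℝ) ^ 2]
  refine tprod_congr fun m => ?_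
  by_cases h : m ∈ N ∧ m ≠ n
  · rw [Set.mulIndicator_of_mem (by simpa using h), fa, if_pos h, xx, xx]; ring
  · rw [Set.mulIndicator_of_notMem (by simpa using h), fa, if_neg h, add_zero]

lemma fa_bound (N : Set ℕ) (n m : ℕ) : ‖fa N n m‖ ≤ xx n * (1 / xx m) := by
  have := xx_nonneg n
  have := xx_nonneg m
  unfold fa
  split_ifs
  · rw [norm_neg, Real.norm_of_nonneg (by positivity), mul_one_div]
  · rw [norm_zero]; positivity

lemma fa_summable (N : Set ℕ) (n : ℕ) : Summable fun m => ‖fa N n m‖ :=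
  .of_nonneg_of_le (fun _ => norm_nonneg _) (fa_bound N n) (xx_summable.mul_left _)

lemma fa_multipliable (N : Set ℕ) (n : ℕ) : Multipliable fun m => 1 + fa N n m :=
  multipliable_one_add_of_summable (fa_summable N n)

lemma one_sub_ne {n m : ℕ} (h : m ≠ n) : 1 - xx n / xx m ≠ 0 := by
  rcases eq_or_ne m 0 with rfl | hm
  · simp [xx]
  · rw [sub_ne_zero, ne_comm, Ne, div_eq_one_iff_eq (xx_pos hm).ne']
    exact fun e => h (xx_mono.injective e).symm

lemma gapProd_ne (N : Set ℕ) (n : ℕ) : gapProd N n ≠ 0 := by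
  rw [gapProd_eq]
  refine tprod_one_add_ne_zero_of_summable (fun m => ?_) (fa_summable N n)
  unfold fa
  split_ifs with h
  · rw [← sub_eq_add_neg]; exact one_sub_ne h.2
  · simp

lemma gapProd_fin (S : Finset ℕ) (n : ℕ) :
    gapProd (S : Set ℕ) n = ∏ m ∈ S.erase n, (1 - xx n / xx m) := by
  rw [gapProd_eq, tprod_eq_prod (s := S.erase n) fun m hm => by
    rw [fa, if_neg (by simpa [and_comm] using hm), add_zero]]
  refine prod_congr rfl fun m hm => ?_
  rw [fa, if_pos (by simpa [and_comm] using hm), sub_eq_add_neg]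

lemma gapProd_insert {N : Set ℕ} {y n : ℕ} (hy : y ∉ N) (hn : n ≠ y) :
    gapProd (insert y N) n = gapProd N n * (1 - xx n / xx y) := by
  have h1 : HasProd (fun m => if m = y then 1 - xx n / xx y else 1) (1 - xx n / xx y) :=
    hasProd_ite_eq y _
  rw [gapProd_eq, gapProd_eq, ← h1.tprod_eq, ← (fa_multipliable N n).tprod_mul h1.multipliable]
  refine tprod_congr fun m => ?_
  by_cases h : m = y
  · subst h
    simp [fa, hy, hn.symm, sub_eq_add_neg]
  · simp [fa, h]

/-- the canonical annihilator with support `N` -/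
noncomputable def cn (N : Set ℕ) (n : ℕ) : ℝ := if n ∈ N then xx n / gapProd N n else 0

lemma cn_ne {N : Set ℕ} {n : ℕ} (h : n ∈ N) (h0 : n ≠ 0) : cn N n ≠ 0 := by
  rw [cn, if_pos h]; exact div_ne_zero (xx_pos h0).ne' (gapProd_ne N n)

lemma cn_zero {N : Set ℕ} {n : ℕ} (h : n ∉ N) : cn N n = 0 := if_neg h

lemma cn_tendsto {α : Type} {F : Filter α} {M : α → Set ℕ} {N : Set ℕ}
    (h : ∀ m, ∀ᶠ a in F, (m ∈ M a ↔ m ∈ N)) (n : ℕ) :
    Tendsto (fun a => cn (M a) n) F (𝓝 (cn N n)) := by
  have h1 : Tendsto (fun a => gapProd (M a) n) F (𝓝 (gapProd N n)) := by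
    simp only [gapProd_eq]
    refine tendsto_tprod_one_add_of_dominated_convergence (xx_summable.mul_left (xx n))
      (fun m => tendsto_const_nhds.congr' ?_) (.of_forall fun a m => fa_bound _ n m)
    filter_upwards [h m] with a ha
    simp only [fa, ha]
  by_cases hn : n ∈ N
  · rw [cn, if_pos hn]
    refine (tendsto_const_nhds.div h1 (gapProd_ne N n)).congr' ?_
    filter_upwards [h n] with a ha
    simp [cn, ha, hn]
  · rw [cn_zero hn]
    refine tendsto_const_nhds.congr' ?_
    filter_upwards [h n] with a ha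
    simp [cn, ha, hn]

/-- annihilation of the powers up to `K` on a finite set -/
def AnnF (S : Finset ℕ) (d : ℕ → ℝ) (K : ℕ) : Prop := ∀ k ≤ K, ∑ n ∈ S, d n * xx n ^ k = 0

lemma cn_fin {S : Finset ℕ} (h0 : 0 ∉ S) {K : ℕ} (hK : K + 2 ≤ S.card) :
    AnnF S (cn S) K := by
  intro k hk
  have h1 := Lagrange.coeff_eq_sum (xx_injOn S) (P := Polynomial.X ^ k) (by
    rw [Polynomial.degree_X_pow]; exact_mod_cast (by omega : k < S.card))
  rw [Polynomial.coeff_X_pow, if_neg (by omega)] at h1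
  have h2 : ∑ n ∈ S, cn S n * xx n ^ k = -(∏ m ∈ S, -xx m) *
      ∑ n ∈ S, (Polynomial.X ^ k).eval (xx n) / ∏ m ∈ S.erase n, (xx n - xx m) := by
    rw [mul_sum]
    refine sum_congr rfl fun n hn => ?_
    have h3 : ∏ m ∈ S.erase n, (1 - xx n / xx m) =
        (∏ m ∈ S.erase n, (xx n - xx m)) / ∏ m ∈ S.erase n, -xx m := by
      rw [← prod_div_distrib]
      refine prod_congr rfl fun m hm => ?_
      have := (xx_pos (n := m) fun e => h0 (e ▸ mem_of_mem_erase hm)).ne'
      field_simp
      ring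
    rw [cn, if_pos (by exact_mod_cast hn), gapProd_fin, h3, ← mul_prod_erase S _ hn, div_div_eq_mul_div]
    simp only [Polynomial.eval_pow, Polynomial.eval_X]
    ring
  rw [h2, ← h1, mul_zero]

lemma AnnF.poly {S : Finset ℕ} {d : ℕ → ℝ} {K : ℕ} (h : AnnF S d K) {p : Polynomial ℝ}
    (hp : p.natDegree ≤ K) : ∑ n ∈ S, d n * p.eval (xx n) = 0 := by
  simp only [Polynomial.eval_eq_sum_range' (Nat.lt_succ_of_le hp), mul_sum]
  rw [sum_comm]
  refine sum_eq_zero fun k hk => ?_
  have := h k (Nat.lt_succ_iff.1 (mem_range.1 hk))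
  calc _ = p.coeff k * ∑ n ∈ S, d n * xx n ^ k := by
        rw [mul_sum]; exact sum_congr rfl fun n _ => by ring
    _ = 0 := by rw [this, mul_zero]

lemma AnnF.eq_zero {S : Finset ℕ} {d : ℕ → ℝ} {K : ℕ} (h : AnnF S d K) (hK : S.card ≤ K + 1)
    {n : ℕ} (hn : n ∈ S) : d n = 0 := by
  have h1 := h.poly (p := Lagrange.basis S xx n) (by
    rw [Lagrange.natDegree_basis (xx_injOn S) hn]; omega)
  rw [sum_eq_single n (fun m hm hmn => by rw [Lagrange.eval_basis_of_ne hmn.symm hm, mul_zero])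
    (fun h => absurd hn h), Lagrange.eval_basis_self (xx_injOn S) hn, mul_one] at h1
  exact h1

lemma abs_gapProd_le (N : Set ℕ) {n M : ℕ} (hn : n < M) :
    |gapProd N n| ≤ |gapProd (((range M).filter (· ∈ N) : Finset ℕ) : Set ℕ) n| := by
  have h1 : gapProd (((range M).filter (· ∈ N) : Finset ℕ) : Set ℕ) n =
      ∏ m ∈ range M, (1 + fa N n m) := by
    rw [gapProd_eq, tprod_eq_prod (s := range M) fun m hm => by
      rw [fa, if_neg (fun h => hm (mem_filter.1 (mem_coe.1 h.1)).1), add_zero]]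
    refine prod_congr rfl fun m hm => ?_
    simp [fa, mem_range.1 hm]
  have h2 := ((fa_multipliable N n).hasProd.tendsto_prod_nat).abs
  rw [← gapProd_eq] at h2
  rw [h1]
  refine le_of_tendsto h2 ?_
  filter_upwards [eventually_ge_atTop M] with L hL
  induction L, hL using Nat.le_induction with
  | base => exact le_rfl
  | succ L hL ih =>
    rw [prod_range_succ, abs_mul]
    refine (mul_le_of_le_one_right (abs_nonneg _) ?_).trans ih
    have h3 : xx n / xx L ≤ 1 := div_le_one_of_le₀ (xx_mono.monotone (by omega)) (xx_nonneg _)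
    have h4 : 0 ≤ xx n / xx L := div_nonneg (xx_nonneg _) (xx_nonneg _)
    unfold fa
    split_ifs
    · rw [abs_le]; constructor <;> linarith
    · simp

/-- The canonical sequence of an infinite set annihilates all powers once it decays fast. -/
theorem cn_ann {N : Set ℕ} (h0 : 0 ∉ N) (hN : N.Infinite) (k : ℕ)
    (hs : Summable fun n => |cn N n| * xx n ^ k) : HasSum (fun n => cn N n * xx n ^ k) 0 := by
  let S : ℕ → Finset ℕ := fun M => (range M).filter (· ∈ N)
  have hx : ∀ n, 0 ≤ xx n ^ k := fun n => pow_nonneg (xx_nonneg n) k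
  have h1 : Tendsto (fun M => ∑' n, cn (S M) n * xx n ^ k) atTop
      (𝓝 (∑' n, cn N n * xx n ^ k)) := by
    refine tendsto_tsum_of_dominated_convergence hs (fun n => (cn_tendsto (fun m => ?_) n).mul_const _)
      (.of_forall fun M n => ?_)
    · filter_upwards [eventually_gt_atTop m] with M hM
      simp [S, hM]
    · rw [norm_mul, Real.norm_of_nonneg (hx n), Real.norm_eq_abs]
      refine mul_le_mul_of_nonneg_right ?_ (hx n)
      by_cases hn : n ∈ (S M : Set ℕ)
      · have h2 := mem_filter.1 (mem_coe.1 hn)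
        rw [cn, cn, if_pos hn, if_pos h2.2, abs_div, abs_div]
        exact div_le_div_of_nonneg_left (abs_nonneg _) (abs_pos.2 (gapProd_ne _ _))
          (abs_gapProd_le N (mem_range.1 h2.1))
      · rw [cn_zero hn, abs_zero]; exact abs_nonneg _
  obtain ⟨T, hT, hc⟩ := hN.exists_subset_card_eq (k + 2)
  have h2 : ∀ᶠ M in atTop, ∑' n, cn (S M) n * xx n ^ k = 0 := by
    filter_upwards [eventually_gt_atTop (T.sup id)] with M hM
    rw [tsum_eq_sum (s := S M) fun n hn => by rw [cn_zero (by exact_mod_cast hn), zero_mul]]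
    refine cn_fin (fun h => h0 (mem_filter.1 h).2) (hc ▸ card_le_card fun m hm => ?_) k le_rfl
    exact mem_filter.2 ⟨mem_range.2 ((le_sup (f := id) hm).trans_lt hM), hT hm⟩
  have h3 := tendsto_nhds_unique h1 (tendsto_const_nhds.congr' (EventuallyEq.symm h2))
  rw [← h3]
  refine (Summable.of_norm ?_).hasSum
  simpa only [norm_mul, Real.norm_of_nonneg (hx _), Real.norm_eq_abs] using hs

end Pool.Agent.P.MP_aabf10_an
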