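import Pool.Agent.P.MP_aabf10_an.Dom1

/-!
# Every annihilator of the polynomials dominates a canonical one
-/

open scoped Topology Classical
open Filter Finset

namespace Pool.Agent.P.MP_aabf10_an

/-- one pivot step -/
lemma pivotStep {S T : Finset ℕ} {d a v : ℕ → ℝ} {K : ℕ} (hT : T ⊆ S) (hne : T.Nonempty)
    (hv : ∀ n ∈ S, 0 < v n) (hd : AnnF S d K) (ha : AnnF S a K) (h0 : ∀ n, n ∉ T → a n = 0)
    (h1 : ∀ n ∈ T, a n ≠ 0)
    (hs : 0 ≤ ∑ n ∈ S, (if 0 ≤ d n then 1 else -1) * a n / v n) :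
    ∃ n₁ ∈ T, ∃ d' : ℕ → ℝ, (∀ n, n ∉ T → d' n = d n) ∧ AnnF (S.erase n₁) d' K ∧
      ∑ n ∈ S.erase n₁, |d' n| / v n ≤ ∑ n ∈ S, |d n| / v n := by
  set s : ℕ → ℝ := fun n => if 0 ≤ d n then 1 else -1 with hsd
  have s1 : ∀ n, s n * d n = |d n| := fun n => by
    simp only [hsd]
    split_ifs with h
    · rw [abs_of_nonneg h, one_mul]
    · rw [abs_of_neg (not_le.1 h), neg_one_mul]
  have s2 : ∀ n t, 0 ≤ s n * t → |t| = s n * t := fun n t h => by
    simp only [hsd] at h ⊢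
    split_ifs at h ⊢
    · rw [one_mul] at h ⊢; exact abs_of_nonneg h
    · rw [neg_one_mul] at h ⊢; exact abs_of_nonpos (by linarith)
  have s3 : ∀ n, s n ≠ 0 := fun n => by simp only [hsd]; split_ifs <;> norm_num
  have hP : (T.filter fun n => 0 < s n * a n).Nonempty := by
    by_contra hc
    rw [not_nonempty_iff_eq_empty, filter_eq_empty_iff] at hc
    obtain ⟨m, hm⟩ := hne
    refine absurd hs (not_le.2 (sum_neg' (fun n hn => ?_) ⟨m, hT hm, ?_⟩))
    · by_cases h : n ∈ T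
      · exact div_nonpos_of_nonpos_of_nonneg (not_lt.1 (hc h)) (hv n hn).le
      · simp [h0 n h]
    · exact div_neg_of_neg_of_pos (lt_of_le_of_ne (not_lt.1 (hc hm))
        (mul_ne_zero (s3 m) (h1 m hm))) (hv m (hT hm))
  obtain ⟨n₁, hn₁, hmin⟩ := exists_min_image _ (fun n => |d n| / (s n * a n)) hP
  obtain ⟨hn₁, hp⟩ := mem_filter.1 hn₁
  set θ := |d n₁| / (s n₁ * a n₁) with hθ
  have hθ0 : 0 ≤ θ := div_nonneg (abs_nonneg _) hp.le
  have e1 : d n₁ - θ * a n₁ = 0 := by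
    have := s3 n₁
    have := h1 n₁ hn₁
    rw [hθ, ← s1]
    field_simp
    ring
  have e2 : ∀ n, |d n - θ * a n| = |d n| - θ * (s n * a n) := fun n => by
    have e : s n * (d n - θ * a n) = |d n| - θ * (s n * a n) := by rw [← s1]; ring
    rw [← e]
    refine s2 _ _ ?_
    rw [e]
    by_cases h : n ∈ T ∧ 0 < s n * a n
    · have := hmin n (mem_filter.2 h)
      rw [le_div_iff₀ h.2] at this
      linarith
    · have h3 : s n * a n ≤ 0 := by
        by_cases h' : n ∈ T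
        · exact not_lt.1 fun h'' => h ⟨h', h''⟩
        · simp [h0 n h']
      nlinarith [abs_nonneg (d n)]
  refine ⟨n₁, hn₁, fun n => d n - θ * a n, fun n hn => by simp [h0 n hn], fun k hk => ?_, ?_⟩
  · rw [sum_erase _ (by simp [e1])]
    simp only [sub_mul, mul_assoc, sum_sub_distrib, ← mul_sum, hd k hk, ha k hk]
    simp
  · rw [sum_erase _ (by simp [e1])]
    simp only [e2, sub_div, mul_div_assoc θ, sum_sub_distrib, ← mul_sum]
    linarith [mul_nonneg hθ0 hs]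

/-- reduction of the support to `K + 2` points -/
lemma redSupp {v : ℕ → ℝ} {K n₀ : ℕ} (j : ℕ) : ∀ (S : Finset ℕ) (d : ℕ → ℝ), S.card ≤ K + 2 + j →
    0 ∉ S → n₀ ∈ S → (∀ n ∈ S, 0 < v n) → AnnF S d K →
    ∃ S' ⊆ S, ∃ d' : ℕ → ℝ, n₀ ∈ S' ∧ S'.card ≤ K + 2 ∧ d' n₀ = d n₀ ∧ AnnF S' d' K ∧
      ∑ n ∈ S', |d' n| / v n ≤ ∑ n ∈ S, |d n| / v n := by
  induction j with
  | zero => exact fun S d h _ h1 _ hd => ⟨S, Subset.rfl, d, h1, h, rfl, hd, le_rfl⟩
  | succ j ih =>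
    intro S d h h0 h1 hv hd
    by_cases hc : S.card ≤ K + 2 + j
    · exact ih S d hc h0 h1 hv hd
    obtain ⟨T, hT, hTc⟩ := exists_subset_card_eq (s := S.erase n₀) (n := K + 2)
      (by rw [card_erase_of_mem h1]; omega)
    have hTS : T ⊆ S := hT.trans (erase_subset _ _)
    have hz : ∀ n, n ∉ T → cn T n = 0 := fun n hn => cn_zero (by exact_mod_cast hn)
    have hnz : ∀ n ∈ T, cn T n ≠ 0 := fun n hn =>
      cn_ne (by exact_mod_cast hn) fun e => h0 (e ▸ hTS hn)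
    have ha : AnnF S (cn T) K := fun k hk => by
      rw [← cn_fin (fun h => h0 (hTS h)) hTc.ge k hk]
      exact (sum_subset hTS fun n _ hn => by rw [hz n hn, zero_mul]).symm
    have hne : T.Nonempty := card_pos.1 (by omega)
    obtain ⟨n₁, hn₁, d₁, e1, e2, e3⟩ : ∃ n₁ ∈ T, ∃ d' : ℕ → ℝ, (∀ n, n ∉ T → d' n = d n) ∧
        AnnF (S.erase n₁) d' K ∧ ∑ n ∈ S.erase n₁, |d' n| / v n ≤ ∑ n ∈ S, |d n| / v n := by
      rcases le_total 0 (∑ n ∈ S, (if 0 ≤ d n then 1 else -1) * cn T n / v n) with hs | hs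
      · exact pivotStep hTS hne hv hd ha hz hnz hs
      · refine pivotStep (a := fun n => -cn T n) hTS hne hv hd (fun k hk => ?_)
          (fun n hn => by simp [hz n hn]) (fun n hn => neg_ne_zero.2 (hnz n hn)) ?_
        · simp only [neg_mul, sum_neg_distrib, ha k hk, neg_zero]
        · simp only [mul_neg, neg_div, sum_neg_distrib]; linarith
    have hn₀ : n₀ ∉ T := fun h => notMem_erase _ _ (hT h)
    obtain ⟨S', a1, d', a2, a3, a4, a5, a6⟩ := ih (S.erase n₁) d₁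
      (by rw [card_erase_of_mem (hTS hn₁)]; omega) (fun h => h0 (mem_of_mem_erase h))
      (mem_erase.2 ⟨fun e => hn₀ (e ▸ hn₁), h1⟩) (fun n hn => hv n (mem_of_mem_erase hn)) e2
    exact ⟨S', a1.trans (erase_subset _ _), d', a2, a3, a4.trans (e1 _ hn₀), a5, a6.trans e3⟩

/-- the reduced annihilator is canonical -/
lemma redSupp' {v d : ℕ → ℝ} {K n₀ : ℕ} {S : Finset ℕ} (h0 : 0 ∉ S) (h1 : n₀ ∈ S)
    (hv : ∀ n ∈ S, 0 < v n) (hd : AnnF S d K) (hn : d n₀ ≠ 0) :
    ∃ S' ⊆ S, n₀ ∈ S' ∧ K + 2 ≤ S'.card ∧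
      ∑ n ∈ S', |d n₀ / cn S' n₀ * cn S' n| / v n ≤ ∑ n ∈ S, |d n| / v n := by
  obtain ⟨S', a1, d', a2, a3, a4, a5, a6⟩ := redSupp (v := v) (n₀ := n₀) S.card S d
    (Nat.le_add_left _ _) h0 h1 hv hd
  have hc : K + 2 ≤ S'.card := by
    by_contra hc
    exact hn (a4 ▸ a5.eq_zero (by omega) a2)
  have h0' : 0 ∉ S' := fun h => h0 (a1 h)
  have hz : cn S' n₀ ≠ 0 := cn_ne (by exact_mod_cast a2) fun e => h0' (e ▸ a2)
  have e0 : d' n₀ - d n₀ / cn S' n₀ * cn S' n₀ = 0 := by rw [div_mul_cancel₀ _ hz, a4, sub_self]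
  have hA : AnnF (S'.erase n₀) (fun n => d' n - d n₀ / cn S' n₀ * cn S' n) K := fun k hk => by
    rw [sum_erase _ (by simp only [e0, zero_mul])]
    simp only [sub_mul, mul_assoc, sum_sub_distrib, ← mul_sum, a5 k hk, cn_fin h0' hc k hk]
    simp
  refine ⟨S', a1, a2, hc, le_trans (le_of_eq (sum_congr rfl fun n hn => ?_)) a6⟩
  by_cases e : n = n₀
  · rw [e, sub_eq_zero.1 e0]
  · rw [sub_eq_zero.1 (hA.eq_zero (by rw [card_erase_of_mem a2]; omega) (mem_erase.2 ⟨e, hn⟩))]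

lemma hasSum_eval {g : ℕ → ℝ} (ha : ∀ k, HasSum (fun n => g n * xx n ^ k) 0) (p : Polynomial ℝ) :
    HasSum (fun n => g n * p.eval (xx n)) 0 := by
  have := hasSum_sum (s := range (p.natDegree + 1)) fun k _ => (ha k).mul_left (p.coeff k)
  simp only [mul_zero, sum_const_zero] at this
  refine this.congr_fun fun n => ?_
  rw [Polynomial.eval_eq_sum_range, mul_sum]
  exact sum_congr rfl fun k _ => by ring

lemma supp_infinite {g : ℕ → ℝ} (ha : ∀ k, HasSum (fun n => g n * xx n ^ k) 0) {n₀ : ℕ}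
    (h0 : g n₀ ≠ 0) : {n | g n ≠ 0}.Infinite := by
  intro hf
  have : AnnF hf.toFinset g hf.toFinset.card := fun k _ =>
    (hasSum_sum_of_ne_finset_zero fun n hn => by
      rw [not_not.1 (show ¬g n ≠ 0 by simpa using hn), zero_mul]).unique (ha k)
  exact h0 (this.eq_zero (Nat.le_succ _) (by simpa using h0))

/-- folding the tail onto finitely many nodes -/
lemma foldTail {g v : ℕ → ℝ} (hv : ∀ n, 0 ≤ v n) (hs : Summable fun n => |g n| / v n)
    (ha : ∀ k, HasSum (fun n => g n * xx n ^ k) 0) {n₀ : ℕ} (h0 : g n₀ ≠ 0) (K : ℕ) :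
    ∃ (S : Finset ℕ) (d : ℕ → ℝ), (∀ n ∈ S, g n ≠ 0) ∧ n₀ ∈ S ∧ d n₀ = g n₀ ∧ AnnF S d K ∧
      ∑ n ∈ S, |d n| / v n ≤ ∑' n, |g n| / v n + 1 := by
  obtain ⟨T, hT, hc⟩ := ((supp_infinite ha h0).sdiff (Set.finite_singleton n₀)).exists_subset_card_eq
    (K + 1)
  let b : ℕ → ℕ → ℝ := fun M n => ∑ m ∈ range M, g m * (Lagrange.basis T xx n).eval (xx m)
  have h1 : Tendsto (fun M => ∑ n ∈ T, |b M n| / v n) atTop (𝓝 (∑ n ∈ T, |(0 : ℝ)| / v n)) :=
    tendsto_finsetSum _ fun n _ => (hasSum_eval ha _).tendsto_sum_nat.abs.div_const _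
  simp only [abs_zero, zero_div, sum_const_zero] at h1
  obtain ⟨M, hM1, hM2, hM3⟩ := ((h1.eventually (ge_mem_nhds one_pos)).and
    ((eventually_gt_atTop (T.sup id)).and (eventually_gt_atTop n₀))).exists
  let S := (range M).filter fun n => g n ≠ 0
  have hTS : T ⊆ S := fun n hn => mem_filter.2
    ⟨mem_range.2 ((le_sup (f := id) hn).trans_lt hM2), (hT hn).1⟩
  have hn₀ : n₀ ∉ T := fun h => (hT h).2 rfl
  have hite : ∀ (f : ℕ → ℝ), ∑ n ∈ S, (if n ∈ T then f n else 0) = ∑ n ∈ T, f n := fun f => by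
    rw [← sum_filter, filter_mem_eq_inter, inter_eq_right.2 hTS]
  refine ⟨S, fun n => g n - if n ∈ T then b M n else 0, fun n hn => (mem_filter.1 hn).2,
    mem_filter.2 ⟨mem_range.2 hM3, h0⟩, by simp [hn₀], fun k hk => ?_, ?_⟩
  · have e1 : ∑ n ∈ S, g n * xx n ^ k = ∑ n ∈ range M, g n * xx n ^ k :=
      sum_filter_of_ne fun n _ h => left_ne_zero_of_mul h
    have e2 : ∀ t : ℝ, ∑ n ∈ T, (Lagrange.basis T xx n).eval t * xx n ^ k = t ^ k := fun t => by
      have := Lagrange.eq_interpolate (xx_injOn T) (f := Polynomial.X ^ k) (by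
        rw [Polynomial.degree_X_pow]; exact_mod_cast (by omega : k < T.card))
      have e3 := congrArg (Polynomial.eval t) this
      rw [Lagrange.interpolate_apply, Polynomial.eval_finsetSum] at e3
      simp only [Polynomial.eval_pow, Polynomial.eval_X, Polynomial.eval_mul,
        Polynomial.eval_C] at e3
      rw [e3]
      exact sum_congr rfl fun n _ => mul_comm _ _
    simp only [sub_mul, ite_mul, zero_mul, sum_sub_distrib, hite, e1, b, sum_mul]
    rw [sum_comm, sub_eq_zero]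
    refine sum_congr rfl fun m _ => ?_
    simp only [mul_assoc, ← mul_sum, e2]
  · calc _ ≤ ∑ n ∈ S, (|g n| / v n + if n ∈ T then |b M n| / v n else 0) := by
          refine sum_le_sum fun n _ => ?_
          by_cases h : n ∈ T
          · simp only [if_pos h, ← add_div]
            exact div_le_div_of_nonneg_right (abs_sub _ _) (hv n)
          · simp [h]
      _ ≤ _ := by
          rw [sum_add_distrib, hite]
          exact add_le_add (hs.sum_le_tsum _ fun n _ => div_nonneg (abs_nonneg _) (hv n)) hM1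

/-- the `l^1` extremal principle -/
theorem exists_canon {g v : ℕ → ℝ} (g0 : g 0 = 0) (hv : ∀ n, 0 ≤ v n)
    (hgv : ∀ n, g n ≠ 0 → 0 < v n) (hdec : ∀ k, Summable fun n => v n * xx n ^ k)
    (hs : Summable fun n => |g n| / v n) (ha : ∀ k, HasSum (fun n => g n * xx n ^ k) 0) {n₀ : ℕ}
    (h0 : g n₀ ≠ 0) :
    ∃ N ⊆ {n | g n ≠ 0}, N.Infinite ∧ Summable fun n => |cn N n| / v n := by
  set C := ∑' n, |g n| / v n + 1
  have key : ∀ K, ∃ S : Finset ℕ, (∀ n ∈ S, g n ≠ 0) ∧ n₀ ∈ S ∧ K + 2 ≤ S.card ∧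
      ∑ n ∈ S, |g n₀ / cn S n₀ * cn S n| / v n ≤ C := fun K => by
    obtain ⟨S, d, a1, a2, a3, a4, a5⟩ := foldTail hv hs ha h0 K
    obtain ⟨S', b1, b2, b3, b4⟩ := redSupp' (v := v) (fun h => a1 0 h g0) a2
      (fun n hn => hgv n (a1 n hn)) a4 (a3 ▸ h0)
    exact ⟨S', fun n hn => a1 n (b1 hn), b2, b3, a3 ▸ b4.trans a5⟩
  choose S a1 a2 a3 a4 using key
  let U : Ultrafilter ℕ := hyperfilter ℕ
  let N : Set ℕ := {m | ∀ᶠ K in (U : Filter ℕ), m ∈ S K}
  have hU : (U : Filter ℕ) ≤ atTop := Nat.hyperfilter_le_atTop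
  have hN : ∀ m, ∀ᶠ K in (U : Filter ℕ), (m ∈ (S K : Set ℕ) ↔ m ∈ N) := fun m => by
    by_cases hm : m ∈ N
    · filter_upwards [show ∀ᶠ K in (U : Filter ℕ), m ∈ S K from hm] with K hK
      exact iff_of_true hK hm
    · filter_upwards [Ultrafilter.eventually_not.2 hm] with K hK
      exact iff_of_false hK hm
  have hn₀ : n₀ ∈ N := Eventually.of_forall a2
  have hz : cn N n₀ ≠ 0 := cn_ne hn₀ fun e => h0 (e ▸ g0)
  have hsub : N ⊆ {n | g n ≠ 0} := fun m hm => by
    obtain ⟨K, hK⟩ := (show ∀ᶠ K in (U : Filter ℕ), m ∈ S K from hm).exists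
    exact a1 K m hK
  let e : ℕ → ℕ → ℝ := fun K n => g n₀ / cn (S K) n₀ * cn (S K) n
  have he : ∀ n, Tendsto (fun K => e K n) U (𝓝 (g n₀ / cn N n₀ * cn N n)) := fun n =>
    (tendsto_const_nhds.div (cn_tendsto hN n₀) hz).mul (cn_tendsto hN n)
  have hez : ∀ K n, n ∉ S K → e K n = 0 := fun K n hn => by
    simp only [e, cn_zero (show n ∉ (S K : Set ℕ) from hn), mul_zero]
  have hF : ∀ K (F : Finset ℕ), ∑ n ∈ F, |e K n| / v n ≤ C := fun K F => by
    refine le_trans ?_ (a4 K)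
    rw [← sum_filter_of_ne (p := (· ∈ S K)) fun n _ h => by
      by_contra hn; exact h (by simp [hez K n hn])]
    exact sum_le_sum_of_subset_of_nonneg (fun n hn => (mem_filter.1 hn).2)
      fun n _ _ => div_nonneg (abs_nonneg _) (hv n)
  have hθ : g n₀ / cn N n₀ ≠ 0 := div_ne_zero h0 hz
  refine ⟨N, hsub, fun hf => ?_, ?_⟩
  · refine (supp_infinite (g := fun n => g n₀ / cn N n₀ * cn N n) (n₀ := n₀) (fun k => ?_)
      (mul_ne_zero hθ hz)) (hf.subset fun n hn => ?_)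
    · have hx : ∀ n, 0 ≤ xx n ^ k := fun n => pow_nonneg (xx_nonneg n) k
      have h1 : Tendsto (fun K => ∑' n, e K n * xx n ^ k) U
          (𝓝 (∑' n, g n₀ / cn N n₀ * cn N n * xx n ^ k)) := by
        refine tendsto_tsum_of_dominated_convergence ((hdec k).mul_left C)
          (fun n => (he n).mul_const _) (.of_forall fun K n => ?_)
        rw [norm_mul, Real.norm_of_nonneg (hx n), Real.norm_eq_abs, ← mul_assoc]
        refine mul_le_mul_of_nonneg_right ?_ (hx n)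
        have h2 := hF K {n}
        rw [sum_singleton] at h2
        by_cases hn : n ∈ S K
        · exact (div_le_iff₀ (hgv n (a1 K n hn))).1 h2
        · rw [hez K n hn, abs_zero]
          exact mul_nonneg (le_trans (by simp) (hF K ∅)) (hv n)
      have h2 : ∀ᶠ K in (U : Filter ℕ), ∑' n, e K n * xx n ^ k = 0 := by
        filter_upwards [hU (eventually_ge_atTop k)] with K hK
        rw [tsum_eq_sum (s := S K) fun n hn => by rw [hez K n hn, zero_mul]]
        simp only [e, mul_assoc, ← mul_sum, cn_fin (fun h => a1 K 0 h g0) (a3 K) k hK, mul_zero]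
      rw [← tendsto_nhds_unique h1 (tendsto_const_nhds.congr' (EventuallyEq.symm h2))]
      refine (summable_of_ne_finset_zero (s := hf.toFinset) fun n hn => ?_).hasSum
      rw [cn_zero (n := n) (by simpa using hn), mul_zero, zero_mul]
    · by_contra h
      exact hn (by rw [cn_zero h, mul_zero])
  · have h1 : Summable fun n => |g n₀ / cn N n₀ * cn N n| / v n :=
      summable_of_sum_le (fun n => div_nonneg (abs_nonneg _) (hv n)) fun F =>
        le_of_tendsto' (tendsto_finsetSum F fun n _ => (he n).abs.div_const (v n)) fun K => hF K F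
    refine (h1.mul_left |g n₀ / cn N n₀|⁻¹).congr fun n => ?_
    rw [abs_mul, mul_div_assoc, inv_mul_cancel_left₀ (abs_ne_zero.2 hθ)]

lemma bound_of_summable {N : Set ℕ} {d : ℕ → ℝ} (d0 : d 0 = 0) (hN : N ⊆ {n | d n ≠ 0})
    (hs : Summable fun n => |cn N n| / (|d n| * xx n)) :
    ∃ C, 0 ≤ C ∧ ∀ n, |cn N n| ≤ C * (|d n| * xx n) := by
  have h0 : ∀ n, 0 ≤ |cn N n| / (|d n| * xx n) := fun n =>
    div_nonneg (abs_nonneg _) (mul_nonneg (abs_nonneg _) (xx_nonneg n))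
  refine ⟨∑' n, |cn N n| / (|d n| * xx n), tsum_nonneg h0, fun n => ?_⟩
  by_cases hn : n ∈ N
  · exact (div_le_iff₀ (mul_pos (abs_pos.2 (hN hn)) (xx_pos (n := n) fun e => hN hn (e ▸ d0)))).1
      (hs.le_tsum n fun m _ => h0 m)
  · rw [cn_zero hn, abs_zero]
    exact mul_nonneg (tsum_nonneg h0) (mul_nonneg (abs_nonneg _) (xx_nonneg n))

lemma xx_le {n y : ℕ} (h : n ≠ y) : xx n ≤ (xx y + 1) * |xx y - xx n| := by
  have h1 : 1 ≤ |xx y - xx n| := by
    have : ((y : ℤ) ^ 2 - (n : ℤ) ^ 2) ≠ 0 := fun e => h (xx_mono.injective (by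
      unfold xx; exact_mod_cast (sub_eq_zero.1 e).symm))
    unfold xx
    exact_mod_cast Int.one_le_abs this
  nlinarith [xx_nonneg y, neg_abs_le (xx y - xx n)]

/-- adding one node gains one power -/
lemma add_node {N : Set ℕ} {d : ℕ → ℝ} (d0 : d 0 = 0) (hN : N ⊆ {n | d n ≠ 0})
    (hs : Summable fun n => |cn N n| / (|d n| * xx n)) {y : ℕ} (hy : y ∉ N) (hd : d y ≠ 0) :
    ∃ C, ∀ n, |cn (insert y N) n| ≤ C * |d n| := by
  obtain ⟨C, hC0, hC⟩ := bound_of_summable d0 hN hs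
  have hy0 := xx_pos (n := y) fun e => hd (e ▸ d0)
  refine ⟨max (C * (xx y * (xx y + 1))) (|cn (insert y N) y| / |d y|), fun n => ?_⟩
  by_cases e : n = y
  · subst e
    refine le_trans ?_ (mul_le_mul_of_nonneg_right (le_max_right _ _) (abs_nonneg _))
    rw [div_mul_cancel₀ _ (abs_ne_zero.2 hd)]
  refine le_trans ?_ (mul_le_mul_of_nonneg_right (le_max_left _ _) (abs_nonneg _))
  by_cases hn : n ∈ N
  · have h1 := hC n
    have h2 : xx y - xx n ≠ 0 := sub_ne_zero.2 fun h => e (xx_mono.injective h).symm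
    have h3 : cn (insert y N) n = cn N n * xx y / (xx y - xx n) := by
      rw [cn, cn, if_pos (Set.mem_insert_of_mem _ hn), if_pos hn, gapProd_insert hy e]
      have := gapProd_ne N n
      field_simp
    rw [h3, abs_div, abs_mul, abs_of_pos hy0, div_le_iff₀ (abs_pos.2 h2)]
    calc _ ≤ C * (|d n| * ((xx y + 1) * |xx y - xx n|)) * xx y := by
          refine mul_le_mul_of_nonneg_right (h1.trans ?_) hy0.le
          exact mul_le_mul_of_nonneg_left (mul_le_mul_of_nonneg_left (xx_le e) (abs_nonneg _)) hC0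
      _ = _ := by ring
  · rw [cn_zero (by simp [e, hn]), abs_zero]
    positivity

/-- Every non-zero annihilator of the polynomials dominates a canonical one. -/
theorem dominates_canon {d : ℕ → ℝ} (d0 : d 0 = 0) (ha : ∀ k, HasSum (fun n => d n * xx n ^ k) 0)
    {n₀ : ℕ} (h0 : d n₀ ≠ 0) :
    ∃ N ⊆ {n | d n ≠ 0}, N.Infinite ∧ ∃ C, ∀ n, |cn N n| ≤ C * |d n| := by
  have hv : ∀ n, 0 ≤ |d n| * xx n := fun n => mul_nonneg (abs_nonneg _) (xx_nonneg n)
  have hp : ∀ n, d n ≠ 0 → 0 < |d n| * xx n := fun n h =>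
    mul_pos (abs_pos.2 h) (xx_pos fun e => h (e ▸ d0))
  have hdec : ∀ k, Summable fun n => |d n| * xx n * xx n ^ k := fun k =>
    (ha (k + 1)).summable.abs.congr fun n => by
      rw [abs_mul, abs_of_nonneg (pow_nonneg (xx_nonneg n) _)]; ring
  have hs : Summable fun n => |d n| / (|d n| * xx n) := by
    refine .of_nonneg_of_le (fun n => div_nonneg (abs_nonneg _) (hv n)) (fun n => ?_) xx_summable
    by_cases h : d n = 0
    · simp [h, xx_nonneg]
    · rw [div_mul_cancel_left₀ (abs_ne_zero.2 h), one_div]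
  obtain ⟨N, b1, b2, b3⟩ := exists_canon d0 hv hp hdec hs ha h0
  by_cases hy : ∃ y, y ∉ N ∧ d y ≠ 0
  · obtain ⟨y, h1, h2⟩ := hy
    exact ⟨insert y N, Set.insert_subset h2 b1, b2.mono (Set.subset_insert _ _),
      add_node d0 b1 b3 h1 h2⟩
  have hn₀ : n₀ ∈ N := by by_contra h; exact hy ⟨n₀, h, h0⟩
  have hz : cn N n₀ ≠ 0 := cn_ne hn₀ fun e => h0 (e ▸ d0)
  obtain ⟨C, hC0, hC⟩ := bound_of_summable d0 b1 b3
  have hN0 : 0 ∉ N := fun h => b1 h d0
  have hc : ∀ k, HasSum (fun n => cn N n * xx n ^ k) 0 := fun k => cn_ann hN0 b2 k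
    (.of_nonneg_of_le (fun n => mul_nonneg (abs_nonneg _) (pow_nonneg (xx_nonneg n) _))
      (fun n => by
        rw [← mul_assoc]
        exact mul_le_mul_of_nonneg_right (hC n) (pow_nonneg (xx_nonneg n) _))
      ((hdec k).mul_left C))
  set θ := d n₀ / cn N n₀ with hθ
  have hθ0 : θ ≠ 0 := div_ne_zero h0 hz
  by_cases hg : ∃ n₁, d n₁ - θ * cn N n₁ ≠ 0
  · obtain ⟨n₁, h1⟩ := hg
    have hsub : ∀ n, d n - θ * cn N n ≠ 0 → d n ≠ 0 := fun n h e =>
      h (by rw [e, cn_zero fun h' => b1 h' e, mul_zero, sub_zero])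
    obtain ⟨N', c1, c2, c3⟩ := exists_canon (g := fun n => d n - θ * cn N n)
      (by rw [d0, cn_zero hN0, mul_zero, sub_zero]) hv (fun n h => hp n (hsub n h)) hdec
      (.of_nonneg_of_le (fun n => div_nonneg (abs_nonneg _) (hv n)) (fun n => by
        rw [← mul_div_assoc, ← add_div, ← abs_mul]
        exact div_le_div_of_nonneg_right (abs_sub _ _) (hv n)) (hs.add (b3.mul_left |θ|)))
      (fun k => by
        have := (ha k).sub ((hc k).mul_left θ)
        rw [mul_zero, sub_zero] at this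
        exact this.congr_fun fun n => by ring) h1
    have c4 : N' ⊆ {n | d n ≠ 0} := fun n hn => hsub n (c1 hn)
    exact ⟨insert n₀ N', Set.insert_subset h0 c4, c2.mono (Set.subset_insert _ _),
      add_node d0 c4 c3 (fun h => c1 h (by rw [hθ, div_mul_cancel₀ _ hz, sub_self])) h0⟩
  · refine ⟨N, b1, b2, |θ|⁻¹, fun n => ?_⟩
    have : d n = θ * cn N n := sub_eq_zero.1 (not_not.1 fun h => hg ⟨n, h⟩)
    rw [this, abs_mul, inv_mul_cancel_left₀ (abs_ne_zero.2 hθ0)]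

end Pool.Agent.P.MP_aabf10_an
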