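import Pool.Agent.P.MP_aabf10_an.Main

/-!
# Polynomial density in the weighted sequence space on the right gap edges
-/

open scoped ContDiff Topology Real
open Filter Finset Set

namespace Pool.Agent.P.MP_aabf10_an

variable {q : ℝ → ℝ}

theorem IsGap.be_mono {mu al be : ℕ → ℝ} (g : IsGap q mu al be) : StrictMono be :=
  strictMono_nat_of_lt_succ fun n =>
    (g.be_lt n).trans_le ((g.al_le _ (by omega)).trans (g.le_be _))

theorem be_bound (hq : Cinf q) {Q : ℝ} (hQ1 : 1 ≤ Q) (hQ : ∀ x, |q x| ≤ Q) {mu al be : ℕ → ℝ}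
    (h : IsDir q Q mu) (g : IsGap q mu al be) :
    ∃ C, ∀ n : ℕ, |be n - ((n : ℝ) * π) ^ 2| ≤ C := by
  obtain ⟨C, hC⟩ := h.exists_bound (by linarith)
  have hs := ell_decay hq hQ1 hQ h g 0
  simp only [pow_zero, one_mul] at hs
  refine ⟨C + ∑' n, ell al be n + (be 0 - mu 0), fun n => ?_⟩
  have h1 := hs.le_tsum n fun j _ => g.ell_nonneg j
  have h2 := abs_le.1 (hC n)
  have h3 := g.le_be n
  have h4 := g.le_be 0
  have h5 := g.ell_nonneg n
  rcases n with _ | n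
  · exact abs_le.2 ⟨by linarith, by linarith⟩
  · have := g.al_le (n + 1) (by omega)
    rw [ell_succ] at h1 h5
    exact abs_le.2 ⟨by linarith, by linarith⟩

theorem sqrt_decay {l : ℕ → ℝ} (h0 : l 0 = 0) (hl : ∀ n, 0 ≤ l n)
    (h : ∀ K : ℕ, Summable fun j : ℕ => (j : ℝ) ^ K * l j) (K : ℕ) :
    Summable fun j : ℕ => (j : ℝ) ^ K * √(l j) := by
  refine ((h (2 * K + 2)).add (Real.summable_one_div_nat_pow.2 one_lt_two)).of_nonneg_of_le
    (fun j => by positivity) fun j => ?_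
  rcases Nat.eq_zero_or_pos j with rfl | hj
  · simp [h0]
  have hj' : (0 : ℝ) < j := by exact_mod_cast hj
  have e1 : (j : ℝ) ^ K * √(l j) = ((j : ℝ) ^ (K + 1) * √(l j)) * (1 / j) := by
    field_simp; ring
  have e2 : (j : ℝ) ^ (2 * K + 2) * l j = ((j : ℝ) ^ (K + 1) * √(l j)) ^ 2 := by
    rw [mul_pow, Real.sq_sqrt (hl j)]; ring
  have e3 : 1 / (j : ℝ) ^ 2 = (1 / j) ^ 2 := by rw [div_pow, one_pow]
  rw [e1, e2, e3]
  nlinarith [sq_nonneg ((j : ℝ) ^ (K + 1) * √(l j) - 1 / j), sq_nonneg (1 / (j : ℝ)),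
    sq_nonneg ((j : ℝ) ^ (K + 1) * √(l j))]

theorem tsum_shift {g : ℕ → ℝ} (h : g 0 = 0) : ∑' n, g (n + 1) = ∑' n, g n :=
  Nat.succ_injective.tsum_eq fun n hn => by
    rcases n with _ | n
    · exact absurd h hn
    · exact ⟨n, rfl⟩

theorem rpow_decay {l : ℕ → ℝ} (hl : ∀ n, 0 ≤ l n)
    (h : ∀ K : ℕ, Summable fun j : ℕ => (j : ℝ) ^ K * l j) {s : ℝ} (hs : 0 < s) (K : ℕ) :
    Summable fun j : ℕ => (j : ℝ) ^ K * l j ^ s := by
  obtain ⟨M, hM⟩ := exists_nat_ge ((K + 2 : ℕ) / s)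
  rw [div_le_iff₀ hs] at hM
  refine .of_norm_bounded_eventually_nat (Real.summable_one_div_nat_pow.2 one_lt_two) ?_
  filter_upwards [(h M).tendsto_atTop_zero.eventually (ge_mem_nhds one_pos),
    eventually_ge_atTop 1] with j h1 h2
  have hj : (1 : ℝ) ≤ j := by exact_mod_cast h2
  have h3 := Real.rpow_le_one (mul_nonneg (by positivity) (hl j)) h1 hs.le
  rw [Real.mul_rpow (by positivity) (hl j), ← Real.rpow_natCast, ← Real.rpow_mul (by positivity)]
    at h3
  have h4 := Real.rpow_le_rpow_of_exponent_le hj hM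
  rw [Real.rpow_natCast] at h4
  have h5 := Real.rpow_nonneg (hl j) s
  rw [Real.norm_of_nonneg (by positivity), le_div_iff₀ (by positivity)]
  refine le_trans (le_of_eq ?_) ((mul_le_mul_of_nonneg_right h4 h5).trans h3)
  ring

theorem polySpans_iff (hq : Cinf q) {lam : ℕ → ℝ} (hl : IsEnum q lam) (k : ℕ) {s : ℝ}
    (hs : 0 < s) {W : ℕ → ℝ} (hW : ∀ n, W n = n ^ k * (lam (2 * n) - lam (2 * n - 1)) ^ s) :
    (∀ f : ℕ → ℝ, Summable (fun n => W (n + 1) * f (n + 1) ^ 2) →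
      ∀ ε > 0, ∃ p : Polynomial ℝ,
        Summable (fun n => W (n + 1) * p.eval (lam (2 * (n + 1))) ^ 2) ∧
        ∑' n, W (n + 1) * (f (n + 1) - p.eval (lam (2 * (n + 1)))) ^ 2 < ε)
      ↔ ∀ g, InClass (fun n => √(W n)) g → Function.Even g → Flat g → g = 0 := by
  obtain ⟨Q, mu, al, be, h1, h2, h, g⟩ := exists_data hq
  obtain rfl := enum_unique hl (isEnum_edges hq.cont hq.2 (by linarith) h g) fun t => ⟨rfl, rfl⟩
  obtain ⟨C, hC⟩ := be_bound hq h1 h2 h g
  have hW' : ∀ n, W n = n ^ k * ell al be n ^ s := fun n => by rw [hW, ← ell_edges]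
  have W0 : W 0 = 0 := by simp [hW', ell, hs.ne']
  have W1 : ∀ n, 0 ≤ W n := fun n => by
    rw [hW']; exact mul_nonneg (by positivity) (Real.rpow_nonneg (g.ell_nonneg n) s)
  have hd := sqrt_decay W0 W1 fun K =>
    (rpow_decay g.ell_nonneg (ell_decay hq h1 h2 h g) hs (K + k)).congr fun j => by
      rw [hW']; ring
  have e2 : ∀ n x, W n * x ^ 2 = (√(W n) * x) ^ 2 :=
    fun n x => by rw [mul_pow, Real.sq_sqrt (W1 _)]
  rw [qa_even_iff_dens _ (fun n => Real.sqrt_nonneg _) (by simp [W0]) hd,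
    ← dens_iff_model g.be_mono hC,
    ← spans_iff_dens be _ (fun n => Real.sqrt_nonneg _) C hC hd]
  simp only [edges_even, e2]
  refine forall_congr' fun f => imp_congr
    (summable_nat_add_iff (f := fun n => (√(W n) * f n) ^ 2) 1)
    (forall_congr' fun ε => forall_congr' fun _ => exists_congr fun p => and_congr
      (summable_nat_add_iff (f := fun n => (√(W n) * p.eval (be n)) ^ 2) 1) ?_)
  rw [tsum_shift (g := fun n => (√(W n) * (f n - p.eval (be n))) ^ 2) (by simp [W0])]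

end Pool.Agent.P.MP_aabf10_an
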