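import Pool.Agent.P.MP_aabf10_an.Main
import Pool.Agent.P.MP_aabf10_an.Defs2

/-!
# The span of the local fields does not depend on the constants of integration
-/

open scoped ContDiff Topology Real
open Filter Finset Set

namespace Pool.Agent.P.MP_aabf10_an

variable {q : ℝ → ℝ}

theorem isLenard_gradH (hq : Cinf q) : IsLenard q (gradH q) :=
  ⟨fun x => by rw [gradH_zero], fun m => ⟨gradH_cinf hq m, lenard hq m⟩⟩

theorem Cinf.deriv_lin {f g : ℝ → ℝ} (hf : Cinf f) (hg : Cinf g) (a b : ℝ) :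
    _root_.deriv (fun x => a * f x + b * g x) =
      fun x => a * _root_.deriv f x + b * _root_.deriv g x :=
  funext fun x => (((hf.hasDerivAt x).const_mul a).fun_add ((hg.hasDerivAt x).const_mul b)).deriv

theorem Cinf.lin {f g : ℝ → ℝ} (hf : Cinf f) (hg : Cinf g) (a b : ℝ) :
    Cinf fun x => a * f x + b * g x := ((Cinf.const a).mul hf).add ((Cinf.const b).mul hg)

theorem opK_lin (hq : Cinf q) {f g : ℝ → ℝ} (hf : Cinf f) (hg : Cinf g) (a b : ℝ) :
    opK q (fun x => a * f x + b * g x) = fun x => a * opK q f x + b * opK q g x := by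
  funext x
  rw [opK_eq hq (hf.lin hg a b), opK_eq hq hf, opK_eq hq hg, hf.deriv_lin hg,
    hf.deriv.deriv_lin hg.deriv, hf.deriv.deriv.deriv_lin hg.deriv.deriv]
  ring

theorem IsLenard.step (hq : Cinf q) {G : ℕ → ℝ → ℝ} (h : IsLenard q G) {f : ℝ → ℝ}
    (hf : f ∈ Submodule.span ℝ (Set.range G)) : Cinf f ∧
      opK q f ∈ Submodule.span ℝ (Set.range fun m => opK q (G m)) ∧
      ∃ g ∈ Submodule.span ℝ (Set.range G), Cinf g ∧ deriv g = opK q f := by
  have key : ∀ (a b : ℝ) (f g : ℝ → ℝ), (fun x => a * f x + b * g x) = a • f + b • g :=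
    fun a b f g => rfl
  have lin : ∀ (a b : ℝ) (f g : ℝ → ℝ), (Cinf f ∧
      opK q f ∈ Submodule.span ℝ (Set.range fun m => opK q (G m)) ∧
      ∃ u ∈ Submodule.span ℝ (Set.range G), Cinf u ∧ deriv u = opK q f) → (Cinf g ∧
      opK q g ∈ Submodule.span ℝ (Set.range fun m => opK q (G m)) ∧
      ∃ u ∈ Submodule.span ℝ (Set.range G), Cinf u ∧ deriv u = opK q g) →
      (Cinf (a • f + b • g) ∧
      opK q (a • f + b • g) ∈ Submodule.span ℝ (Set.range fun m => opK q (G m)) ∧
      ∃ u ∈ Submodule.span ℝ (Set.range G), Cinf u ∧ deriv u = opK q (a • f + b • g)) := by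
    rintro a b f g ⟨f1, f2, u, u1, u2, u3⟩ ⟨g1, g2, v, v1, v2, v3⟩
    rw [← key, opK_lin hq f1 g1]
    refine ⟨f1.lin g1 a b, ?_, fun x => a * u x + b * v x, ?_, u2.lin v2 a b, ?_⟩
    · rw [key]; exact Submodule.add_mem _ (Submodule.smul_mem _ _ f2) (Submodule.smul_mem _ _ g2)
    · rw [key]; exact Submodule.add_mem _ (Submodule.smul_mem _ _ u1) (Submodule.smul_mem _ _ v1)
    · rw [u2.deriv_lin v2, u3, v3]
  have base : ∀ m, Cinf (G m) ∧
      opK q (G m) ∈ Submodule.span ℝ (Set.range fun m => opK q (G m)) ∧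
      ∃ g ∈ Submodule.span ℝ (Set.range G), Cinf g ∧ deriv g = opK q (G m) := fun m =>
    ⟨(h.2 m).1, Submodule.subset_span ⟨m, rfl⟩, G (m + 1), Submodule.subset_span ⟨m + 1, rfl⟩,
      (h.2 _).1, (h.2 m).2⟩
  induction hf using Submodule.span_induction with
  | mem f hf => obtain ⟨m, rfl⟩ := hf; exact base m
  | zero => simpa using lin 0 0 _ _ (base 0) (base 0)
  | add f g _ _ hf hg => simpa using lin 1 1 f g hf hg
  | smul a f _ hf => simpa using lin a 0 f f hf hf

theorem IsLenard.mem_span (hq : Cinf q) {G H : ℕ → ℝ → ℝ} (g : IsLenard q G) (h : IsLenard q H)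
    (m : ℕ) : G m ∈ Submodule.span ℝ (Set.range H) := by
  induction m with
  | zero => exact Submodule.subset_span ⟨0, funext fun x => by rw [g.1, h.1]⟩
  | succ m ih =>
    obtain ⟨-, -, u, u1, u2, u3⟩ := h.step hq ih
    have e : G (m + 1) = u + (G (m + 1) 0 - u 0) • H 0 := by
      funext x
      have := const_of_hasDerivAt_zero (f := fun x => G (m + 1) x - u x) (fun x => by
        have := ((g.2 (m + 1)).1.hasDerivAt x).fun_sub (u2.hasDerivAt x)
        rwa [(g.2 m).2, u3, sub_self] at this) x 0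
      simp only [Pi.add_apply, Pi.smul_apply, h.1, smul_eq_mul]
      linarith
    rw [e]
    exact Submodule.add_mem _ u1 (Submodule.smul_mem _ _ (Submodule.subset_span ⟨0, rfl⟩))

theorem IsLenard.span_eq (hq : Cinf q) {G H : ℕ → ℝ → ℝ} (g : IsLenard q G) (h : IsLenard q H) :
    Submodule.span ℝ (Set.range fun m => opK q (G m)) =
      Submodule.span ℝ (Set.range fun m => opK q (H m)) :=
  le_antisymm
    (Submodule.span_le.2 (by rintro _ ⟨m, rfl⟩; exact (h.step hq (g.mem_span hq h m)).2.1))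
    (Submodule.span_le.2 (by rintro _ ⟨m, rfl⟩; exact (g.step hq (h.mem_span hq g m)).2.1))

theorem IsLenard.mem_iff (hq : Cinf q) {G : ℕ → ℝ → ℝ} (g : IsLenard q G) (w : ℝ → ℝ) :
    w ∈ Submodule.span ℝ (Set.range fun m => opK q (G m)) ↔ ∃ n c, w = XP q n c := by
  rw [g.span_eq hq (isLenard_gradH hq)]
  constructor
  · intro hw
    obtain ⟨c, hc⟩ := Finsupp.mem_span_range_iff_exists_finsupp.1 hw
    refine ⟨c.support.sup id + 1, c, ?_⟩
    rw [← hc, Finsupp.sum_of_support_subset c (s := range (c.support.sup id + 1))]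
    · funext x; simp [XP, locX]
    · intro i hi
      exact Finset.mem_range.2 (Nat.lt_succ_of_le (le_sup (f := id) hi))
    · intro i _; simp
  · rintro ⟨n, c, rfl⟩
    have : XP q n c = ∑ m ∈ range n, c m • opK q (gradH q m) := by
      funext x; simp [XP, locX]
    rw [this]
    exact Submodule.sum_mem _ fun m _ => Submodule.smul_mem _ _ (Submodule.subset_span ⟨m, rfl⟩)

theorem spansL2_iff (hq : Cinf q) {G : ℕ → ℝ → ℝ} (g : IsLenard q G) (M : Set (ℝ → ℝ)) :
    SpansL2 M q G ↔ SpansAt M q := by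
  refine forall_congr' fun v => forall_congr' fun _ => forall_congr' fun ε =>
    forall_congr' fun _ => ⟨?_, ?_⟩
  · rintro ⟨w, hw, h⟩
    obtain ⟨n, c, rfl⟩ := (g.mem_iff hq w).1 hw
    exact ⟨n, c, h⟩
  · rintro ⟨n, c, h⟩
    exact ⟨XP q n c, (g.mem_iff hq _).2 ⟨n, c, rfl⟩, h⟩

end Pool.Agent.P.MP_aabf10_an
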