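import Pool.Agent.P.MP_aabf10_an.Expand

/-!
# The reflected potential
-/

open scoped ContDiff Topology Real
open Filter Finset Set MeasureTheory

namespace Pool.Agent.P.MP_aabf10_an

variable {q : ℝ → ℝ}

theorem Cinf.neg_arg {f : ℝ → ℝ} (h : Cinf f) : Cinf fun x => f (-x) := by
  refine ⟨h.1.comp contDiff_neg, fun x => ?_⟩
  have := h.2 (-(x + 1))
  simp only [show -(x + 1) + 1 = -x by ring] at this
  exact this.symm

theorem md_reflect (hq : Cinf q) (z : ℂ) : md (fun x => q (-x)) z = ma q z := by
  have e : (fun y => q (1 - y)) = fun x => q (-x) := by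
    funext y
    have := hq.2 (-y)
    rwa [show -y + 1 = 1 - y by ring] at this
  have h := (chi_eq hq.cont z 0).2
  rw [e] at h
  simp only [chi', th'_zero hq.cont, ph'_zero hq.cont, sub_zero, mul_zero, mul_one, zero_add,
    neg_inj] at h
  exact h.symm

theorem ma_reflect (hq : Cinf q) (z : ℂ) : ma (fun x => q (-x)) z = md q z := by
  have h := md_reflect hq.neg_arg z
  simp only [neg_neg] at h
  exact h.symm

theorem reflect_mem_iso {q : ℝ → ℝ} (hq : Cinf q) : (fun x => q (-x)) ∈ Iso q := by
  refine mem_iso_of_Dr hq hq.neg_arg ?_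
  funext t
  apply Complex.ofReal_injective
  rw [← Dl_real hq.neg_arg.cont, ← Dl_real hq.cont, Dl, Dl, md_reflect hq, ma_reflect hq, add_comm]

theorem Nr_eq_zero_of_even {q : ℝ → ℝ} (hq : Cinf q) (h : (fun x => q (-x)) = q) (t : ℝ) :
    Nr q t = 0 := by
  apply Complex.ofReal_injective
  have := md_reflect hq t
  rw [h] at this
  rw [← Nn_real hq.cont, Nn, this]
  simp

theorem gradH_reflect (q : ℝ → ℝ) (m : ℕ) :
    gradH (fun x => q (-x)) m = fun x => gradH q m (-x) := by
  induction m using Nat.strong_induction_on with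
  | _ m ih =>
    rcases m with _ | m
    · simp [gradH_zero]
    have d1 : ∀ f : ℝ → ℝ, deriv (fun x => f (-x)) = fun x => -deriv f (-x) := fun f =>
      funext fun x => deriv_comp_neg f x
    have d2 : ∀ f : ℝ → ℝ, deriv (deriv (fun x => f (-x))) = fun x => deriv (deriv f) (-x) := by
      intro f
      funext x
      rw [d1, deriv.fun_neg, deriv_comp_neg (deriv f), neg_neg]
    rw [gradH_succ, gradH_succ]
    funext x
    congr 2
    · refine sum_congr rfl fun i hi => ?_
      rw [ih i (mem_range.1 hi), ih (m - i) (by omega), d2, d1, d1]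
      ring
    · refine sum_congr rfl fun i hi => ?_
      have := mem_range.1 hi
      rw [ih (i + 1) (by omega), ih (m - i) (by omega)]

/-- vanishing to order `j` at the origin -/
def VanTo : ℕ → (ℝ → ℝ) → Prop
  | 0, _ => True
  | j + 1, f => f 0 = 0 ∧ VanTo j (deriv f)

theorem VanTo.mono_one {j : ℕ} {f : ℝ → ℝ} (h : VanTo (j + 1) f) : VanTo j f := by
  induction j generalizing f with
  | zero => trivial
  | succ j ih => exact ⟨h.1, ih h.2⟩

theorem VanTo.mono {i j : ℕ} {f : ℝ → ℝ} (h : VanTo j f) (hij : i ≤ j) : VanTo i f := by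
  induction hij with
  | refl => exact h
  | step _ ih => exact ih h.mono_one

theorem VanTo.add {j : ℕ} {f g : ℝ → ℝ} (hf : Cinf f) (hg : Cinf g) (h : VanTo j f)
    (k : VanTo j g) : VanTo j fun x => f x + g x := by
  induction j generalizing f g with
  | zero => trivial
  | succ j ih =>
    refine ⟨by simp [h.1, k.1], ?_⟩
    rw [show deriv (fun x => f x + g x) = fun x => deriv f x + deriv g x from
      funext fun x => ((hf.hasDerivAt x).fun_add (hg.hasDerivAt x)).deriv]
    exact ih hf.deriv hg.deriv h.2 k.2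

theorem VanTo.mul {j : ℕ} {f g : ℝ → ℝ} (hg : Cinf g) (hf : Cinf f) (h : VanTo j f) :
    VanTo j fun x => g x * f x := by
  induction j generalizing f g with
  | zero => trivial
  | succ j ih =>
    refine ⟨by simp [h.1], ?_⟩
    rw [show deriv (fun x => g x * f x) = fun x => deriv g x * f x + g x * deriv f x from
      funext fun x => ((hg.hasDerivAt x).fun_mul (hf.hasDerivAt x)).deriv]
    exact VanTo.add (hg.deriv.mul hf) (hg.mul hf.deriv) (ih hg.deriv hf h.mono_one)
      (ih hg hf.deriv h.2)

theorem VanTo.iter {i n : ℕ} {f : ℝ → ℝ} (h : VanTo (i + n) f) : VanTo i (iteratedDeriv n f) := by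
  induction n generalizing f with
  | zero => simpa using h
  | succ n ih => rw [iteratedDeriv_succ']; exact ih h.2

theorem VanTo.succ {j : ℕ} {f : ℝ → ℝ} (h : VanTo j f) (h0 : iteratedDeriv j f 0 = 0) :
    VanTo (j + 1) f := by
  induction j generalizing f with
  | zero => exact ⟨by simpa using h0, trivial⟩
  | succ j ih => exact ⟨h.1, ih h.2 (by rwa [iteratedDeriv_succ'] at h0)⟩

theorem Cinf.iter' {f : ℝ → ℝ} (h : Cinf f) (k : ℕ) : Cinf (iteratedDeriv k f) := by
  induction k with
  | zero => simpa using h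
  | succ k ih => rw [iteratedDeriv_succ]; exact ih.deriv

theorem iter_sub_zero {f g : ℝ → ℝ} (hf : Cinf f) (hg : Cinf g) (k : ℕ) :
    iteratedDeriv k (fun x => f x - g x) 0 = iteratedDeriv k f 0 - iteratedDeriv k g 0 :=
  iteratedDeriv_fun_sub (hf.1.of_le (by exact_mod_cast le_top)).contDiffAt
    (hg.1.of_le (by exact_mod_cast le_top)).contDiffAt

theorem iter_reflect (f : ℝ → ℝ) (k : ℕ) :
    iteratedDeriv k (fun x => f (-x)) 0 = (-1) ^ k * iteratedDeriv k f 0 := by
  rw [iteratedDeriv_comp_neg, neg_zero, smul_eq_mul]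

/-- leading term of the difference of the gradients of two potentials -/
theorem grad_diff {p : ℝ → ℝ} (hp : Cinf p) (hq : Cinf q)
    (h0 : ∀ m, gradH p m 0 = gradH q m 0)
    (he : ∀ m, iteratedDeriv (2 * m) (fun x => p x - q x) 0 = 0) (m : ℕ) :
    ∀ i, VanTo (i + 2 * m) (fun x => p x - q x) →
      VanTo (i + 2) (fun x => gradH p (m + 1) x - gradH q (m + 1) x
        - (-(1 / 2)) ^ m * iteratedDeriv (2 * m) (fun x => p x - q x) x) ∧
      VanTo i fun x => gradH p (m + 1) x - gradH q (m + 1) x := by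
  have hh : Cinf fun x => p x - q x := hp.sub hq
  set h : ℝ → ℝ := fun x => p x - q x with hdef
  induction m with
  | zero =>
    intro i hi
    simp only [zero_add, gradH_one, mul_zero, pow_zero, one_mul, iteratedDeriv_zero]
    refine ⟨?_, hi⟩
    have : ∀ j, VanTo j fun _ : ℝ => (0 : ℝ) := by
      intro j
      induction j with
      | zero => trivial
      | succ j ih => exact ⟨rfl, by simpa using ih⟩
    simpa [hdef] using this (i + 2)
  | succ m ih =>
    intro i hi
    obtain ⟨a, b⟩ := ih (i + 2) (by rwa [show i + 2 + 2 * m = i + 2 * (m + 1) by ring])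
    have cp := gradH_cinf hp
    have cq := gradH_cinf hq
    have cD : ∀ n, Cinf fun x => gradH p n x - gradH q n x := fun n => (cp n).sub (cq n)
    have cE : ∀ n, Cinf fun x => gradH p (n + 1) x - gradH q (n + 1) x
        - (-(1 / 2)) ^ n * iteratedDeriv (2 * n) h x :=
      fun n => (cD _).sub ((Cinf.const _).mul (hh.iter' _))
    set D : ℝ → ℝ := fun x => gradH p (m + 1) x - gradH q (m + 1) x with hD
    set E : ℝ → ℝ := fun x => gradH p (m + 1) x - gradH q (m + 1) x
        - (-(1 / 2)) ^ m * iteratedDeriv (2 * m) h x with hE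
    have dsub : ∀ {f g : ℝ → ℝ}, Cinf f → Cinf g →
        deriv (fun x => f x - g x) = fun x => deriv f x - deriv g x := fun hf hg =>
      funext fun x => ((hf.hasDerivAt x).fun_sub (hg.hasDerivAt x)).deriv
    have dE : ∀ n (c : ℝ) {f g : ℝ → ℝ}, Cinf f → Cinf g →
        deriv (fun x => f x - g x - c * iteratedDeriv n h x) =
          fun x => deriv f x - deriv g x - c * iteratedDeriv (n + 1) h x := by
      intro n c f g hf hg
      funext x
      rw [iteratedDeriv_succ]
      exact (((hf.hasDerivAt x).fun_sub (hg.hasDerivAt x)).fun_sub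
        (((hh.iter' n).hasDerivAt x).const_mul c)).deriv
    have key : deriv (fun x => gradH p (m + 1 + 1) x - gradH q (m + 1 + 1) x
        - (-(1 / 2)) ^ (m + 1) * iteratedDeriv (2 * (m + 1)) h x) = fun x =>
        -(1 / 2) * deriv (deriv (deriv E)) x + ((2 * p x) * deriv D x
          + ((2 * deriv (gradH q (m + 1)) x) * h x + (deriv p x * D x
            + gradH q (m + 1) x * deriv h x))) := by
      rw [dE _ _ (cp _) (cq _), hE, dE _ _ (cp _) (cq _), dE _ _ (cp _).deriv (cq _).deriv,
        dE _ _ (cp _).deriv.deriv (cq _).deriv.deriv, hD, dsub (cp _) (cq _), hdef, dsub hp hq,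
        lenard hp (m + 1), lenard hq (m + 1)]
      funext x
      rw [opK_eq hp (cp _), opK_eq hq (cq _), show 2 * (m + 1) + 1 = 2 * m + 1 + 1 + 1 by ring]
      ring
    have cD' : Cinf D := cD _
    have cE' : Cinf E := cE _
    have A : VanTo (i + 2) fun x => gradH p (m + 1 + 1) x - gradH q (m + 1 + 1) x
        - (-(1 / 2)) ^ (m + 1) * iteratedDeriv (2 * (m + 1)) h x := by
      refine ⟨by simp only [h0, he]; ring, ?_⟩
      rw [key]
      have c1 := (Cinf.const (-(1 / 2))).mul cE'.deriv.deriv.deriv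
      have c2 := ((Cinf.const 2).mul hp).mul cD'.deriv
      have c3 := ((Cinf.const 2).mul (cq (m + 1)).deriv).mul hh
      have c4 := hp.deriv.mul cD'
      have c5 := (cq (m + 1)).mul hh.deriv
      refine VanTo.add c1 (c2.add (c3.add (c4.add c5))) ?_ (VanTo.add c2 (c3.add (c4.add c5)) ?_
        (VanTo.add c3 (c4.add c5) ?_ (VanTo.add c4 c5 ?_ ?_)))
      · exact VanTo.mul (Cinf.const _) cE'.deriv.deriv.deriv a.2.2.2
      · exact VanTo.mul ((Cinf.const 2).mul hp) cD'.deriv b.2
      · exact VanTo.mul ((Cinf.const 2).mul (cq _).deriv) hh (hi.mono (by omega))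
      · exact VanTo.mul hp.deriv cD' b.mono_one
      · exact VanTo.mul (cq _) hh.deriv (hi.mono (i := i + 1 + 1) (by omega)).2
    refine ⟨A, ?_⟩
    have B := VanTo.add (cE (m + 1)) ((Cinf.const ((-(1 / 2)) ^ (m + 1))).mul (hh.iter' _))
      (A.mono (i := i) (by omega)) (VanTo.mul (Cinf.const _) (hh.iter' _) hi.iter)
    simpa using B

theorem jets_reflect {q : ℝ → ℝ} (hq : Cinf q) (h : ∀ m, locX q (m + 1) 0 = 0) (k : ℕ) :
    iteratedDeriv k (fun x => q (-x)) 0 = iteratedDeriv k q 0 := by
  have hp := hq.neg_arg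
  have hh := hp.sub hq
  have he : ∀ m, iteratedDeriv (2 * m) (fun x => q (-x) - q x) 0 = 0 := by
    intro m
    rw [iter_sub_zero hp hq, iter_reflect, pow_mul]
    simp
  have step : ∀ j, VanTo j (fun x => q (-x) - q x) →
      iteratedDeriv j (fun x => q (-x) - q x) 0 = 0 := by
    intro j hj
    rcases Nat.even_or_odd' j with ⟨m, rfl | rfl⟩
    · exact he m
    have a := (grad_diff hp hq (fun m => by rw [gradH_reflect]; simp) he m 1
      (by rwa [add_comm])).1.2.1
    have d : HasDerivAt (fun x => gradH (fun x => q (-x)) (m + 1) x - gradH q (m + 1) x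
        - (-(1 / 2)) ^ m * iteratedDeriv (2 * m) (fun x => q (-x) - q x) x) _ 0 :=
      (((gradH_cinf hp _).hasDerivAt 0).fun_sub ((gradH_cinf hq _).hasDerivAt 0)).fun_sub
        (((hh.iter' _).hasDerivAt 0).const_mul _)
    have e : deriv (gradH q (m + 1)) 0 = 0 := by rw [lenard hq]; exact h m
    rw [d.deriv, gradH_reflect, deriv_comp_neg, neg_zero, e, ← iteratedDeriv_succ] at a
    simpa using a
  have all : ∀ j, VanTo j fun x => q (-x) - q x := by
    intro j
    induction j with
    | zero => trivial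
    | succ j ih => exact ih.succ (step j ih)
  have := step k (all k)
  rw [iter_sub_zero hp hq] at this
  exact sub_eq_zero.1 this

end Pool.Agent.P.MP_aabf10_an
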