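import Pool.Agent.P.MP_aabf10_an.SupA
import Pool.Agent.P.MP_aabf10_an.Borg
import Pool.Agent.P.MP_aabf10_an.Refl

/-!
# Uniform spanning and quasi-analyticity of the isospectral manifold
-/

open scoped ContDiff Topology Real
open Filter Finset Set MeasureTheory

namespace Pool.Agent.P.MP_aabf10_an

variable {q : ℝ → ℝ}

theorem dens1_iff_model {a : ℕ → ℝ} (ha : StrictMono a) {C : ℝ}
    (h : ∀ n : ℕ, |a n - ((n : ℝ) * π) ^ 2| ≤ C) (w : ℕ → ℝ) :
    Dens1 a w ↔ Dens1 (fun n : ℕ => ((n : ℝ) * π) ^ 2) w := by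
  have h' : ∀ n : ℕ, |((n : ℝ) * π) ^ 2 - ((n : ℝ) * π) ^ 2| ≤ C := fun n => by
    simpa using (abs_nonneg _).trans (h 0)
  exact ⟨dens1_transfer _ _ w w ha sq_nodes_mono C h h' 1 (by simp),
    dens1_transfer _ _ w w sq_nodes_mono ha C h' h 1 (by simp)⟩

theorem IsDir.dens1_iff {Q : ℝ} (hQ1 : 1 ≤ Q) {mu : ℕ → ℝ} (h : IsDir q Q mu) (w : ℕ → ℝ) :
    Dens1 mu w ↔ Dens1 (fun n : ℕ => ((n : ℝ) * π) ^ 2) w := by
  obtain ⟨C, hC⟩ := h.exists_bound (by linarith)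
  exact dens1_iff_model h.mono hC w

theorem quasiAn_of_dens1 (hq : Cinf q) {Q : ℝ} (hQ1 : 1 ≤ Q) {mu al be : ℕ → ℝ} (h : IsDir q Q mu)
    (g : IsGap q mu al be) (H : Dens1 (fun n : ℕ => ((n : ℝ) * π) ^ 2) fun n => n * ell al be n) :
    QuasiAn (Iso q) := by
  intro p hp r hr hj
  obtain ⟨Qp, mp, p1, p2, p3, p4⟩ := exists_data_iso hq hQ1 h g hp
  obtain ⟨Qr, mr, r1, r2, r3, r4⟩ := exists_data_iso hq hQ1 h g hr
  have hpr : p ∈ Iso r := iso_eq hr ▸ hp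
  have cp := hp.1.cont
  have cr := hr.1.cont
  have H' := (r3.dens1_iff r1 _).2 H
  have hm : ∀ j, mr (j + 1) ∈ Icc (al (j + 1)) (be (j + 1)) := fun j =>
    ⟨r4.al_le _ (by omega), r4.le_be _⟩
  obtain ⟨⟨C, hC⟩, -⟩ := mb_ratio_bd hp.1 hr.1
  obtain ⟨⟨C', hC'⟩, -⟩ := mb_ratio_bd hr.1 hr.1
  have eb : ∀ z, mb p z = mb r z := by
    obtain ⟨D, -, hD⟩ := br_gap_bound hp.1 p1 p2 p3 p4 hm
    intro z
    refine sub_eq_zero.1 ((moments_real hr.1 r1 r2 r3 r4 (E := fun z => mb p z - mb r z)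
      ((mb_diff cp).sub (mb_diff cr)) (fun j => by
        rw [mb_real cp, mb_real cr, r3.br_succ]; simp) hD
      ⟨C + 1, hC.mono fun n hn k hk => (norm_sub_le _ _).trans (by linarith [(hn k hk).1])⟩
      fun N => (flat_decay hr.1 hpr hj N).1).2.2 H' z)
  have em : ∀ j, mp (j + 1) = mr (j + 1) := fun j => p3.eq_of_zero p4 (hm j) (by
    have := eb (mr (j + 1))
    rw [mb_real cp, mb_real cr, r3.br_succ] at this
    exact_mod_cast this)
  have eN : ∀ z, Nn p z = Nn r z := by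
    obtain ⟨D, -, hD⟩ := Nr_bound cp p1 p2 p3 p4
    obtain ⟨D', -, hD'⟩ := Nr_bound cr r1 r2 r3 r4
    intro z
    refine sub_eq_zero.1 ((moments_real hr.1 r1 r2 r3 r4 (E := fun z => Nn p z - Nn r z)
      ((Nn_diff cp).sub (Nn_diff cr)) (e := fun j => Nr p (mr (j + 1)) - Nr r (mr (j + 1)))
      (fun j => by rw [Nn_real cp, Nn_real cr]; simp) (D := D + D') (fun j => ?_)
      ⟨C + C', (hC.and hC').mono fun n hn k hk => (norm_sub_le _ _).trans
        (by linarith [(hn.1 k hk).2, (hn.2 k hk).2])⟩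
      fun N => (flat_decay hr.1 hpr hj N).2 eb).2.2 H' z)
    have := mul_le_mul_of_nonneg_left (abs_sub (Nr p (mr (j + 1))) (Nr r (mr (j + 1))))
      (Nat.cast_nonneg (α := ℝ) (j + 1))
    have a := hD j
    rw [em] at a
    linarith [hD' j]
  refine eq_of_monodromy hp.1 hr.1 (fun z => ?_) eb
  have a := Dl_eq_of_iso hr.1 hpr z
  have b := eN z
  unfold Dl at a
  unfold Nn at b
  linear_combination a - b

theorem exists_crit (hq : Continuous q) {mu al be : ℕ → ℝ} (g : IsGap q mu al be) {j : ℕ}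
    (hj : 1 ≤ j) : ∃ a ∈ Icc (al j) (be j), Dr1 q a = 0 := by
  have h1 := g.al_le j hj
  have h2 := g.le_be j
  rcases (h1.trans h2).eq_or_lt with e | l
  · have d := (g.dbl j hj).2 e
    exact ⟨mu j, ⟨h1, h2⟩, (dbl_iff hq (d.sq hq)).1 d⟩
  obtain ⟨a, ha, e⟩ := exists_hasDerivAt_eq_zero (f := fun t => Dr q t * Dr q t) l
    ((Dr_cont hq).mul (Dr_cont hq)).continuousOn
    (by simp only [← sq, g.al_sq j hj, g.be_sq])
    fun t _ => (Dr_hasDerivAt hq t).fun_mul (Dr_hasDerivAt hq t)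
  refine ⟨a, Ioo_subset_Icc_self ha, ?_⟩
  have := g.gap j hj a ha
  have h0 : Dr q a ≠ 0 := fun e => by rw [e] at this; norm_num at this
  exact mul_left_cancel₀ h0 (by linarith)

theorem ell_le_of_crit (hq : Continuous q) {Q : ℝ} (hQ1 : 1 ≤ Q) (hQ : ∀ x, |q x| ≤ Q)
    {mu al be : ℕ → ℝ} (h : IsDir q Q mu) (g : IsGap q mu al be)
    (hc : ∀ j, Dr1 q (mu (j + 1)) = 0) {r : ℕ → ℝ} (hr : ∀ n : ℕ, |r n| ≤ n * ell al be n) :
    ∃ D, 0 < D ∧ ∀ j, |r (j + 1) * (rho q (mu (j + 1)))⁻¹| ≤ D * |Nr q (mu (j + 1))| := by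
  obtain ⟨E, E0, H⟩ := om_ell hq hQ1 hQ h g
  have e : ∀ j, cr q (mu (j + 1)) * J2 q (mu (j + 1)) 1 =
      2 * Nr q (mu (j + 1)) * J1 q (mu (j + 1)) 1 := fun j => by
    have := hc j
    rw [Dr1, h.br_succ] at this
    linarith
  refine exists_const (fun j => abs_nonneg _) (fun j e0 => ?_) (C := 200 * E) ?_
  · have a := e j
    rw [abs_eq_zero.1 e0, mul_zero, zero_mul] at a
    have b := (H j).2
    rw [om, e0, (mul_eq_zero.1 a).resolve_right (J2_pos hq _).ne'] at b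
    have c := hr (j + 1)
    rw [le_antisymm (by simpa using b) (g.ell_nonneg (j + 1)), mul_zero, abs_nonpos_iff] at c
    simp [c]
  filter_upwards [ev_large (200 * Q)] with j hj
  obtain ⟨k, k2, k3, k4, k5, -, d1, -, hJ⟩ := h.large_facts' hq hQ1 hQ (j := j + 1)
    (by push_cast; linarith)
  have hJ0 := J2_pos hq (mu (j + 1))
  have k0 : 0 < k := by linarith
  obtain ⟨b2, b1⟩ := J_bound hq hQ k0 (by linarith) (h := 1) (H := 1) (by simp)
  rw [k2] at b1 b2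
  set n : ℝ := ((j + 1 : ℕ) : ℝ)
  have n1 : 200 ≤ n := by simp only [n]; push_cast; linarith
  set N := |Nr q (mu (j + 1))|
  have N0 : 0 ≤ N := abs_nonneg _
  have a1 : |cr q (mu (j + 1))| ≤ 192 * n * N := by
    have a := congrArg abs (e j)
    rw [abs_mul, abs_mul, abs_mul, abs_two, abs_of_pos hJ0] at a
    rw [div_le_iff₀ (by positivity)] at hJ
    rw [le_div_iff₀ k0] at b1
    have c1 := mul_le_mul_of_nonneg_left hJ (abs_nonneg (cr q (mu (j + 1))))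
    have c2 := mul_le_mul_of_nonneg_left b1 (by positivity : 0 ≤ 12 * k * N)
    have c3 := mul_le_mul_of_nonneg_right k4 N0
    have c4 : |cr q (mu (j + 1))| * (J2 q (mu (j + 1)) 1 * (6 * k ^ 2)) =
        12 * k * N * (|J1 q (mu (j + 1)) 1| * k) := by
      linear_combination (6 * k ^ 2) * a
    linarith
  have a2 : ell al be (j + 1) ≤ E * (193 * n * N) :=
    (H j).2.trans (mul_le_mul_of_nonneg_left (by rw [om]; linarith) E0.le)
  have a3 : |(rho q (mu (j + 1)))⁻¹| * n ^ 2 ≤ 1 := by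
    rw [rho, inv_div, abs_div, div_mul_eq_mul_div, div_le_one (by linarith)]
    rw [mul_one, ← k2, le_div_iff₀ (pow_pos k0 2), k2] at b2
    have c1 : (29 / 10 * n) ^ 2 ≤ k ^ 2 := pow_le_pow_left₀ (by positivity) (by linarith) 2
    rw [k2] at c1
    nlinarith [mul_le_mul_of_nonneg_left c1 (abs_nonneg (J2 q (mu (j + 1)) 1)),
      mul_nonneg (abs_nonneg (J2 q (mu (j + 1)) 1)) (sq_nonneg n)]
  rw [abs_mul]
  have a4 := mul_le_mul_of_nonneg_right ((hr (j + 1)).trans (mul_le_mul_of_nonneg_left a2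
    (by positivity))) (abs_nonneg (rho q (mu (j + 1)))⁻¹)
  nlinarith [mul_le_mul_of_nonneg_left a3 (by positivity : 0 ≤ E * N), mul_nonneg E0.le N0]

theorem hasSum_poly {s a : ℕ → ℝ} (h : ∀ K : ℕ, HasSum (fun j => s j * a j ^ K) 0)
    (p : Polynomial ℝ) : HasSum (fun j => s j * p.eval (a j)) 0 := by
  induction p using Polynomial.induction_on' with
  | add p r hp hr => simpa [mul_add] using hp.add hr
  | monomial n c =>
    have := (h n).mul_left c
    rw [mul_zero] at this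
    rwa [show (fun j => c * (s j * a j ^ n)) = fun j => s j * (Polynomial.monomial n c).eval (a j)
      from funext fun j => by rw [Polynomial.eval_monomial]; ring] at this

theorem bx1r_zero (hq : Continuous q) (t : ℝ) : bx1r q t 0 = 2 * Nr q t := by
  simp [bx1r, thr_zero hq, thr'_zero hq, phr_zero hq, phr'_zero hq]

theorem exists_special (hq : Cinf q) {Q : ℝ} (hQ1 : 1 ≤ Q) (hQ : ∀ x, |q x| ≤ Q)
    {mu al be : ℕ → ℝ} (h : IsDir q Q mu) (g : IsGap q mu al be)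
    (H : ¬ Dens1 (fun n : ℕ => ((n : ℝ) * π) ^ 2) fun n => n * ell al be n) :
    ∃ p ∈ Iso q, ∃ Q' mu', 1 ≤ Q' ∧ (∀ x, |p x| ≤ Q') ∧ IsDir p Q' mu' ∧ IsGap p mu' al be ∧
      (∀ m, locX p (m + 1) 0 = 0) ∧ ∃ j, Nr p (mu' (j + 1)) ≠ 0 := by
  choose! a a1 a2 using fun j (hj : 1 ≤ j) => exists_crit hq.cont g hj
  obtain ⟨o, ho, Qo, mo, o1, o2, o3, o4, o5⟩ := realize hq hQ1 hQ h g a1
    (η := fun j => √(Dr q (a j) ^ 2 - 1))
    fun j hj => Real.sq_sqrt (sub_nonneg.2 (g.ge_one hj (a1 j hj)))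
  have co := ho.1.cont
  have eo := Dr_eq_of_iso hq ho
  obtain ⟨C₀, hC₀⟩ := o3.exists_bound (by linarith)
  obtain ⟨r, r1, ⟨n₀, r2⟩, r3⟩ := exists_ann_of_not_dens1 mo _
    (fun n => mul_nonneg (by positivity) (g.ell_nonneg n)) C₀ hC₀ (ell_decay' hq hQ1 hQ h g)
    fun H' => H ((o3.dens1_iff o1 _).1 H')
  have r0 : r 0 = 0 := by simpa using r1 0
  obtain ⟨E, E1, E2, E3, ⟨C, E4⟩, E5⟩ := exists_interp (mb o) (mb_diff co) (fun j => mo (j + 1))
    (fun i j e => Nat.succ_injective (o3.mono.injective e)) C₀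
    (fun j => by simpa using hC₀ (j + 1)) (o3.mb_zero_iff co) (fun j => r (j + 1))
    (fun K => ((summable_nat_add_iff 1).2 (ell_decay' hq hQ1 hQ h g K)).of_nonneg_of_le
      (fun j => by positivity) fun j => mul_le_mul (pow_le_pow_left₀ (by positivity)
        (by push_cast; linarith) K) (r1 _) (abs_nonneg _) (by positivity))
    fun K => by simpa [r0] using (hasSum_nat_add_iff' 1).2 (r3 K)
  have E2' : ∀ j, E (mo (j + 1)) = ((r (j + 1) * (rho o (mo (j + 1)))⁻¹ : ℝ) : ℂ) := fun j => by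
    rw [E2, deriv_mb co (o3.br_succ j)]; simp
  have real : ∀ t : ℝ, E t = ((E t).re : ℝ) := fun t => by
    by_cases e : mb o t = 0
    · obtain ⟨j, e⟩ := (o3.mb_zero_iff co t).1 e
      rw [e, E2', Complex.ofReal_re]
    · obtain ⟨s, e⟩ := E3 t e
      rw [e, mb_real co, ← Complex.ofReal_mul, Complex.ofReal_re]
  obtain ⟨D, D0, hD⟩ := ell_le_of_crit co o1 o2 o3 o4 (fun j => by
    rw [(o5 _ (by omega)).1, Dr1_congr hq.cont co eo]; exact a2 _ (by omega)) r1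
  have cE : Continuous fun t : ℝ => D⁻¹ * (E t).re := continuous_const.mul
    (Complex.continuous_re.comp (E1.continuous.comp Complex.continuous_ofReal))
  have ivt : ∀ j, 1 ≤ j → ∃ ν ∈ Icc (al j) (be j), (D⁻¹ * (E ν).re) ^ 2 = Dr q ν ^ 2 - 1 := by
    intro j hj
    obtain ⟨ν, n1, n2⟩ := intermediate_value_Icc (a1 j hj).1
      (f := fun t => Dr q t ^ 2 - 1 - (D⁻¹ * (E t).re) ^ 2)
      ((((Dr_cont hq.cont).pow 2).sub continuous_const).sub (cE.pow 2)).continuousOn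
      (show (0 : ℝ) ∈ Set.Icc _ _ from ⟨by
        simp only [g.al_sq j hj]; linarith [sq_nonneg (D⁻¹ * (E (al j)).re)], by
        obtain ⟨i, rfl⟩ := Nat.exists_eq_add_of_le' hj
        have b1 := hD i
        have b2 := discr co (mo (i + 1))
        rw [o3.br_succ, eo] at b2
        rw [← (o5 _ hj).1, E2', Complex.ofReal_re, b2, zero_mul, add_zero, sub_nonneg,
          sq_le_sq, abs_mul, abs_of_pos (inv_pos.2 D0), inv_mul_le_iff₀ D0]
        exact b1⟩)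
    exact ⟨ν, ⟨n1.1, n1.2.trans (a1 j hj).2⟩, by linarith⟩
  choose! ν n1 n2 using ivt
  obtain ⟨p, hp, Qp, mp, p1, p2, p3, p4, p5⟩ := realize hq hQ1 hQ h g n1 n2
  have cp := hp.1.cont
  obtain ⟨D', -, hD'⟩ := Nr_bound cp p1 p2 p3 p4
  obtain ⟨⟨B, hB⟩, B', hB'⟩ := mb_ratio_bd ho.1 hp.1
  have nm : ∀ z, ‖((D⁻¹ : ℝ) : ℂ) * E z‖ = D⁻¹ * ‖E z‖ := fun z => by
    rw [norm_mul, Complex.norm_real, Real.norm_of_nonneg (by positivity)]
  have tr : ∀ {x y z c b : ℝ}, 0 ≤ y → x ≤ c * y → y ≤ b * z → D⁻¹ * x ≤ D⁻¹ * (|c| * b) * z := by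
    intro x y z c b y0 h1 h2
    rw [mul_assoc, mul_assoc]
    exact mul_le_mul_of_nonneg_left (h1.trans ((mul_le_mul_of_nonneg_right (le_abs_self c)
      y0).trans (mul_le_mul_of_nonneg_left h2 (abs_nonneg c)))) (by positivity)
  obtain ⟨m1, m2, -⟩ := moments_real hp.1 p1 p2 p3 p4 (E := fun z => ((D⁻¹ : ℝ) : ℂ) * E z)
    (E1.const_mul _) (e := fun j => Nr p (mp (j + 1))) (fun j => by
      rw [(p5 _ (by omega)).1, (p5 _ (by omega)).2, real]; simp) hD'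
    ⟨_, (E4.and hB).mono fun n hn k hk => by
      rw [nm]; exact tr (norm_nonneg _) (hn.1 k hk) (hn.2 k hk).1⟩
    fun N => by
      obtain ⟨c, hc⟩ := E5 N
      exact ⟨_, (hc.and hB').mono fun t ht => by
        rw [nm, mul_assoc]; exact tr (norm_nonneg _) ht.1 ht.2⟩
  refine ⟨p, hp, Qp, mp, p1, p2, p3, p4, fun m => ?_, ?_⟩
  · have s1 := (expansion hp.1 p1 p2 p3 (locX_cinf hp.1 (m + 1)) (int_locX hp.1 m)).1 0 (by simp)
    simp only [fun j => TT_eq (p3.br_succ j) (J_locX hp.1 (p3.br_succ j) m).1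
      (J_locX hp.1 (p3.br_succ j) m).2 0, tv, bx1r_zero cp] at s1
    have s2 := (hasSum_poly m1 (PP p m)).mul_left 4
    rw [mul_zero] at s2
    refine s1.unique (Eq.mp (congrArg (HasSum · 0) (funext fun j => ?_)) s2)
    unfold rho; ring
  · by_contra hn
    push Not at hn
    obtain ⟨j, rfl⟩ := Nat.exists_eq_succ_of_ne_zero fun e : n₀ = 0 => r2 (e ▸ r0)
    have := m2 hn (mo (j + 1))
    rw [E2'] at this
    exact mul_ne_zero (inv_ne_zero D0.ne') (mul_ne_zero r2 (inv_ne_zero (rho_ne co (o3.br_succ j))))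
      (by exact_mod_cast this)

theorem sup_main (hq : Cinf q) {lam : ℕ → ℝ} (hl : IsEnum q lam) :
    ((∀ p ∈ Iso q, ∀ G, IsLenard p G → SpansSup (Iso q) p G) ↔ QuasiAn (Iso q)) ∧
    (QuasiAn (Iso q) ↔
      ∀ f, InClassSup (fun n => lam (2 * n) - lam (2 * n - 1)) f → Flat f → f = 0) := by
  obtain ⟨Q, mu, al, be, h1, h2, h, g⟩ := exists_data hq
  obtain rfl := enum_unique hl (isEnum_edges hq.cont hq.2 (by linarith) h g) fun t => ⟨rfl, rfl⟩
  rw [ell_edges, qa_sup_iff_dens1 _ g.ell_nonneg (ell_decay hq h1 h2 h g)]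
  by_cases H : Dens1 (fun n : ℕ => ((n : ℝ) * π) ^ 2) fun n => n * ell al be n
  · have a := quasiAn_of_dens1 hq h1 h g H
    refine ⟨iff_of_true (fun p hp G hG => ?_) a, iff_of_true a H⟩
    obtain ⟨Qp, mp, p1, p2, p3, p4⟩ := exists_data_iso hq h1 h g hp
    rw [iso_eq hp]
    exact spansSup_of_dens1 hp.1 p1 p2 p3 p4 ((p3.dens1_iff p1 _).2 H) hG
  obtain ⟨p, hp, Qp, mp, p1, p2, p3, p4, p5, j, p6⟩ := exists_special hq h1 h2 h g H
  have cp := hp.1.cont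
  have a : ¬ QuasiAn (Iso q) := fun A => p6 (Nr_eq_zero_of_even hp.1
    (A _ (iso_eq hp ▸ reflect_mem_iso hp.1) p hp (jets_reflect hp.1 p5)) _)
  refine ⟨iff_of_false (fun A => ?_) a, iff_of_false a H⟩
  obtain ⟨D, -, hD⟩ := Nr_bound cp p1 p2 p3 p4
  obtain ⟨ν, n1, n2, n3⟩ := exists_near_gap hp.1 p3 p4 (j := j) (fun e => by
      have := hD j
      rw [e, mul_zero] at this
      exact absurd this (not_le.2 (mul_pos (by positivity) (abs_pos.2 p6))))
    ((Nr_cont cp).continuousAt.eventually_ne p6)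
  obtain ⟨c, hc, ht⟩ := tangent_bx1 hp.1 n2 n3
  rw [← iso_eq hp] at ht
  obtain ⟨w, w1, w2⟩ := A p hp _ (isLenard_gradH hp.1) _ ht |c * (2 * Nr p ν)|
    (abs_pos.2 (mul_ne_zero hc (mul_ne_zero two_ne_zero n1)))
  obtain ⟨n, e, rfl⟩ := ((isLenard_gradH hp.1).mem_iff hp.1 w).1 w1
  simpa [XP, p5, bx1r_zero cp] using w2 0

end Pool.Agent.P.MP_aabf10_an
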