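import Pool.Agent.P.MP_aabf10_an.Dom2
import Pool.Agent.P.MP_aabf10_an.Seq
import Pool.Agent.P.MP_aabf10_an.Span2
import Pool.Agent.P.MP_aabf10_an.SupB

/-!
# Explicit criteria in terms of the gap lengths
-/

open scoped Topology Real
open Filter Finset

namespace Pool.Agent.P.MP_aabf10_an

lemma hasSum_pi {d : ℕ → ℝ} (k : ℕ) : HasSum (fun n : ℕ => d n * (((n : ℝ) * π) ^ 2) ^ k) 0 ↔
    HasSum (fun n => d n * xx n ^ k) 0 := by
  have h : ((π ^ 2) ^ k : ℝ) ≠ 0 := by positivity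
  rw [← hasSum_mul_left_iff (f := fun n => d n * xx n ^ k) h, mul_zero]
  refine iff_of_eq (congrArg (HasSum · 0) (funext fun n => ?_))
  rw [xx, mul_pow, mul_pow]; ring

lemma cn_ann' {N : Set ℕ} {w : ℕ → ℝ} (hw0 : w 0 = 0)
    (hdec : ∀ k : ℕ, Summable fun n : ℕ => (n : ℝ) ^ k * w n) (hN : N.Infinite)
    (h : ∀ n ∈ N, w n ≠ 0) {C : ℝ} (hC : ∀ n, |cn N n| ≤ C * w n) (k : ℕ) :
    HasSum (fun n : ℕ => cn N n * (((n : ℝ) * π) ^ 2) ^ k) 0 := by
  refine (hasSum_pi k).2 (cn_ann (fun h0 => h 0 h0 hw0) hN k (.of_nonneg_of_le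
    (fun n => mul_nonneg (abs_nonneg _) (pow_nonneg (xx_nonneg n) _)) (fun n => ?_)
    ((hdec (2 * k)).mul_left C)))
  rw [pow_mul, mul_comm _ (w n), ← mul_assoc]
  exact mul_le_mul_of_nonneg_right (hC n) (pow_nonneg (xx_nonneg n) _)

lemma cn_div {N : Set ℕ} (w : ℕ → ℝ) (n : N) :
    cn N n / w n = ((n : ℕ) : ℝ) ^ 2 / (w n * gapProd N n) := by
  rw [cn, if_pos n.2, div_div, mul_comm, xx]

theorem ann_iff {w : ℕ → ℝ} (hw : ∀ n, 0 ≤ w n) (hw0 : w 0 = 0)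
    (hdec : ∀ k : ℕ, Summable fun n : ℕ => (n : ℝ) ^ k * w n) :
    Ann (fun n => ((n : ℝ) * π) ^ 2) w ↔ ∀ N : Set ℕ, N.Infinite → (∀ n ∈ N, w n ≠ 0) →
      ¬Summable fun n : N => (((n : ℕ) : ℝ) ^ 2 / (w n * gapProd N n)) ^ 2 := by
  constructor
  · intro h N hN hNw hs
    have e : ∀ n, cn N n / w n * w n = cn N n := fun n => by
      by_cases hn : n ∈ N
      · exact div_mul_cancel₀ _ (hNw n hn)
      · simp [cn_zero hn]
    have h1 : Summable fun n => (cn N n / w n) ^ 2 := by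
      simp only [← cn_div] at hs
      refine ((summable_subtype_iff_indicator (f := fun n => (cn N n / w n) ^ 2)).1 hs).congr
        fun n => ?_
      by_cases hn : n ∈ N
      · exact Set.indicator_of_mem hn _
      · simp [cn_zero hn]
    obtain ⟨M, hM⟩ := h1.tendsto_cofinite_zero.bddAbove_range_of_cofinite
    have h2 : ∀ n, |cn N n| ≤ (M + 1) * w n := fun n => by
      have h3 : (cn N n / w n) ^ 2 ≤ M := hM ⟨n, rfl⟩
      have h4 : |cn N n / w n| ≤ M + 1 := by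
        nlinarith [sq_abs (cn N n / w n), sq_nonneg (|cn N n / w n| - 1)]
      rw [← e n, abs_mul, abs_of_nonneg (hw n)]
      exact mul_le_mul_of_nonneg_right h4 (hw n)
    obtain ⟨n, hn⟩ := hN.nonempty
    have h5 := h _ h1 (fun k => by simpa only [e] using cn_ann' hw0 hdec hN hNw h2 k) n
    rw [e] at h5
    exact cn_ne hn (fun e0 => hNw n hn (e0 ▸ hw0)) h5
  · intro h s hs hk n₀
    by_contra h0
    obtain ⟨N, a1, a2, C, a3⟩ := dominates_canon (d := fun n => s n * w n) (by simp [hw0])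
      (fun k => (hasSum_pi k).1 (hk k)) h0
    have hN : ∀ n ∈ N, w n ≠ 0 := fun n hn => right_ne_zero_of_mul (a1 hn)
    refine h N a2 hN (.of_nonneg_of_le (fun _ => sq_nonneg _) (fun n => ?_)
      ((hs.mul_left (C ^ 2)).subtype N))
    rw [← cn_div, Function.comp_apply, ← mul_pow, sq_le_sq, abs_div,
      div_le_iff₀ (abs_pos.2 (hN n n.2))]
    refine (a3 n).trans ?_
    rw [abs_mul, abs_mul, mul_assoc]
    exact mul_le_mul_of_nonneg_right (le_abs_self C) (by positivity)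

theorem dens1_iff {w : ℕ → ℝ} (hw : ∀ n, 0 ≤ w n) (hw0 : w 0 = 0)
    (hdec : ∀ k : ℕ, Summable fun n : ℕ => (n : ℝ) ^ k * w n) :
    Dens1 (fun n => ((n : ℝ) * π) ^ 2) w ↔ ∀ N : Set ℕ, N.Infinite → (∀ n ∈ N, w n ≠ 0) →
      ¬∃ C : ℝ, ∀ n ∈ N, (n : ℝ) ^ 2 ≤ C * (w n * |gapProd N n|) := by
  have e : ∀ (N : Set ℕ) (C : ℝ), ∀ n ∈ N, |cn N n| ≤ C * w n ↔
      (n : ℝ) ^ 2 ≤ C * (w n * |gapProd N n|) := fun N C n hn => by
    rw [cn, if_pos hn, abs_div, abs_of_nonneg (xx_nonneg n),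
      div_le_iff₀ (abs_pos.2 (gapProd_ne N n)), mul_assoc, xx]
  constructor
  · rintro h N hN hNw ⟨C, hC⟩
    have h2 : ∀ n, |cn N n| ≤ |C| * w n := fun n => by
      by_cases hn : n ∈ N
      · exact ((e N C n hn).2 (hC n hn)).trans
          (mul_le_mul_of_nonneg_right (le_abs_self C) (hw n))
      · rw [cn_zero hn, abs_zero]; exact mul_nonneg (abs_nonneg _) (hw n)
    obtain ⟨n, hn⟩ := hN.nonempty
    exact cn_ne hn (fun e0 => hNw n hn (e0 ▸ hw0)) (eq_zero_of_dens1 _ _ _ |C| h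
      (fun n => by rw [abs_of_nonneg (hw n)]; exact h2 n) (cn_ann' hw0 hdec hN hNw h2) n)
  · intro h
    by_contra hd
    obtain ⟨r, hr, ⟨n₀, hn₀⟩, hk⟩ := exists_ann_of_not_dens1 _ _ hw 0 (fun n => by simp) hdec hd
    obtain ⟨N, a1, a2, C, a3⟩ := dominates_canon (d := r) (by simpa [hw0] using hr 0)
      (fun k => (hasSum_pi k).1 (hk k)) hn₀
    refine h N a2 (fun n hn e0 => a1 hn (by simpa [e0] using hr n)) ⟨|C|, fun n hn =>
      (e N _ n hn).1 ((a3 n).trans ?_)⟩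
    exact mul_le_mul (le_abs_self C) (hr n) (abs_nonneg _) (abs_nonneg _)

variable {q : ℝ → ℝ}

theorem gap_facts (hq : Cinf q) {lam : ℕ → ℝ} (hl : IsEnum q lam) :
    (∀ n, 0 ≤ lam (2 * n) - lam (2 * n - 1)) ∧
      ∀ k : ℕ, Summable fun n : ℕ => (n : ℝ) ^ k * (lam (2 * n) - lam (2 * n - 1)) := by
  obtain ⟨Q, mu, al, be, h1, h2, h, g⟩ := exists_data hq
  obtain rfl := enum_unique hl (isEnum_edges hq.cont hq.2 (by linarith) h g) fun t => ⟨rfl, rfl⟩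
  have e := congrFun (ell_edges al be)
  simp only [e]
  exact ⟨g.ell_nonneg, ell_decay hq h1 h2 h g⟩

lemma open_iff {l : ℕ → ℝ} (h : ∀ n, 0 ≤ l n) (h0 : l 0 = 0) (n : ℕ) :
    (n : ℝ) * l n ≠ 0 ↔ 0 < l n :=
  ⟨fun h1 => (h n).lt_of_ne' (right_ne_zero_of_mul h1), fun h1 =>
    mul_ne_zero (Nat.cast_ne_zero.2 fun e => h1.ne' (e ▸ h0)) h1.ne'⟩

theorem qa_iff_series {l : ℕ → ℝ} (h : ∀ n, 0 ≤ l n) (h0 : l 0 = 0)
    (hdec : ∀ k : ℕ, Summable fun n : ℕ => (n : ℝ) ^ k * l n) :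
    (∀ f, InClass l f → Flat f → f = 0) ↔ ∀ N : Set ℕ, N.Infinite → (∀ n ∈ N, 0 < l n) →
      ¬Summable fun n : N => (((n : ℕ) : ℝ) / (l n * gapProd N n)) ^ 2 := by
  have hw : ∀ n : ℕ, 0 ≤ (n : ℝ) * l n := fun n => mul_nonneg n.cast_nonneg (h n)
  have hd : ∀ k : ℕ, Summable fun n : ℕ => (n : ℝ) ^ k * (n * l n) :=
    fun k => (hdec (k + 1)).congr fun n => by ring
  rw [qa_iff_dens l h hdec, dens_iff_ann (summable_weighted (C := 0) hw (fun n => by simp) hd),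
    ann_iff hw (by simp) hd]
  simp only [open_iff h h0]
  refine forall_congr' fun N => forall_congr' fun _ => forall_congr' fun hN =>
    not_congr (summable_congr fun n => ?_)
  have : ((n : ℕ) : ℝ) ≠ 0 := left_ne_zero_of_mul ((open_iff h h0 n).2 (hN n n.2))
  rw [sq ((n : ℕ) : ℝ), mul_assoc, mul_div_mul_left _ _ this]

theorem qa_sup_iff_bdd {l : ℕ → ℝ} (h : ∀ n, 0 ≤ l n) (h0 : l 0 = 0)
    (hdec : ∀ k : ℕ, Summable fun n : ℕ => (n : ℝ) ^ k * l n) :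
    (∀ f, InClassSup l f → Flat f → f = 0) ↔ ∀ N : Set ℕ, N.Infinite → (∀ n ∈ N, 0 < l n) →
      ¬∃ C : ℝ, ∀ n ∈ N, (n : ℝ) ≤ C * (l n * |gapProd N n|) := by
  have hw : ∀ n : ℕ, 0 ≤ (n : ℝ) * l n := fun n => mul_nonneg n.cast_nonneg (h n)
  have hd : ∀ k : ℕ, Summable fun n : ℕ => (n : ℝ) ^ k * (n * l n) :=
    fun k => (hdec (k + 1)).congr fun n => by ring
  rw [qa_sup_iff_dens1 l h hdec, dens1_iff hw (by simp) hd]
  simp only [open_iff h h0]
  refine forall_congr' fun N => forall_congr' fun _ => forall_congr' fun hN =>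
    not_congr (exists_congr fun C => forall_congr' fun n => forall_congr' fun hn => ?_)
  have : (0 : ℝ) < n := (Nat.cast_nonneg n).lt_of_ne'
    (left_ne_zero_of_mul ((open_iff h h0 n).2 (hN n hn)))
  rw [sq, mul_assoc, mul_left_comm C, mul_le_mul_iff_right₀ this]

theorem qa_even_iff_series {W : ℕ → ℝ} (h : ∀ n, 0 ≤ W n) (h0 : W 0 = 0)
    (hdec : ∀ k : ℕ, Summable fun n : ℕ => (n : ℝ) ^ k * √(W n)) :
    (∀ g, InClass (fun n => √(W n)) g → Function.Even g → Flat g → g = 0) ↔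
      ∀ N : Set ℕ, N.Infinite → (∀ n ∈ N, 0 < W n) →
        ¬Summable fun n : N => ((n : ℕ) : ℝ) ^ 4 / (W n * gapProd N n ^ 2) := by
  have hw : ∀ n : ℕ, 0 ≤ √(W n) := fun n => Real.sqrt_nonneg _
  rw [qa_even_iff_dens _ hw (by simp [h0]) hdec,
    dens_iff_ann (summable_weighted (C := 0) hw (fun n => by simp) hdec),
    ann_iff hw (by simp [h0]) hdec]
  simp only [Real.sqrt_ne_zero']
  refine forall_congr' fun N => forall_congr' fun _ => forall_congr' fun hN =>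
    not_congr (summable_congr fun n => ?_)
  rw [div_pow, mul_pow, Real.sq_sqrt (h n), ← pow_mul]

theorem spansL2_iff_series (hq : Cinf q) {lam : ℕ → ℝ} (hl : IsEnum q lam) {p : ℝ → ℝ}
    (hp : p ∈ Iso q) {G : ℕ → ℝ → ℝ} (hG : IsLenard p G) : SpansL2 (Iso q) p G ↔
      ∀ N : Set ℕ, N.Infinite → (∀ n ∈ N, lam (2 * n - 1) < lam (2 * n)) →
        ¬Summable fun n : N =>
          (((n : ℕ) : ℝ) / ((lam (2 * n) - lam (2 * n - 1)) * gapProd N n)) ^ 2 := by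
  obtain ⟨h1, h2⟩ := gap_facts hq hl
  rw [spansL2_iff hp.1 hG, spansAt_iff_qa' hq hl hp, qa_iff_series h1 (by simp) h2]
  simp only [sub_pos]

theorem polySpans_iff_series (hq : Cinf q) {lam : ℕ → ℝ} (hl : IsEnum q lam) (k : ℕ) {s : ℝ}
    (hs : 0 < s) {W : ℕ → ℝ} (hW : ∀ n, W n = n ^ k * (lam (2 * n) - lam (2 * n - 1)) ^ s) :
    (∀ f : ℕ → ℝ, Summable (fun n => W (n + 1) * f (n + 1) ^ 2) →
      ∀ ε > 0, ∃ p : Polynomial ℝ,
        Summable (fun n => W (n + 1) * p.eval (lam (2 * (n + 1))) ^ 2) ∧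
        ∑' n, W (n + 1) * (f (n + 1) - p.eval (lam (2 * (n + 1)))) ^ 2 < ε) ↔
      ∀ N : Set ℕ, N.Infinite → (∀ n ∈ N, lam (2 * n - 1) < lam (2 * n)) →
        ¬Summable fun n : N => ((n : ℕ) : ℝ) ^ 4 / (W n * gapProd N n ^ 2) := by
  obtain ⟨h1, h2⟩ := gap_facts hq hl
  have W0 : W 0 = 0 := by simp [hW, hs.ne']
  have W1 : ∀ n, 0 ≤ W n := fun n => by
    rw [hW]; exact mul_nonneg (by positivity) (Real.rpow_nonneg (h1 n) s)
  have hd := sqrt_decay W0 W1 fun K =>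
    (rpow_decay h1 h2 hs (K + k)).congr fun j => by rw [hW]; ring
  have e : ∀ n, 0 < W n ↔ lam (2 * n - 1) < lam (2 * n) := fun n => by
    rw [hW, ← sub_pos (a := lam (2 * n))]
    constructor
    · intro h
      refine (h1 n).lt_of_ne' fun e => ?_
      rw [e, Real.zero_rpow hs.ne', mul_zero] at h
      exact h.false
    · intro h
      have : n ≠ 0 := by rintro rfl; simp at h
      exact mul_pos (by positivity) (Real.rpow_pos_of_pos h s)
  rw [polySpans_iff hq hl k hs hW, qa_even_iff_series W1 W0 hd]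
  simp only [e]

end Pool.Agent.P.MP_aabf10_an
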