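import Pool.Agent.P.MP_aabf10_an.Hill

/-!
# Basic estimates for large spectral parameter
-/

open scoped ContDiff Topology Real
open Filter Finset Set MeasureTheory Complex

namespace Pool.Agent.P.MP_aabf10_an

variable {q : ℝ → ℝ}

theorem norm_exp_I_le (κ : ℂ) {t : ℝ} (ht : 0 ≤ t) :
    ‖exp (I * κ * t)‖ ≤ Real.exp (|κ.im| * t) := by
  rw [norm_exp, Real.exp_le_exp]
  simp only [mul_re, I_re, zero_mul, I_im, one_mul, zero_sub, ofReal_re, mul_im, zero_add,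
    ofReal_im, mul_zero, sub_zero]
  exact mul_le_mul_of_nonneg_right (neg_le_abs _) ht

theorem norm_cos_le (k : ℂ) {t : ℝ} (ht : 0 ≤ t) : ‖cos (k * t)‖ ≤ Real.exp (|k.im| * t) := by
  have h1 := norm_exp_I_le k ht
  have h2 := norm_exp_I_le (-k) ht
  rw [neg_im, abs_neg] at h2
  have : cos (k * t) = (exp (I * k * t) + exp (I * -k * t)) / 2 := by
    rw [Complex.cos]; congr 3 <;> ring
  rw [this, norm_div]
  have := norm_add_le (exp (I * k * t)) (exp (I * -k * t))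
  simp only [Complex.norm_ofNat]
  linarith

theorem norm_sin_le (k : ℂ) {t : ℝ} (ht : 0 ≤ t) : ‖sin (k * t)‖ ≤ Real.exp (|k.im| * t) := by
  have h1 := norm_exp_I_le k ht
  have h2 := norm_exp_I_le (-k) ht
  rw [neg_im, abs_neg] at h2
  have : sin (k * t) = (exp (I * -k * t) - exp (I * k * t)) * I / 2 := by
    rw [Complex.sin]; congr 4 <;> ring
  rw [this, norm_div, norm_mul, norm_I]
  have := norm_sub_le (exp (I * -k * t)) (exp (I * k * t))
  simp only [Complex.norm_ofNat]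
  linarith

theorem z_formula (hq : Continuous q) {z κ : ℂ} (hκ : κ ^ 2 = z) {y y' : ℝ → ℂ}
    (h : IsSol (pot q z) y y') (t : ℝ) :
    (y' t + I * κ * y t) - exp (I * κ * t) * (y' 0 + I * κ * y 0) =
      ∫ s in (0 : ℝ)..t, exp (I * κ * (t - s : ℝ)) * (q s * y s) := by
  have hc := h.cont
  rw [ftc (f := fun s => exp (I * κ * (t - s : ℝ)) * (y' s + I * κ * y s))]
  · simp
  · intro s
    have h1 : HasDerivAt (fun s : ℝ => exp (I * κ * (t - s : ℝ)))
        (exp (I * κ * (t - s : ℝ)) * (I * κ * (-1 : ℝ))) s :=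
      (((hasDerivAt_id s).const_sub t).ofReal_comp.const_mul (I * κ)).cexp
    refine (h1.fun_mul ((h.d2 s).fun_add ((h.d1 s).const_mul (I * κ)))).congr_deriv ?_
    simp only [pot, ← hκ]
    push_cast
    linear_combination (-exp (I * κ * (t - s)) * κ ^ 2 * y s) * I_sq
  · fun_prop

theorem est_z (hq : Continuous q) {Q : ℝ} (hQ : ∀ x, |q x| ≤ Q) {k : ℂ} (hk0 : k ≠ 0)
    (hk : 2 * Q ≤ ‖k‖) {y y' : ℝ → ℂ} (h : IsSol (pot q (k ^ 2)) y y') {t : ℝ}
    (ht : t ∈ Icc (0 : ℝ) 1) (κ : ℂ) (hκ : κ = k ∨ κ = -k) :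
    ‖(y' t + I * κ * y t) - exp (I * κ * t) * (y' 0 + I * κ * y 0)‖ ≤
      2 * Q / ‖k‖ * (‖y' 0‖ + ‖k‖ * ‖y 0‖) * Real.exp (|k.im| * t) := by
  have hQ0 : 0 ≤ Q := (abs_nonneg _).trans (hQ 0)
  have hkp : 0 < ‖k‖ := norm_pos_iff.2 hk0
  set τ := |k.im|
  set m0 := ‖y' 0‖ + ‖k‖ * ‖y 0‖
  have hc := h.cont
  obtain ⟨t₀, ht₀, hmax⟩ := (isCompact_Icc (a := (0 : ℝ)) (b := 1)).exists_isMaxOn
    (f := fun s => ‖y s‖ * Real.exp (-(τ * s))) ⟨0, by simp⟩ (by fun_prop)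
  set m := ‖y t₀‖ * Real.exp (-(τ * t₀))
  have hm : ∀ s ∈ Icc (0 : ℝ) 1, ‖y s‖ ≤ m * Real.exp (τ * s) := by
    intro s hs
    have h1 : ‖y s‖ * Real.exp (-(τ * s)) ≤ m := hmax hs
    have h2 := mul_le_mul_of_nonneg_right h1 (Real.exp_pos (τ * s)).le
    rwa [mul_assoc, ← Real.exp_add, neg_add_cancel, Real.exp_zero, mul_one] at h2
  have hm0 : 0 ≤ m := by positivity
  have key : ∀ κ : ℂ, κ = k ∨ κ = -k → ∀ t ∈ Icc (0 : ℝ) 1,
      ‖(y' t + I * κ * y t) - exp (I * κ * t) * (y' 0 + I * κ * y 0)‖ ≤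
        Q * m * Real.exp (τ * t) := by
    intro κ hκ t ht
    have h2 : κ ^ 2 = k ^ 2 := by rcases hκ with rfl | rfl <;> ring
    have h3 : |κ.im| = τ := by rcases hκ with rfl | rfl <;> simp [τ]
    rw [z_formula hq h2 h t]
    refine (intervalIntegral.norm_integral_le_of_norm_le_const (C := Q * m * Real.exp (τ * t))
      fun s hs => ?_).trans ?_
    · rw [uIoc_of_le ht.1] at hs
      rw [norm_mul, norm_mul, Complex.norm_real, Real.norm_eq_abs]
      have a1 := norm_exp_I_le κ (sub_nonneg.2 hs.2)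
      rw [h3] at a1
      have a2 := hm s ⟨hs.1.le, hs.2.trans ht.2⟩
      calc _ ≤ Real.exp (τ * (t - s)) * (Q * (m * Real.exp (τ * s))) :=
            mul_le_mul a1 (mul_le_mul (hQ s) a2 (norm_nonneg _) hQ0) (by positivity)
              (by positivity)
        _ = Q * m * Real.exp (τ * t) := by
            have : Real.exp (τ * t) = Real.exp (τ * (t - s)) * Real.exp (τ * s) := by
              rw [← Real.exp_add]; congr 1; ring
            rw [this]; ring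
    · rw [sub_zero, abs_of_nonneg ht.1]
      exact mul_le_of_le_one_right (by positivity) ht.2
  have hz : ∀ κ : ℂ, κ = k ∨ κ = -k →
      ‖y' t₀ + I * κ * y t₀‖ ≤ (m0 + Q * m) * Real.exp (τ * t₀) := by
    intro κ hκ
    have h3 : |κ.im| = τ := by rcases hκ with rfl | rfl <;> simp [τ]
    have h4 : ‖κ‖ = ‖k‖ := by rcases hκ with rfl | rfl <;> simp
    have a1 := key κ hκ t₀ ht₀
    have a2 := norm_exp_I_le κ ht₀.1
    rw [h3] at a2
    have a3 : ‖y' 0 + I * κ * y 0‖ ≤ m0 := by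
      refine (norm_add_le _ _).trans ?_
      simp [m0, h4]
    have a4 : ‖exp (I * κ * t₀) * (y' 0 + I * κ * y 0)‖ ≤ Real.exp (τ * t₀) * m0 := by
      rw [norm_mul]; exact mul_le_mul a2 a3 (norm_nonneg _) (by positivity)
    have a5 := norm_add_le ((y' t₀ + I * κ * y t₀) - exp (I * κ * t₀) * (y' 0 + I * κ * y 0))
      (exp (I * κ * t₀) * (y' 0 + I * κ * y 0))
    rw [sub_add_cancel] at a5
    linarith
  have hmb : ‖k‖ * m ≤ 2 * m0 := by
    have b1 := hz k (Or.inl rfl)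
    have b2 := hz (-k) (Or.inr rfl)
    have b3 := norm_sub_le (y' t₀ + I * k * y t₀) (y' t₀ + I * -k * y t₀)
    have b4 : (y' t₀ + I * k * y t₀) - (y' t₀ + I * -k * y t₀) = 2 * I * k * y t₀ := by ring
    rw [b4] at b3
    simp only [norm_mul, Complex.norm_ofNat, norm_I, mul_one] at b3
    have b5 : ‖y t₀‖ = m * Real.exp (τ * t₀) := by
      simp only [m]
      rw [mul_assoc, ← Real.exp_add, neg_add_cancel, Real.exp_zero, mul_one]
    rw [b5] at b3
    have b6 : ‖k‖ * m * Real.exp (τ * t₀) ≤ (m0 + Q * m) * Real.exp (τ * t₀) := by linarith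
    have b7 := le_of_mul_le_mul_right b6 (Real.exp_pos _)
    nlinarith
  refine (key κ hκ t ht).trans (mul_le_mul_of_nonneg_right ?_ (Real.exp_pos _).le)
  rw [div_mul_eq_mul_div, le_div_iff₀ hkp]
  nlinarith

theorem est_pair (hq : Continuous q) {Q : ℝ} (hQ : ∀ x, |q x| ≤ Q) {k : ℂ} (hk0 : k ≠ 0)
    (hk : 2 * Q ≤ ‖k‖) {y y' : ℝ → ℂ} (h : IsSol (pot q (k ^ 2)) y y') {t : ℝ}
    (ht : t ∈ Icc (0 : ℝ) 1) :
    ‖k * y t - (k * y 0 * cos (k * t) + y' 0 * sin (k * t))‖ ≤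
      2 * Q / ‖k‖ * (‖y' 0‖ + ‖k‖ * ‖y 0‖) * Real.exp (|k.im| * t) ∧
    ‖y' t - (y' 0 * cos (k * t) - k * y 0 * sin (k * t))‖ ≤
      2 * Q / ‖k‖ * (‖y' 0‖ + ‖k‖ * ‖y 0‖) * Real.exp (|k.im| * t) := by
  have a := est_z hq hQ hk0 hk h ht k (Or.inl rfl)
  have b := est_z hq hQ hk0 hk h ht (-k) (Or.inr rfl)
  have e1 : exp (I * k * t) = cos (k * t) + sin (k * t) * I := by
    rw [← exp_mul_I]; congr 1; ring
  have e2 : exp (I * -k * t) = cos (k * t) - sin (k * t) * I := by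
    have := exp_mul_I (-(k * t))
    rw [cos_neg, sin_neg] at this
    rw [show I * -k * t = -(k * t) * I by ring, this]; ring
  rw [e1] at a
  rw [e2] at b
  set A := (y' t + I * k * y t) - (cos (k * t) + sin (k * t) * I) * (y' 0 + I * k * y 0)
  set B := (y' t + I * -k * y t) - (cos (k * t) - sin (k * t) * I) * (y' 0 + I * -k * y 0)
  constructor
  · have : k * y t - (k * y 0 * cos (k * t) + y' 0 * sin (k * t)) = (B - A) * I / 2 := by
      simp only [A, B]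
      linear_combination (k * y t - k * y 0 * cos (k * t) - y' 0 * sin (k * t)) * I_sq
    rw [this, norm_div, norm_mul, norm_I]
    have := norm_sub_le B A
    simp only [Complex.norm_ofNat]
    linarith
  · have : y' t - (y' 0 * cos (k * t) - k * y 0 * sin (k * t)) = (A + B) / 2 := by
      simp only [A, B]
      linear_combination (k * y 0 * sin (k * t)) * I_sq
    rw [this, norm_div]
    have := norm_add_le A B
    simp only [Complex.norm_ofNat]
    linarith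

/-- The four basic estimates. -/
theorem est (hq : Continuous q) {Q : ℝ} (hQ : ∀ x, |q x| ≤ Q) {k : ℂ} (hk0 : k ≠ 0)
    (hk : 2 * Q ≤ ‖k‖) {t : ℝ} (ht : t ∈ Icc (0 : ℝ) 1) :
    ‖th q (k ^ 2) t - cos (k * t)‖ ≤ 2 * Q / ‖k‖ * Real.exp (|k.im| * t) ∧
    ‖th' q (k ^ 2) t + k * sin (k * t)‖ ≤ 2 * Q * Real.exp (|k.im| * t) ∧
    ‖k * ph q (k ^ 2) t - sin (k * t)‖ ≤ 2 * Q / ‖k‖ * Real.exp (|k.im| * t) ∧
    ‖ph' q (k ^ 2) t - cos (k * t)‖ ≤ 2 * Q / ‖k‖ * Real.exp (|k.im| * t) := by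
  have hkp : 0 < ‖k‖ := norm_pos_iff.2 hk0
  have a := est_pair hq hQ hk0 hk (th_sol hq (k ^ 2)) ht
  have b := est_pair hq hQ hk0 hk (ph_sol hq (k ^ 2)) ht
  simp only [th_zero hq, th'_zero hq, ph_zero hq, ph'_zero hq, norm_zero, norm_one, mul_one,
    zero_add, zero_mul, add_zero, mul_zero, one_mul, zero_sub, sub_neg_eq_add, sub_zero] at a b
  have e : 2 * Q / ‖k‖ * ‖k‖ = 2 * Q := by field_simp
  rw [e] at a
  refine ⟨?_, a.2, b.1, b.2⟩
  have h1 := a.1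
  rw [← mul_sub, norm_mul] at h1
  rw [div_mul_eq_mul_div, le_div_iff₀ hkp]
  linarith

/-- Crude upper bounds. -/
theorem est_bd (hq : Continuous q) {Q : ℝ} (hQ : ∀ x, |q x| ≤ Q) {k : ℂ} (hk0 : k ≠ 0)
    (hk : 2 * Q ≤ ‖k‖) {t : ℝ} (ht : t ∈ Icc (0 : ℝ) 1) :
    ‖th q (k ^ 2) t‖ ≤ 2 * Real.exp (|k.im| * t) ∧
    ‖th' q (k ^ 2) t‖ ≤ 2 * ‖k‖ * Real.exp (|k.im| * t) ∧
    ‖ph q (k ^ 2) t‖ ≤ 2 / ‖k‖ * Real.exp (|k.im| * t) ∧
    ‖ph' q (k ^ 2) t‖ ≤ 2 * Real.exp (|k.im| * t) := by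
  have hkp : 0 < ‖k‖ := norm_pos_iff.2 hk0
  obtain ⟨a, b, c, d⟩ := est hq hQ hk0 hk ht
  have hc := norm_cos_le k ht.1
  have hs := norm_sin_le k ht.1
  set E := Real.exp (|k.im| * t)
  have hE : 0 < E := Real.exp_pos _
  have h1 : 2 * Q / ‖k‖ * E ≤ E := by
    refine mul_le_of_le_one_left hE.le ?_
    rwa [div_le_one hkp]
  refine ⟨?_, ?_, ?_, ?_⟩
  · have := norm_add_le (th q (k ^ 2) t - cos (k * t)) (cos (k * t))
    rw [sub_add_cancel] at this; linarith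
  · have := norm_sub_le (th' q (k ^ 2) t + k * sin (k * t)) (k * sin (k * t))
    rw [add_sub_cancel_right, norm_mul] at this
    nlinarith [mul_le_mul_of_nonneg_left hs hkp.le, mul_le_mul_of_nonneg_right hk hE.le]
  · have := norm_add_le (k * ph q (k ^ 2) t - sin (k * t)) (sin (k * t))
    rw [sub_add_cancel, norm_mul] at this
    rw [div_mul_eq_mul_div, le_div_iff₀ hkp]
    linarith
  · have := norm_add_le (ph' q (k ^ 2) t - cos (k * t)) (cos (k * t))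
    rw [sub_add_cancel] at this; linarith

theorem exists_bound_periodic (hq : Continuous q) (hp : Function.Periodic q 1) :
    ∃ Q, 1 ≤ Q ∧ ∀ x, |q x| ≤ Q := by
  obtain ⟨L, hL⟩ := (isCompact_Icc (a := (0 : ℝ)) (b := 1)).exists_bound_of_continuousOn
    hq.continuousOn
  refine ⟨max 1 L, le_max_left _ _, fun x => ?_⟩
  obtain ⟨y, hy, e⟩ := hp.exists_mem_Ico₀ one_pos x
  rw [e]
  exact (hL y ⟨hy.1, hy.2.le⟩).trans (le_max_right _ _)

end Pool.Agent.P.MP_aabf10_an
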