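import Pool.Agent.P.MP_aabf10_an.Decay

/-!
# Expansion in derivatives of products of solutions at the Dirichlet eigenvalues
-/

open scoped ContDiff Topology Real
open Filter Finset Set MeasureTheory

namespace Pool.Agent.P.MP_aabf10_an

variable {q : ℝ → ℝ}

theorem differentiable_param {F : ℂ → ℝ → ℂ} (hc : Continuous fun u : ℂ × ℝ => F u.1 u.2)
    (hd : ∀ s, Differentiable ℂ fun z => F z s) (a b : ℝ) :
    Differentiable ℂ fun z => ∫ s in a..b, F z s := by
  intro z₀
  obtain ⟨M, hM⟩ := ((isCompact_closedBall z₀ 2).prod (isCompact_uIcc (a := a) (b := b))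
    ).exists_bound_of_continuousOn hc.continuousOn
  have hcs : ∀ z, Continuous (F z) := fun z => hc.comp (f := fun s : ℝ => (z, s)) (by fun_prop)
  refine (intervalIntegral.hasDerivAt_integral_of_dominated_loc_of_deriv_le (μ := volume)
    (F' := fun z s => deriv (fun z => F z s) z) (s := Metric.ball z₀ 1) (bound := fun _ => M)
    (Metric.ball_mem_nhds _ one_pos) (Eventually.of_forall fun z => (hcs z).aestronglyMeasurable)
    ((hcs z₀).intervalIntegrable _ _) ?_ (Eventually.of_forall fun s hs z hz => ?_)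
    (continuous_const.intervalIntegrable _ _)
    (Eventually.of_forall fun s _ z _ => (hd s z).hasDerivAt)).2.differentiableAt
  · have := measurable_deriv_with_param (f := fun (s : ℝ) (z : ℂ) => F z s)
      (hc.comp (f := fun u : ℝ × ℂ => (u.2, u.1)) (by fun_prop))
    exact (this.comp (f := fun s : ℝ => (s, z₀)) (by fun_prop)).aestronglyMeasurable
  · have := Complex.norm_deriv_le_of_forall_mem_sphere_norm_le (c := z) (R := 1) (C := M)
      (f := fun z => F z s) one_pos (hd s).diffContOnCl (fun u hu => hM (u, s) ⟨?_, uIoc_subset_uIcc hs⟩)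
    · simpa using this
    · rw [Metric.mem_closedBall]
      rw [Metric.mem_sphere] at hu
      rw [Metric.mem_ball] at hz
      linarith [dist_triangle u z z₀]

theorem th_diff (hq : Continuous q) (x : ℝ) : Differentiable ℂ fun z => th q z x :=
  fun z => (th_hasDerivAt hq z x).differentiableAt
theorem th'_diff (hq : Continuous q) (x : ℝ) : Differentiable ℂ fun z => th' q z x :=
  fun z => (th'_hasDerivAt hq z x).differentiableAt
theorem ph_diff (hq : Continuous q) (x : ℝ) : Differentiable ℂ fun z => ph q z x :=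
  fun z => (ph_hasDerivAt hq z x).differentiableAt
theorem ph'_diff (hq : Continuous q) (x : ℝ) : Differentiable ℂ fun z => ph' q z x :=
  fun z => (ph'_hasDerivAt hq z x).differentiableAt

theorem I_diff (hq : Continuous q) {h : ℝ → ℂ} (hh : Continuous h) (x : ℝ) :
    Differentiable ℂ (fun z => I0 q z h x) ∧ Differentiable ℂ (fun z => I1 q z h x) ∧
      Differentiable ℂ fun z => I2 q z h x := by
  have c1 := th_jc hq
  have c2 := ph_jc hq
  have c3 : Continuous fun u : ℂ × ℝ => h u.2 := hh.comp continuous_snd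
  exact ⟨differentiable_param (c3.mul (c1.mul c1))
      (fun s => ((th_diff hq s).mul (th_diff hq s)).const_mul _) _ _,
    differentiable_param (c3.mul (c1.mul c2))
      (fun s => ((th_diff hq s).mul (ph_diff hq s)).const_mul _) _ _,
    differentiable_param (c3.mul (c2.mul c2))
      (fun s => ((ph_diff hq s).mul (ph_diff hq s)).const_mul _) _ _⟩

noncomputable def chi (q : ℝ → ℝ) (z : ℂ) (x : ℝ) : ℂ := mb q z * th q z x + -ma q z * ph q z x
noncomputable def chi' (q : ℝ → ℝ) (z : ℂ) (x : ℝ) : ℂ := mb q z * th' q z x + -ma q z * ph' q z x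

theorem chi_eq (hq : Continuous q) (z : ℂ) (x : ℝ) :
    chi q z x = ph (fun y => q (1 - y)) z (1 - x) ∧
      chi' q z x = -ph' (fun y => q (1 - y)) z (1 - x) := by
  have hq' : Continuous fun y => q (1 - y) := by fun_prop
  have hs : IsSol (pot (fun y => q (1 - y)) z) (fun y => chi q z (1 - y))
      (fun y => -chi' q z (1 - y)) := ((th_sol hq z).lin (ph_sol hq z) _ _).reflect 1
  have := hs.eq_Ph (pot_cont hq' z) (by simp [chi, ma, mb]; ring)
    (by have := wr hq z 1; simp only [sub_zero, chi', ma, mb]; linear_combination this) (1 - x)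
  simp only [sub_sub_cancel] at this
  exact ⟨this.1.symm, by rw [ph', this.2, neg_neg]⟩

theorem chi_bd (hq : Continuous q) {Q : ℝ} (hQ : ∀ x, |q x| ≤ Q) {k : ℂ} (hk0 : k ≠ 0)
    (hk : 2 * Q ≤ ‖k‖) {t : ℝ} (ht : t ∈ Icc (0 : ℝ) 1) :
    ‖chi q (k ^ 2) t‖ ≤ 2 / ‖k‖ * Real.exp (|k.im| * (1 - t)) ∧
    ‖chi' q (k ^ 2) t‖ ≤ 2 * Real.exp (|k.im| * (1 - t)) := by
  obtain ⟨-, -, c, d⟩ := est_bd (q := fun y => q (1 - y)) (by fun_prop) (fun x => hQ _) hk0 hk
    (t := 1 - t) ⟨by linarith [ht.2], by linarith [ht.1]⟩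
  rw [(chi_eq hq _ t).1, (chi_eq hq _ t).2, norm_neg]
  exact ⟨c, d⟩

/-- numerator of the resolvent used in the expansion theorem -/
noncomputable def EE (q : ℝ → ℝ) (h : ℝ → ℂ) (x : ℝ) (z : ℂ) : ℂ :=
  mb q z * (-I2 q z h x * (2 * (th q z x * th' q z x))
    + (2 * I1 q z h x - I1 q z h 1) * (th' q z x * ph q z x + th q z x * ph' q z x)
    - (I0 q z h x - I0 q z h 1) * (2 * (ph q z x * ph' q z x)))
  + ma q z * (I2 q z h 1 * (th' q z x * ph q z x + th q z x * ph' q z x)
    - I1 q z h 1 * (2 * (ph q z x * ph' q z x)))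

theorem EE_diff (hq : Continuous q) {h : ℝ → ℂ} (hh : Continuous h) (x : ℝ) :
    Differentiable ℂ (EE q h x) := by
  obtain ⟨a0, a1, a2⟩ := I_diff hq hh x
  obtain ⟨b0, b1, b2⟩ := I_diff hq hh 1
  have c1 := th_diff hq x
  have c2 := th'_diff hq x
  have c3 := ph_diff hq x
  have c4 := ph'_diff hq x
  have c5 := ma_diff hq
  have c6 := mb_diff hq
  unfold EE
  fun_prop

theorem int_comb (hq : Continuous q) (z : ℂ) {h : ℝ → ℂ} (hh : Continuous h) (α β γ : ℂ) (x y : ℝ) :
    ∫ s in x..y, h s * (α * (th q z s * th q z s) + β * (th q z s * ph q z s)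
      + γ * (ph q z s * ph q z s)) = α * (I0 q z h y - I0 q z h x) + β * (I1 q z h y - I1 q z h x)
      + γ * (I2 q z h y - I2 q z h x) := by
  have c1 := (th_sol hq z).cont
  have c2 := (ph_sol hq z).cont
  rw [ftc (f := fun u => α * I0 q z h u + β * I1 q z h u + γ * I2 q z h u)]
  · ring
  · intro s
    exact ((((hasDerivAt_prim (f := fun s => h s * (th q z s * th q z s)) (by fun_prop) 0
      s).const_mul α).fun_add ((hasDerivAt_prim (f := fun s => h s * (th q z s * ph q z s))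
      (by fun_prop) 0 s).const_mul β)).fun_add ((hasDerivAt_prim
      (f := fun s => h s * (ph q z s * ph q z s)) (by fun_prop) 0 s).const_mul γ)).congr_deriv
      (by ring)
  · fun_prop

theorem EE_identity (hq : Continuous q) {h : ℝ → ℂ} (hh : Continuous h) (x : ℝ) (z : ℂ) :
    mb q z * EE q h x z =
      2 * (ph q z x * ph' q z x) * (∫ s in x..1, h s * (chi q z s * chi q z s))
      - 2 * (chi q z x * chi' q z x) * (∫ s in (0 : ℝ)..x, h s * (ph q z s * ph q z s))
      + (ph' q z x * chi q z x + ph q z x * chi' q z x) *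
        ((∫ s in (0 : ℝ)..x, h s * (ph q z s * chi q z s))
          - ∫ s in x..1, h s * (ph q z s * chi q z s)) := by
  have e1 : ∀ s, chi q z s * chi q z s = mb q z ^ 2 * (th q z s * th q z s)
      + -(2 * ma q z * mb q z) * (th q z s * ph q z s) + ma q z ^ 2 * (ph q z s * ph q z s) := by
    intro s; unfold chi; ring
  have e2 : ∀ s, ph q z s * chi q z s = 0 * (th q z s * th q z s)
      + mb q z * (th q z s * ph q z s) + -ma q z * (ph q z s * ph q z s) := by
    intro s; unfold chi; ring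
  simp only [e1, e2, int_comb hq z hh]
  have z0 : I0 q z h 0 = 0 := by simp [I0]
  have z1 : I1 q z h 0 = 0 := by simp [I1]
  have z2 : I2 q z h 0 = 0 := by simp [I2]
  rw [z0, z1, z2, show (∫ s in (0 : ℝ)..x, h s * (ph q z s * ph q z s)) = I2 q z h x from rfl]
  unfold EE chi chi'
  ring

theorem norm_int_le' {f : ℝ → ℂ} {a b C : ℝ} (ha : 0 ≤ a) (hab : a ≤ b) (hb : b ≤ 1) (hC : 0 ≤ C)
    (h : ∀ s ∈ Icc a b, ‖f s‖ ≤ C) : ‖∫ s in a..b, f s‖ ≤ C := by
  refine (intervalIntegral.norm_integral_le_of_norm_le_const (C := C) (fun s hs => h s (by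
    rw [uIoc_of_le hab] at hs; exact ⟨hs.1.le, hs.2⟩))).trans ?_
  exact mul_le_of_le_one_right hC (by rw [abs_of_nonneg (by linarith)]; linarith)

theorem EE_bound (hq : Continuous q) {Q : ℝ} (hQ : ∀ x, |q x| ≤ Q) {h : ℝ → ℂ} (hh : Continuous h)
    {H : ℝ} (hH : ∀ x, ‖h x‖ ≤ H) {x : ℝ} (hx : x ∈ Icc (0 : ℝ) 1) {n : ℕ} {k : ℂ} (hb : Bd n k)
    (hk : 16 * Q + 1 ≤ ‖k‖) : ‖EE q h x (k ^ 2)‖ ≤ 8192 * H / ‖k‖ * ‖mb q (k ^ 2)‖ := by
  have hQ0 : 0 ≤ Q := (abs_nonneg _).trans (hQ 0)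
  have H0 : 0 ≤ H := (norm_nonneg _).trans (hH 0)
  have hkp : 0 < ‖k‖ := by linarith
  have hk0 := norm_pos_iff.1 hkp
  have hk2 : 2 * Q ≤ ‖k‖ := by linarith
  have low := mb_lower hq hQ hb hk
  set τ := |k.im|
  have τ0 : 0 ≤ τ := abs_nonneg _
  set z := k ^ 2
  set A := Real.exp (τ * x)
  set B := Real.exp (τ * (1 - x))
  have hAB : A * B = Real.exp τ := by simp only [A, B]; rw [← Real.exp_add]; congr 1; ring
  have A0 : 0 < A := Real.exp_pos _
  have B0 : 0 < B := Real.exp_pos _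
  set κ := 2 / ‖k‖
  have κ0 : 0 < κ := by positivity
  obtain ⟨-, -, p1, p2⟩ := est_bd hq hQ hk0 hk2 hx
  obtain ⟨c1, c2⟩ := chi_bd hq hQ hk0 hk2 hx
  have prod : ∀ {s} {u v : ℂ} {a b : ℝ}, ‖u‖ ≤ a → ‖v‖ ≤ b → ‖h s * (u * v)‖ ≤ H * (a * b) := by
    intro s u v a b h1 h2
    rw [norm_mul, norm_mul]
    exact mul_le_mul (hH s) (mul_le_mul h1 h2 (norm_nonneg _) ((norm_nonneg _).trans h1))
      (by positivity) H0
  have i1 : ‖∫ s in x..1, h s * (chi q z s * chi q z s)‖ ≤ H * (κ * B * (κ * B)) := by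
    refine norm_int_le' hx.1 hx.2 le_rfl (by positivity) fun s hs => ?_
    have := (chi_bd hq hQ hk0 hk2 (t := s) ⟨hx.1.trans hs.1, hs.2⟩).1.trans
      (mul_le_mul_of_nonneg_left (Real.exp_le_exp.2
        (mul_le_mul_of_nonneg_left (show 1 - s ≤ 1 - x by linarith [hs.1]) τ0)) κ0.le)
    exact prod this this
  have i2 : ‖∫ s in (0 : ℝ)..x, h s * (ph q z s * ph q z s)‖ ≤ H * (κ * A * (κ * A)) := by
    refine norm_int_le' le_rfl hx.1 hx.2 (by positivity) fun s hs => ?_
    have := (est_bd hq hQ hk0 hk2 (t := s) ⟨hs.1, hs.2.trans hx.2⟩).2.2.1.trans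
      (mul_le_mul_of_nonneg_left (Real.exp_le_exp.2 (mul_le_mul_of_nonneg_left hs.2 τ0)) κ0.le)
    exact prod this this
  have i3 : ∀ s ∈ Icc (0 : ℝ) 1, ‖h s * (ph q z s * chi q z s)‖ ≤ H * (κ ^ 2 * (A * B)) := by
    intro s hs
    refine (prod (est_bd hq hQ hk0 hk2 hs).2.2.1 (chi_bd hq hQ hk0 hk2 hs).1).trans_eq ?_
    have : Real.exp τ = Real.exp (τ * s) * Real.exp (τ * (1 - s)) := by
      rw [← Real.exp_add]; congr 1; ring
    rw [hAB, this]; ring
  have i4 := norm_int_le' le_rfl hx.1 hx.2 (by positivity)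
    fun s hs => i3 s ⟨hs.1, hs.2.trans hx.2⟩
  have i5 := norm_int_le' hx.1 hx.2 le_rfl (by positivity)
    fun s hs => i3 s ⟨hx.1.trans hs.1, hs.2⟩
  have m1 : ‖2 * (ph q z x * ph' q z x)‖ ≤ 2 * (κ * A * (2 * A)) := by
    rw [norm_mul, norm_mul, Complex.norm_ofNat]
    exact mul_le_mul_of_nonneg_left (mul_le_mul p1 p2 (norm_nonneg _) (by positivity)) zero_le_two
  have m2 : ‖2 * (chi q z x * chi' q z x)‖ ≤ 2 * (κ * B * (2 * B)) := by
    rw [norm_mul, norm_mul, Complex.norm_ofNat]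
    exact mul_le_mul_of_nonneg_left (mul_le_mul c1 c2 (norm_nonneg _) (by positivity)) zero_le_two
  have m3 : ‖ph' q z x * chi q z x + ph q z x * chi' q z x‖ ≤ 4 * κ * (A * B) := by
    refine (norm_add_le _ _).trans ?_
    rw [norm_mul, norm_mul]
    have := mul_le_mul p2 c1 (norm_nonneg _) (by positivity)
    have := mul_le_mul p1 c2 (norm_nonneg _) (by positivity)
    nlinarith
  have tot : ‖mb q z * EE q h x z‖ ≤ 16 * H * κ ^ 3 * (A * B) ^ 2 := by
    rw [EE_identity hq hh]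
    refine (norm_add_le _ _).trans ((add_le_add (norm_sub_le _ _) le_rfl).trans ?_)
    rw [norm_mul (2 * (ph q z x * ph' q z x)), norm_mul (2 * (chi q z x * chi' q z x)),
      norm_mul (ph' q z x * chi q z x + ph q z x * chi' q z x)]
    have t1 := mul_le_mul m1 i1 (norm_nonneg _) (by positivity)
    have t2 := mul_le_mul m2 i2 (norm_nonneg _) (by positivity)
    have t3 := mul_le_mul m3 ((norm_sub_le _ _).trans (add_le_add i4 i5)) (norm_nonneg _)
      (by positivity)
    refine (add_le_add (add_le_add t1 t2) t3).trans_eq (by ring)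
  rw [norm_mul, hAB] at tot
  have hb0 : 0 < ‖mb q z‖ := by
    have : 0 < ‖k‖ * ‖mb q z‖ := lt_of_lt_of_le (by positivity) low
    exact (mul_pos_iff_of_pos_left hkp).1 this
  have h1 : Real.exp τ ^ 2 ≤ (8 * (‖k‖ * ‖mb q z‖)) ^ 2 :=
    pow_le_pow_left₀ (Real.exp_pos _).le (by linarith) 2
  refine le_of_mul_le_mul_left (tot.trans ((mul_le_mul_of_nonneg_left h1
    (by positivity)).trans_eq ?_)) hb0
  simp only [κ]; field_simp; ring

theorem EE_at (hq : Cinf q) {v u : ℝ → ℝ} (hv : Cinf v) (hu : ∀ s, HasDerivAt u (v s) s)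
    (u0 : u 0 = 0) (u1 : u 1 = 0) (t x : ℝ) :
    EE q (fun s => ((-(1 / 2) * deriv (deriv v) s + 2 * (q s - t) * v s
      + deriv q s * u s : ℝ) : ℂ)) x t = mb q t * v x := by
  have c := hq.cont
  have G := fun (y y' z z' : ℝ → ℂ) (a : IsSol (pot q t) y y') (b : IsSol (pot q t) z z') (w : ℝ) =>
    gauge (p := pot q t) (p1 := fun s => ((deriv q s : ℝ) : ℂ)) (w := fun s => (u s : ℂ)) (w1 := fun s => (v s : ℂ))
    (w2 := fun s => ((deriv v s : ℝ) : ℂ)) (w3 := fun s => ((deriv (deriv v) s : ℝ) : ℂ))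
    (fun s => (hq.hasDerivAt s).ofReal_comp.sub_const _)
    (Complex.continuous_ofReal.comp hq.deriv.cont) (fun s => (hu s).ofReal_comp)
    (fun s => (hv.hasDerivAt s).ofReal_comp) (fun s => (hv.deriv.hasDerivAt s).ofReal_comp)
    (Complex.continuous_ofReal.comp hv.deriv.deriv.cont) a b 0 w
  have v1 : v 1 = v 0 := by simpa using hv.2 0
  have e : ∀ s, (((-(1 / 2) * deriv (deriv v) s + 2 * (q s - t) * v s + deriv q s * u s : ℝ)) : ℂ) =
      -(1 / 2) * ((deriv (deriv v) s : ℝ) : ℂ) + 2 * pot q t s * (v s : ℂ)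
        + ((deriv q s : ℝ) : ℂ) * (u s : ℂ) := by
    intro s; simp [pot]
  have w1 := wr c t x
  have w2 := mdet c t
  unfold EE I0 I1 I2
  simp only [e]
  rw [G _ _ _ _ (th_sol c t) (th_sol c t) x, G _ _ _ _ (th_sol c t) (ph_sol c t) x,
    G _ _ _ _ (ph_sol c t) (ph_sol c t) x, G _ _ _ _ (th_sol c t) (th_sol c t) 1,
    G _ _ _ _ (th_sol c t) (ph_sol c t) 1, G _ _ _ _ (ph_sol c t) (ph_sol c t) 1]
  simp only [conc, th_zero c, th'_zero c, ph_zero c, ph'_zero c, u0, u1, v1, Complex.ofReal_zero]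
  unfold ma mb mc md at *
  generalize th q t x = θ at *
  generalize th' q t x = θ' at *
  generalize ph q t x = φ at *
  generalize ph' q t x = φ' at *
  generalize th q t 1 = a at *
  generalize th' q t 1 = c at *
  generalize ph q t 1 = b at *
  generalize ph' q t 1 = d at *
  linear_combination (b * (v x : ℂ) * (θ * φ' - θ' * φ + 1)) * w1 +
    ((v 0 : ℂ) / 2 * b * (θ' * φ + θ * φ') - (v 0 : ℂ) * a * φ * φ') * w2

/-- the terms of the expansion -/
noncomputable def TT (q : ℝ → ℝ) (t : ℝ) (v : ℝ → ℝ) (x : ℝ) : ℝ :=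
  -(2 / J2 q t 1) * (J2 q t v * (thr' q t x * phr q t x + thr q t x * phr' q t x)
    - J1 q t v * (2 * (phr q t x * phr' q t x)))

theorem TT_bound (hq : Continuous q) {Q : ℝ} (hQ1 : 1 ≤ Q) (hQ : ∀ x, |q x| ≤ Q) {mu : ℕ → ℝ}
    (h : IsDir q Q mu) {v : ℝ → ℝ} {H : ℝ} (hH : ∀ x, |v x| ≤ H) :
    ∃ C, ∀ j, ∀ x ∈ Icc (0 : ℝ) 1, |TT q (mu j) v x| ≤ C := by
  have H0 : 0 ≤ H := (abs_nonneg _).trans (hH 0)
  have hb : ∀ j, ∃ C, ∀ x ∈ Icc (0 : ℝ) 1, |TT q (mu j) v x| ≤ C := fun j => by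
    have c1 := (thr_sol hq (mu j)).cont
    have c2 := (thr_sol hq (mu j)).cont'
    have c3 := (phr_sol hq (mu j)).cont
    have c4 := (phr_sol hq (mu j)).cont'
    exact isCompact_Icc.exists_bound_of_continuousOn (f := TT q (mu j) v)
      (Continuous.continuousOn (by unfold TT; fun_prop))
  choose C hC using hb
  obtain ⟨N, hN⟩ := exists_nat_ge (200 * Q)
  refine ⟨∑ j ∈ range N, |C j| + 768 * H, fun j x hx => ?_⟩
  have hs : 0 ≤ ∑ j ∈ range N, |C j| := sum_nonneg fun _ _ => abs_nonneg _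
  rcases lt_or_ge j N with hj | hj
  · have := single_le_sum (f := fun j => |C j|) (fun _ _ => abs_nonneg _) (mem_range.2 hj)
    linarith [hC j x hx, le_abs_self (C j)]
  obtain ⟨k, hk2, -, -, hk5, -, -, -, hJ⟩ := h.large_facts' hq hQ1 hQ (j := j)
    (hN.trans (by exact_mod_cast hj))
  have hk0 : 0 < k := by linarith
  obtain ⟨b2, b1⟩ := J_bound hq hQ hk0 (by linarith) hH
  obtain ⟨a1, a2, a3, a4⟩ := bd_real hq hQ hk0 (by linarith) hx
  rw [← hk2] at hJ ⊢
  have m1 : |thr' q (k ^ 2) x * phr q (k ^ 2) x + thr q (k ^ 2) x * phr' q (k ^ 2) x| ≤ 8 := by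
    refine (abs_add_le _ _).trans ?_
    rw [abs_mul, abs_mul]
    have t1 := mul_le_mul a2 a3 (abs_nonneg _) (by positivity)
    have t2 := mul_le_mul a1 a4 (abs_nonneg _) (by positivity)
    have e : 2 * k * (2 / k) = 4 := by field_simp; ring
    linarith
  have m2 : |2 * (phr q (k ^ 2) x * phr' q (k ^ 2) x)| ≤ 8 / k := by
    rw [abs_mul, abs_mul, abs_two]
    have t1 := mul_le_mul a3 a4 (abs_nonneg _) (by positivity)
    have e : 8 / k = 2 * (2 / k * 2) := by ring
    linarith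
  have hJ0 := J2_pos hq (k ^ 2)
  have m3 : 2 / J2 q (k ^ 2) 1 ≤ 12 * k ^ 2 := by
    rw [div_le_iff₀ (by positivity)] at hJ
    rw [div_le_iff₀ hJ0]; linarith
  unfold TT
  rw [abs_mul, abs_neg, abs_of_pos (by positivity)]
  have t1 := mul_le_mul b2 m1 (abs_nonneg _) (by positivity)
  have t2 := mul_le_mul b1 m2 (abs_nonneg _) (by positivity)
  rw [← abs_mul] at t1 t2
  have t3 := mul_le_mul m3 ((abs_sub _ _).trans (add_le_add t1 t2)) (abs_nonneg _) (by positivity)
  have e : 12 * k ^ 2 * (4 * H / k ^ 2 * 8 + 4 * H / k * (8 / k)) = 768 * H := by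
    field_simp; ring
  linarith

theorem expansion (hq : Cinf q) {Q : ℝ} (hQ1 : 1 ≤ Q) (hQ : ∀ x, |q x| ≤ Q) {mu : ℕ → ℝ}
    (h : IsDir q Q mu) {v : ℝ → ℝ} (hv : Cinf v) (h0 : ∫ x in (0 : ℝ)..1, v x = 0) :
    (∀ x ∈ Icc (0 : ℝ) 1, HasSum (fun j => TT q (mu (j + 1)) v x) (v x)) ∧
    ∃ u : ℕ → ℝ, Summable u ∧ ∀ j, ∀ x ∈ Icc (0 : ℝ) 1, |TT q (mu (j + 1)) v x| ≤ u j := by
  have c := hq.cont
  set u := fun s => ∫ y in (0 : ℝ)..s, v y
  have hu : ∀ s, HasDerivAt u (v s) s := hasDerivAt_prim hv.cont 0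
  have ucont : Continuous u := continuous_iff_continuousAt.2 fun s => (hu s).continuousAt
  have uper : Function.Periodic u 1 := fun s => by
    have := hv.2.intervalIntegral_add_eq s 0
    rw [zero_add, h0] at this
    simp only [u]
    rw [← intervalIntegral.integral_add_adjacent_intervals (b := s)
      (hv.cont.intervalIntegrable _ _) (hv.cont.intervalIntegrable _ _), this, add_zero]
  set g := fun s => -(1 / 2) * deriv (deriv v) s + 2 * (q s - mu 0) * v s + deriv q s * u s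
  have c1 := hv.cont
  have c2 := hv.deriv.deriv.cont
  have c3 := hq.deriv.cont
  have gcont : Continuous g := by simp only [g]; fun_prop
  obtain ⟨H, H1, hH⟩ := exists_bound_periodic gcont (fun s => by
    simp only [g, hv.deriv.deriv.2 s, hq.2 s, hv.2 s, hq.deriv.2 s, uper s])
  obtain ⟨C, hC⟩ := TT_bound c hQ1 hQ h hH
  obtain ⟨C₀, hC₀⟩ := h.exists_bound (by linarith)
  have hb : ∀ j, br q (mu (j + 1)) = 0 := fun j => (h.zero_iff _).2 ⟨j + 1, by omega, rfl⟩
  have hpos : ∀ j, 0 < mu (j + 1) - mu 0 := fun j => sub_pos.2 (h.mono (Nat.succ_pos j))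
  have hT : ∀ j x, TT q (mu (j + 1)) g x = 2 * (mu (j + 1) - mu 0) * TT q (mu (j + 1)) v x := by
    intro j x
    have G := gauge_dir hq (hb j) hu hv.hasDerivAt hv.deriv.hasDerivAt c2 (by simp [u, h0])
      (by simpa using hv.2 0)
    have e : (fun x => -(1 / 2) * deriv (deriv v) x + 2 * (q x - mu (j + 1)) * v x
        + deriv q x * u x) = fun x => 1 * g x + (-(2 * (mu (j + 1) - mu 0))) * v x := by
      funext x; simp only [g]; ring
    rw [e, J2_add c _ gcont c1, J1_add c _ gcont c1, show u 0 = 0 by simp [u]] at G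
    unfold TT
    rw [show J2 q (mu (j + 1)) g = 2 * (mu (j + 1) - mu 0) * J2 q (mu (j + 1)) v by linarith [G.1],
      show J1 q (mu (j + 1)) g = 2 * (mu (j + 1) - mu 0) * J1 q (mu (j + 1)) v by linarith [G.2]]
    ring
  constructor
  · intro x hx
    have hder : ∀ j, deriv (mb q) (mu (j + 1)) = ((ar q (mu (j + 1)) * J2 q (mu (j + 1)) 1 : ℝ) : ℂ) :=
      fun j => by
        rw [(mb_hasDerivAt c _).deriv, ma_real c, mb_real c, I2_one c, hb]; simp
    have ha : ∀ j, ar q (mu (j + 1)) ≠ 0 := fun j => left_ne_zero_of_mul_eq_one (ar_mul_dr c (hb j))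
    have hres : ∀ j, EE q (fun s => (g s : ℂ)) x (mu (j + 1)) / deriv (mb q) (mu (j + 1)) =
        ((-(1 / 2) * TT q (mu (j + 1)) g x : ℝ) : ℂ) := by
      intro j
      have h1 := ha j
      have h2 := (J2_pos c (mu (j + 1))).ne'
      rw [hder, div_eq_iff (by exact_mod_cast mul_ne_zero h1 h2)]
      unfold EE TT
      rw [mb_real c, hb, ma_real c, I1_real c, I2_real c, th_real c, th'_real c, ph_real c,
        ph'_real c]
      have h3 : (J2 q (mu (j + 1)) 1 : ℂ) ≠ 0 := by exact_mod_cast h2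
      push_cast
      field_simp
      ring
    have hb0 : mb q (mu 0) ≠ 0 := by
      rw [mb_real c]; exact_mod_cast (h.low _ le_rfl).1.ne'
    have pf := partial_fractions (EE q (fun s => (g s : ℂ)) x) (mb q)
      (EE_diff c (Complex.continuous_ofReal.comp gcont) x) (mb_diff c) (fun j => mu (j + 1))
      (fun i j e => Nat.succ_injective (h.mono.injective e)) C₀
      (fun j => by simpa using hC₀ (j + 1))
      (fun z => ⟨fun hz => by
        have hz' : z = (z.re : ℂ) := Complex.ext rfl (by simpa using im_eq_zero_of_mb c hz)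
        rw [hz', mb_real c] at hz
        obtain ⟨j, hj, e⟩ := (h.zero_iff z.re).1 (by exact_mod_cast hz)
        obtain ⟨i, rfl⟩ := Nat.exists_eq_add_of_le' hj
        exact ⟨i, by rw [hz', e]⟩, by rintro ⟨j, rfl⟩; rw [mb_real c, hb]; simp⟩)
      (fun j => by rw [hder]; exact_mod_cast mul_ne_zero (ha j) (J2_pos c _).ne') (1 / 2 * C)
      (fun j => by
        rw [hres, Complex.norm_real, Real.norm_eq_abs, abs_mul, abs_neg, abs_of_pos (by norm_num)]
        linarith [hC (j + 1) x hx])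
      (fun ε hε => by
        filter_upwards [eventually_bd_ge (16 * Q + 1), eventually_bd_ge (8192 * H / ε)]
          with n h1 h2 k hk
        refine (EE_bound c hQ (Complex.continuous_ofReal.comp gcont) (H := H)
          (fun s => by simpa using hH s) hx hk (h1 k hk)).trans
          (mul_le_mul_of_nonneg_right ?_ (norm_nonneg _))
        have h3 := h2 k hk
        rw [div_le_iff₀ hε] at h3
        rw [div_le_iff₀ (by linarith [h1 k hk])]; linarith)
      (mu 0) hb0
    rw [EE_at hq hv hu (by simp [u]) h0, mul_div_cancel_left₀ _ hb0] at pf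
    have e : (fun j => EE q (fun s => (g s : ℂ)) x (mu (j + 1)) / deriv (mb q) (mu (j + 1)) /
        ((mu 0 : ℂ) - mu (j + 1))) = fun j => ((TT q (mu (j + 1)) v x : ℝ) : ℂ) := by
      funext j
      have h1 : (mu 0 : ℂ) - mu (j + 1) ≠ 0 := by
        have := hpos j
        exact_mod_cast (by linarith : mu 0 - mu (j + 1) < 0).ne
      rw [hres, hT, div_eq_iff h1]; push_cast; ring
    rw [e] at pf
    exact Complex.hasSum_ofReal.1 pf
  · have hsum : Summable fun j : ℕ => 1 / (mu (j + 1) - mu 0) := by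
      refine Summable.of_norm_bounded_eventually_nat (g := fun j => 1 / (j : ℝ) ^ 2)
        (Real.summable_one_div_nat_pow.2 one_lt_two) ?_
      filter_upwards [ev_large (|C₀| + 1)] with j hj
      rw [Real.norm_eq_abs, abs_of_pos (one_div_pos.2 (hpos j))]
      have h1 := (abs_le.1 (hC₀ (j + 1))).1
      have h2 := (abs_le.1 (hC₀ 0)).2
      have h3 := Real.pi_gt_three
      have h4 := le_abs_self C₀
      have h5 := abs_nonneg C₀
      push_cast at h1 h2
      refine one_div_le_one_div_of_le (by nlinarith) ?_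
      have h6 : (3 * (j : ℝ)) ^ 2 ≤ ((j + 1) * π) ^ 2 := pow_le_pow_left₀ (by linarith) (by nlinarith) 2
      nlinarith
    refine ⟨fun j => C / 2 * (1 / (mu (j + 1) - mu 0)), hsum.mul_left _, fun j x hx => ?_⟩
    have := hC (j + 1) x hx
    rw [hT, abs_mul, abs_of_pos (by linarith [hpos j])] at this
    simp only []
    rw [mul_one_div, le_div_iff₀ (hpos j)]
    linarith

end Pool.Agent.P.MP_aabf10_an
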