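import Pool.Agent.P.MP_aabf10_an.Basic

/-!
# Fundamental solutions, Duhamel formula, dependence on the potential
-/

open scoped ContDiff Topology Real
open Filter Finset Set MeasureTheory

namespace Pool.Agent.P.MP_aabf10_an

open Classical in
/-- The solution with prescribed data at the origin, paired with its derivative. -/
noncomputable def solv (p : ℝ → ℂ) (a b : ℂ) : (ℝ → ℂ) × (ℝ → ℂ) :=
  if h : Continuous p then ((exists_sol h a b).choose, (exists_sol h a b).choose_spec.choose)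
  else (0, 0)

theorem solv_spec {p : ℝ → ℂ} (hp : Continuous p) (a b : ℂ) :
    IsSol p (solv p a b).1 (solv p a b).2 ∧ (solv p a b).1 0 = a ∧ (solv p a b).2 0 = b := by
  simp only [solv, dif_pos hp]
  exact (exists_sol hp a b).choose_spec.choose_spec

noncomputable def Th (p : ℝ → ℂ) : ℝ → ℂ := (solv p 1 0).1
noncomputable def Th' (p : ℝ → ℂ) : ℝ → ℂ := (solv p 1 0).2
noncomputable def Ph (p : ℝ → ℂ) : ℝ → ℂ := (solv p 0 1).1
noncomputable def Ph' (p : ℝ → ℂ) : ℝ → ℂ := (solv p 0 1).2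

variable {p r : ℝ → ℂ}

theorem Th_sol (hp : Continuous p) : IsSol p (Th p) (Th' p) := (solv_spec hp 1 0).1
theorem Ph_sol (hp : Continuous p) : IsSol p (Ph p) (Ph' p) := (solv_spec hp 0 1).1
theorem Th_zero (hp : Continuous p) : Th p 0 = 1 := (solv_spec hp 1 0).2.1
theorem Th'_zero (hp : Continuous p) : Th' p 0 = 0 := (solv_spec hp 1 0).2.2
theorem Ph_zero (hp : Continuous p) : Ph p 0 = 0 := (solv_spec hp 0 1).2.1
theorem Ph'_zero (hp : Continuous p) : Ph' p 0 = 1 := (solv_spec hp 0 1).2.2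

theorem wr_one (hp : Continuous p) (x : ℝ) : Th p x * Ph' p x - Th' p x * Ph p x = 1 := by
  rw [wr_const (Th_sol hp) (Ph_sol hp) x 0, Th_zero hp, Th'_zero hp, Ph_zero hp, Ph'_zero hp]
  ring

theorem duhamel (hp : Continuous p) (hr : Continuous r) {y y' : ℝ → ℂ} (h : IsSol r y y') (x : ℝ) :
    (y x = y 0 * Th p x + y' 0 * Ph p x + (Ph p x * (∫ s in (0 : ℝ)..x, (r s - p s) * (Th p s * y s))
      - Th p x * ∫ s in (0 : ℝ)..x, (r s - p s) * (Ph p s * y s))) ∧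
    (y' x = y 0 * Th' p x + y' 0 * Ph' p x +
      (Ph' p x * (∫ s in (0 : ℝ)..x, (r s - p s) * (Th p s * y s))
      - Th' p x * ∫ s in (0 : ℝ)..x, (r s - p s) * (Ph p s * y s))) := by
  rw [wr_integral hp hr (Th_sol hp) h, wr_integral hp hr (Ph_sol hp) h, Th_zero hp, Th'_zero hp,
    Ph_zero hp, Ph'_zero hp]
  have := wr_one hp x
  constructor
  · linear_combination (-y x) * this
  · linear_combination (-y' x) * this

theorem IsSol.rep (hp : Continuous p) {y y' : ℝ → ℂ} (h : IsSol p y y') (x : ℝ) :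
    y x = y 0 * Th p x + y' 0 * Ph p x ∧ y' x = y 0 * Th' p x + y' 0 * Ph' p x := by
  simpa using duhamel hp hp h x

theorem IsSol.eq_Th (hp : Continuous p) {y y' : ℝ → ℂ} (h : IsSol p y y') (h0 : y 0 = 1)
    (h1 : y' 0 = 0) (x : ℝ) : Th p x = y x ∧ Th' p x = y' x := by
  have := h.rep hp x
  rw [h0, h1] at this
  constructor
  · rw [this.1]; ring
  · rw [this.2]; ring

theorem IsSol.eq_Ph (hp : Continuous p) {y y' : ℝ → ℂ} (h : IsSol p y y') (h0 : y 0 = 0)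
    (h1 : y' 0 = 1) (x : ℝ) : Ph p x = y x ∧ Ph' p x = y' x := by
  have := h.rep hp x
  rw [h0, h1] at this
  constructor
  · rw [this.1]; ring
  · rw [this.2]; ring

theorem abs_le_of_mem_uIoc {x s R : ℝ} (hx : |x| ≤ R) (hs : s ∈ Set.uIoc 0 x) : |s| ≤ R := by
  have := Set.uIoc_subset_uIcc hs
  rw [Set.mem_uIcc] at this
  rw [abs_le] at hx ⊢
  rcases this with h | h <;> constructor <;> linarith [h.1, h.2, hx.1, hx.2]

theorem norm_int_le {f : ℝ → ℂ} {x R C : ℝ} (hx : |x| ≤ R) (h : ∀ s, |s| ≤ R → ‖f s‖ ≤ C) :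
    ‖∫ s in (0 : ℝ)..x, f s‖ ≤ C * R := by
  have h0 : 0 ≤ C := (norm_nonneg _).trans (h 0 (by simpa using (abs_nonneg x).trans hx))
  refine (intervalIntegral.norm_integral_le_of_norm_le_const
    (fun s hs => h s (abs_le_of_mem_uIoc hx hs))).trans ?_
  rw [sub_zero]
  exact mul_le_mul_of_nonneg_left hx h0

theorem exists_fund_bound (hp : Continuous p) (R : ℝ) : ∃ B, 1 ≤ B ∧ ∀ x, |x| ≤ R →
    ‖Th p x‖ ≤ B ∧ ‖Th' p x‖ ≤ B ∧ ‖Ph p x‖ ≤ B ∧ ‖Ph' p x‖ ≤ B := by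
  obtain ⟨B1, h1, b1⟩ := exists_bound_abs (Th_sol hp).cont R
  obtain ⟨B2, -, b2⟩ := exists_bound_abs (Th_sol hp).cont' R
  obtain ⟨B3, -, b3⟩ := exists_bound_abs (Ph_sol hp).cont R
  obtain ⟨B4, -, b4⟩ := exists_bound_abs (Ph_sol hp).cont' R
  refine ⟨max (max B1 B2) (max B3 B4), by simp [h1], fun x hx => ⟨?_, ?_, ?_, ?_⟩⟩
  · simp [b1 x hx]
  · simp [b2 x hx]
  · simp [b3 x hx]
  · simp [b4 x hx]

/-- Quantitative continuity in the potential. -/
theorem perturb (hp : Continuous p) {R : ℝ} (hR : 0 < R) : ∃ C η₀ : ℝ, 0 < C ∧ 0 < η₀ ∧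
    ∀ (r : ℝ → ℂ), Continuous r → ∀ η, η ≤ η₀ → (∀ x, |x| ≤ R → ‖r x - p x‖ ≤ η) →
    ∀ y y' z z' : ℝ → ℂ, IsSol r y y' → IsSol p z z' → y 0 = z 0 → y' 0 = z' 0 →
    ∀ x, |x| ≤ R → ‖y x - z x‖ ≤ C * η * (‖z 0‖ + ‖z' 0‖) ∧
      ‖y' x - z' x‖ ≤ C * η * (‖z 0‖ + ‖z' 0‖) := by
  obtain ⟨B, hB1, hB⟩ := exists_fund_bound hp R
  have hB0 : 0 < B := by linarith
  refine ⟨4 * B ^ 3 * R, 1 / (4 * B ^ 2 * R), by positivity, by positivity, ?_⟩
  intro r hr η hη hrp y y' z z' hy hz h0 h1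
  have hη0 : 0 ≤ η := (norm_nonneg _).trans (hrp 0 (by simpa using hR.le))
  set m0 := ‖z 0‖ + ‖z' 0‖
  obtain ⟨x₀, hx₀, hmax⟩ := (isCompact_Icc (a := -R) (b := R)).exists_isMaxOn
    ⟨0, by constructor <;> linarith⟩ (hy.cont.norm.continuousOn)
  set m := ‖y x₀‖
  have hm : ∀ s, |s| ≤ R → ‖y s‖ ≤ m := fun s hs => hmax (abs_le.1 hs)
  have hm0 : 0 ≤ m := norm_nonneg _
  have hI : ∀ (f : ℝ → ℂ), (∀ s, |s| ≤ R → ‖f s‖ ≤ B) → ∀ x, |x| ≤ R →
      ‖∫ s in (0 : ℝ)..x, (r s - p s) * (f s * y s)‖ ≤ η * (B * m) * R := by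
    intro f hf x hx
    refine norm_int_le hx fun s hs => ?_
    rw [norm_mul, norm_mul]
    exact mul_le_mul (hrp s hs) (mul_le_mul (hf s hs) (hm s hs) (norm_nonneg _) hB0.le)
      (by positivity) hη0
  have hD : ∀ x, |x| ≤ R → ‖y x - z x‖ ≤ 2 * B ^ 2 * R * η * m ∧
      ‖y' x - z' x‖ ≤ 2 * B ^ 2 * R * η * m := by
    intro x hx
    have d := duhamel hp hr hy x
    have e := hz.rep hp x
    have i1 := hI (Th p) (fun s hs => (hB s hs).1) x hx
    have i2 := hI (Ph p) (fun s hs => (hB s hs).2.2.1) x hx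
    obtain ⟨b1, b2, b3, b4⟩ := hB x hx
    have key : ∀ u v : ℂ, ‖u‖ ≤ B → ‖v‖ ≤ B →
        ‖u * (∫ s in (0 : ℝ)..x, (r s - p s) * (Th p s * y s)) -
          v * ∫ s in (0 : ℝ)..x, (r s - p s) * (Ph p s * y s)‖ ≤ 2 * B ^ 2 * R * η * m := by
      intro u v hu hv
      refine (norm_sub_le _ _).trans ?_
      rw [norm_mul, norm_mul]
      have := mul_le_mul hu i1 (norm_nonneg _) hB0.le
      have := mul_le_mul hv i2 (norm_nonneg _) hB0.le
      nlinarith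
    constructor
    · rw [d.1, e.1, h0, h1, add_sub_cancel_left]; exact key _ _ b3 b1
    · rw [d.2, e.2, h0, h1, add_sub_cancel_left]; exact key _ _ b4 b2
  have hz0 : ‖z x₀‖ ≤ B * m0 := by
    rw [(hz.rep hp x₀).1]
    refine (norm_add_le _ _).trans ?_
    rw [norm_mul, norm_mul]
    obtain ⟨b1, -, b3, -⟩ := hB x₀ (abs_le.2 hx₀)
    have := mul_le_mul_of_nonneg_left b1 (norm_nonneg (z 0))
    have := mul_le_mul_of_nonneg_left b3 (norm_nonneg (z' 0))
    simp only [m0]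
    nlinarith
  have hsmall : 2 * B ^ 2 * R * η ≤ 1 / 2 := by
    rw [le_div_iff₀ (by positivity)] at hη
    nlinarith
  have hmb : m ≤ 2 * B * m0 := by
    have h2 := (hD x₀ (abs_le.2 hx₀)).1
    have h3 : m ≤ ‖y x₀ - z x₀‖ + ‖z x₀‖ := by
      simpa [m] using norm_add_le (y x₀ - z x₀) (z x₀)
    nlinarith
  intro x hx
  have hfin : 2 * B ^ 2 * R * η * m ≤ 4 * B ^ 3 * R * η * m0 := by
    have := mul_le_mul_of_nonneg_left hmb (by positivity : 0 ≤ 2 * B ^ 2 * R * η)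
    nlinarith
  exact ⟨(hD x hx).1.trans hfin, (hD x hx).2.trans hfin⟩

section limits
variable {ι : Type*} {l : Filter ι}

theorem sol_tendsto (hp : Continuous p) {R : ℝ} (hR : 0 < R) {r : ι → ℝ → ℂ}
    (hr : ∀ i, Continuous (r i))
    (hlim : ∀ ε > 0, ∀ᶠ i in l, ∀ x, |x| ≤ R → ‖r i x - p x‖ ≤ ε)
    {y y' : ι → ℝ → ℂ} {z z' : ℝ → ℂ} (hy : ∀ i, IsSol (r i) (y i) (y' i)) (hz : IsSol p z z')
    (h0 : ∀ i, y i 0 = z 0) (h1 : ∀ i, y' i 0 = z' 0) :
    ∀ ε > 0, ∀ᶠ i in l, ∀ x, |x| ≤ R → ‖y i x - z x‖ ≤ ε ∧ ‖y' i x - z' x‖ ≤ ε := by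
  obtain ⟨C, η₀, hC, hη₀, H⟩ := perturb hp hR
  intro ε hε
  set m0 := ‖z 0‖ + ‖z' 0‖
  have hm0 : 0 ≤ m0 := by positivity
  have hη : 0 < min η₀ (ε / (C * (m0 + 1))) := lt_min hη₀ (by positivity)
  filter_upwards [hlim _ hη] with i hi x hx
  have := H (r i) (hr i) _ (min_le_left _ _) hi _ _ _ _ (hy i) hz (h0 i) (h1 i) x hx
  have hb : C * min η₀ (ε / (C * (m0 + 1))) * m0 ≤ ε := by
    have h2 : min η₀ (ε / (C * (m0 + 1))) ≤ ε / (C * (m0 + 1)) := min_le_right _ _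
    rw [le_div_iff₀ (by positivity)] at h2
    nlinarith [mul_pos hC hη]
  exact ⟨this.1.trans hb, this.2.trans hb⟩

theorem tendsto_int_of_unif {R x : ℝ} (hx : |x| ≤ R) {f : ι → ℝ → ℂ} {g : ℝ → ℂ}
    (hf : ∀ i, Continuous (f i)) (hg : Continuous g)
    (hlim : ∀ ε > 0, ∀ᶠ i in l, ∀ s, |s| ≤ R → ‖f i s - g s‖ ≤ ε) :
    Tendsto (fun i => ∫ s in (0 : ℝ)..x, f i s) l (𝓝 (∫ s in (0 : ℝ)..x, g s)) := by
  rw [Metric.tendsto_nhds]
  intro ε hε
  have hR : 0 ≤ R := (abs_nonneg x).trans hx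
  filter_upwards [hlim (ε / (R + 1)) (by positivity)] with i hi
  rw [dist_eq_norm, ← intervalIntegral.integral_sub ((hf i).intervalIntegrable _ _)
    (hg.intervalIntegrable _ _)]
  refine (norm_int_le hx hi).trans_lt ?_
  rw [div_mul_eq_mul_div, div_lt_iff₀ (by positivity)]
  nlinarith

/-- First variation of a solution. -/
theorem sol_deriv (hp : Continuous p) {R : ℝ} (hR : 0 < R) {g : ι → ℝ → ℂ} {h : ℝ → ℂ} {t : ι → ℂ}
    (hg : ∀ i, Continuous (g i)) (hh : Continuous h) (ht : Tendsto t l (𝓝 0))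
    (ht0 : ∀ᶠ i in l, t i ≠ 0)
    (hlim : ∀ ε > 0, ∀ᶠ i in l, ∀ x, |x| ≤ R → ‖g i x - h x‖ ≤ ε)
    {y y' : ι → ℝ → ℂ} {z z' : ℝ → ℂ} (hy : ∀ i, IsSol (fun x => p x + t i * g i x) (y i) (y' i))
    (hz : IsSol p z z') (h0 : ∀ i, y i 0 = z 0) (h1 : ∀ i, y' i 0 = z' 0) {x : ℝ} (hx : |x| ≤ R) :
    Tendsto (fun i => (y i x - z x) / t i) l
      (𝓝 (Ph p x * (∫ s in (0 : ℝ)..x, h s * (Th p s * z s))
        - Th p x * ∫ s in (0 : ℝ)..x, h s * (Ph p s * z s))) ∧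
    Tendsto (fun i => (y' i x - z' x) / t i) l
      (𝓝 (Ph' p x * (∫ s in (0 : ℝ)..x, h s * (Th p s * z s))
        - Th' p x * ∫ s in (0 : ℝ)..x, h s * (Ph p s * z s))) := by
  have hr : ∀ i, Continuous fun x => p x + t i * g i x := fun i => by
    have := hg i; fun_prop
  obtain ⟨H, H1, hH⟩ := exists_bound_abs hh R
  have hconv := sol_tendsto (l := l) hp hR hr (fun ε hε => by
    have e1 : ∀ᶠ i in l, ‖t i‖ ≤ ε / (H + 1) := by
      have := (tendsto_norm_zero.comp ht).eventually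
        (Iic_mem_nhds (show (0 : ℝ) < ε / (H + 1) by positivity))
      simpa using this
    filter_upwards [e1, hlim 1 one_pos] with i h1 h2 x hx
    rw [add_sub_cancel_left, norm_mul]
    have h3 : ‖g i x‖ ≤ H + 1 := by
      have := norm_add_le (g i x - h x) (h x)
      rw [sub_add_cancel] at this
      linarith [h2 x hx, hH x hx]
    calc ‖t i‖ * ‖g i x‖ ≤ ε / (H + 1) * (H + 1) :=
          mul_le_mul h1 h3 (norm_nonneg _) (by positivity)
      _ = ε := by field_simp) hy hz h0 h1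
  have hI : ∀ f : ℝ → ℂ, Continuous f →
      Tendsto (fun i => ∫ s in (0 : ℝ)..x, g i s * (f s * y i s)) l
        (𝓝 (∫ s in (0 : ℝ)..x, h s * (f s * z s))) := by
    intro f hf
    obtain ⟨F, F1, hF⟩ := exists_bound_abs hf R
    obtain ⟨Z, Z1, hZ⟩ := exists_bound_abs hz.cont R
    refine tendsto_int_of_unif hx (fun i => (hg i).mul (hf.mul (hy i).cont))
      (hh.mul (hf.mul hz.cont)) fun ε hε => ?_
    have hδ : 0 < min 1 (ε / (F * (H + 1 + Z))) := lt_min one_pos (by positivity)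
    filter_upwards [hlim _ hδ, hconv _ hδ] with i h1 h2 s hs
    set δ := min 1 (ε / (F * (H + 1 + Z)))
    have hδ1 : δ ≤ 1 := min_le_left _ _
    have hδ2 : δ * (F * (H + 1 + Z)) ≤ ε := by
      have : δ ≤ ε / (F * (H + 1 + Z)) := min_le_right _ _
      rwa [le_div_iff₀ (by positivity)] at this
    have e : g i s * (f s * y i s) - h s * (f s * z s) =
        f s * ((g i s - h s) * (y i s - z s) + h s * (y i s - z s) + (g i s - h s) * z s) := by ring
    rw [e, norm_mul]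
    have a1 := h1 s hs
    have a2 := (h2 s hs).1
    have b : ‖(g i s - h s) * (y i s - z s) + h s * (y i s - z s) + (g i s - h s) * z s‖ ≤
        δ * (H + 1 + Z) := by
      refine (norm_add₃_le).trans ?_
      rw [norm_mul, norm_mul, norm_mul]
      have c1 := mul_le_mul (a1.trans hδ1) a2 (norm_nonneg _) zero_le_one
      have c2 := mul_le_mul (hH s hs) a2 (norm_nonneg _) (by linarith)
      have c3 := mul_le_mul a1 (hZ s hs) (norm_nonneg _) hδ.le
      nlinarith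
    calc _ ≤ F * (δ * (H + 1 + Z)) := mul_le_mul (hF s hs) b (norm_nonneg _) (by linarith)
      _ ≤ ε := by nlinarith
  have e := hz.rep hp x
  have hpull : ∀ i (f : ℝ → ℂ), ∫ s in (0 : ℝ)..x, (p s + t i * g i s - p s) * (f s * y i s) =
      t i * ∫ s in (0 : ℝ)..x, g i s * (f s * y i s) := by
    intro i f
    rw [← intervalIntegral.integral_const_mul]
    congr 1; funext s; ring
  constructor
  · refine (((hI _ (Th_sol hp).cont).const_mul (Ph p x)).sub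
      ((hI _ (Ph_sol hp).cont).const_mul (Th p x))).congr' ?_
    filter_upwards [ht0] with i hi
    rw [(duhamel hp (hr i) (hy i) x).1, e.1, h0, h1, add_sub_cancel_left, hpull, hpull]
    field_simp
  · refine (((hI _ (Th_sol hp).cont).const_mul (Ph' p x)).sub
      ((hI _ (Ph_sol hp).cont).const_mul (Th' p x))).congr' ?_
    filter_upwards [ht0] with i hi
    rw [(duhamel hp (hr i) (hy i) x).2, e.2, h0, h1, add_sub_cancel_left, hpull, hpull]
    field_simp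

end limits

end Pool.Agent.P.MP_aabf10_an
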