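import Pool.Agent.P.MP_aabf10_an.Pruefer

/-!
# Bands and lacunae; the enumeration of the periodic and anti-periodic spectrum
-/

open scoped ContDiff Topology Real
open Filter Finset Set MeasureTheory

namespace Pool.Agent.P.MP_aabf10_an

variable {q : ℝ → ℝ}

theorem level_lemma {g : ℝ → ℝ} (hg : Continuous g) {s e L : ℝ} (hse : s < e) (hs : L ≤ g s)
    (he : g e ≤ L) (h : ∀ t ∈ Ioo s e, g t = L → ∃ g' < 0, HasDerivAt g g' t) :
    ∃ c ∈ Icc s e, g c = L ∧ (∀ t ∈ Ioo s c, L < g t) ∧ ∀ t ∈ Ioo c e, g t < L := by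
  have key : ∀ t₁ ∈ Ioo s e, ∀ t₂ ∈ Ioo s e, t₁ < t₂ → g t₁ ≤ L → g t₂ < L := by
    intro t₁ h1 t₂ h2 hlt hL
    have := cross_up (f := fun t => -g t) hg.neg (L := -L) ordConnected_Ioo (fun t ht e => by
      obtain ⟨g', hg', hd⟩ := h t ht (neg_injective e)
      have := cross_of_deriv hd.fun_neg (neg_pos.2 hg')
      rwa [e] at this) h1 h2 hlt (neg_le_neg hL)
    linarith
  set U := {t | t ∈ Ioo s e ∧ g t ≤ L} ∪ {e}
  have hne : U.Nonempty := ⟨e, Or.inr rfl⟩
  have hlb : ∀ t ∈ U, s ≤ t := by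
    rintro t (h | h)
    · exact h.1.1.le
    · rw [h]; exact hse.le
  have hbd : BddBelow U := ⟨s, hlb⟩
  have hc1 : s ≤ sInf U := le_csInf hne hlb
  have hc2 : sInf U ≤ e := csInf_le hbd (Or.inr rfl)
  have hl : ∀ t ∈ Ioo s (sInf U), L < g t := fun t ht => by
    by_contra hh
    exact absurd (csInf_le hbd (Or.inl ⟨⟨ht.1, ht.2.trans_le hc2⟩, not_lt.1 hh⟩)) (not_le.2 ht.2)
  have hr : ∀ t ∈ Ioo (sInf U) e, g t < L := fun t ht => by
    obtain ⟨u, hu, hut⟩ := exists_lt_of_csInf_lt hne ht.1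
    rcases hu with hu | hu
    · exact key u hu.1 t ⟨hc1.trans_lt ht.1, ht.2⟩ hut hu.2
    · rw [hu] at hut; exact absurd ht.2 (not_lt.2 hut.le)
  refine ⟨sInf U, ⟨hc1, hc2⟩, le_antisymm ?_ ?_, hl, hr⟩
  · rcases hc2.eq_or_lt with e1 | e1
    · rw [e1]; exact he
    · refine le_of_tendsto (hg.continuousAt.tendsto.mono_left
        (nhdsWithin_le_nhds (s := Ioi (sInf U)))) ?_
      filter_upwards [Ioo_mem_nhdsGT e1] with t ht using (hr t ht).le
  · rcases hc1.eq_or_lt with e1 | e1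
    · rw [← e1]; exact hs
    · refine ge_of_tendsto (hg.continuousAt.tendsto.mono_left
        (nhdsWithin_le_nhds (s := Iio (sInf U)))) ?_
      filter_upwards [Ioo_mem_nhdsLT e1] with t ht using (hl t ht).le

theorem Dbl.eventually_lt (hq : Continuous q) {t : ℝ} (h : Dbl q t) :
    ∀ᶠ u in 𝓝[≠] t, Dr q u ^ 2 < 1 := by
  obtain ⟨b0, c0, n0⟩ := h
  have hD := Dbl.sq hq ⟨b0, c0, n0⟩
  have ha : ar q t = Dr q t := by unfold Dr; unfold Nr at n0; linarith
  have hd : dr q t = Dr q t := by unfold Dr; unfold Nr at n0; linarith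
  have dN : HasDerivAt (Nr q) _ t :=
    ((dr_hasDerivAt hq t).fun_sub (ar_hasDerivAt hq t)).div_const 2
  have s1 := hasDerivAt_iff_tendsto_slope.1 dN
  have s2 := hasDerivAt_iff_tendsto_slope.1 (br_hasDerivAt hq t)
  have s3 := hasDerivAt_iff_tendsto_slope.1 (cr_hasDerivAt hq t)
  have lim := (s1.pow 2).add (s2.mul s3)
  have cs := J_cs hq t
  have hneg := lim.eventually (Iio_mem_nhds (a := 0) (by
    rw [b0, c0, ha, hd]
    have e : ((0 * J2 q t 1 - Dr q t * J1 q t 1 - (Dr q t * J1 q t 1 - 0 * J0 q t 1)) / 2) ^ 2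
      + (Dr q t * J2 q t 1 - 0 * J1 q t 1) * (0 * J1 q t 1 - Dr q t * J0 q t 1) =
      Dr q t ^ 2 * (J1 q t 1 ^ 2 - J0 q t 1 * J2 q t 1) := by ring
    rw [e, hD]; linarith))
  filter_upwards [hneg, self_mem_nhdsWithin] with u hu hne
  simp only [slope_def_field, b0, c0, n0, sub_zero] at hu
  have h2 : u - t ≠ 0 := sub_ne_zero.2 hne
  have e : Dr q u ^ 2 - 1 = (u - t) ^ 2 *
      ((Nr q u / (u - t)) ^ 2 + br q u / (u - t) * (cr q u / (u - t))) := by
    rw [discr hq]; field_simp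
  have : (u - t) ^ 2 * ((Nr q u / (u - t)) ^ 2 + br q u / (u - t) * (cr q u / (u - t))) < 0 :=
    mul_neg_of_pos_of_neg (by positivity) hu
  linarith

theorem dbl_of_extr (hq : Continuous q) {t : ℝ} (hD : Dr q t ^ 2 = 1)
    (h : IsLocalExtr (fun u => Dr q u ^ 2) t) : Dbl q t := by
  have := h.hasDerivAt_eq_zero ((Dr_hasDerivAt hq t).fun_pow 2)
  have hD0 : Dr q t ≠ 0 := by rintro h; rw [h] at hD; norm_num at hD
  exact (dbl_iff hq hD).2 (by simpa [hD0] using this)

/-- `[al j, be j]` is the `j`-th lacuna (`j ≥ 1`) and `be 0` the bottom of the spectrum. -/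
structure IsGap (q : ℝ → ℝ) (mu al be : ℕ → ℝ) : Prop where
  al_le : ∀ j, 1 ≤ j → al j ≤ mu j
  le_be : ∀ j, mu j ≤ be j
  be_lt : ∀ j, be j < al (j + 1)
  band : ∀ j, ∀ t ∈ Ioo (be j) (al (j + 1)), Dr q t ^ 2 < 1
  be_sq : ∀ j, Dr q (be j) ^ 2 = 1
  al_sq : ∀ j, 1 ≤ j → Dr q (al j) ^ 2 = 1
  gap : ∀ j, 1 ≤ j → ∀ t ∈ Ioo (al j) (be j), 1 < Dr q t ^ 2
  below : ∀ t < be 0, 1 < Dr q t ^ 2
  dbl : ∀ j, 1 ≤ j → (Dbl q (mu j) ↔ al j = be j)

theorem neg_one_pow_sq (j : ℕ) : ((-1 : ℝ) ^ j) ^ 2 = 1 := by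
  rw [← pow_mul, mul_comm, pow_mul]; simp

theorem IsDir.one_le_D (hq : Continuous q) {Q : ℝ} {mu : ℕ → ℝ} (h : IsDir q Q mu) (j : ℕ) :
    1 ≤ (-1) ^ j * Dr q (mu j) := by
  rcases Nat.eq_zero_or_pos j with rfl | hj
  · simpa using (h.low _ le_rfl).2.le
  have h1 := h.sign_d j hj
  have h2 := ar_mul_dr hq ((h.zero_iff _).2 ⟨j, hj, rfl⟩)
  have h3 := neg_one_pow_sq j
  have e : ((-1) ^ j * dr q (mu j)) * (2 * ((-1) ^ j * Dr q (mu j)) - 2) =
      ((-1) ^ j * dr q (mu j) - 1) ^ 2 := by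
    unfold Dr; linear_combination (ar q (mu j) * dr q (mu j)) * h3 + h2
  by_contra hh
  nlinarith [sq_nonneg ((-1) ^ j * dr q (mu j) - 1)]

theorem exists_isGap (hq : Continuous q) {Q : ℝ} {mu : ℕ → ℝ} (h : IsDir q Q mu) :
    ∃ al be, IsGap q mu al be := by
  have hex : ∀ j : ℕ, ∃ β α : ℝ, mu j ≤ β ∧ β < α ∧ α ≤ mu (j + 1) ∧ Dr q β ^ 2 = 1 ∧
      Dr q α ^ 2 = 1 ∧ (∀ t ∈ Ioo (mu j) β, 1 < Dr q t ^ 2) ∧ (∀ t ∈ Ioo β α, Dr q t ^ 2 < 1) ∧
      ∀ t ∈ Ioo α (mu (j + 1)), 1 < Dr q t ^ 2 := by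
    intro j
    have hs := neg_one_pow_sq j
    set σ := (-1 : ℝ) ^ j
    have hg : Continuous fun t => σ * Dr q t := continuous_const.mul (Dr_cont hq)
    have hlt := h.mono (Nat.lt_succ_self j)
    have h1 := h.one_le_D hq j
    have h2 := h.one_le_D hq (j + 1)
    rw [pow_succ] at h2
    have hsq : ∀ t, Dr q t ^ 2 = (σ * Dr q t) ^ 2 := fun t => by rw [mul_pow, hs, one_mul]
    have hd : ∀ L : ℝ, L ^ 2 = 1 → ∀ t ∈ Ioo (mu j) (mu (j + 1)), σ * Dr q t = L →
        ∃ g' < 0, HasDerivAt (fun t => σ * Dr q t) g' t := by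
      intro L hL t ht e
      have hb := h.sign_b j t ht
      have hb0 : br q t ≠ 0 := by rintro hh; rw [hh] at hb; simp at hb
      have := br_mul_Dr1_neg hq hb0 (by rw [hsq, e, hL])
      refine ⟨_, ?_, (Dr_hasDerivAt hq t).const_mul σ⟩
      have e2 : (σ * br q t) * (σ * Dr1 q t) = br q t * Dr1 q t := by
        linear_combination (br q t * Dr1 q t) * hs
      by_contra hh
      nlinarith [mul_nonneg hb.le (not_lt.1 hh)]
    obtain ⟨β, hβ, b1, b2, b3⟩ := level_lemma hg hlt (L := 1) h1 (by linarith)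
      (hd 1 (by norm_num))
    obtain ⟨α, hα, a1, a2, a3⟩ := level_lemma hg hlt (L := -1) (by linarith) (by linarith)
      (hd (-1) (by norm_num))
    have hβα : β < α := by
      by_contra hh
      rcases (not_lt.1 hh).eq_or_lt with e | e
      · rw [e, b1] at a1; norm_num at a1
      · rcases hα.1.eq_or_lt with e2 | e2
        · rw [← e2] at a1; linarith
        · linarith [b2 α ⟨e2, e⟩]
    refine ⟨β, α, hβ.1, hβα, hα.2, by rw [hsq, b1]; norm_num, by rw [hsq, a1]; norm_num,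
      fun t ht => ?_, fun t ht => ?_, fun t ht => ?_⟩
    · rw [hsq]; nlinarith [b2 t ht]
    · rw [hsq]
      nlinarith [b3 t ⟨ht.1, ht.2.trans_le hα.2⟩, a2 t ⟨hβ.1.trans_lt ht.1, ht.2⟩]
    · rw [hsq]; nlinarith [a3 t ht]
  choose be al' h1 h2 h3 h4 h5 h6 h7 h8 using hex
  have hge : ∀ j, 1 ≤ Dr q (mu j) ^ 2 := fun j => by
    have := h.one_le_D hq j
    have hs := neg_one_pow_sq j
    have e : Dr q (mu j) ^ 2 = ((-1) ^ j * Dr q (mu j)) ^ 2 := by rw [mul_pow, hs, one_mul]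
    nlinarith
  refine ⟨fun j => al' (j - 1), be, ?_, h1, by simpa using h2, by simpa using h7, h4, ?_, ?_, ?_, ?_⟩
  · intro j hj
    obtain ⟨i, rfl⟩ := Nat.exists_eq_add_of_le' hj
    simpa using h3 i
  · intro j hj
    obtain ⟨i, rfl⟩ := Nat.exists_eq_add_of_le' hj
    simpa using h5 i
  · intro j hj t ht
    obtain ⟨i, rfl⟩ := Nat.exists_eq_add_of_le' hj
    simp only [Nat.add_sub_cancel] at ht
    rcases lt_trichotomy t (mu (i + 1)) with e | e | e
    · exact h8 i t ⟨ht.1, e⟩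
    · subst e
      refine lt_of_le_of_ne (hge _) fun e => ?_
      have hnear : ∀ᶠ u in 𝓝 (mu (i + 1)), 1 ≤ Dr q u ^ 2 := by
        filter_upwards [Ioo_mem_nhds ht.1 ht.2] with u hu
        rcases lt_trichotomy u (mu (i + 1)) with e | e | e
        · exact (h8 i u ⟨hu.1, e⟩).le
        · rw [e]; exact hge _
        · exact (h6 _ u ⟨e, hu.2⟩).le
      have hd := dbl_of_extr hq e.symm (Or.inl (by
        unfold IsMinFilter
        simpa only [← e] using hnear))
      obtain ⟨u, hu1, hu2⟩ := ((hd.eventually_lt hq).and (nhdsWithin_le_nhds hnear)).exists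
      linarith
    · exact h6 _ t ⟨e, ht.2⟩
  · intro t ht
    rcases le_or_gt t (mu 0) with e | e
    · nlinarith [(h.low t e).2]
    · exact h6 0 t ⟨e, ht⟩
  · intro j hj
    obtain ⟨i, rfl⟩ := Nat.exists_eq_add_of_le' hj
    simp only [Nat.add_sub_cancel]
    constructor
    · intro hd
      have hl := hd.eventually_lt hq
      have e1 : al' i = mu (i + 1) := by
        refine le_antisymm (h3 i) (not_lt.1 fun hh => ?_)
        obtain ⟨u, hu1, hu2⟩ := ((hl.filter_mono (nhdsLT_le_nhdsNE _)).and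
          (Ioo_mem_nhdsLT hh)).exists
        linarith [h8 i u hu2]
      have e2 : mu (i + 1) = be (i + 1) := by
        refine le_antisymm (h1 _) (not_lt.1 fun hh => ?_)
        obtain ⟨u, hu1, hu2⟩ := ((hl.filter_mono (nhdsGT_le_nhdsNE _)).and
          (Ioo_mem_nhdsGT hh)).exists
        linarith [h6 _ u hu2]
      rw [e1, e2]
    · intro e
      have e1 : mu (i + 1) = al' i := le_antisymm (e ▸ h1 _) (h3 i)
      have hD : Dr q (mu (i + 1)) ^ 2 = 1 := e1 ▸ h5 i
      refine dbl_of_extr hq hD (Or.inr ?_)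
      unfold IsMaxFilter
      filter_upwards [Ioo_mem_nhds (show be i < mu (i + 1) from e1 ▸ h2 i)
        (show mu (i + 1) < al' (i + 1) by rw [e1, e]; exact h2 _)] with u hu
      rw [hD]
      rcases lt_trichotomy u (mu (i + 1)) with e' | e' | e'
      · exact (h7 i u ⟨hu.1, e1 ▸ e'⟩).le
      · rw [e', hD]
      · exact (h7 _ u ⟨by rw [← e, ← e1]; exact e', hu.2⟩).le

theorem IsDir.exists_bound {Q : ℝ} {mu : ℕ → ℝ} (h : IsDir q Q mu) (hQ : 0 ≤ Q) :
    ∃ C, ∀ j : ℕ, |mu j - ((j : ℝ) * π) ^ 2| ≤ C := by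
  obtain ⟨N, hN⟩ := exists_nat_ge (2 + Q)
  have hpi := Real.pi_gt_three
  refine ⟨(∑ j ∈ range N, |mu j - ((j : ℝ) * π) ^ 2|) + (2 * Q + Q ^ 2), fun j => ?_⟩
  have hs : 0 ≤ ∑ j ∈ range N, |mu j - ((j : ℝ) * π) ^ 2| := sum_nonneg fun _ _ => abs_nonneg _
  rcases lt_or_ge j N with hj | hj
  · have := single_le_sum (f := fun j : ℕ => |mu j - ((j : ℝ) * π) ^ 2|)
      (fun _ _ => abs_nonneg _) (mem_range.2 hj)
    nlinarith
  · have hj' : (N : ℝ) ≤ j := by exact_mod_cast hj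
    have h1 := h.large j (by nlinarith)
    have h2 := h.asym j h1
    have h3 : 1 ≤ √(mu j) := Real.one_le_sqrt.2 h1
    have h4 : √(mu j) ^ 2 = mu j := Real.sq_sqrt (by linarith)
    set k := √(mu j)
    set d := k - j * π
    have h5 : |d| * k ≤ Q := by rwa [le_div_iff₀ (by linarith)] at h2
    have h6 : |d| ≤ Q := by nlinarith [abs_nonneg d]
    have e : mu j - (j * π) ^ 2 = 2 * d * k - d ^ 2 := by simp only [d]; linear_combination -h4
    rw [e]
    have := abs_sub (2 * d * k) (d ^ 2)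
    rw [abs_mul, abs_mul, abs_of_pos (by linarith : 0 < k), abs_pow, abs_two] at this
    nlinarith [abs_nonneg d]

theorem tendsto_of_bound {a : ℕ → ℝ} {C : ℝ} (h : ∀ j : ℕ, |a j - ((j : ℝ) * π) ^ 2| ≤ C) :
    Tendsto a atTop atTop := by
  have h1 : Tendsto (fun j : ℕ => ((j : ℝ) * π) ^ 2 + -C) atTop atTop :=
    tendsto_atTop_add_const_right _ _ ((tendsto_pow_atTop two_ne_zero).comp
      (tendsto_natCast_atTop_atTop.atTop_mul_const Real.pi_pos))
  exact tendsto_atTop_mono (fun j => by linarith [(abs_le.1 (h j)).1]) h1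

/-- the enumeration built from the edges -/
def edges (al be : ℕ → ℝ) (i : ℕ) : ℝ := if i % 2 = 0 then be (i / 2) else al (i / 2 + 1)

theorem edges_even (al be : ℕ → ℝ) (j : ℕ) : edges al be (2 * j) = be j := by simp [edges]
theorem edges_odd (al be : ℕ → ℝ) (j : ℕ) : edges al be (2 * j + 1) = al (j + 1) := by
  have : (2 * j + 1) / 2 = j := by omega
  simp [edges, this]

theorem mult_total (hq : Continuous q) (hp : Function.Periodic q 1) (t : ℝ) :
    (Dr q t ^ 2 ≠ 1 → mult q 1 t + mult q (-1) t = 0) ∧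
    (Dbl q t → mult q 1 t + mult q (-1) t = 2) ∧
    (Dr q t ^ 2 = 1 → ¬ Dbl q t → mult q 1 t + mult q (-1) t = 1) := by
  refine ⟨fun h => ?_, fun h => ?_, fun h h' => ?_⟩
  · rw [mult_eq_zero hq hp (by norm_num) (by rintro e; rw [e] at h; norm_num at h),
      mult_eq_zero hq hp (by norm_num) (by rintro e; rw [e] at h; norm_num at h)]
  · rcases sq_eq_one_iff.1 (h.sq hq) with e | e
    · rw [mult_eq_two hq hp e h, mult_eq_zero hq hp (by norm_num) (by rw [e]; norm_num)]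
    · rw [mult_eq_two hq hp e h, mult_eq_zero hq hp (by norm_num) (by rw [e]; norm_num)]
  · rcases sq_eq_one_iff.1 h with e | e
    · rw [mult_eq_one hq hp (by norm_num) e h',
        mult_eq_zero hq hp (by norm_num) (by rw [e]; norm_num)]
    · rw [mult_eq_one hq hp (s := -1) (by norm_num) e h',
        mult_eq_zero hq hp (by norm_num) (by rw [e]; norm_num)]

theorem isEnum_edges (hq : Continuous q) (hp : Function.Periodic q 1) {Q : ℝ} (hQ : 0 ≤ Q)
    {mu al be : ℕ → ℝ} (h : IsDir q Q mu) (g : IsGap q mu al be) : IsEnum q (edges al be) := by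
  have hstep : ∀ i, edges al be i ≤ edges al be (i + 1) := by
    intro i
    rcases Nat.even_or_odd' i with ⟨j, rfl | rfl⟩
    · rw [edges_even, edges_odd]; exact (g.be_lt j).le
    · rw [edges_odd, show 2 * j + 1 + 1 = 2 * (j + 1) by ring, edges_even]
      exact (g.al_le _ (by omega)).trans (g.le_be _)
  have hmono := monotone_nat_of_le_succ hstep
  refine ⟨hmono, fun t => ?_⟩
  obtain ⟨m0, m2, m1⟩ := mult_total hq hp t
  by_cases hD : Dr q t ^ 2 = 1
  swap
  · rw [m0 hD]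
    simp only [Nat.cast_zero, Set.encard_eq_zero, Set.eq_empty_iff_forall_notMem, Set.mem_ofPred_eq]
    rintro i rfl
    rcases Nat.even_or_odd' i with ⟨j, rfl | rfl⟩
    · rw [edges_even] at hD; exact hD (g.be_sq j)
    · rw [edges_odd] at hD; exact hD (g.al_sq _ (by omega))
  by_cases hd : Dbl q t
  · rw [m2 hd]
    obtain ⟨j, hj, rfl⟩ := (h.zero_iff t).1 hd.1
    obtain ⟨i, rfl⟩ := Nat.exists_eq_add_of_le' hj
    have e := (g.dbl _ hj).1 hd
    have e1 : al (i + 1) = mu (i + 1) := le_antisymm (g.al_le _ hj) (e ▸ g.le_be _)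
    have : {n | edges al be n = mu (i + 1)} = {2 * i + 1, 2 * (i + 1)} := by
      ext n
      simp only [Set.mem_ofPred_eq, Set.mem_insert_iff, Set.mem_singleton_iff]
      constructor
      · intro hn
        by_contra hh
        rcases (by omega : n ≤ 2 * i ∨ 2 * (i + 1) + 1 ≤ n) with h1 | h1
        · have := hmono h1
          rw [edges_even, hn] at this
          linarith [g.be_lt i]
        · have := hmono h1
          rw [edges_odd, hn] at this
          linarith [g.be_lt (i + 1)]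
      · rintro (rfl | rfl)
        · rw [edges_odd, e1]
        · rw [edges_even, ← e, e1]
    rw [this, Set.encard_pair (by omega)]; rfl
  · rw [m1 hD hd, Nat.cast_one, Set.encard_eq_one]
    have hex : ∃ i, edges al be i = t := by
      obtain ⟨C, hC⟩ := h.exists_bound hQ
      have hb : ∃ j, t < be j := by
        obtain ⟨j, hj⟩ := ((tendsto_of_bound hC).eventually (eventually_gt_atTop t)).exists
        exact ⟨j, hj.trans_le (g.le_be j)⟩
      classical
      have hj := Nat.find_spec hb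
      rcases Nat.eq_zero_or_pos (Nat.find hb) with e | e
      · rw [e] at hj; linarith [g.below t hj]
      · obtain ⟨i, hi⟩ := Nat.exists_eq_add_of_le' e
        have hi' := not_lt.1 (Nat.find_min hb (m := i) (by omega))
        rw [hi] at hj
        rcases hi'.eq_or_lt with e1 | e1
        · exact ⟨2 * i, by rw [edges_even, e1]⟩
        rcases lt_trichotomy t (al (i + 1)) with e2 | e2 | e2
        · linarith [g.band i t ⟨e1, e2⟩]
        · exact ⟨2 * i + 1, by rw [edges_odd, e2]⟩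
        · linarith [g.gap (i + 1) (by omega) t ⟨e2, hj⟩]
    obtain ⟨i, hi⟩ := hex
    have huniq : ∀ n n', n < n' → edges al be n = t → edges al be n' = t → False := by
      intro n n' hlt h1 h2
      have h3 : edges al be (n + 1) = t :=
        le_antisymm (h2 ▸ hmono hlt) (h1 ▸ hstep n)
      rcases Nat.even_or_odd' n with ⟨j, rfl | rfl⟩
      · rw [edges_even] at h1; rw [edges_odd] at h3; linarith [g.be_lt j]
      · rw [edges_odd] at h1
        rw [show 2 * j + 1 + 1 = 2 * (j + 1) by ring, edges_even] at h3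
        have e1 : mu (j + 1) = t := le_antisymm (h3 ▸ g.le_be _) (h1 ▸ g.al_le _ (by omega))
        exact hd (e1 ▸ (g.dbl _ (by omega)).2 (h1.trans h3.symm))
    refine ⟨i, Set.eq_singleton_iff_unique_mem.2 ⟨hi, fun n hn => ?_⟩⟩
    rcases lt_trichotomy n i with e | e | e
    · exact (huniq n i e hn hi).elim
    · exact e
    · exact (huniq i n e hi hn).elim

theorem enum_unique_aux {a b : ℕ → ℝ} (hb : Monotone b) {m : ℝ → ℕ}
    (ha2 : ∀ t, {i | a i = t}.encard = (m t : ℕ∞)) (hb2 : ∀ t, {i | b i = t}.encard = (m t : ℕ∞))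
    (n : ℕ) (ih : ∀ i < n, a i = b i) : ¬ a n < b n := by
  intro hlt
  have hsub : {i | b i = a n} ⊂ {i | a i = a n} := by
    refine ⟨fun i hi => ?_, fun hh => ?_⟩
    · have hi' : b i = a n := hi
      have : i < n := by
        by_contra h
        linarith [hb (not_lt.1 h)]
      exact (ih i this).trans hi'
    · have : b n = a n := hh (show n ∈ {i | a i = a n} from rfl)
      linarith
  have hfin : {i | b i = a n}.Finite := Set.finite_of_encard_eq_coe (hb2 _)
  have := hfin.encard_lt_encard hsub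
  rw [ha2, hb2] at this
  exact lt_irrefl _ this

theorem enum_unique {p : ℝ → ℝ} {a b : ℕ → ℝ} (ha : IsEnum p a) (hb : IsEnum q b)
    (h : ∀ t, mult p 1 t = mult q 1 t ∧ mult p (-1) t = mult q (-1) t) : a = b := by
  funext n
  induction n using Nat.strong_induction_on with
  | _ n ih =>
    have ha2 : ∀ t, {i | a i = t}.encard = ((mult q 1 t + mult q (-1) t : ℕ) : ℕ∞) := fun t => by
      rw [ha.2 t, (h t).1, (h t).2]
    exact le_antisymm (not_lt.1 (enum_unique_aux ha.1 hb.2 ha2 n fun i hi => (ih i hi).symm))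
      (not_lt.1 (enum_unique_aux hb.1 ha2 hb.2 n ih))

end Pool.Agent.P.MP_aabf10_an
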