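import Pool.Agent.P.MP_aabf10_an.Fund

/-!
# Hill's equation: fundamental solutions as functions of the spectral parameter
-/

open scoped ContDiff Topology Real
open Filter Finset Set MeasureTheory

namespace Pool.Agent.P.MP_aabf10_an

noncomputable def pot (q : ℝ → ℝ) (z : ℂ) : ℝ → ℂ := fun x => (q x : ℂ) - z
noncomputable def th (q : ℝ → ℝ) (z : ℂ) : ℝ → ℂ := Th (pot q z)
noncomputable def th' (q : ℝ → ℝ) (z : ℂ) : ℝ → ℂ := Th' (pot q z)
noncomputable def ph (q : ℝ → ℝ) (z : ℂ) : ℝ → ℂ := Ph (pot q z)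
noncomputable def ph' (q : ℝ → ℝ) (z : ℂ) : ℝ → ℂ := Ph' (pot q z)
noncomputable def ma (q : ℝ → ℝ) (z : ℂ) : ℂ := th q z 1
noncomputable def mb (q : ℝ → ℝ) (z : ℂ) : ℂ := ph q z 1
noncomputable def mc (q : ℝ → ℝ) (z : ℂ) : ℂ := th' q z 1
noncomputable def md (q : ℝ → ℝ) (z : ℂ) : ℂ := ph' q z 1
/-- half the trace of the monodromy matrix -/
noncomputable def Dl (q : ℝ → ℝ) (z : ℂ) : ℂ := (ma q z + md q z) / 2
noncomputable def Nn (q : ℝ → ℝ) (z : ℂ) : ℂ := (md q z - ma q z) / 2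
/-- the Dirichlet function of the translated potential -/
noncomputable def bx (q : ℝ → ℝ) (z : ℂ) (x : ℝ) : ℂ :=
  mb q z * th q z x ^ 2 + 2 * Nn q z * (th q z x * ph q z x) - mc q z * ph q z x ^ 2
/-- its derivative in `x` -/
noncomputable def bx1 (q : ℝ → ℝ) (z : ℂ) (x : ℝ) : ℂ :=
  2 * mb q z * (th q z x * th' q z x) + 2 * Nn q z * (th' q z x * ph q z x + th q z x * ph' q z x)
    - 2 * mc q z * (ph q z x * ph' q z x)
noncomputable def I0 (q : ℝ → ℝ) (z : ℂ) (h : ℝ → ℂ) (x : ℝ) : ℂ :=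
  ∫ s in (0 : ℝ)..x, h s * (th q z s * th q z s)
noncomputable def I1 (q : ℝ → ℝ) (z : ℂ) (h : ℝ → ℂ) (x : ℝ) : ℂ :=
  ∫ s in (0 : ℝ)..x, h s * (th q z s * ph q z s)
noncomputable def I2 (q : ℝ → ℝ) (z : ℂ) (h : ℝ → ℂ) (x : ℝ) : ℂ :=
  ∫ s in (0 : ℝ)..x, h s * (ph q z s * ph q z s)

variable {q : ℝ → ℝ}

theorem pot_cont (hq : Continuous q) (z : ℂ) : Continuous (pot q z) := by
  unfold pot; fun_prop

theorem th_sol (hq : Continuous q) (z : ℂ) : IsSol (pot q z) (th q z) (th' q z) :=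
  Th_sol (pot_cont hq z)
theorem ph_sol (hq : Continuous q) (z : ℂ) : IsSol (pot q z) (ph q z) (ph' q z) :=
  Ph_sol (pot_cont hq z)
theorem th_zero (hq : Continuous q) (z : ℂ) : th q z 0 = 1 := Th_zero (pot_cont hq z)
theorem th'_zero (hq : Continuous q) (z : ℂ) : th' q z 0 = 0 := Th'_zero (pot_cont hq z)
theorem ph_zero (hq : Continuous q) (z : ℂ) : ph q z 0 = 0 := Ph_zero (pot_cont hq z)
theorem ph'_zero (hq : Continuous q) (z : ℂ) : ph' q z 0 = 1 := Ph'_zero (pot_cont hq z)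
theorem wr (hq : Continuous q) (z : ℂ) (x : ℝ) :
    th q z x * ph' q z x - th' q z x * ph q z x = 1 := wr_one (pot_cont hq z) x
theorem mdet (hq : Continuous q) (z : ℂ) : ma q z * md q z - mc q z * mb q z = 1 := wr hq z 1

theorem disc (hq : Continuous q) (z : ℂ) : Dl q z ^ 2 - 1 = Nn q z ^ 2 + mb q z * mc q z := by
  unfold Dl Nn
  linear_combination mdet hq z

theorem sol_rep (hq : Continuous q) {z : ℂ} {y y' : ℝ → ℂ} (h : IsSol (pot q z) y y') (x : ℝ) :
    y x = y 0 * th q z x + y' 0 * ph q z x ∧ y' x = y 0 * th' q z x + y' 0 * ph' q z x :=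
  h.rep (pot_cont hq z) x

theorem pot_shift (hp : Function.Periodic q 1) (z : ℂ) : (fun x => pot q z (x + 1)) = pot q z := by
  funext x; simp [pot, hp x]

theorem IsSol.shift_one (hp : Function.Periodic q 1) {z : ℂ} {y y' : ℝ → ℂ}
    (h : IsSol (pot q z) y y') : IsSol (pot q z) (fun x => y (x + 1)) (fun x => y' (x + 1)) := by
  have := h.shift 1
  rwa [pot_shift hp] at this

theorem th_add_one (hq : Continuous q) (hp : Function.Periodic q 1) (z : ℂ) (x : ℝ) :
    th q z (x + 1) = ma q z * th q z x + mc q z * ph q z x ∧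
    th' q z (x + 1) = ma q z * th' q z x + mc q z * ph' q z x := by
  simpa [ma, mc] using sol_rep hq ((th_sol hq z).shift_one hp) x

theorem ph_add_one (hq : Continuous q) (hp : Function.Periodic q 1) (z : ℂ) (x : ℝ) :
    ph q z (x + 1) = mb q z * th q z x + md q z * ph q z x ∧
    ph' q z (x + 1) = mb q z * th' q z x + md q z * ph' q z x := by
  simpa [mb, md] using sol_rep hq ((ph_sol hq z).shift_one hp) x

theorem bx_eq_mb (hq : Continuous q) (hp : Function.Periodic q 1) (z : ℂ) (x : ℝ) :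
    bx q z x = mb (fun y => q (y + x)) z := by
  have hq' : Continuous fun y => q (y + x) := by fun_prop
  have hs : IsSol (pot (fun y => q (y + x)) z)
      (fun y => (-ph q z x) * th q z (y + x) + th q z x * ph q z (y + x))
      (fun y => (-ph q z x) * th' q z (y + x) + th q z x * ph' q z (y + x)) :=
    ((th_sol hq z).shift x).lin ((ph_sol hq z).shift x) _ _
  have := (hs.eq_Ph (pot_cont hq' z) (by simp; ring)
    (by simp only [zero_add]; linear_combination wr hq z x) 1).1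
  unfold mb ph
  rw [this, add_comm 1 x, (th_add_one hq hp z x).1, (ph_add_one hq hp z x).1]
  unfold bx Nn
  ring

theorem bx_periodic (hq : Continuous q) (hp : Function.Periodic q 1) (z : ℂ) (x : ℝ) :
    bx q z (x + 1) = bx q z x := by
  rw [bx_eq_mb hq hp, bx_eq_mb hq hp]
  congr 1
  funext y
  rw [← add_assoc, hp]

theorem bx_hasDerivAt (hq : Continuous q) (z : ℂ) (x : ℝ) : HasDerivAt (bx q z) (bx1 q z x) x := by
  have h1 := (th_sol hq z).d1 x
  have h2 := (ph_sol hq z).d1 x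
  exact ((((h1.fun_pow 2).const_mul (mb q z)).fun_add ((h1.fun_mul h2).const_mul
    (2 * Nn q z))).fun_sub ((h2.fun_pow 2).const_mul (mc q z))).congr_deriv (by
      unfold bx1; simp; ring)

theorem bx1_periodic (hq : Continuous q) (hp : Function.Periodic q 1) (z : ℂ) (x : ℝ) :
    bx1 q z (x + 1) = bx1 q z x := by
  have h1 := (bx_hasDerivAt hq z (x + 1)).comp_add_const x 1
  have h2 : (fun x => bx q z (x + 1)) = bx q z := funext (bx_periodic hq hp z)
  rw [h2] at h1
  exact h1.unique (bx_hasDerivAt hq z x)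

/-! ### dependence on the spectral parameter -/

theorem sol_hasDerivAt_param (hq : Continuous q) {y y' : ℂ → ℝ → ℂ}
    (hy : ∀ z, IsSol (pot q z) (y z) (y' z)) {a b : ℂ} (h0 : ∀ z, y z 0 = a)
    (h1 : ∀ z, y' z 0 = b) (z : ℂ) (x : ℝ) :
    HasDerivAt (fun u => y u x) (th q z x * (∫ s in (0 : ℝ)..x, ph q z s * y z s)
      - ph q z x * ∫ s in (0 : ℝ)..x, th q z s * y z s) z ∧
    HasDerivAt (fun u => y' u x) (th' q z x * (∫ s in (0 : ℝ)..x, ph q z s * y z s)
      - ph' q z x * ∫ s in (0 : ℝ)..x, th q z s * y z s) z := by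
  have key := sol_deriv (l := 𝓝[≠] (0 : ℂ)) (pot_cont hq z) (R := |x| + 1) (by positivity)
    (g := fun _ _ => -1) (h := fun _ => -1) (t := fun u => u) (fun _ => continuous_const)
    continuous_const (tendsto_nhdsWithin_of_tendsto_nhds tendsto_id) self_mem_nhdsWithin
    (fun ε hε => Eventually.of_forall fun _ _ _ => by simpa using hε.le)
    (y := fun u => y (z + u)) (y' := fun u => y' (z + u))
    (fun u => by
      have : (fun x => pot q z x + u * -1) = pot q (z + u) := by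
        funext x; simp only [pot]; ring
      rw [this]; exact hy _) (hy z) (fun u => by rw [h0, h0]) (fun u => by rw [h1, h1])
    (x := x) (by linarith)
  simp only [neg_mul, one_mul, intervalIntegral.integral_neg] at key
  constructor
  · rw [hasDerivAt_iff_tendsto_slope_zero]
    convert key.1 using 2
    · simp [div_eq_inv_mul]
    · unfold th ph; ring
  · rw [hasDerivAt_iff_tendsto_slope_zero]
    convert key.2 using 2
    · simp [div_eq_inv_mul]
    · unfold th' ph' th ph; ring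

theorem th_hasDerivAt (hq : Continuous q) (z : ℂ) (x : ℝ) :
    HasDerivAt (fun u => th q u x) (th q z x * I1 q z 1 x - ph q z x * I0 q z 1 x) z := by
  simpa [I0, I1, mul_comm] using
    (sol_hasDerivAt_param hq (th_sol hq) (th_zero hq) (th'_zero hq) z x).1
theorem th'_hasDerivAt (hq : Continuous q) (z : ℂ) (x : ℝ) :
    HasDerivAt (fun u => th' q u x) (th' q z x * I1 q z 1 x - ph' q z x * I0 q z 1 x) z := by
  simpa [I0, I1, mul_comm] using
    (sol_hasDerivAt_param hq (th_sol hq) (th_zero hq) (th'_zero hq) z x).2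
theorem ph_hasDerivAt (hq : Continuous q) (z : ℂ) (x : ℝ) :
    HasDerivAt (fun u => ph q u x) (th q z x * I2 q z 1 x - ph q z x * I1 q z 1 x) z := by
  simpa [I2, I1] using (sol_hasDerivAt_param hq (ph_sol hq) (ph_zero hq) (ph'_zero hq) z x).1
theorem ph'_hasDerivAt (hq : Continuous q) (z : ℂ) (x : ℝ) :
    HasDerivAt (fun u => ph' q u x) (th' q z x * I2 q z 1 x - ph' q z x * I1 q z 1 x) z := by
  simpa [I2, I1] using (sol_hasDerivAt_param hq (ph_sol hq) (ph_zero hq) (ph'_zero hq) z x).2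

theorem ma_hasDerivAt (hq : Continuous q) (z : ℂ) :
    HasDerivAt (ma q) (ma q z * I1 q z 1 1 - mb q z * I0 q z 1 1) z := th_hasDerivAt hq z 1
theorem mb_hasDerivAt (hq : Continuous q) (z : ℂ) :
    HasDerivAt (mb q) (ma q z * I2 q z 1 1 - mb q z * I1 q z 1 1) z := ph_hasDerivAt hq z 1
theorem mc_hasDerivAt (hq : Continuous q) (z : ℂ) :
    HasDerivAt (mc q) (mc q z * I1 q z 1 1 - md q z * I0 q z 1 1) z := th'_hasDerivAt hq z 1
theorem md_hasDerivAt (hq : Continuous q) (z : ℂ) :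
    HasDerivAt (md q) (mc q z * I2 q z 1 1 - md q z * I1 q z 1 1) z := ph'_hasDerivAt hq z 1

theorem ma_diff (hq : Continuous q) : Differentiable ℂ (ma q) :=
  fun z => (ma_hasDerivAt hq z).differentiableAt
theorem mb_diff (hq : Continuous q) : Differentiable ℂ (mb q) :=
  fun z => (mb_hasDerivAt hq z).differentiableAt
theorem mc_diff (hq : Continuous q) : Differentiable ℂ (mc q) :=
  fun z => (mc_hasDerivAt hq z).differentiableAt
theorem md_diff (hq : Continuous q) : Differentiable ℂ (md q) :=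
  fun z => (md_hasDerivAt hq z).differentiableAt
theorem Dl_diff (hq : Continuous q) : Differentiable ℂ (Dl q) :=
  ((ma_diff hq).add (md_diff hq)).div_const 2
theorem Nn_diff (hq : Continuous q) : Differentiable ℂ (Nn q) :=
  ((md_diff hq).sub (ma_diff hq)).div_const 2

theorem int_bx (hq : Continuous q) (z : ℂ) {h : ℝ → ℂ} (hh : Continuous h) (x : ℝ) :
    ∫ s in (0 : ℝ)..x, h s * bx q z s =
      mb q z * I0 q z h x + 2 * Nn q z * I1 q z h x - mc q z * I2 q z h x := by
  have c1 := (th_sol hq z).cont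
  have c2 := (ph_sol hq z).cont
  unfold I0 I1 I2
  rw [← intervalIntegral.integral_const_mul, ← intervalIntegral.integral_const_mul,
    ← intervalIntegral.integral_const_mul, ← intervalIntegral.integral_add,
    ← intervalIntegral.integral_sub]
  · congr 1; funext s; unfold bx; ring
  all_goals exact Continuous.intervalIntegrable (by fun_prop) _ _

theorem Dl_hasDerivAt (hq : Continuous q) (z : ℂ) :
    HasDerivAt (Dl q) (-(1 / 2) * ∫ s in (0 : ℝ)..1, bx q z s) z := by
  have := int_bx hq z (h := 1) continuous_const 1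
  simp only [Pi.one_apply, one_mul] at this
  refine (((ma_hasDerivAt hq z).fun_add (md_hasDerivAt hq z)).div_const 2).congr_deriv ?_
  rw [this]; unfold Nn; ring

theorem sol_joint_cont (hq : Continuous q) {y y' : ℂ → ℝ → ℂ}
    (hy : ∀ z, IsSol (pot q z) (y z) (y' z)) {a b : ℂ} (h0 : ∀ z, y z 0 = a)
    (h1 : ∀ z, y' z 0 = b) :
    Continuous (fun u : ℂ × ℝ => y u.1 u.2) ∧ Continuous (fun u : ℂ × ℝ => y' u.1 u.2) := by
  have key : ∀ u : ℂ × ℝ, ∀ ε > 0, ∀ᶠ v : ℂ × ℝ in 𝓝 u,
      ‖y v.1 v.2 - y u.1 v.2‖ ≤ ε ∧ ‖y' v.1 v.2 - y' u.1 v.2‖ ≤ ε := by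
    intro u ε hε
    have := sol_tendsto (l := 𝓝 u.1) (pot_cont hq u.1) (R := |u.2| + 1) (by positivity)
      (r := pot q) (pot_cont hq) (fun δ hδ => by
        filter_upwards [Metric.closedBall_mem_nhds u.1 hδ] with z hz x _
        have : pot q z x - pot q u.1 x = -(z - u.1) := by simp [pot]
        rw [this, norm_neg]; simpa [dist_eq_norm] using hz)
      hy (hy u.1) (fun z => by rw [h0, h0]) (fun z => by rw [h1, h1]) ε hε
    have e1 : ∀ᶠ v : ℂ × ℝ in 𝓝 u, |v.2| ≤ |u.2| + 1 := by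
      have : ContinuousAt (fun v : ℂ × ℝ => |v.2|) u := by fun_prop
      exact this.eventually (Iic_mem_nhds (by linarith))
    filter_upwards [continuous_fst.continuousAt.eventually this, e1] with v hv1 hv2
    exact hv1 _ hv2
  have aux : ∀ f : ℂ → ℝ → ℂ, (∀ z, Continuous (f z)) → (∀ u : ℂ × ℝ, ∀ ε > 0,
      ∀ᶠ v : ℂ × ℝ in 𝓝 u, ‖f v.1 v.2 - f u.1 v.2‖ ≤ ε) →
      Continuous fun u : ℂ × ℝ => f u.1 u.2 := by
    intro f hf hk
    refine continuous_iff_continuousAt.2 fun u => ?_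
    have h2 : Tendsto (fun v : ℂ × ℝ => f v.1 v.2 - f u.1 v.2) (𝓝 u) (𝓝 0) := by
      rw [tendsto_zero_iff_norm_tendsto_zero, Metric.tendsto_nhds]
      intro ε hε
      filter_upwards [hk u (ε / 2) (by positivity)] with v hv
      simp only [dist_zero_right, norm_norm]
      linarith
    have h3 : Tendsto (fun v : ℂ × ℝ => f u.1 v.2) (𝓝 u) (𝓝 (f u.1 u.2)) :=
      ((hf u.1).comp continuous_snd).continuousAt
    simpa [ContinuousAt] using h2.add h3
  exact ⟨aux y (fun z => (hy z).cont) fun u ε hε => (key u ε hε).mono fun v hv => hv.1,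
    aux y' (fun z => (hy z).cont') fun u ε hε => (key u ε hε).mono fun v hv => hv.2⟩

theorem th_jc (hq : Continuous q) : Continuous fun u : ℂ × ℝ => th q u.1 u.2 :=
  (sol_joint_cont hq (th_sol hq) (th_zero hq) (th'_zero hq)).1
theorem th'_jc (hq : Continuous q) : Continuous fun u : ℂ × ℝ => th' q u.1 u.2 :=
  (sol_joint_cont hq (th_sol hq) (th_zero hq) (th'_zero hq)).2
theorem ph_jc (hq : Continuous q) : Continuous fun u : ℂ × ℝ => ph q u.1 u.2 :=
  (sol_joint_cont hq (ph_sol hq) (ph_zero hq) (ph'_zero hq)).1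
theorem ph'_jc (hq : Continuous q) : Continuous fun u : ℂ × ℝ => ph' q u.1 u.2 :=
  (sol_joint_cont hq (ph_sol hq) (ph_zero hq) (ph'_zero hq)).2

/-! ### real values of the parameter -/

theorem IsSol.re {t : ℝ} {y y' : ℝ → ℂ} (h : IsSol (pot q t) y y') :
    IsSol (fun x => q x - t) (fun x => (y x).re) (fun x => (y' x).re) :=
  ⟨fun x => (Complex.reCLM.hasFDerivAt.comp_hasDerivAt x (h.d1 x)), fun x =>
    (Complex.reCLM.hasFDerivAt.comp_hasDerivAt x (h.d2 x)).congr_deriv (by simp [pot])⟩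

theorem IsSol.ofReal {t : ℝ} {y y' : ℝ → ℝ} (h : IsSol (fun x => q x - t) y y') :
    IsSol (pot q t) (fun x => (y x : ℂ)) (fun x => (y' x : ℂ)) :=
  ⟨fun x => (h.d1 x).ofReal_comp, fun x => (h.d2 x).ofReal_comp.congr_deriv (by simp [pot])⟩

noncomputable def thr (q : ℝ → ℝ) (t x : ℝ) : ℝ := (th q t x).re
noncomputable def thr' (q : ℝ → ℝ) (t x : ℝ) : ℝ := (th' q t x).re
noncomputable def phr (q : ℝ → ℝ) (t x : ℝ) : ℝ := (ph q t x).re
noncomputable def phr' (q : ℝ → ℝ) (t x : ℝ) : ℝ := (ph' q t x).re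

theorem thr_sol (hq : Continuous q) (t : ℝ) : IsSol (fun x => q x - t) (thr q t) (thr' q t) :=
  (th_sol hq t).re
theorem phr_sol (hq : Continuous q) (t : ℝ) : IsSol (fun x => q x - t) (phr q t) (phr' q t) :=
  (ph_sol hq t).re

theorem th_real (hq : Continuous q) (t x : ℝ) : th q t x = thr q t x :=
  ((thr_sol hq t).ofReal.eq_Th (pot_cont hq t) (by simp [thr, th_zero hq])
    (by simp [thr', th'_zero hq]) x).1
theorem th'_real (hq : Continuous q) (t x : ℝ) : th' q t x = thr' q t x :=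
  ((thr_sol hq t).ofReal.eq_Th (pot_cont hq t) (by simp [thr, th_zero hq])
    (by simp [thr', th'_zero hq]) x).2
theorem ph_real (hq : Continuous q) (t x : ℝ) : ph q t x = phr q t x :=
  ((phr_sol hq t).ofReal.eq_Ph (pot_cont hq t) (by simp [phr, ph_zero hq])
    (by simp [phr', ph'_zero hq]) x).1
theorem ph'_real (hq : Continuous q) (t x : ℝ) : ph' q t x = phr' q t x :=
  ((phr_sol hq t).ofReal.eq_Ph (pot_cont hq t) (by simp [phr, ph_zero hq])
    (by simp [phr', ph'_zero hq]) x).2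

end Pool.Agent.P.MP_aabf10_an
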