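import Pool.Agent.P.MP_aabf10_an.Gaps

/-!
# The Lenard recursion and the action of the local fields on Dirichlet data
-/

open scoped ContDiff Topology Real
open Filter Finset Set MeasureTheory

namespace Pool.Agent.P.MP_aabf10_an

variable {q : ℝ → ℝ}

theorem Cinf.cont {f : ℝ → ℝ} (h : Cinf f) : Continuous f := h.1.continuous

theorem Cinf.hasDerivAt {f : ℝ → ℝ} (h : Cinf f) (x : ℝ) : HasDerivAt f (deriv f x) x :=
  (h.1.differentiable (by simp) x).hasDerivAt

theorem Cinf.deriv {f : ℝ → ℝ} (h : Cinf f) : Cinf (deriv f) := by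
  refine ⟨(contDiff_infty_iff_deriv.1 h.1).2, fun x => ?_⟩
  have h1 := (h.hasDerivAt (x + 1)).comp_add_const x 1
  rw [show (fun x => f (x + 1)) = f from funext h.2] at h1
  exact h1.deriv.symm

theorem Cinf.const (c : ℝ) : Cinf fun _ => c := ⟨contDiff_const, fun _ => rfl⟩
theorem Cinf.add {f g : ℝ → ℝ} (h : Cinf f) (k : Cinf g) : Cinf fun x => f x + g x :=
  ⟨h.1.add k.1, fun x => by simp only [h.2 x, k.2 x]⟩
theorem Cinf.sub {f g : ℝ → ℝ} (h : Cinf f) (k : Cinf g) : Cinf fun x => f x - g x :=
  ⟨h.1.sub k.1, fun x => by simp only [h.2 x, k.2 x]⟩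
theorem Cinf.mul {f g : ℝ → ℝ} (h : Cinf f) (k : Cinf g) : Cinf fun x => f x * g x :=
  ⟨h.1.mul k.1, fun x => by simp only [h.2 x, k.2 x]⟩
theorem Cinf.sum {ι : Type*} {s : Finset ι} {f : ι → ℝ → ℝ} (h : ∀ i ∈ s, Cinf (f i)) :
    Cinf fun x => ∑ i ∈ s, f i x :=
  ⟨ContDiff.sum fun i hi => (h i hi).1, fun x => sum_congr rfl fun i hi => (h i hi).2 x⟩

theorem opK_eq {w : ℝ → ℝ} (hq : Cinf q) (hw : Cinf w) (x : ℝ) :
    opK q w x = -(1 / 2) * deriv (deriv (deriv w)) x + 2 * q x * deriv w x + deriv q x * w x := by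
  unfold opK
  rw [((hq.hasDerivAt x).fun_mul (hw.hasDerivAt x)).deriv]; ring

theorem Cinf.opK {w : ℝ → ℝ} (hq : Cinf q) (hw : Cinf w) : Cinf (opK q w) :=
  ((hq.mul hw.deriv).add (hq.mul hw).deriv).sub ((Cinf.const _).mul hw.deriv.deriv.deriv)

theorem gradH_zero (q : ℝ → ℝ) : gradH q 0 = fun _ => 1 := by rw [gradH]

theorem gradH_succ (q : ℝ → ℝ) (m : ℕ) : gradH q (m + 1) = fun x =>
    1 / 2 * (∑ i ∈ range (m + 1), (2 * q x * gradH q i x * gradH q (m - i) x
          - gradH q i x * deriv (deriv (gradH q (m - i))) x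
          + 1 / 2 * deriv (gradH q i) x * deriv (gradH q (m - i)) x)
        - ∑ i ∈ range m, gradH q (i + 1) x * gradH q (m - i) x) := by
  rw [gradH]
  funext x
  rw [← Fin.sum_univ_eq_sum_range (fun i => 2 * q x * gradH q i x * gradH q (m - i) x
          - gradH q i x * deriv (deriv (gradH q (m - i))) x
          + 1 / 2 * deriv (gradH q i) x * deriv (gradH q (m - i)) x),
    ← Fin.sum_univ_eq_sum_range (fun i => gradH q (i + 1) x * gradH q (m - i) x)]

theorem gradH_cinf (hq : Cinf q) (m : ℕ) : Cinf (gradH q m) := by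
  induction m using Nat.strong_induction_on with
  | _ m ih =>
    rcases m with _ | m
    · rw [gradH_zero]; exact Cinf.const 1
    rw [gradH_succ]
    refine (Cinf.const _).mul ((Cinf.sum fun i hi => ?_).sub (Cinf.sum fun i hi => ?_))
    · have a := ih i (mem_range.1 hi)
      have b := ih (m - i) (by omega)
      exact (((((Cinf.const 2).mul hq).mul a).mul b).sub (a.mul b.deriv.deriv)).add
        (((Cinf.const _).mul a.deriv).mul b.deriv)
    · have := mem_range.1 hi
      exact (ih (i + 1) (by omega)).mul (ih (m - i) (by omega))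

/-- The Lenard relation `D grad H_(m+1) = (q D + D q - D^3 / 2) grad H_m`. -/
theorem lenard (hq : Cinf q) (m : ℕ) : deriv (gradH q (m + 1)) = opK q (gradH q m) := by
  induction m using Nat.strong_induction_on with
  | _ m ih =>
    funext x
    have c := gradH_cinf hq
    set r := gradH q
    have hd : HasDerivAt (r (m + 1)) (1 / 2 * (∑ i ∈ range (m + 1),
        (2 * deriv q x * r i x * r (m - i) x + 2 * q x * deriv (r i) x * r (m - i) x
          + 2 * q x * r i x * deriv (r (m - i)) x
          - (deriv (r i) x * deriv (deriv (r (m - i))) x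
            + r i x * deriv (deriv (deriv (r (m - i)))) x)
          + (1 / 2 * deriv (deriv (r i)) x * deriv (r (m - i)) x
            + 1 / 2 * deriv (r i) x * deriv (deriv (r (m - i))) x))
        - ∑ i ∈ range m, (deriv (r (i + 1)) x * r (m - i) x + r (i + 1) x * deriv (r (m - i)) x)))
        x := by
      rw [show r (m + 1) = _ from gradH_succ q m]
      refine HasDerivAt.const_mul _ (HasDerivAt.fun_sub (HasDerivAt.fun_sum fun i _ => ?_)
        (HasDerivAt.fun_sum fun i _ => ((c _).hasDerivAt x).fun_mul ((c _).hasDerivAt x)))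
      exact (((((((hq.hasDerivAt x).const_mul 2).fun_mul ((c i).hasDerivAt x)).fun_mul
        ((c (m - i)).hasDerivAt x)).fun_sub (((c i).hasDerivAt x).fun_mul
        ((c (m - i)).deriv.deriv.hasDerivAt x))).fun_add ((((c i).deriv.hasDerivAt x).const_mul
        (1 / 2)).fun_mul ((c (m - i)).deriv.hasDerivAt x))).congr_deriv (by ring))
    rw [hd.deriv]
    have refl1 : ∀ F : ℕ → ℕ → ℝ, ∑ i ∈ range (m + 1), F i (m - i) =
        ∑ i ∈ range (m + 1), F (m - i) i := fun F => by
      rw [← sum_range_reflect]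
      refine sum_congr rfl fun i hi => ?_
      have := mem_range.1 hi
      rw [show m + 1 - 1 - i = m - i by omega, show m - (m - i) = i by omega]
    have refl2 : ∑ i ∈ range m, deriv (r (i + 1)) x * r (m - i) x =
        ∑ i ∈ range m, r (i + 1) x * deriv (r (m - i)) x := by
      rw [← sum_range_reflect]
      refine sum_congr rfl fun i hi => ?_
      have := mem_range.1 hi
      rw [show m - 1 - i + 1 = m - i by omega, show m - (m - 1 - i) = i + 1 by omega, mul_comm]
    have a1 := refl1 fun i j => deriv (r i) x * r j x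
    have a2 := refl1 fun i j => deriv (deriv (r i)) x * deriv (r j) x
    have key : ∑ i ∈ range (m + 1), r i x * opK q (r (m - i)) x =
        opK q (r m) x + ∑ i ∈ range m, r (i + 1) x * deriv (r (m - i)) x := by
      rw [sum_range_succ', add_comm]
      congr 1
      · simp [r, gradH_zero]
      · refine sum_congr rfl fun i hi => ?_
        have := mem_range.1 hi
        rw [← ih (m - (i + 1)) (by omega), show m - (i + 1) + 1 = m - i by omega]
    simp only [opK_eq hq (c _)] at key ⊢
    simp only [mul_add, sum_add_distrib, sum_sub_distrib, mul_assoc, ← mul_sum] at key ⊢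
    rw [refl2]
    simp only [mul_left_comm (r _ x), ← mul_sum] at key
    simp only [mul_comm (r _ x) (deriv (r _) x)] at key ⊢ a1
    simp only [mul_comm (deriv (deriv (r _)) x) (deriv (r _) x)] at a2 ⊢
    linear_combination key + q x * a1 + 1 / 4 * a2

theorem gradH_one (q : ℝ → ℝ) : gradH q 1 = q := by
  rw [gradH_succ]; funext x; simp [gradH_zero]

theorem gradH_two (q : ℝ → ℝ) : gradH q 2 = fun x => 3 / 2 * q x ^ 2 - 1 / 2 * deriv (deriv q) x := by
  rw [gradH_succ]; funext x; simp [sum_range_succ, gradH_zero, gradH_one]; ring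

theorem locX_one (hq : Cinf q) : locX q 1 = deriv q := by
  funext x; simp [locX, opK, gradH_zero]

theorem locX_two (hq : Cinf q) :
    locX q 2 = fun x => 3 * q x * deriv q x - 1 / 2 * deriv (deriv (deriv q)) x := by
  funext x
  simp only [locX, Nat.add_one_sub_one, gradH_one, opK_eq hq hq]; ring

theorem locX_cinf (hq : Cinf q) (m : ℕ) : Cinf (locX q m) := hq.opK (gradH_cinf hq _)

theorem int_deriv_eq_zero {f : ℝ → ℝ} (h : Cinf f) : ∫ x in (0 : ℝ)..1, deriv f x = 0 := by
  rw [ftc h.hasDerivAt h.deriv.cont, ← h.2 0, zero_add, sub_self]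

theorem int_locX (hq : Cinf q) (m : ℕ) : ∫ x in (0 : ℝ)..1, locX q (m + 1) x = 0 := by
  rw [show locX q (m + 1) = opK q (gradH q m) from rfl, ← lenard hq]
  exact int_deriv_eq_zero (gradH_cinf hq _)

/-- gauge identity at a Dirichlet eigenvalue -/
theorem gauge_dir (hq : Cinf q) {t : ℝ} (hb : br q t = 0) {w w1 w2 w3 : ℝ → ℝ}
    (hw : ∀ x, HasDerivAt w (w1 x) x) (hw1 : ∀ x, HasDerivAt w1 (w2 x) x)
    (hw2 : ∀ x, HasDerivAt w2 (w3 x) x) (hw3 : Continuous w3) (p0 : w 1 = w 0) (p1 : w1 1 = w1 0) :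
    J2 q t (fun x => -(1 / 2) * w3 x + 2 * (q x - t) * w1 x + deriv q x * w x) =
      -(2 * dr q t * Nr q t) * w 0 ∧
    J1 q t (fun x => -(1 / 2) * w3 x + 2 * (q x - t) * w1 x + deriv q x * w x) =
      -(dr q t * cr q t) * w 0 := by
  have c := hq.cont
  have hp : ∀ x, HasDerivAt (fun x => q x - t) (deriv q x) x :=
    fun x => (hq.hasDerivAt x).sub_const t
  have had := ar_mul_dr c hb
  have hb' : phr q t 1 = 0 := hb
  constructor
  · unfold J2
    rw [gauge hp hq.deriv.cont hw hw1 hw2 hw3 (phr_sol c t) (phr_sol c t)]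
    simp only [conc, hb', phr_zero c, phr'_zero c, p0, p1, Nr]
    unfold ar dr at *
    linear_combination (-w 0) * had
  · unfold J1
    rw [gauge hp hq.deriv.cont hw hw1 hw2 hw3 (thr_sol c t) (phr_sol c t)]
    simp only [conc, hb', phr_zero c, phr'_zero c, thr_zero c, thr'_zero c, p0, p1]
    unfold ar dr cr at *
    linear_combination (1 / 2 * w1 0) * had

theorem J2_add (hq : Continuous q) (t : ℝ) {f g : ℝ → ℝ} (hf : Continuous f) (hg : Continuous g)
    (a b : ℝ) : J2 q t (fun x => a * f x + b * g x) = a * J2 q t f + b * J2 q t g := by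
  have := (phr_sol hq t).cont
  unfold J2
  rw [← intervalIntegral.integral_const_mul, ← intervalIntegral.integral_const_mul,
    ← intervalIntegral.integral_add]
  · congr 1; funext s; ring
  all_goals exact Continuous.intervalIntegrable (by fun_prop) _ _

theorem J1_add (hq : Continuous q) (t : ℝ) {f g : ℝ → ℝ} (hf : Continuous f) (hg : Continuous g)
    (a b : ℝ) : J1 q t (fun x => a * f x + b * g x) = a * J1 q t f + b * J1 q t g := by
  have := (phr_sol hq t).cont
  have := (thr_sol hq t).cont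
  unfold J1
  rw [← intervalIntegral.integral_const_mul, ← intervalIntegral.integral_const_mul,
    ← intervalIntegral.integral_add]
  · congr 1; funext s; ring
  all_goals exact Continuous.intervalIntegrable (by fun_prop) _ _

theorem J_opK (hq : Cinf q) {t : ℝ} (hb : br q t = 0) {w : ℝ → ℝ} (hw : Cinf w) :
    J2 q t (opK q w) = -(2 * dr q t * Nr q t) * w 0 + 2 * t * J2 q t (deriv w) ∧
    J1 q t (opK q w) = -(dr q t * cr q t) * w 0 + 2 * t * J1 q t (deriv w) := by
  have g := gauge_dir hq hb hw.hasDerivAt hw.deriv.hasDerivAt hw.deriv.deriv.hasDerivAt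
    hw.deriv.deriv.deriv.cont (by simpa using hw.2 0) (by simpa using hw.deriv.2 0)
  have e : (fun x => -(1 / 2) * deriv (deriv (deriv w)) x + 2 * (q x - t) * deriv w x
      + deriv q x * w x) = fun x => 1 * opK q w x + (-(2 * t)) * deriv w x := by
    funext x; rw [opK_eq hq hw]; ring
  rw [e, J2_add hq.cont t (hq.opK hw).cont hw.deriv.cont,
    J1_add hq.cont t (hq.opK hw).cont hw.deriv.cont] at g
  constructor
  · linarith [g.1]
  · linarith [g.2]

/-- the polynomial attached to the local field `X_(m+1)` -/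
noncomputable def PP (q : ℝ → ℝ) : ℕ → Polynomial ℝ
  | 0 => 1
  | m + 1 => Polynomial.C (gradH q (m + 1) 0) + Polynomial.C 2 * (Polynomial.X * PP q m)

theorem J_locX (hq : Cinf q) {t : ℝ} (hb : br q t = 0) (m : ℕ) :
    J2 q t (locX q (m + 1)) = -(2 * dr q t * Nr q t) * (PP q m).eval t ∧
    J1 q t (locX q (m + 1)) = -(dr q t * cr q t) * (PP q m).eval t := by
  induction m with
  | zero =>
    have := J_opK hq hb (gradH_cinf hq 0)
    simpa [gradH_zero, J1, J2, PP, locX] using this
  | succ m ih =>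
    have := J_opK hq hb (gradH_cinf hq (m + 1))
    rw [lenard hq] at this
    change J2 q t (locX q (m + 1 + 1)) = _ + 2 * t * J2 q t (locX q (m + 1)) ∧
      J1 q t (locX q (m + 1 + 1)) = _ + 2 * t * J1 q t (locX q (m + 1)) at this
    rw [this.1, this.2, ih.1, ih.2]
    simp only [PP, Polynomial.eval_add, Polynomial.eval_C, Polynomial.eval_mul, Polynomial.eval_X]
    constructor <;> ring

/-- a finite combination of local fields -/
noncomputable def XP (q : ℝ → ℝ) (n : ℕ) (c : ℕ → ℝ) : ℝ → ℝ :=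
  fun x => ∑ m ∈ range n, c m * locX q (m + 1) x
noncomputable def PPs (q : ℝ → ℝ) (n : ℕ) (c : ℕ → ℝ) : Polynomial ℝ :=
  ∑ m ∈ range n, c m • PP q m

theorem XP_cinf (hq : Cinf q) (n : ℕ) (c : ℕ → ℝ) : Cinf (XP q n c) :=
  Cinf.sum fun _ _ => (Cinf.const _).mul (locX_cinf hq _)

theorem XP_succ (q : ℝ → ℝ) (n : ℕ) (c : ℕ → ℝ) :
    XP q (n + 1) c = fun x => 1 * XP q n c x + c n * locX q (n + 1) x := by
  funext x; simp [XP, sum_range_succ]

theorem int_XP (hq : Cinf q) (n : ℕ) (c : ℕ → ℝ) : ∫ x in (0 : ℝ)..1, XP q n c x = 0 := by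
  unfold XP
  rw [intervalIntegral.integral_finsetSum (f := fun m x => c m * locX q (m + 1) x) fun m _ =>
    (continuous_const.mul (locX_cinf hq _).cont).intervalIntegrable _ _]
  simp [int_locX hq]

theorem J_XP (hq : Cinf q) {t : ℝ} (hb : br q t = 0) (n : ℕ) (c : ℕ → ℝ) :
    J2 q t (XP q n c) = -(2 * dr q t * Nr q t) * (PPs q n c).eval t ∧
    J1 q t (XP q n c) = -(dr q t * cr q t) * (PPs q n c).eval t := by
  induction n with
  | zero => simp [XP, PPs, J1, J2]
  | succ n ih =>
    rw [XP_succ, J2_add hq.cont t (XP_cinf hq _ _).cont (locX_cinf hq _).cont,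
      J1_add hq.cont t (XP_cinf hq _ _).cont (locX_cinf hq _).cont, ih.1, ih.2,
      (J_locX hq hb n).1, (J_locX hq hb n).2]
    simp only [PPs, sum_range_succ, Polynomial.eval_add, Polynomial.eval_smul, smul_eq_mul]
    constructor <;> ring

theorem exists_PPs (q : ℝ → ℝ) (p : Polynomial ℝ) : ∃ n c, p = PPs q n c := by
  set S := Submodule.span ℝ (Set.range (PP q))
  have h1 : (1 : Polynomial ℝ) ∈ S := Submodule.subset_span ⟨0, rfl⟩
  have hX : ∀ r ∈ S, Polynomial.X * r ∈ S := by
    intro r hr
    induction hr using Submodule.span_induction with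
    | mem r hr =>
      obtain ⟨m, rfl⟩ := hr
      have e : Polynomial.X * PP q m =
          (1 / 2 : ℝ) • PP q (m + 1) - (1 / 2 * gradH q (m + 1) 0 : ℝ) • (1 : Polynomial ℝ) := by
        simp only [PP, Polynomial.smul_eq_C_mul, mul_add, ← mul_assoc, ← map_mul]
        norm_num
      rw [e]
      exact S.sub_mem (S.smul_mem _ (Submodule.subset_span ⟨m + 1, rfl⟩)) (S.smul_mem _ h1)
    | zero => simp
    | add a b _ _ ha hb => rw [mul_add]; exact S.add_mem ha hb
    | smul a b _ hb => rw [mul_smul_comm]; exact S.smul_mem _ hb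
  have hp : p ∈ S := by
    induction p using Polynomial.induction_on with
    | C a => simpa [Polynomial.smul_eq_C_mul] using S.smul_mem a h1
    | add a b ha hb => exact S.add_mem ha hb
    | monomial n a h =>
      have := hX _ h
      rwa [show Polynomial.X * (Polynomial.C a * Polynomial.X ^ n) =
        Polynomial.C a * Polynomial.X ^ (n + 1) by ring] at this
  obtain ⟨c, hc⟩ := Finsupp.mem_span_range_iff_exists_finsupp.1 hp
  refine ⟨c.support.sup id + 1, c, ?_⟩
  rw [← hc, PPs, Finsupp.sum_of_support_subset c (s := range (c.support.sup id + 1))]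
  · intro i hi
    exact mem_range.2 (Nat.lt_succ_of_le (le_sup (f := id) hi))
  · intro i _; simp

end Pool.Agent.P.MP_aabf10_an
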