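import Pool.Agent.P.MP_aabf10_an.QuasiA

/-!
# Quasi-analyticity of Fourier classes versus density of weighted polynomial values
-/

open scoped ContDiff Topology Real ComplexConjugate
open Filter Finset

namespace Pool.Agent.P.MP_aabf10_an

/-- the character of frequency `t` -/
noncomputable def ec (t x : ℝ) : ℂ := Complex.exp ((2 * π * t * x : ℝ) * Complex.I)

lemma norm_ec (t x : ℝ) : ‖ec t x‖ = 1 := Complex.norm_exp_ofReal_mul_I _

lemma ec_add (s t x : ℝ) : ec s x * ec t x = ec (s + t) x := by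
  rw [ec, ec, ec, ← Complex.exp_add]; congr 1; push_cast; ring

lemma conj_ec (t x : ℝ) : conj (ec t x) = ec (-t) x := by
  rw [ec, ec, ← Complex.exp_conj, map_mul, Complex.conj_ofReal, Complex.conj_I]
  congr 1; push_cast; ring

lemma ec_neg (t x : ℝ) : ec t (-x) = ec (-t) x := by
  rw [ec, ec]; congr 2; push_cast; ring

lemma ec_zero (t : ℝ) : ec t 0 = 1 := by simp [ec]

lemma continuous_ec (t : ℝ) : Continuous (ec t) := by unfold ec; fun_prop

lemma hasDerivAt_ec (t x : ℝ) : HasDerivAt (ec t) (2 * π * t * Complex.I * ec t x) x := by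
  have h : HasDerivAt (fun y : ℝ => ((2 * π * t * y : ℝ) : ℂ) * Complex.I)
      (((2 * π * t * 1 : ℝ) : ℂ) * Complex.I) x :=
    (((hasDerivAt_id x).const_mul (2 * π * t)).ofReal_comp).mul_const _
  have := h.cexp
  refine this.congr_deriv ?_
  rw [ec]; push_cast; ring

lemma ec_int (j : ℤ) : ec j 1 = 1 := by
  rw [ec, ← Complex.exp_int_mul_two_pi_mul_I j]; congr 1; push_cast; ring

lemma integral_ec (j : ℤ) : ∫ x in (0 : ℝ)..1, ec j x = if j = 0 then 1 else 0 := by
  split_ifs with h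
  · simp [h, ec]
  · have hc : (2 * π * j * Complex.I : ℂ) ≠ 0 := by simp [h, Real.pi_ne_zero]
    have e : ∀ x : ℝ, ec j x = Complex.exp (2 * π * j * Complex.I * x) := fun x => by
      rw [ec]; congr 1; push_cast; ring
    simp_rw [e]
    rw [integral_exp_mul_complex hc, ← e, ← e, ec_int, ec_zero, sub_self, zero_div]

lemma fc_eq (f : ℝ → ℝ) (n : ℕ) : fc f n = ∫ x in (0 : ℝ)..1, (f x : ℂ) * ec (-n) x := by
  unfold fc ec
  congr 1
  ext x
  congr 3
  push_cast
  ring

/-- rapidly decreasing coefficients -/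
def Rapid (c : ℕ → ℂ) : Prop := ∀ k : ℕ, Summable fun n : ℕ => (n : ℝ) ^ k * ‖c n‖

/-- one term of the differentiated series -/
noncomputable def trm (c : ℕ → ℂ) (k n : ℕ) (x : ℝ) : ℝ :=
  (c n * (2 * π * n * Complex.I) ^ k * ec n x).re

/-- the differentiated series -/
noncomputable def ser (c : ℕ → ℂ) (k : ℕ) (x : ℝ) : ℝ := ∑' n, trm c k n x

variable {c : ℕ → ℂ}

lemma norm_trm_le (c : ℕ → ℂ) (k n : ℕ) (x : ℝ) :
    ‖trm c k n x‖ ≤ (2 * π) ^ k * ((n : ℝ) ^ k * ‖c n‖) := by
  refine (Complex.abs_re_le_norm _).trans (le_of_eq ?_)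
  simp only [norm_mul, norm_pow, norm_ec, Complex.norm_I, Complex.norm_natCast, Complex.norm_real,
    Complex.norm_ofNat, Real.norm_eq_abs, abs_of_pos Real.pi_pos]
  ring

lemma Rapid.summable (h : Rapid c) (k : ℕ) (x : ℝ) : Summable fun n => trm c k n x :=
  Summable.of_norm_bounded ((h k).mul_left _) fun n => norm_trm_le c k n x

lemma hasDerivAt_trm (c : ℕ → ℂ) (k n : ℕ) (x : ℝ) :
    HasDerivAt (trm c k n) (trm c (k + 1) n x) x := by
  have h := (hasDerivAt_ec n x).const_mul (c n * (2 * π * n * Complex.I) ^ k)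
  have h2 := Complex.reCLM.hasFDerivAt.comp_hasDerivAt x h
  refine h2.congr_deriv ?_
  simp only [trm, Complex.reCLM_apply]
  congr 1
  push_cast
  ring

lemma Rapid.hasDerivAt (h : Rapid c) (k : ℕ) (x : ℝ) :
    HasDerivAt (ser c k) (ser c (k + 1) x) x :=
  hasDerivAt_tsum ((h (k + 1)).mul_left _) (fun n y => hasDerivAt_trm c k n y)
    (fun n y => norm_trm_le c (k + 1) n y) (h.summable k 0) x

lemma Rapid.iteratedDeriv (h : Rapid c) (k : ℕ) : iteratedDeriv k (ser c 0) = ser c k := by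
  induction k with
  | zero => rfl
  | succ k ih =>
    rw [iteratedDeriv_succ, ih]
    exact funext fun x => (h.hasDerivAt k x).deriv

lemma Rapid.cinf (h : Rapid c) : Cinf (ser c 0) := by
  refine ⟨contDiff_of_differentiable_iteratedDeriv (n := ⊤) fun m _ => ?_, fun x => ?_⟩
  · rw [h.iteratedDeriv]
    exact fun x => (h.hasDerivAt m x).differentiableAt
  · refine tsum_congr fun n => ?_
    have : ec n (x + 1) = ec n x * ec (n : ℤ) 1 := by
      rw [ec, ec, ec, ← Complex.exp_add]; congr 1; push_cast; ring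
    rw [trm, trm, this, ec_int, mul_one]

lemma integral_trm (c : ℕ → ℂ) (n m : ℕ) :
    ∫ x in (0 : ℝ)..1, (trm c 0 n x : ℂ) * ec (-m) x =
      if n = m then (if m = 0 then ((c 0).re : ℂ) else c m / 2) else 0 := by
  have e : ∀ x, (trm c 0 n x : ℂ) * ec (-m) x =
      c n / 2 * ec ((n - m : ℤ) : ℝ) x + conj (c n) / 2 * ec ((-n - m : ℤ) : ℝ) x := fun x => by
    rw [trm, pow_zero, mul_one, Complex.re_eq_add_conj, map_mul, conj_ec]
    push_cast
    rw [sub_eq_add_neg, sub_eq_add_neg, ← ec_add, ← ec_add]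
    ring
  simp_rw [e]
  rw [intervalIntegral.integral_add
    (((continuous_ec _).const_mul _).intervalIntegrable _ _)
    (((continuous_ec _).const_mul _).intervalIntegrable _ _),
    intervalIntegral.integral_const_mul, intervalIntegral.integral_const_mul, integral_ec,
    integral_ec]
  by_cases h1 : n = m
  · subst h1
    by_cases h2 : n = 0
    · subst h2
      simp [Complex.re_eq_add_conj]
      ring
    · rw [if_pos (sub_self _), if_neg (by omega), if_pos rfl, if_neg h2]
      ring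
  · rw [if_neg (by omega), if_neg (by omega), if_neg h1]
    ring

lemma Rapid.fc_ser (h : Rapid c) (m : ℕ) :
    fc (ser c 0) m = if m = 0 then ((c 0).re : ℂ) else c m / 2 := by
  have h1 := intervalIntegral.hasSum_integral_of_dominated_convergence
    (μ := MeasureTheory.volume) (a := 0) (b := 1)
    (F := fun n x => (trm c 0 n x : ℂ) * ec (-m) x) (f := fun x => (ser c 0 x : ℂ) * ec (-m) x)
    (fun n _ => (2 * π) ^ 0 * ((n : ℝ) ^ 0 * ‖c n‖))
    (fun n => ((Complex.continuous_ofReal.comp (continuous_iff_continuousAt.2 fun x =>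
      (hasDerivAt_trm c 0 n x).continuousAt)).mul (continuous_ec _)).aestronglyMeasurable)
    (fun n => .of_forall fun x _ => by
      rw [norm_mul, norm_ec, mul_one, Complex.norm_real]; exact norm_trm_le c 0 n x)
    (.of_forall fun _ _ => (h 0).mul_left _) intervalIntegrable_const
    (.of_forall fun x _ => (Complex.hasSum_ofReal.2 (h.summable 0 x).hasSum).mul_right _)
  simp_rw [integral_trm] at h1
  rw [fc_eq]
  exact h1.unique (hasSum_ite_eq m _)

lemma trm_even (c : ℕ → ℂ) (j n : ℕ) :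
    trm c (2 * j) n 0 = (-4) ^ j * ((c n).re * (((n : ℝ) * π) ^ 2) ^ j) := by
  have : (2 * π * n * Complex.I : ℂ) ^ (2 * j) = (((-4) ^ j * (((n : ℝ) * π) ^ 2) ^ j : ℝ) : ℂ) := by
    rw [pow_mul, mul_pow, Complex.I_sq, ← mul_pow]
    push_cast
    congr 1
    ring
  rw [trm, ec_zero, mul_one, this, Complex.re_mul_ofReal]
  ring

lemma trm_odd (c : ℕ → ℂ) (j n : ℕ) :
    trm c (2 * j + 1) n 0 = -(2 * π) * (-4) ^ j * ((c n).im * n * (((n : ℝ) * π) ^ 2) ^ j) := by
  have : (2 * π * n * Complex.I : ℂ) ^ (2 * j + 1) =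
      Complex.I * ((2 * π * n * ((-4) ^ j * (((n : ℝ) * π) ^ 2) ^ j) : ℝ) : ℂ) := by
    rw [pow_succ, pow_mul, mul_pow, Complex.I_sq, ← mul_pow]
    push_cast
    rw [show ((2 * π * n : ℂ) ^ 2 * -1) = -4 * (n * π) ^ 2 by ring]
    ring
  rw [trm, ec_zero, mul_one, this, ← mul_assoc, Complex.re_mul_ofReal, Complex.mul_I_re]
  ring

lemma Rapid.flat_iff (h : Rapid c) : Flat (ser c 0) ↔
    (∀ j : ℕ, HasSum (fun n : ℕ => (c n).re * (((n : ℝ) * π) ^ 2) ^ j) 0) ∧
      ∀ j : ℕ, HasSum (fun n : ℕ => (c n).im * n * (((n : ℝ) * π) ^ 2) ^ j) 0 := by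
  have h0 : Flat (ser c 0) ↔ ∀ k, HasSum (fun n => trm c k n 0) 0 :=
    forall_congr' fun k => by
      rw [h.iteratedDeriv]
      exact ⟨fun h1 => (h.summable k 0).hasSum_iff.2 h1, fun h1 => h1.tsum_eq⟩
  rw [h0]
  constructor
  · intro h1
    refine ⟨fun j => ?_, fun j => ?_⟩
    · have h2 := h1 (2 * j)
      simp_rw [trm_even] at h2
      rw [← hasSum_mul_left_iff (a₂ := (-4 : ℝ) ^ j) (by positivity), mul_zero]
      exact h2
    · have h2 := h1 (2 * j + 1)
      simp_rw [trm_odd] at h2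
      have : -(2 * π) * (-4 : ℝ) ^ j ≠ 0 :=
        mul_ne_zero (neg_ne_zero.2 (by positivity)) (by positivity)
      rw [← hasSum_mul_left_iff this, mul_zero]
      exact h2
  · rintro ⟨h1, h2⟩ k
    obtain ⟨j, rfl | rfl⟩ := Nat.even_or_odd' k
    · simp_rw [trm_even]
      simpa using (h1 j).mul_left ((-4 : ℝ) ^ j)
    · simp_rw [trm_odd]
      simpa using (h2 j).mul_left (-(2 * π) * (-4 : ℝ) ^ j)

lemma ser_neg (c : ℕ → ℂ) (x : ℝ) : ser c 0 (-x) = ser (fun n => conj (c n)) 0 x := by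
  refine tsum_congr fun n => ?_
  rw [trm, trm, pow_zero, mul_one, mul_one, ec_neg, ← conj_ec, ← Complex.conj_re, map_mul,
    Complex.conj_conj]

lemma eq_ser {f : ℝ → ℝ} (hf : Cinf f) (h0 : fc f 0 = 0) (h : Rapid fun n => 2 * fc f n) :
    f = ser (fun n => 2 * fc f n) 0 := by
  have hper : Function.Periodic (fun x => (f x : ℂ)) 1 := fun x => by
    beta_reduce; rw [hf.2 x]
  have hc : Continuous fun x => (f x : ℂ) := Complex.continuous_ofReal.comp hf.1.continuous
  let F : C(AddCircle (1 : ℝ), ℂ) := ⟨hper.lift, continuous_coinduced_dom.mpr hc⟩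
  have hF : ∀ x : ℝ, F x = f x := fun x => rfl
  have hfou : ∀ (j : ℤ) (x : ℝ), fourier j (x : AddCircle (1 : ℝ)) = ec j x := fun j x => by
    rw [fourier_coe_apply, ec]; congr 1; push_cast; ring
  have hco : ∀ j : ℤ, fourierCoeff F j = ∫ x in (0 : ℝ)..1, (f x : ℂ) * ec (-j) x := fun j => by
    rw [fourierCoeff_eq_intervalIntegral _ _ 0]
    simp only [hF, hfou, zero_add, div_one, one_smul, smul_eq_mul, mul_comm, Int.cast_neg]
  have h1 : ∀ n : ℕ, fourierCoeff F n = fc f n := fun n => by rw [hco, fc_eq]; rfl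
  have h2 : ∀ n : ℕ, fourierCoeff F (-n) = conj (fc f n) := fun n => by
    rw [hco, fc_eq, ← intervalIntegral.intervalIntegral_conj]
    simp only [map_mul, conj_ec, Complex.conj_ofReal, Int.cast_neg, Int.cast_natCast]
  have hs : Summable fun n : ℕ => ‖fc f n‖ := by
    have := (h 0).mul_left (1 / 2)
    refine this.congr fun n => ?_
    simp
  have h3 : Summable (fourierCoeff F) :=
    Summable.of_nat_of_neg (Summable.of_norm (by simpa only [h1] using hs))
      (Summable.of_norm (by simpa only [h2, Complex.norm_conj] using hs))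
  funext x
  have h4 := (has_pointwise_sum_fourier_series_of_summable h3 x).nat_add_neg
  have h5 : fourierCoeff F 0 = 0 := (h1 0).trans h0
  simp only [h1, h2, h5, hfou, hF, zero_mul, add_zero, smul_eq_mul] at h4
  have h6 := Complex.reCLM.hasSum h4
  simp only [Complex.reCLM_apply, Complex.ofReal_re] at h6
  rw [ser, ← h6.tsum_eq]
  refine tsum_congr fun n => ?_
  rw [trm, pow_zero, mul_one, Int.cast_neg, ← conj_ec, ← map_mul, Complex.add_conj,
    Complex.ofReal_re, mul_assoc]
  simp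

lemma rapid_of_le {w s : ℕ → ℝ} (hw : ∀ n, 0 ≤ w n)
    (hdec : ∀ k : ℕ, Summable fun n : ℕ => (n : ℝ) ^ k * w n) (hs : Summable fun n => s n ^ 2)
    (h : ∀ n, ‖c n‖ ≤ |s n| * w n) : Rapid c := fun k => by
  obtain ⟨M, hM⟩ := hs.tendsto_cofinite_zero.bddAbove_range_of_cofinite
  refine Summable.of_nonneg_of_le (fun n => by positivity) (fun n => ?_)
    ((hdec k).mul_left (M + 1))
  have h1 : s n ^ 2 ≤ M := hM ⟨n, rfl⟩
  have h2 : |s n| ≤ M + 1 := by nlinarith [sq_abs (s n), abs_nonneg (s n), sq_nonneg (|s n| - 1)]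
  rw [mul_left_comm]
  exact mul_le_mul_of_nonneg_left ((h n).trans (mul_le_mul_of_nonneg_right h2 (hw n)))
    (by positivity)

/-- coefficients dominated by `s n * v n` that annihilate all powers vanish -/
lemma Ann.vanish {a v s r : ℕ → ℝ} (h : Ann a v) (hs : Summable fun n => s n ^ 2)
    (hr : ∀ n, |r n| ≤ |s n| * |v n|) (h0 : ∀ j : ℕ, HasSum (fun n => r n * a n ^ j) 0) (n : ℕ) :
    r n = 0 := by
  have e : ∀ n, r n / v n * v n = r n := fun n => by
    by_cases hv : v n = 0
    · have := hr n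
      rw [hv, abs_zero, mul_zero] at this
      rw [hv, mul_zero, abs_nonpos_iff.1 this]
    · exact div_mul_cancel₀ _ hv
  rw [← e]
  refine h (fun n => r n / v n) (Summable.of_nonneg_of_le (fun _ => sq_nonneg _) (fun n => ?_) hs)
    (fun k => by simpa only [e] using h0 k) n
  rw [sq_le_sq, abs_div]
  exact div_le_of_le_mul₀ (abs_nonneg _) (abs_nonneg _) (hr n)

lemma InClass.bound {w : ℕ → ℝ} (hw : ∀ n, 0 ≤ w n) {f : ℝ → ℝ} (hf : InClass w f) :
    ∃ s : ℕ → ℝ, Summable (fun n => s n ^ 2) ∧ ∀ n, ‖2 * fc f n‖ ≤ |s n| * w n := by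
  obtain ⟨-, h0, s, hs, hb⟩ := hf
  refine ⟨fun n => 2 * s n, (hs.mul_left 4).congr fun n => by ring, fun n => ?_⟩
  rcases Nat.eq_zero_or_pos n with rfl | hn
  · rw [h0, mul_zero, norm_zero]; exact mul_nonneg (abs_nonneg _) (hw 0)
  · rw [norm_mul, abs_mul, mul_assoc, Complex.norm_ofNat, abs_two]
    exact mul_le_mul_of_nonneg_left ((hb n hn).trans
      (mul_le_mul_of_nonneg_right (le_abs_self _) (hw n))) zero_le_two

lemma inClass_ser {w s : ℕ → ℝ} (hR : Rapid c) (h0 : (c 0).re = 0)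
    (hs : Summable fun n => s n ^ 2) (h : ∀ n, ‖c n‖ ≤ |s n| * w n) : InClass w (ser c 0) := by
  refine ⟨hR.cinf, by simp [hR.fc_ser, h0], fun n => |s n|, by simpa using hs, fun n hn => ?_⟩
  rw [hR.fc_ser, if_neg (by omega), norm_div, Complex.norm_ofNat]
  linarith [h n, norm_nonneg (c n)]

lemma ser_zero (h : ∀ n, c n = 0) : ser c 0 = 0 := funext fun x => by simp [ser, trm, h]

lemma Rapid.eq_zero (hR : Rapid c) (h : ser c 0 = 0) {n : ℕ} (hn : n ≠ 0) : c n = 0 := by
  have := hR.fc_ser n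
  rw [h, if_neg hn] at this
  simpa [fc] using this.symm

theorem qa_iff_dens (w : ℕ → ℝ) (hw : ∀ n, 0 ≤ w n)
    (hdec : ∀ k : ℕ, Summable fun n : ℕ => (n : ℝ) ^ k * w n) :
    (∀ f, InClass w f → Flat f → f = 0) ↔
      Dens (fun n => ((n : ℝ) * π) ^ 2) (fun n => (n : ℝ) * w n) := by
  rw [dens_iff_ann (summable_weighted (C := 0) (fun n => mul_nonneg n.cast_nonneg (hw n))
    (fun n => by simp) fun k => (hdec (k + 1)).congr fun n => by ring)]
  constructor
  · intro h s hs hk n
    let c : ℕ → ℂ := fun n => ((s n * w n : ℝ) : ℂ) * Complex.I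
    have hb : ∀ n, ‖c n‖ ≤ |s n| * w n := fun n => by
      simp [c, abs_of_nonneg (hw n)]
    have hR := rapid_of_le hw hdec hs hb
    have h1 := h _ (inClass_ser hR (by simp [c]) hs hb) (hR.flat_iff.2
      ⟨fun j => by simp [c],
        fun j => (hk j).congr_fun fun n => by
          simp only [c, Complex.mul_I_im, Complex.ofReal_re]; ring⟩)
    rcases eq_or_ne n 0 with rfl | hn
    · simp
    · have h2 : s n * w n = 0 := by simpa [c] using hR.eq_zero h1 hn
      linear_combination n * h2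
  · intro h f hf hflat
    obtain ⟨s, hs, hb⟩ := hf.bound hw
    have hR := rapid_of_le hw hdec hs hb
    have e := eq_ser hf.1 hf.2.1 hR
    rw [e] at hflat ⊢
    obtain ⟨h1, h2⟩ := hR.flat_iff.1 hflat
    have k1 := h.vanish hs (r := fun n => (2 * fc f n).re) (fun n => by
      rcases Nat.eq_zero_or_pos n with rfl | hn
      · simp [hf.2.1]
      · refine (Complex.abs_re_le_norm _).trans ((hb n).trans ?_)
        have : (1 : ℝ) ≤ n := by exact_mod_cast hn
        rw [abs_of_nonneg (mul_nonneg n.cast_nonneg (hw n))]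
        exact mul_le_mul_of_nonneg_left (le_mul_of_one_le_left (hw n) this) (abs_nonneg _)) h1
    have k2 := h.vanish hs (r := fun n => (2 * fc f n).im * n) (fun n => by
      rw [abs_mul, abs_mul, abs_of_nonneg (hw n), mul_comm |(n : ℝ)|, ← mul_assoc]
      exact mul_le_mul_of_nonneg_right ((Complex.abs_im_le_norm _).trans (hb n))
        (abs_nonneg _)) h2
    refine ser_zero fun n => ?_
    rcases eq_or_ne n 0 with rfl | hn
    · rw [hf.2.1, mul_zero]
    · exact Complex.ext (k1 n) ((mul_eq_zero.1 (k2 n)).resolve_right (by exact_mod_cast hn))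

theorem qa_even_iff_dens (w : ℕ → ℝ) (hw : ∀ n, 0 ≤ w n) (hw0 : w 0 = 0)
    (hdec : ∀ k : ℕ, Summable fun n : ℕ => (n : ℝ) ^ k * w n) :
    (∀ f, InClass w f → Function.Even f → Flat f → f = 0) ↔
      Dens (fun n => ((n : ℝ) * π) ^ 2) w := by
  rw [dens_iff_ann (summable_weighted (C := 0) hw (fun n => by simp) hdec)]
  constructor
  · intro h s hs hk n
    let c : ℕ → ℂ := fun n => ((s n * w n : ℝ) : ℂ)
    have hb : ∀ n, ‖c n‖ ≤ |s n| * w n := fun n => by
      simp [c, abs_of_nonneg (hw n)]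
    have hR := rapid_of_le hw hdec hs hb
    have h1 := h _ (inClass_ser hR (by simp [c, hw0]) hs hb)
      (fun x => by rw [ser_neg]; simp only [c, Complex.conj_ofReal]) (hR.flat_iff.2
      ⟨fun j => (hk j).congr_fun fun n => by simp [c],
        fun j => by simp [c]⟩)
    rcases eq_or_ne n 0 with rfl | hn
    · simp [hw0]
    · simpa [c] using hR.eq_zero h1 hn
  · intro h f hf hev hflat
    obtain ⟨s, hs, hb⟩ := hf.bound hw
    have hR := rapid_of_le hw hdec hs hb
    have hR' : Rapid fun n => conj (2 * fc f n) := fun k => by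
      simpa only [Complex.norm_conj] using hR k
    have e := eq_ser hf.1 hf.2.1 hR
    have e' : ser (fun n => conj (2 * fc f n)) 0 = ser (fun n => 2 * fc f n) 0 :=
      funext fun x => by rw [← ser_neg, ← e, hev x]
    rw [e] at hflat ⊢
    obtain ⟨h1, -⟩ := hR.flat_iff.1 hflat
    have k1 := h.vanish hs (r := fun n => (2 * fc f n).re) (fun n => by
      rw [abs_of_nonneg (hw n)]
      exact (Complex.abs_re_le_norm _).trans (hb n)) h1
    refine ser_zero fun n => ?_
    rcases eq_or_ne n 0 with rfl | hn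
    · rw [hf.2.1, mul_zero]
    · have k2 := hR'.fc_ser n
      rw [e', hR.fc_ser, if_neg hn, if_neg hn] at k2
      exact Complex.ext (k1 n) (Complex.conj_eq_iff_im.1 (by linear_combination -2 * k2))

end Pool.Agent.P.MP_aabf10_an
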