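import Pool.Agent.P.MP_aabf10_an.Defs

/-!
# Transfer of weighted polynomial approximation between two close node sequences
-/

open scoped ContDiff Topology Real
open Filter Finset Polynomial

namespace Pool.Agent.P.MP_aabf10_an

/-- The intervals cut out by the nodes. -/
def InI (a : ℕ → ℝ) : ℕ → ℝ → Prop
  | 0, x => x ≤ a 0
  | m + 1, x => a m ≤ x ∧ x ≤ a (m + 1)

/-- The monic quadratic with the given lower coefficients. -/
noncomputable def quadP (u v : ℝ) : Polynomial ℝ := X ^ 2 + C u * X + C v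

lemma quadP_eval (u v x : ℝ) : (quadP u v).eval x = x ^ 2 + u * x + v := by
  simp [quadP]

lemma quadP_natDegree (u v : ℝ) : (quadP u v).natDegree = 2 := by
  unfold quadP
  compute_degree!

lemma quadP_ne_zero (u v : ℝ) : quadP u v ≠ 0 := by
  intro h
  have := quadP_natDegree u v
  rw [h] at this
  simp at this

lemma exists_InI (a : ℕ → ℝ) (ht : Tendsto a atTop atTop) (x : ℝ) : ∃ m, InI a m x := by
  classical
  have hex : ∃ n, x ≤ a n := (ht.eventually_ge_atTop x).exists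
  have h1 := Nat.find_spec hex
  rcases h : Nat.find hex with _ | m
  · exact ⟨0, by rw [h] at h1; exact h1⟩
  · have h2 : ¬ x ≤ a m := Nat.find_min hex (by omega)
    exact ⟨m + 1, (not_le.mp h2).le, by rw [h] at h1; exact h1⟩

lemma InI.pair {a : ℕ → ℝ} (ha : StrictMono a) {m : ℕ} {x y : ℝ} (hx : InI a m x)
    (hy : InI a m y) (n : ℕ) : 0 ≤ (a n - x) * (a n - y) := by
  rcases m with _ | m
  · have h0 : a 0 ≤ a n := ha.monotone (Nat.zero_le n)
    have hx' : x ≤ a 0 := hx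
    have hy' : y ≤ a 0 := hy
    exact mul_nonneg (by linarith) (by linarith)
  · obtain ⟨hx1, hx2⟩ := hx
    obtain ⟨hy1, hy2⟩ := hy
    rcases le_or_gt n m with h | h
    · have h0 : a n ≤ a m := ha.monotone h
      exact mul_nonneg_of_nonpos_of_nonpos (by linarith) (by linarith)
    · have h0 : a (m + 1) ≤ a n := ha.monotone h
      exact mul_nonneg (by linarith) (by linarith)

lemma no_pair (a : ℕ → ℝ) (ha : StrictMono a) (ht : Tendsto a atTop atTop) (d : ℕ) :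
    ∀ p : Polynomial ℝ, p.natDegree = d → p ≠ 0 →
      (∀ u v : ℝ, (∀ n, 0 ≤ a n ^ 2 + u * a n + v) → ¬ quadP u v ∣ p) →
      ∃ (K : ℝ) (Z : Finset ℕ) (z : ℕ → ℝ), (∀ m ∈ Z, InI a m (z m)) ∧
        p = C K * ∏ m ∈ Z, (X - C (z m)) := by
  classical
  induction d with
  | zero =>
    intro p hd _ _
    exact ⟨p.coeff 0, ∅, fun _ => 0, by simp, by simpa using eq_C_of_natDegree_eq_zero hd⟩
  | succ d ih =>
    intro p hd hp hno
    have hdeg : 0 < (p.map (algebraMap ℝ ℂ)).degree := by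
      rw [degree_map]
      exact natDegree_pos_iff_degree_pos.mp (by omega)
    obtain ⟨w, hw⟩ := Complex.exists_root hdeg
    have hw' : aeval w p = 0 := by
      rw [aeval_def, eval₂_eq_eval_map]
      exact hw
    by_cases him : w.im = 0
    · have hwre : w = algebraMap ℝ ℂ w.re := by
        apply Complex.ext <;> simp [him]
      have hroot : p.IsRoot w.re := by
        rw [hwre, aeval_algebraMap_apply] at hw'
        simpa using hw'
      obtain ⟨q, hq⟩ := dvd_iff_isRoot.mpr hroot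
      have hq0 : q ≠ 0 := by
        rintro rfl
        exact hp (by simpa using hq)
      have hqd : q.natDegree = d := by
        have := natDegree_mul (X_sub_C_ne_zero w.re) hq0
        rw [← hq, hd, natDegree_X_sub_C] at this
        omega
      obtain ⟨K, Z, z, hz, hqe⟩ := ih q hqd hq0 (fun u v huv hdvd =>
        hno u v huv (hq ▸ Dvd.dvd.mul_left hdvd _))
      obtain ⟨m, hm⟩ := exists_InI a ht w.re
      by_cases hmZ : m ∈ Z
      · exfalso
        refine hno (-(w.re + z m)) (w.re * z m) (fun n => ?_) ?_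
        · have := hm.pair ha (hz m hmZ) n
          nlinarith
        · have h1 : quadP (-(w.re + z m)) (w.re * z m) = (X - C w.re) * (X - C (z m)) := by
            simp only [quadP, map_neg, map_add, map_mul]
            ring
          rw [h1, hq, hqe]
          exact mul_dvd_mul_left _ (Dvd.dvd.mul_left (Finset.dvd_prod_of_mem _ hmZ) _)
      · refine ⟨K, insert m Z, Function.update z m w.re, fun k hk => ?_, ?_⟩
        · rcases Finset.mem_insert.mp hk with rfl | hk'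
          · simpa using hm
          · rw [Function.update_of_ne (by rintro rfl; exact hmZ hk')]
            exact hz k hk'
        · rw [Finset.prod_insert hmZ, Function.update_self, hq, hqe]
          have : ∏ k ∈ Z, (X - C (Function.update z m w.re k)) = ∏ k ∈ Z, (X - C (z k)) :=
            Finset.prod_congr rfl fun k hk => by
              rw [Function.update_of_ne (by rintro rfl; exact hmZ hk)]
          rw [this]
          ring
    · exfalso
      have hdvd := quadratic_dvd_of_aeval_eq_zero_im_ne_zero p hw' him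
      refine hno (-(2 * w.re)) (‖w‖ ^ 2) (fun n => ?_) ?_
      · have h1 : ‖w‖ ^ 2 = w.re ^ 2 + w.im ^ 2 := by
          rw [Complex.sq_norm, Complex.normSq_apply]; ring
        nlinarith [sq_nonneg (a n - w.re), sq_nonneg w.im]
      · have h1 : quadP (-(2 * w.re)) (‖w‖ ^ 2) = X ^ 2 - C (2 * w.re) * X + C (‖w‖ ^ 2) := by
          simp only [quadP, map_neg]
          ring
        rw [h1]
        exact hdvd

lemma finite_below (a : ℕ → ℝ) (ht : Tendsto a atTop atTop) (e B D : ℝ) (he : 0 < e) :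
    {n | e * a n ^ 2 + B * a n + D ≤ 0}.Finite := by
  have h1 : ∀ᶠ n in atTop, 0 < e * a n ^ 2 + B * a n + D := by
    filter_upwards [ht.eventually_ge_atTop 1, ht.eventually_ge_atTop ((|B| + |D| + 1) / e)]
      with n h1 h2
    rw [div_le_iff₀ he] at h2
    have h3 := neg_abs_le B
    have h4 := neg_abs_le D
    have h5 := abs_nonneg D
    have h6 : (|B| + |D| + 1) * a n ≤ a n * e * a n :=
      mul_le_mul_of_nonneg_right h2 (by linarith)
    nlinarith
  rw [← Nat.cofinite_eq_atTop, eventually_cofinite] at h1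
  simpa using h1

/-- The value of the normal form polynomial. -/
noncomputable def nfv (a : ℕ → ℝ) (Z₁ Z₂ : Finset ℕ) (z : ℕ → ℝ) (x : ℝ) : ℝ :=
  (∏ i ∈ Z₁, (x - a i)) * ∏ m ∈ Z₂, (x - z m)

lemma reduce (a : ℕ → ℝ) (ha : StrictMono a) (ht : Tendsto a atTop atTop) (n₀ d : ℕ) :
    ∀ (p : Polynomial ℝ) (T : Set ℕ), p.natDegree = d → n₀ ∈ T →
      ∃ (K : ℝ) (Z₁ Z₂ : Finset ℕ) (z : ℕ → ℝ), (∀ i ∈ Z₁, i ∈ T) ∧ (∀ m ∈ Z₂, InI a m (z m)) ∧
        K * nfv a Z₁ Z₂ z (a n₀) = p.eval (a n₀) ∧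
        ∀ n ∈ T, |K * nfv a Z₁ Z₂ z (a n)| ≤ |p.eval (a n)| := by
  classical
  induction d using Nat.strong_induction_on with
  | _ d ih =>
  intro p T hd hT
  by_cases hp : p = 0
  · exact ⟨0, ∅, ∅, fun _ => 0, by simp, by simp, by simp [hp], by simp⟩
  by_cases hno : ∀ u v : ℝ, (∀ n, 0 ≤ a n ^ 2 + u * a n + v) → ¬ quadP u v ∣ p
  · obtain ⟨K, Z, z, hz, hpe⟩ := no_pair a ha ht d p hd hp hno
    have hev : ∀ x, K * nfv a ∅ Z z x = p.eval x := fun x => by
      rw [hpe]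
      simp [nfv, eval_prod]
    exact ⟨K, ∅, Z, z, by simp, hz, hev _, fun n _ => by rw [hev]⟩
  push Not at hno
  obtain ⟨u, v, huv, r, hr⟩ := hno
  have hr0 : r ≠ 0 := by
    rintro rfl
    exact hp (by simpa using hr)
  have hdr : d = 2 + r.natDegree := by
    rw [← hd, hr, natDegree_mul (quadP_ne_zero u v) hr0, quadP_natDegree]
  have hpev : ∀ x, p.eval x = (x ^ 2 + u * x + v) * r.eval x := fun x => by
    rw [hr, eval_mul, quadP_eval]
  have hlin : ∀ s t : ℝ, ((C s * X + C t) * r).natDegree < d := fun s t => by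
    have h1 : (C s * X + C t).natDegree ≤ 1 := natDegree_linear_le
    have h2 := natDegree_mul_le (p := C s * X + C t) (q := r)
    omega
  by_cases h1 : ∀ n ∈ T, (a n - a n₀) ^ 2 ≤ a n ^ 2 + u * a n + v
  · obtain ⟨K, Z₁, Z₂, z, hZ₁, hZ₂, he, hle⟩ := ih _ (hlin (u + 2 * a n₀) (v - a n₀ ^ 2))
      ((C (u + 2 * a n₀) * X + C (v - a n₀ ^ 2)) * r) T rfl hT
    refine ⟨K, Z₁, Z₂, z, hZ₁, hZ₂, ?_, fun n hn => (hle n hn).trans ?_⟩
    · rw [he, hpev]
      simp only [eval_mul, eval_add, eval_C, eval_X]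
      ring
    · rw [hpev]
      simp only [eval_mul, eval_add, eval_C, eval_X, abs_mul]
      refine mul_le_mul_of_nonneg_right ?_ (abs_nonneg _)
      have h2 := h1 n hn
      rw [abs_of_nonneg (by nlinarith), abs_of_nonneg (huv n)]
      nlinarith [sq_nonneg (a n - a n₀)]
  push Not at h1
  obtain ⟨n₁, hn₁T, hn₁⟩ := h1
  have hpos : ∀ n, n ≠ n₀ → 0 < (a n - a n₀) ^ 2 := fun n hn =>
    sq_pos_of_ne_zero (sub_ne_zero.mpr fun h => hn (ha.injective h))
  have hn₁0 : n₁ ≠ n₀ := by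
    rintro rfl
    have := huv n₁
    simp at hn₁
    linarith
  set g : ℕ → ℝ := fun n => (a n ^ 2 + u * a n + v) / (a n - a n₀) ^ 2 with hg
  have hg1 : g n₁ < 1 := (div_lt_one (hpos n₁ hn₁0)).mpr hn₁
  have hfin : {n | n ∈ T ∧ n ≠ n₀ ∧ g n ≤ g n₁}.Finite := by
    refine (finite_below a ht (1 - g n₁) (u + 2 * g n₁ * a n₀) (v - g n₁ * a n₀ ^ 2)
      (by linarith)).subset ?_
    rintro n ⟨-, hn0, hn⟩
    have h2 : a n ^ 2 + u * a n + v ≤ g n₁ * (a n - a n₀) ^ 2 :=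
      (div_le_iff₀ (hpos n hn0)).mp hn
    simp only [Set.mem_ofPred_eq]
    nlinarith
  obtain ⟨j, ⟨hjT, hj0, hj1⟩, hjmin⟩ := Set.exists_min_image _ g hfin ⟨n₁, hn₁T, hn₁0, le_rfl⟩
  have hmin : ∀ n ∈ T, n ≠ n₀ → g j ≤ g n := fun n hn hn0 => by
    rcases le_total (g n) (g n₁) with h | h
    · exact hjmin n ⟨hn, hn0, h⟩
    · exact hj1.trans h
  have ht0 : 0 ≤ g j := div_nonneg (huv j) (sq_nonneg _)
  have hjz : a j ^ 2 + u * a j + v = g j * (a j - a n₀) ^ 2 :=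
    (div_mul_cancel₀ _ (hpos j hj0).ne').symm
  have hid : ∀ x, (x - a j) * ((1 - g j) * x + (u + 2 * g j * a n₀ + (1 - g j) * a j)) =
      x ^ 2 + u * x + v - g j * (x - a n₀) ^ 2 := fun x => by
    linear_combination (-1 : ℝ) * hjz
  obtain ⟨K, Z₁, Z₂, z, hZ₁, hZ₂, he, hle⟩ :=
    ih _ (hlin (1 - g j) (u + 2 * g j * a n₀ + (1 - g j) * a j))
      ((C (1 - g j) * X + C (u + 2 * g j * a n₀ + (1 - g j) * a j)) * r) (T \ {j}) rfl
      ⟨hT, fun h => hj0 (Set.mem_singleton_iff.mp h).symm⟩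
  have hjZ : j ∉ Z₁ := fun h => (hZ₁ j h).2 rfl
  have hins : ∀ x, K * nfv a (insert j Z₁) Z₂ z x = (x - a j) * (K * nfv a Z₁ Z₂ z x) :=
    fun x => by
      simp only [nfv, Finset.prod_insert hjZ]
      ring
  refine ⟨K, insert j Z₁, Z₂, z, fun i hi => ?_, hZ₂, ?_, fun n hn => ?_⟩
  · rcases Finset.mem_insert.mp hi with rfl | hi
    · exact hjT
    · exact (hZ₁ i hi).1
  · rw [hins, he, hpev]
    simp only [eval_mul, eval_add, eval_C, eval_X]
    rw [← mul_assoc, hid]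
    ring
  · by_cases hnj : n = j
    · rw [hins, hnj]
      simp
    rw [hins, abs_mul]
    refine (mul_le_mul_of_nonneg_left (hle n ⟨hn, hnj⟩) (abs_nonneg _)).trans ?_
    rw [← abs_mul, hpev]
    simp only [eval_mul, eval_add, eval_C, eval_X]
    rw [← mul_assoc, hid, abs_mul, abs_mul]
    refine mul_le_mul_of_nonneg_right ?_ (abs_nonneg _)
    have h2 : g j * (a n - a n₀) ^ 2 ≤ a n ^ 2 + u * a n + v := by
      by_cases hn0 : n = n₀
      · rw [hn0]
        simpa using huv n₀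
      · exact (le_div_iff₀ (hpos n hn0)).mp (hmin n hn hn0)
    rw [abs_of_nonneg (by linarith), abs_of_nonneg (huv n)]
    nlinarith [mul_nonneg ht0 (sq_nonneg (a n - a n₀))]

/-- The logarithmic distortion between nodes `n` and `m`. -/
noncomputable def eta (A : ℝ) (n m : ℕ) : ℝ := A * (1 / ((m : ℝ) - n) ^ 2)

/-- The logarithmic distortion between node `n` and interval `m`. -/
noncomputable def theta (A : ℝ) (n : ℕ) : ℕ → ℝ
  | 0 => eta A n 0
  | m + 1 => eta A n m + eta A n (m + 1)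

lemma eta_nonneg {A : ℝ} (hA : 0 ≤ A) (n m : ℕ) : 0 ≤ eta A n m := by
  unfold eta
  positivity

lemma exists_eta_bound (A : ℝ) (hA : 0 ≤ A) :
    ∃ S : ℝ, ∀ (n : ℕ) (Z : Finset ℕ), ∑ m ∈ Z, eta A n m ≤ S := by
  classical
  have hs : Summable fun k : ℤ => 1 / (k : ℝ) ^ 2 :=
    Real.summable_one_div_int_pow.mpr (by norm_num)
  refine ⟨A * ∑' k : ℤ, 1 / (k : ℝ) ^ 2, fun n Z => ?_⟩
  simp only [eta]
  rw [← Finset.mul_sum]
  refine mul_le_mul_of_nonneg_left ?_ hA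
  have hinj : Set.InjOn (fun m : ℕ => (m : ℤ) - n) Z := fun x _ y _ h => by
    simp only at h
    omega
  have h1 : ∑ m ∈ Z, 1 / ((m : ℝ) - n) ^ 2 =
      ∑ k ∈ Z.image (fun m : ℕ => (m : ℤ) - n), 1 / (k : ℝ) ^ 2 := by
    rw [Finset.sum_image hinj]
    simp
  rw [h1]
  exact hs.sum_le_tsum _ fun k _ => by positivity

lemma theta_bound {A S : ℝ} (hA : 0 ≤ A)
    (hS : ∀ (n : ℕ) (Z : Finset ℕ), ∑ m ∈ Z, eta A n m ≤ S) (n : ℕ) (Z : Finset ℕ) :
    ∑ m ∈ Z, theta A n m ≤ 3 * S := by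
  obtain ⟨N, hN⟩ := Z.exists_nat_subset_range
  have h0 : ∀ m, 0 ≤ theta A n m := fun m => by
    rcases m with _ | m
    · exact eta_nonneg hA n 0
    · exact add_nonneg (eta_nonneg hA n m) (eta_nonneg hA n (m + 1))
  have h1 : ∑ m ∈ Z, theta A n m ≤ ∑ m ∈ range (N + 1), theta A n m :=
    Finset.sum_le_sum_of_subset_of_nonneg
      (hN.trans (Finset.range_mono (Nat.le_succ N))) fun m _ _ => h0 m
  have h2 := hS n (range N)
  have h3 := hS n (range (N + 1))
  have h4 := hS n ∅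
  have h5 : ∑ m ∈ range (N + 1), theta A n m =
      ∑ m ∈ range N, eta A n m + ∑ m ∈ range (N + 1), eta A n m := by
    rw [Finset.sum_range_succ', Finset.sum_range_succ']
    simp only [theta, Finset.sum_add_distrib]
    ring
  simp only [Finset.sum_empty] at h4
  linarith

lemma node_move (a b : ℕ → ℝ) (C c : ℝ) (hc : 0 < c) (hab : ∀ n, |a n - b n| ≤ C)
    (sa : ∀ m n : ℕ, c * ((m : ℝ) - n) ^ 2 ≤ |a m - a n|) (n m : ℕ) :
    |b n - b m| ≤ Real.exp (eta (2 * C / c) n m) * |a n - a m| := by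
  by_cases h : n = m
  · simp [h]
  have hC : 0 ≤ C := (abs_nonneg _).trans (hab 0)
  have hd : 0 < ((m : ℝ) - n) ^ 2 :=
    sq_pos_of_ne_zero (sub_ne_zero.mpr fun h' => h (by exact_mod_cast h'.symm))
  have h1 : |b n - b m| ≤ |a n - a m| + 2 * C := by
    have e1 := abs_le.mp (hab n)
    have e2 := abs_le.mp (hab m)
    have e3 := le_abs_self (a n - a m)
    have e4 := neg_abs_le (a n - a m)
    rw [abs_le]
    constructor <;> linarith
  have h2 : 2 * C ≤ eta (2 * C / c) n m * |a n - a m| := by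
    have e1 := sa m n
    rw [abs_sub_comm] at e1
    have e2 : eta (2 * C / c) n m * (c * ((m : ℝ) - n) ^ 2) = 2 * C := by
      have hne : ((m : ℝ) - n) ≠ 0 := fun h0 => by simp [h0] at hd
      unfold eta
      field_simp
    have e3 := mul_le_mul_of_nonneg_left e1
      (eta_nonneg (by positivity : 0 ≤ 2 * C / c) n m)
    linarith
  have h3 := Real.add_one_le_exp (eta (2 * C / c) n m)
  nlinarith [abs_nonneg (a n - a m)]

lemma mix_move (a b : ℕ → ℝ) (ha : StrictMono a) (A : ℝ) (hA : 0 ≤ A)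
    (h : ∀ n m, |b n - b m| ≤ Real.exp (eta A n m) * |a n - a m|) (m : ℕ) (s : ℝ) (h0 : 0 ≤ s)
    (h1 : s ≤ 1) (n : ℕ) :
    |b n - ((1 - s) * b m + s * b (m + 1))| ≤
      Real.exp (theta A n (m + 1)) * |a n - ((1 - s) * a m + s * a (m + 1))| := by
  have e1 : |b n - ((1 - s) * b m + s * b (m + 1))| ≤
      (1 - s) * |b n - b m| + s * |b n - b (m + 1)| := by
    have : b n - ((1 - s) * b m + s * b (m + 1)) =
        (1 - s) * (b n - b m) + s * (b n - b (m + 1)) := by ring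
    rw [this]
    refine (abs_add_le _ _).trans ?_
    rw [abs_mul, abs_mul, abs_of_nonneg h0, abs_of_nonneg (by linarith : 0 ≤ 1 - s)]
  have e2 : |a n - ((1 - s) * a m + s * a (m + 1))| =
      (1 - s) * |a n - a m| + s * |a n - a (m + 1)| := by
    have hm : a m ≤ a (m + 1) := ha.monotone (Nat.le_succ m)
    rcases le_or_gt n m with hn | hn
    · have : a n ≤ a m := ha.monotone hn
      rw [abs_of_nonpos (by nlinarith), abs_of_nonpos (by linarith), abs_of_nonpos (by linarith)]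
      ring
    · have : a (m + 1) ≤ a n := ha.monotone hn
      rw [abs_of_nonneg (by nlinarith), abs_of_nonneg (by linarith), abs_of_nonneg (by linarith)]
      ring
  have e3 : Real.exp (eta A n m) ≤ Real.exp (theta A n (m + 1)) :=
    Real.exp_le_exp.mpr (le_add_of_nonneg_right (eta_nonneg hA n (m + 1)))
  have e4 : Real.exp (eta A n (m + 1)) ≤ Real.exp (theta A n (m + 1)) :=
    Real.exp_le_exp.mpr (le_add_of_nonneg_left (eta_nonneg hA n m))
  have e5 := (h n m).trans (mul_le_mul_of_nonneg_right e3 (abs_nonneg _))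
  have e6 := (h n (m + 1)).trans (mul_le_mul_of_nonneg_right e4 (abs_nonneg _))
  rw [e2]
  have e7 := mul_le_mul_of_nonneg_left e5 (by linarith : 0 ≤ 1 - s)
  have e8 := mul_le_mul_of_nonneg_left e6 h0
  linarith

lemma low_move (a b : ℕ → ℝ) (ha : StrictMono a) (A : ℝ) (hA : 0 ≤ A)
    (h : ∀ n m, |b n - b m| ≤ Real.exp (eta A n m) * |a n - a m|) (s : ℝ) (h0 : 0 ≤ s) (n : ℕ) :
    |b n - (b 0 - s)| ≤ Real.exp (theta A n 0) * |a n - (a 0 - s)| := by
  have e1 : |b n - (b 0 - s)| ≤ |b n - b 0| + s := by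
    have : b n - (b 0 - s) = (b n - b 0) + s := by ring
    rw [this]
    refine (abs_add_le _ _).trans ?_
    rw [abs_of_nonneg h0]
  have hn : a 0 ≤ a n := ha.monotone (Nat.zero_le n)
  have e2 : |a n - (a 0 - s)| = |a n - a 0| + s := by
    rw [abs_of_nonneg (by linarith), abs_of_nonneg (by linarith)]
    ring
  have e3 : 1 ≤ Real.exp (eta A n 0) := Real.one_le_exp (eta_nonneg hA n 0)
  have e4 := h n 0
  rw [e2]
  simp only [theta]
  nlinarith

lemma root_move (a b : ℕ → ℝ) (ha : StrictMono a) (hb : StrictMono b) (A : ℝ) (hA : 0 ≤ A)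
    (h : ∀ n m, |b n - b m| ≤ Real.exp (eta A n m) * |a n - a m|)
    (h' : ∀ n m, |a n - a m| ≤ Real.exp (eta A n m) * |b n - b m|) (m : ℕ) (x : ℝ) :
    ∃ y : ℝ, InI a m x → ∀ n, |b n - y| ≤ Real.exp (theta A n m) * |a n - x| ∧
      |a n - x| ≤ Real.exp (theta A n m) * |b n - y| := by
  rcases m with _ | m
  · refine ⟨b 0 - (a 0 - x), fun hx n => ?_⟩
    have hx' : x ≤ a 0 := hx
    have e1 := low_move a b ha A hA h (a 0 - x) (by linarith) n
    have e2 := low_move b a hb A hA h' (a 0 - x) (by linarith) n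
    rw [sub_sub_cancel] at e1 e2
    exact ⟨e1, e2⟩
  · have hm : 0 < a (m + 1) - a m := sub_pos.mpr (ha (Nat.lt_succ_self m))
    set s := (x - a m) / (a (m + 1) - a m) with hs
    refine ⟨(1 - s) * b m + s * b (m + 1), fun hx n => ?_⟩
    obtain ⟨hx1, hx2⟩ := hx
    have h0 : 0 ≤ s := div_nonneg (by linarith) hm.le
    have h1 : s ≤ 1 := (div_le_one hm).mpr (by linarith)
    have hxe : (1 - s) * a m + s * a (m + 1) = x := by
      have : s * (a (m + 1) - a m) = x - a m := div_mul_cancel₀ _ hm.ne'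
      linarith
    have e1 := mix_move a b ha A hA h m s h0 h1 n
    have e2 := mix_move b a hb A hA h' m s h0 h1 n
    rw [hxe] at e1 e2
    exact ⟨e1, e2⟩

lemma prod_move (Z : Finset ℕ) (f g t : ℕ → ℝ) (S : ℝ) (hS : ∑ m ∈ Z, t m ≤ S)
    (h : ∀ m ∈ Z, |f m| ≤ Real.exp (t m) * |g m|) :
    |∏ m ∈ Z, f m| ≤ Real.exp S * |∏ m ∈ Z, g m| := by
  rw [Finset.abs_prod, Finset.abs_prod]
  refine (Finset.prod_le_prod (fun m _ => abs_nonneg _) h).trans ?_
  rw [Finset.prod_mul_distrib, ← Real.exp_sum]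
  exact mul_le_mul_of_nonneg_right (Real.exp_le_exp.mpr hS)
    (Finset.prod_nonneg fun m _ => abs_nonneg _)

lemma nfv_move (a b : ℕ → ℝ) (A S : ℝ) (hA : 0 ≤ A)
    (hS : ∀ (n : ℕ) (Z : Finset ℕ), ∑ m ∈ Z, eta A n m ≤ S)
    (h : ∀ n m, |b n - b m| ≤ Real.exp (eta A n m) * |a n - a m|) (Z₁ Z₂ : Finset ℕ)
    (z y : ℕ → ℝ) (n : ℕ)
    (hz : ∀ m ∈ Z₂, |b n - y m| ≤ Real.exp (theta A n m) * |a n - z m|) :
    |nfv b Z₁ Z₂ y (b n)| ≤ Real.exp (4 * S) * |nfv a Z₁ Z₂ z (a n)| := by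
  have e1 := prod_move Z₁ (fun i => b n - b i) (fun i => a n - a i) (eta A n) S (hS n Z₁)
    fun i _ => h n i
  have e2 := prod_move Z₂ (fun m => b n - y m) (fun m => a n - z m) (theta A n) (3 * S)
    (theta_bound hA hS n Z₂) hz
  have e3 : Real.exp (4 * S) = Real.exp S * Real.exp (3 * S) := by
    rw [← Real.exp_add]
    ring_nf
  simp only [nfv, abs_mul]
  refine (mul_le_mul e1 e2 (abs_nonneg _) (by positivity)).trans (le_of_eq ?_)
  rw [e3]
  ring

/-- node transfer: pointwise domination, works for every weighted norm -/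
theorem dominate (a b : ℕ → ℝ) (ha : StrictMono a) (hb : StrictMono b) (C c : ℝ) (hc : 0 < c)
    (hab : ∀ n, |a n - b n| ≤ C)
    (sa : ∀ m n : ℕ, c * ((m : ℝ) - n) ^ 2 ≤ |a m - a n|)
    (sb : ∀ m n : ℕ, c * ((m : ℝ) - n) ^ 2 ≤ |b m - b n|) :
    ∃ L : ℝ, 0 < L ∧ ∀ (n₀ : ℕ) (p : Polynomial ℝ), p.eval (a n₀) = 1 →
      ∃ p' : Polynomial ℝ, p'.eval (b n₀) = 1 ∧ ∀ n, |p'.eval (b n)| ≤ L * |p.eval (a n)| := by
  have hC : 0 ≤ C := (abs_nonneg _).trans (hab 0)
  have hA : 0 ≤ 2 * C / c := by positivity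
  obtain ⟨S, hS⟩ := exists_eta_bound _ hA
  have h := node_move a b C c hc hab sa
  have h' := node_move b a C c hc (fun n => by rw [abs_sub_comm]; exact hab n) sb
  have ht : Tendsto a atTop atTop := by
    have h1 : Tendsto (fun n : ℕ => c * (n : ℝ) + a 0) atTop atTop :=
      tendsto_atTop_add_const_right _ _ (tendsto_natCast_atTop_atTop.const_mul_atTop hc)
    refine tendsto_atTop_mono (fun n => ?_) h1
    have e1 := sa n 0
    rw [abs_of_nonneg (sub_nonneg.mpr (ha.monotone (Nat.zero_le n)))] at e1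
    have e2 : (n : ℝ) ≤ (n : ℝ) ^ 2 := by exact_mod_cast Nat.le_self_pow (by norm_num) n
    simp only [Nat.cast_zero, sub_zero] at e1
    nlinarith
  refine ⟨Real.exp (4 * S) * Real.exp (4 * S), by positivity, fun n₀ p hp => ?_⟩
  obtain ⟨K, Z₁, Z₂, z, -, hZ₂, he, hle⟩ := reduce a ha ht n₀ _ p Set.univ rfl (Set.mem_univ _)
  choose y hy using fun m => root_move a b ha hb _ hA h h' m (z m)
  have f1 : ∀ n, |nfv b Z₁ Z₂ y (b n)| ≤ Real.exp (4 * S) * |nfv a Z₁ Z₂ z (a n)| := fun n =>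
    nfv_move a b _ S hA hS h Z₁ Z₂ z y n fun m hm => (hy m (hZ₂ m hm) n).1
  have f2 : |nfv a Z₁ Z₂ z (a n₀)| ≤ Real.exp (4 * S) * |nfv b Z₁ Z₂ y (b n₀)| :=
    nfv_move b a _ S hA hS h' Z₁ Z₂ y z n₀ fun m hm => (hy m (hZ₂ m hm) n₀).2
  rw [hp] at he
  have he' : |K| * |nfv a Z₁ Z₂ z (a n₀)| = 1 := by rw [← abs_mul, he, abs_one]
  have f3 : 1 ≤ Real.exp (4 * S) * |K| * |nfv b Z₁ Z₂ y (b n₀)| := by
    have := mul_le_mul_of_nonneg_left f2 (abs_nonneg K)
    linarith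
  have hB : nfv b Z₁ Z₂ y (b n₀) ≠ 0 := by
    intro h0
    rw [h0] at f3
    norm_num at f3
  have hBpos : 0 < |nfv b Z₁ Z₂ y (b n₀)| := abs_pos.mpr hB
  have hev : ∀ x, (Polynomial.C (nfv b Z₁ Z₂ y (b n₀))⁻¹ *
      ((∏ i ∈ Z₁, (X - Polynomial.C (b i))) * ∏ m ∈ Z₂, (X - Polynomial.C (y m)))).eval x =
      (nfv b Z₁ Z₂ y (b n₀))⁻¹ * nfv b Z₁ Z₂ y x := fun x => by
    simp only [eval_mul, eval_C, eval_prod, eval_sub, eval_X]
    rfl
  refine ⟨_, by rw [hev]; exact inv_mul_cancel₀ hB, fun n => ?_⟩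
  rw [hev, abs_mul, abs_inv]
  have f4 : |nfv b Z₁ Z₂ y (b n₀)|⁻¹ ≤ Real.exp (4 * S) * |K| := by
    rw [inv_eq_one_div, div_le_iff₀ hBpos]
    exact f3
  have f5 := hle n (Set.mem_univ _)
  rw [abs_mul] at f5
  refine (mul_le_mul f4 (f1 n) (abs_nonneg _) (by positivity)).trans ?_
  have f6 := mul_le_mul_of_nonneg_left f5
    (by positivity : 0 ≤ Real.exp (4 * S) * Real.exp (4 * S))
  linarith

/-- separation for strictly increasing sequences within bounded distance of `(n π)^2` -/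
theorem exists_sep (a : ℕ → ℝ) (ha : StrictMono a) (C : ℝ)
    (h : ∀ n : ℕ, |a n - ((n : ℝ) * π) ^ 2| ≤ C) :
    ∃ c : ℝ, 0 < c ∧ ∀ m n : ℕ, c * ((m : ℝ) - n) ^ 2 ≤ |a m - a n| := by
  obtain ⟨N, hN⟩ := exists_nat_ge (2 * C)
  have hev : ∀ᶠ c in 𝓝[>] (0 : ℝ), ∀ q ∈ range N ×ˢ range N,
      c * ((q.1 : ℝ) - q.2) ^ 2 ≤ |a q.1 - a q.2| := by
    rw [Finset.eventually_all]
    rintro ⟨m, n⟩ -
    by_cases hmn : m = n
    · simp [hmn]
    have hpos : 0 < |a m - a n| := abs_pos.mpr (sub_ne_zero.mpr fun e => hmn (ha.injective e))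
    have hc : Tendsto (fun c : ℝ => c * ((m : ℝ) - n) ^ 2) (𝓝 0) (𝓝 (0 * ((m : ℝ) - n) ^ 2)) :=
      tendsto_id.mul_const _
    rw [zero_mul] at hc
    exact ((hc.eventually (gt_mem_nhds hpos)).mono fun c hc => hc.le).filter_mono nhdsWithin_le_nhds
  have hev2 : ∀ᶠ c in 𝓝[>] (0 : ℝ), c < 1 :=
    (gt_mem_nhds one_pos : ∀ᶠ c in 𝓝 (0 : ℝ), c < 1).filter_mono nhdsWithin_le_nhds
  obtain ⟨c, ⟨hc1, hc2⟩, hc0⟩ := ((hev.and hev2).and self_mem_nhdsWithin).exists
  have hc0' : 0 < c := hc0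
  have key : ∀ m n : ℕ, n < m → c * ((m : ℝ) - n) ^ 2 ≤ |a m - a n| := fun m n hnm => by
    by_cases hm : m < N
    · exact hc1 (m, n) (Finset.mem_product.mpr ⟨mem_range.mpr hm, mem_range.mpr (by omega)⟩)
    have e1 : (N : ℝ) ≤ m := by exact_mod_cast not_lt.mp hm
    have e2 : (n : ℝ) + 1 ≤ m := by exact_mod_cast hnm
    have e3 : (0 : ℝ) ≤ n := Nat.cast_nonneg n
    have e4 := abs_le.mp (h m)
    have e5 := abs_le.mp (h n)
    have e6 : 2 ≤ π ^ 2 := by nlinarith [Real.pi_gt_three]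
    have e7 : (m : ℝ) ≤ (m : ℝ) ^ 2 - (n : ℝ) ^ 2 := by nlinarith
    have e8 : ((m : ℝ) - n) ^ 2 ≤ (m : ℝ) ^ 2 - (n : ℝ) ^ 2 := by nlinarith
    have e9 : 2 * ((m : ℝ) ^ 2 - (n : ℝ) ^ 2) ≤ π ^ 2 * ((m : ℝ) ^ 2 - (n : ℝ) ^ 2) :=
      mul_le_mul_of_nonneg_right e6 (by linarith)
    have e10 : c * ((m : ℝ) - n) ^ 2 ≤ ((m : ℝ) - n) ^ 2 := by
      nlinarith [sq_nonneg ((m : ℝ) - n)]
    refine le_trans ?_ (le_abs_self _)
    nlinarith
  refine ⟨c, hc0', fun m n => ?_⟩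
  rcases lt_trichotomy n m with hmn | hmn | hmn
  · exact key m n hmn
  · simp [hmn]
  · have := key n m hmn
    rw [abs_sub_comm]
    nlinarith

theorem dens_transfer (a b w v : ℕ → ℝ) (ha : StrictMono a) (hb : StrictMono b) (C : ℝ)
    (h1 : ∀ n : ℕ, |a n - ((n : ℝ) * π) ^ 2| ≤ C) (h2 : ∀ n : ℕ, |b n - ((n : ℝ) * π) ^ 2| ≤ C)
    (D : ℝ) (hv : ∀ n, |v n| ≤ D * |w n|) (h : Dens a w) : Dens b v := by
  obtain ⟨ca, hca, sa⟩ := exists_sep a ha C h1
  obtain ⟨cb, hcb, sb⟩ := exists_sep b hb C h2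
  obtain ⟨L, hL, hdom⟩ := dominate a b ha hb (2 * C) (min ca cb) (lt_min hca hcb)
    (fun n => by
      have e1 := abs_le.mp (h1 n)
      have e2 := abs_le.mp (h2 n)
      rw [abs_le]
      constructor <;> linarith)
    (fun m n => (mul_le_mul_of_nonneg_right (min_le_left _ _) (sq_nonneg _)).trans (sa m n))
    (fun m n => (mul_le_mul_of_nonneg_right (min_le_right _ _) (sq_nonneg _)).trans (sb m n))
  intro n₀ hv0 ε hε
  have hw0 : w n₀ ≠ 0 := by
    intro h0
    have := hv n₀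
    rw [h0] at this
    exact hv0 (by simpa using this)
  have hM : 0 < (D * L) ^ 2 + 1 := by positivity
  obtain ⟨p, hp, hsum⟩ := h n₀ hw0 (ε / ((D * L) ^ 2 + 1)) (by positivity)
  obtain ⟨p', hp', hle⟩ := hdom n₀ p hp
  refine ⟨p', hp', fun T hT => ?_⟩
  have e1 : ∀ n ∈ T, (v n * p'.eval (b n)) ^ 2 ≤
      ((D * L) ^ 2 + 1) * (w n * p.eval (a n)) ^ 2 := fun n _ => by
    have e2 : |v n * p'.eval (b n)| ≤ D * |w n| * (L * |p.eval (a n)|) := by
      rw [abs_mul]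
      exact mul_le_mul (hv n) (hle n) (abs_nonneg _) ((abs_nonneg _).trans (hv n))
    have e3 := pow_le_pow_left₀ (abs_nonneg _) e2 2
    have e4 : (D * |w n| * (L * |p.eval (a n)|)) ^ 2 = (D * L) ^ 2 * (w n * p.eval (a n)) ^ 2 := by
      rw [mul_pow (w n), ← sq_abs (w n), ← sq_abs (p.eval (a n))]
      ring
    rw [sq_abs, e4] at e3
    nlinarith [sq_nonneg (w n * p.eval (a n))]
  refine (Finset.sum_le_sum e1).trans ?_
  rw [← Finset.mul_sum]
  have e5 := mul_le_mul_of_nonneg_left (hsum T hT) hM.le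
  rwa [mul_div_cancel₀ _ hM.ne'] at e5

end Pool.Agent.P.MP_aabf10_an
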