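import Pool.Agent.P.MP_aabf10_an.Bessel
import Pool.Agent.P.MP_aabf10_an.Quasi
import Pool.Agent.P.MP_aabf10_an.Transfer

/-!
# The spanning criterion
-/

open scoped ContDiff Topology Real
open Filter Finset Set MeasureTheory

namespace Pool.Agent.P.MP_aabf10_an

variable {q : ℝ → ℝ}

/-- `y n` is the coordinate of `V` along the `n`-th gap. -/
def Co (q : ℝ → ℝ) (mu : ℕ → ℝ) (V : ℝ → ℝ) (y : ℕ → ℝ) : Prop :=
  ∀ j, J2 q (mu (j + 1)) V = -(2 * dr q (mu (j + 1)) * Nr q (mu (j + 1))) * y (j + 1) ∧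
    J1 q (mu (j + 1)) V = -(dr q (mu (j + 1)) * cr q (mu (j + 1))) * y (j + 1)

theorem IsDir.br_succ {Q : ℝ} {mu : ℕ → ℝ} (h : IsDir q Q mu) (j : ℕ) : br q (mu (j + 1)) = 0 :=
  (h.zero_iff _).2 ⟨j + 1, by omega, rfl⟩

theorem Co.sub (hq : Continuous q) {mu : ℕ → ℝ} {V W : ℝ → ℝ} {y z : ℕ → ℝ} (hV : Continuous V)
    (hW : Continuous W) (h : Co q mu V y) (g : Co q mu W z) :
    Co q mu (fun x => V x - W x) fun n => y n - z n := by
  intro j
  have e : (fun x => V x - W x) = fun x => 1 * V x + -1 * W x := by funext x; ring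
  rw [e, J2_add hq _ hV hW, J1_add hq _ hV hW, (h j).1, (h j).2, (g j).1, (g j).2]
  constructor <;> ring

theorem co_XP (hq : Cinf q) {Q : ℝ} {mu : ℕ → ℝ} (h : IsDir q Q mu) (n : ℕ) (c : ℕ → ℝ) :
    Co q mu (XP q n c) fun j => (PPs q n c).eval (mu j) := fun j => J_XP hq (h.br_succ j) n c

theorem IsTan.exists_co {Q : ℝ} {mu : ℕ → ℝ} (h : IsDir q Q mu) {v : ℝ → ℝ} (hv : IsTan q v) :
    ∃ y, Co q mu v y := by
  choose y hy using fun j => hv.coef _ (h.br_succ j)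
  exact ⟨fun n => y (n - 1), fun j => by simpa using hy j⟩

theorem co_bx1r (hq : Cinf q) {Q : ℝ} {mu : ℕ → ℝ} (h : IsDir q Q mu) (j₀ : ℕ) :
    Co q mu (bx1r q (mu (j₀ + 1))) fun n =>
      if n = j₀ + 1 then J2 q (mu (j₀ + 1)) 1 / (2 * dr q (mu (j₀ + 1))) else 0 := by
  intro j
  by_cases e : j = j₀
  · subst e
    have hd : dr q (mu (j + 1)) ≠ 0 := fun e => by
      simpa [e] using h.sign_d (j + 1) (by omega)
    obtain ⟨h1, h2⟩ := J_bx1r_self hq (h.br_succ j)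
    simp only [if_true, h1, h2]
    constructor <;> field_simp
  · obtain ⟨h1, h2⟩ := J_bx1r hq (h.br_succ j) (mu (j₀ + 1))
    have hne : 2 * (mu (j₀ + 1) - mu (j + 1)) ≠ 0 :=
      mul_ne_zero two_ne_zero (sub_ne_zero.2 fun e' => e (by have := h.mono.injective e'; omega))
    rw [h.br_succ, mul_zero] at h1 h2
    simp [e, (mul_eq_zero.1 h1).resolve_left hne, (mul_eq_zero.1 h2).resolve_left hne]

theorem sum_le_of_shift {f : ℕ → ℝ} (h0 : f 0 = 0) (hf : ∀ n, 0 ≤ f n) {B : ℝ}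
    (h : ∀ N, ∑ j ∈ range N, f (j + 1) ≤ B) (T : Finset ℕ) : ∑ n ∈ T, f n ≤ B := by
  have h1 : T ⊆ range (T.sup id + 1) := fun n hn =>
    Finset.mem_range.2 (Nat.lt_succ_of_le (le_sup (f := id) hn))
  refine (sum_le_sum_of_subset_of_nonneg h1 fun n _ _ => hf n).trans ?_
  rw [sum_range_succ', h0, add_zero]
  exact h _

theorem IsDir.dr_lower (hq : Continuous q) {Q : ℝ} (hQ1 : 1 ≤ Q) (hQ : ∀ x, |q x| ≤ Q)
    {mu : ℕ → ℝ} (h : IsDir q Q mu) : ∃ D, 0 < D ∧ ∀ j, 1 ≤ D * |dr q (mu (j + 1))| := by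
  refine exists_const (f := fun _ => 1) (fun j => abs_nonneg _) (fun j e => ?_) (C := 2) ?_
  · have := h.sign_d (j + 1) (by omega)
    simp [abs_eq_zero.1 e] at this
  filter_upwards [ev_large (200 * Q)] with j hj
  obtain ⟨k, -, -, -, -, -, d1, -⟩ := h.large_facts' hq hQ1 hQ (j := j + 1)
    (by push_cast; linarith)
  linarith

theorem riesz_low (hq : Continuous q) {Q : ℝ} (hQ1 : 1 ≤ Q) (hQ : ∀ x, |q x| ≤ Q)
    {mu al be : ℕ → ℝ} (h : IsDir q Q mu) (g : IsGap q mu al be) : ∃ K, 0 < K ∧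
    ∀ (V : ℝ → ℝ) (y : ℕ → ℝ), Continuous V → ∫ x in (0 : ℝ)..1, V x = 0 → Co q mu V y →
      ∀ T : Finset ℕ, ∑ n ∈ T, (n * ell al be n * y n) ^ 2 ≤ K * ∫ x in (0 : ℝ)..1, V x ^ 2 := by
  obtain ⟨C, hC, H⟩ := dual_bessel hq hQ1 hQ h
  obtain ⟨D, hD, H1⟩ := h.dr_lower hq hQ1 hQ
  obtain ⟨E, hE, H2⟩ := om_ell hq hQ1 hQ h g
  refine ⟨2 * D ^ 2 * E ^ 2 * C, by positivity, fun V y hV h0 hy => ?_⟩
  refine sum_le_of_shift (by simp) (fun n => sq_nonneg _) fun N => ?_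
  rw [mul_assoc _ C]
  refine le_trans ?_ (mul_le_mul_of_nonneg_left (H V hV h0 (range N)) (by positivity))
  rw [mul_sum]
  refine sum_le_sum fun j _ => ?_
  rw [(hy j).1, (hy j).2]
  set n : ℝ := ((j + 1 : ℕ) : ℝ)
  set d := dr q (mu (j + 1))
  set M := Nr q (mu (j + 1))
  set c := cr q (mu (j + 1))
  have a1 : ell al be (j + 1) ^ 2 ≤ (E * (n * |M| + |c|)) ^ 2 :=
    pow_le_pow_left₀ (g.ell_nonneg _) (H2 j).2 2
  have a2 : (n * |M| + |c|) ^ 2 ≤ 2 * (4 * n ^ 2 * M ^ 2 + c ^ 2) := by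
    rw [← sq_abs M, ← sq_abs c]
    nlinarith [sq_nonneg (n * |M| - |c|), sq_nonneg (n * |M|)]
  have a3 : 1 ≤ D ^ 2 * d ^ 2 := by
    rw [← sq_abs d, ← mul_pow]
    exact one_le_pow₀ (H1 j)
  have a4 : ell al be (j + 1) ^ 2 ≤ D ^ 2 * d ^ 2 * (E ^ 2 * (2 * (4 * n ^ 2 * M ^ 2 + c ^ 2))) := by
    rw [mul_pow] at a1
    refine (a1.trans (mul_le_mul_of_nonneg_left a2 (sq_nonneg E))).trans ?_
    exact le_mul_of_one_le_left (by positivity) a3
  have := mul_le_mul_of_nonneg_left a4 (sq_nonneg (n * y (j + 1)))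
  nlinarith

theorem exists_tail {f : ℕ → ℝ → ℝ} {F : ℝ → ℝ} {S : Set ℝ} {u : ℕ → ℝ}
    (h : ∀ x ∈ S, HasSum (fun j => f j x) (F x)) (hu : Summable u)
    (hb : ∀ j, ∀ x ∈ S, |f j x| ≤ u j) {ε : ℝ} (hε : 0 < ε) :
    ∃ N, ∀ x ∈ S, |F x - ∑ j ∈ range N, f j x| ≤ ε := by
  have := (Metric.tendstoUniformlyOn_iff.1 (tendstoUniformlyOn_tsum_nat hu
    (f := f) (s := S) fun j x hx => hb j x hx) ε hε).exists
  obtain ⟨N, hN⟩ := this
  refine ⟨N, fun x hx => ?_⟩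
  have := hN x hx
  rw [(h x hx).tsum_eq, Real.dist_eq] at this
  exact this.le

theorem int_sq_le {V W : ℝ → ℝ} (hV : Continuous V) (hW : Continuous W) {η : ℝ}
    (h : ∀ x ∈ Icc (0 : ℝ) 1, |V x - W x| ≤ η) :
    ∫ x in (0 : ℝ)..1, V x ^ 2 ≤ 2 * (∫ x in (0 : ℝ)..1, W x ^ 2) + 2 * η ^ 2 := by
  have b := intervalIntegral.integral_mono_on (μ := volume) (a := 0) (b := 1)
    (f := fun x => V x ^ 2) (g := fun x => 2 * W x ^ 2 + 2 * η ^ 2) zero_le_one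
    (Continuous.intervalIntegrable (by fun_prop) _ _)
    (Continuous.intervalIntegrable (by fun_prop) _ _)
    (fun x hx => by
      have := sq_le_sq' (abs_le.1 (h x hx)).1 (abs_le.1 (h x hx)).2
      nlinarith [sq_nonneg (V x - 2 * W x)])
  rw [intervalIntegral.integral_add (Continuous.intervalIntegrable (by fun_prop) _ _)
    (Continuous.intervalIntegrable (by fun_prop) _ _), intervalIntegral.integral_const_mul] at b
  simpa using b

theorem riesz_up (hq : Cinf q) {Q : ℝ} (hQ1 : 1 ≤ Q) (hQ : ∀ x, |q x| ≤ Q)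
    {mu al be : ℕ → ℝ} (h : IsDir q Q mu) (g : IsGap q mu al be) : ∃ K, 0 < K ∧
    ∀ (V : ℝ → ℝ) (y : ℕ → ℝ), Cinf V → ∫ x in (0 : ℝ)..1, V x = 0 → Co q mu V y → ∀ B : ℝ,
      (∀ T : Finset ℕ, ∑ n ∈ T, (n * ell al be n * y n) ^ 2 ≤ B) →
      ∫ x in (0 : ℝ)..1, V x ^ 2 ≤ K * B := by
  obtain ⟨C, hC, H⟩ := tv_near hq.cont hQ1 hQ h
  obtain ⟨E, hE, H2⟩ := om_ell hq.cont hQ1 hQ h g
  refine ⟨64 * C ^ 2 * E ^ 2, by positivity, fun V y hV h0 hy B hB => ?_⟩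
  obtain ⟨s1, u, hu, s2⟩ := expansion hq hQ1 hQ h hV h0
  have e : ∀ j x, TT q (mu (j + 1)) V x = 2 * y (j + 1) * tv q (mu (j + 1)) x :=
    fun j x => TT_eq (h.br_succ j) (hy j).1 (hy j).2 x
  refine le_of_forall_pos_le_add fun ε hε => ?_
  obtain ⟨N, hN⟩ := exists_tail s1 hu s2 (ε := √(ε / 2)) (by positivity)
  simp only [e] at hN
  have c := fun j => tv_cont hq.cont (mu (j + 1))
  have a1 := int_sq_le hV.cont (by fun_prop) hN
  rw [Real.sq_sqrt (by positivity)] at a1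
  have a2 := synth c H (range N) fun j => 2 * y (j + 1)
  have a3 := hB ((range N).map ⟨fun j => j + 1, fun a b e => by simpa using e⟩)
  rw [sum_map] at a3
  simp only [Function.Embedding.coeFn_mk] at a3
  have a4 : ∑ j ∈ range N, (2 * y (j + 1) * (((j + 1 : ℕ) : ℝ) * om q mu (j + 1))) ^ 2 ≤
      4 * E ^ 2 * B := by
    refine le_trans ?_ (mul_le_mul_of_nonneg_left a3 (by positivity))
    rw [mul_sum]
    refine sum_le_sum fun j _ => ?_
    have := mul_le_mul_of_nonneg_left (pow_le_pow_left₀ (om_nonneg _ _ _) (H2 j).1 2)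
      (sq_nonneg (2 * y (j + 1) * ((j + 1 : ℕ) : ℝ)))
    nlinarith
  have := mul_le_mul_of_nonneg_left a4 (by positivity : 0 ≤ 8 * C ^ 2)
  nlinarith

theorem dens_of_approx {a w : ℕ → ℝ} (h : ∀ n₀, w n₀ ≠ 0 → ∃ y₀ : ℝ, y₀ ≠ 0 ∧ ∀ ε > 0,
    ∃ p : Polynomial ℝ, ∀ T : Finset ℕ,
      ∑ n ∈ T, (w n * ((if n = n₀ then y₀ else 0) - p.eval (a n))) ^ 2 ≤ ε) : Dens a w := by
  intro n₀ hw ε hε
  obtain ⟨y₀, hy, H⟩ := h n₀ hw
  obtain ⟨p, hp⟩ := H (min ((w n₀ * y₀) ^ 2 / 4) (ε * y₀ ^ 2 / 4)) (by positivity)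
  have a1 := (hp {n₀}).trans (min_le_left _ _)
  simp only [sum_singleton, if_true] at a1
  set s := p.eval (a n₀)
  have a2 : y₀ ^ 2 / 4 ≤ s ^ 2 := by
    have : (y₀ - s) ^ 2 ≤ y₀ ^ 2 / 4 := by
      refine le_of_mul_le_mul_left ?_ (by positivity : 0 < w n₀ ^ 2)
      nlinarith
    nlinarith [sq_nonneg (y₀ - 2 * s)]
  have s2 : 0 < s ^ 2 := lt_of_lt_of_le (by positivity) a2
  have hs : s ≠ 0 := fun e => by simp [e] at s2
  refine ⟨Polynomial.C s⁻¹ * p, by simp [s, inv_mul_cancel₀ hs], fun T hT => ?_⟩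
  have a3 := (hp T).trans (min_le_right _ _)
  refine le_of_mul_le_mul_left ?_ s2
  rw [mul_sum]
  refine le_trans (le_of_eq (sum_congr rfl fun n hn => ?_)) (a3.trans (by nlinarith))
  rw [if_neg fun e : n = n₀ => hT (e ▸ hn)]
  simp only [Polynomial.eval_mul, Polynomial.eval_C]
  field_simp
  ring

theorem exists_near_gap (hq : Cinf q) {Q : ℝ} {mu al be : ℕ → ℝ} (h : IsDir q Q mu)
    (g : IsGap q mu al be) {j : ℕ} (hj : ell al be (j + 1) ≠ 0) {P : ℝ → Prop}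
    (hP : ∀ᶠ ν in 𝓝 (mu (j + 1)), P ν) : ∃ ν, P ν ∧ 1 < Dr q ν ^ 2 ∧ br q ν ≠ 0 := by
  have h1 := g.al_le (j + 1) (by omega)
  have h2 := g.le_be (j + 1)
  rw [ell_succ] at hj
  rcases h2.lt_or_eq with h3 | h3
  · obtain ⟨ν, a, b⟩ := ((hP.filter_mono nhdsWithin_le_nhds).and (Ioo_mem_nhdsGT h3)).exists
    refine ⟨ν, a, g.gap (j + 1) (by omega) ν ⟨h1.trans_lt b.1, b.2⟩, fun e => ?_⟩
    have := h.sign_b (j + 1) ν ⟨b.1, b.2.trans ((g.be_lt _).trans_le (g.al_le _ (by omega)))⟩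
    simp [e] at this
  · have h4 : al (j + 1) < mu (j + 1) := h1.lt_of_ne fun e => hj (by rw [← h3, e, sub_self])
    obtain ⟨ν, a, b⟩ := ((hP.filter_mono nhdsWithin_le_nhds).and (Ioo_mem_nhdsLT h4)).exists
    refine ⟨ν, a, g.gap (j + 1) (by omega) ν ⟨b.1, b.2.trans_le h2⟩, fun e => ?_⟩
    have := h.sign_b j ν ⟨((g.le_be _).trans_lt (g.be_lt _)).trans b.1, b.2⟩
    simp [e] at this

theorem ell_decay' (hq : Cinf q) {Q : ℝ} (hQ1 : 1 ≤ Q) (hQ : ∀ x, |q x| ≤ Q) {mu al be : ℕ → ℝ}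
    (h : IsDir q Q mu) (g : IsGap q mu al be) (K : ℕ) :
    Summable fun j : ℕ => (j : ℝ) ^ K * (j * ell al be j) :=
  (ell_decay hq hQ1 hQ h g (K + 1)).congr fun j => by ring

theorem spansAt_iff (hq : Cinf q) {Q : ℝ} (hQ1 : 1 ≤ Q) (hQ : ∀ x, |q x| ≤ Q)
    {mu al be : ℕ → ℝ} (h : IsDir q Q mu) (g : IsGap q mu al be) :
    SpansAt (Iso q) q ↔ Dens mu fun n => n * ell al be n := by
  obtain ⟨K, hK, low⟩ := riesz_low hq.cont hQ1 hQ h g
  have hsub : ∀ (V : ℝ → ℝ) n c, Continuous V → ∫ x in (0 : ℝ)..1, V x = 0 →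
      ∫ x in (0 : ℝ)..1, (V x - XP q n c x) = 0 := fun V n c hV h0 => by
    rw [intervalIntegral.integral_sub (hV.intervalIntegrable _ _)
      ((XP_cinf hq n c).cont.intervalIntegrable _ _), h0, int_XP hq, sub_zero]
  constructor
  · intro H
    refine dens_of_approx fun n₀ hw => ?_
    obtain ⟨j, rfl⟩ : ∃ j, n₀ = j + 1 := Nat.exists_eq_succ_of_ne_zero fun e => hw (by simp [e])
    have hd : dr q (mu (j + 1)) ≠ 0 := fun e => by
      simpa [e] using h.sign_d (j + 1) (by omega)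
    refine ⟨J2 q (mu (j + 1)) 1 / (2 * dr q (mu (j + 1))),
      div_ne_zero (J2_pos hq.cont _).ne' (mul_ne_zero two_ne_zero hd), fun ε hε => ?_⟩
    have u := Metric.tendstoUniformly_iff.1 (unif_of_jc (bx1r_cont hq.cont)
      (fun t => bx1r_periodic hq.cont hq.2 t) (mu (j + 1))) √(ε / (4 * K)) (by positivity)
    obtain ⟨ν, a1, a2, a3⟩ := exists_near_gap hq h g (right_ne_zero_of_mul hw) u
    obtain ⟨c, hc, ht⟩ := tangent_bx1 hq a2 a3
    obtain ⟨n, e, he⟩ := H _ ht (c ^ 2 * (ε / (4 * K))) (by positivity)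
    refine ⟨PPs q n fun m => e m / c, fun T => ?_⟩
    have cb := fun t => (bx1r_cinf hq t).cont
    have cX := (XP_cinf hq n fun m => e m / c).cont
    refine (low _ _ ((cb _).sub cX) (hsub _ _ _ (cb _) (int_bx1r hq _))
      ((co_bx1r hq h j).sub hq.cont (cb _) cX (co_XP hq h n _)) T).trans ?_
    have a4 := int_sq_le ((cb (mu (j + 1))).sub cX) ((cb ν).sub cX) (η := √(ε / (4 * K)))
      fun x _ => by
        have := (a1 x).le
        rw [Real.dist_eq] at this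
        simpa using this
    rw [Real.sq_sqrt (by positivity)] at a4
    have a5 : ∀ x, (c * bx1r q ν x - ∑ m ∈ range n, e m * locX q (m + 1) x) ^ 2 =
        c ^ 2 * (bx1r q ν x - XP q n (fun m => e m / c) x) ^ 2 := by
      intro x
      rw [← mul_pow, mul_sub, XP, mul_sum]
      congr 3
      funext m
      field_simp
    simp only [a5, intervalIntegral.integral_const_mul] at he
    have a6 := lt_of_mul_lt_mul_left he (sq_nonneg c)
    refine (mul_le_mul_of_nonneg_left (a4.trans (add_le_add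
      (mul_le_mul_of_nonneg_left a6.le zero_le_two) le_rfl)) hK.le).trans_eq ?_
    field_simp
    ring
  · intro H v hv ε hε
    obtain ⟨L, hL, up⟩ := riesz_up hq hQ1 hQ h g
    obtain ⟨C, hC⟩ := h.exists_bound (by linarith)
    have ht := hv.isTan hq
    obtain ⟨y, hy⟩ := ht.exists_co h
    have hs : Summable fun n : ℕ => (n * ell al be n * y n) ^ 2 :=
      summable_of_sum_le (fun n => sq_nonneg _) (low v y hv.1.cont ht.mean hy)
    obtain ⟨p, s1, s2⟩ := (spans_iff_dens mu (fun n => n * ell al be n)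
      (fun n => mul_nonneg (by positivity) (g.ell_nonneg n)) C hC
      (ell_decay' hq hQ1 hQ h g)).2 H y hs (ε / L) (by positivity)
    obtain ⟨n, c, rfl⟩ := exists_PPs q p
    refine ⟨n, c, ?_⟩
    have cX := XP_cinf hq n c
    have s3 : Summable fun j : ℕ => (j * ell al be j * (y j - (PPs q n c).eval (mu j))) ^ 2 :=
      summable_of_sum_le (fun n => sq_nonneg _) (low _ _ (hv.1.sub cX).cont
        (hsub _ _ _ hv.1.cont ht.mean) (hy.sub hq.cont hv.1.cont cX.cont (co_XP hq h n c)))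
    have := up _ _ (hv.1.sub cX) (hsub _ _ _ hv.1.cont ht.mean)
      (hy.sub hq.cont hv.1.cont cX.cont (co_XP hq h n c)) _
      fun T => s3.sum_le_tsum T fun n _ => sq_nonneg _
    refine this.trans_lt ?_
    rwa [lt_div_iff₀' hL] at s2

theorem sq_nodes_mono : StrictMono fun n : ℕ => ((n : ℝ) * π) ^ 2 := fun a b hab => by
  have : (a : ℝ) < b := by exact_mod_cast hab
  have hp := Real.pi_pos
  exact pow_lt_pow_left₀ (mul_lt_mul_of_pos_right this hp) (by positivity) two_ne_zero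

theorem dens_iff_model {a : ℕ → ℝ} (ha : StrictMono a) {C : ℝ}
    (h : ∀ n : ℕ, |a n - ((n : ℝ) * π) ^ 2| ≤ C) (w : ℕ → ℝ) :
    Dens a w ↔ Dens (fun n : ℕ => ((n : ℝ) * π) ^ 2) w := by
  have h' : ∀ n : ℕ, |((n : ℝ) * π) ^ 2 - ((n : ℝ) * π) ^ 2| ≤ C := fun n => by
    simpa using (abs_nonneg _).trans (h 0)
  exact ⟨dens_transfer _ _ w w ha sq_nodes_mono C h h' 1 (by simp),
    dens_transfer _ _ w w sq_nodes_mono ha C h' h 1 (by simp)⟩

theorem exists_data (hq : Cinf q) : ∃ Q mu al be, 1 ≤ Q ∧ (∀ x, |q x| ≤ Q) ∧ IsDir q Q mu ∧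
    IsGap q mu al be := by
  obtain ⟨Q, h1, h2⟩ := exists_bound_periodic hq.cont hq.2
  obtain ⟨mu, h⟩ := exists_isDir hq.cont h2
  obtain ⟨al, be, g⟩ := exists_isGap hq.cont h
  exact ⟨Q, mu, al, be, h1, h2, h, g⟩

theorem exists_enum (hq : Cinf q) : ∃ lam, IsEnum q lam := by
  obtain ⟨Q, mu, al, be, h1, h2, h, g⟩ := exists_data hq
  exact ⟨_, isEnum_edges hq.cont hq.2 (by linarith) h g⟩

theorem ell_edges (al be : ℕ → ℝ) :
    (fun n => edges al be (2 * n) - edges al be (2 * n - 1)) = ell al be := by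
  funext n
  rcases n with _ | n
  · simp [ell]
  · rw [ell_succ, edges_even, show 2 * (n + 1) - 1 = 2 * n + 1 by omega, edges_odd]

theorem iso_eq {p : ℝ → ℝ} (hp : p ∈ Iso q) : Iso q = Iso p := by
  ext r
  simp only [Iso, mem_ofPred_eq, (hp.2 _).1, (hp.2 _).2]

theorem IsEnum.of_iso {p : ℝ → ℝ} (hp : p ∈ Iso q) {lam : ℕ → ℝ} (h : IsEnum q lam) :
    IsEnum p lam := ⟨h.1, fun t => by rw [h.2, (hp.2 t).1, (hp.2 t).2]⟩

theorem spansAt_iff_qa (hq : Cinf q) {lam : ℕ → ℝ} (hl : IsEnum q lam) :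
    SpansAt (Iso q) q ↔
      ∀ f, InClass (fun n => lam (2 * n) - lam (2 * n - 1)) f → Flat f → f = 0 := by
  obtain ⟨Q, mu, al, be, h1, h2, h, g⟩ := exists_data hq
  obtain rfl := enum_unique hl (isEnum_edges hq.cont hq.2 (by linarith) h g) fun t => ⟨rfl, rfl⟩
  obtain ⟨C, hC⟩ := h.exists_bound (by linarith)
  rw [ell_edges, spansAt_iff hq h1 h2 h g, dens_iff_model h.mono hC,
    qa_iff_dens _ g.ell_nonneg (ell_decay hq h1 h2 h g)]

theorem spansAt_iff_qa' (hq : Cinf q) {lam : ℕ → ℝ} (hl : IsEnum q lam) {p : ℝ → ℝ}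
    (hp : p ∈ Iso q) : SpansAt (Iso q) p ↔
      ∀ f, InClass (fun n => lam (2 * n) - lam (2 * n - 1)) f → Flat f → f = 0 := by
  rw [iso_eq hp]
  exact spansAt_iff_qa hp.1 (hl.of_iso hp)

end Pool.Agent.P.MP_aabf10_an
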