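import Pool.Agent.P.MP_aabf10_an.PF

/-!
# Vanishing moments of residues and interpolation
-/

open scoped ContDiff Topology Real
open Filter Finset

namespace Pool.Agent.P.MP_aabf10_an

namespace Mom

def Rap (s : ℕ → ℂ) : Prop := ∀ K : ℕ, Summable fun j : ℕ => (j : ℝ) ^ K * ‖s j‖

noncomputable def F (mu : ℕ → ℝ) (s : ℕ → ℂ) (z : ℂ) : ℂ := ∑' j, s j / (z - mu j)

variable {mu : ℕ → ℝ} {C₀ : ℝ} {s : ℕ → ℂ}

theorem Rap.norm (h : Rap s) : Summable fun j => ‖s j‖ := by simpa using h 0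

theorem Rap.mul (hmu : ∀ j : ℕ, |mu j - (((j : ℝ) + 1) * π) ^ 2| ≤ C₀) (h : Rap s) :
    Rap fun j => s j * mu j := by
  intro K
  have hC : 0 ≤ C₀ := (abs_nonneg _).trans (hmu 0)
  refine Summable.of_nonneg_of_le (fun j => by positivity) (fun j => ?_)
    (((h K).add (h (K + 2))).mul_left (C₀ + 32))
  have h1 : |mu j| ≤ (C₀ + 32) * (1 + (j : ℝ) ^ 2) := by
    have a1 := abs_le.1 (hmu j)
    have a2 : π ^ 2 ≤ 16 := by nlinarith [Real.pi_le_four, Real.pi_pos]
    have a3 : (((j : ℝ) + 1) * π) ^ 2 ≤ ((j : ℝ) + 1) ^ 2 * 16 := by rw [mul_pow]; gcongr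
    have a4 : 0 ≤ (((j : ℝ) + 1) * π) ^ 2 := sq_nonneg _
    have a5 : 0 ≤ C₀ * (j : ℝ) ^ 2 := by positivity
    rw [abs_le]
    constructor <;> nlinarith [sq_nonneg ((j : ℝ) - 1), sq_nonneg (j : ℝ)]
  rw [norm_mul, Complex.norm_real, Real.norm_eq_abs]
  calc (j : ℝ) ^ K * (‖s j‖ * |mu j|) ≤ (j : ℝ) ^ K * (‖s j‖ * ((C₀ + 32) * (1 + (j : ℝ) ^ 2))) := by
        gcongr
    _ = _ := by ring

theorem Rap.mul_pow (hmu : ∀ j : ℕ, |mu j - (((j : ℝ) + 1) * π) ^ 2| ≤ C₀) (h : Rap s) (K : ℕ) :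
    Rap fun j => s j * (mu j : ℂ) ^ K := by
  induction K with
  | zero => simpa using h
  | succ K ih => simpa only [pow_succ, mul_assoc] using ih.mul hmu

theorem dist_neg (hmu : ∀ j : ℕ, |mu j - (((j : ℝ) + 1) * π) ^ 2| ≤ C₀) {t : ℝ}
    (ht : t ≤ -(2 * C₀ + 2)) (j : ℕ) : |t| / 2 ≤ ‖(t : ℂ) - mu j‖ ∧ 2 ≤ |t| := by
  have hC : 0 ≤ C₀ := (abs_nonneg _).trans (hmu 0)
  have a1 := (abs_le.1 (hmu j)).1
  have a4 : 0 ≤ (((j : ℝ) + 1) * π) ^ 2 := sq_nonneg _
  rw [← Complex.ofReal_sub, Complex.norm_real, Real.norm_eq_abs, abs_of_neg (by linarith),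
    abs_of_neg (by linarith)]
  constructor <;> linarith

theorem bound (h : Summable fun j => ‖s j‖) {z : ℂ} {δ : ℝ} (hδ : 0 < δ)
    (hz : ∀ j, δ ≤ ‖z - mu j‖) :
    (Summable fun j => s j / (z - mu j)) ∧ ‖F mu s z‖ ≤ (∑' j, ‖s j‖) / δ := by
  have h1 : ∀ j, ‖s j / (z - mu j)‖ ≤ ‖s j‖ / δ := fun j => by
    rw [norm_div]; gcongr; exact hz j
  exact ⟨Summable.of_norm_bounded (h.div_const δ) h1,
    tsum_of_norm_bounded (h.hasSum.div_const δ) h1⟩

theorem tendsto_F (hmu : ∀ j : ℕ, |mu j - (((j : ℝ) + 1) * π) ^ 2| ≤ C₀)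
    (h : Summable fun j => ‖s j‖) : Tendsto (fun t : ℝ => F mu s t) atBot (𝓝 0) := by
  refine squeeze_zero_norm' ?_ (tendsto_const_nhds (x := ∑' j, ‖s j‖).div_atTop
    (tendsto_abs_atBot_atTop.atTop_div_const two_pos))
  filter_upwards [eventually_le_atBot (-(2 * C₀ + 2))] with t ht
  exact (bound h (by linarith [(dist_neg hmu ht 0).2]) fun j => (dist_neg hmu ht j).1).2

theorem step (hmu : ∀ j : ℕ, |mu j - (((j : ℝ) + 1) * π) ^ 2| ≤ C₀) (h : Rap s) {t : ℝ}
    (ht : t ≤ -(2 * C₀ + 2)) :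
    t * F mu s t = ∑' j, s j + F mu (fun j => s j * mu j) t := by
  have h2 := (dist_neg hmu ht 0).2
  have h1 := (bound (h.mul hmu).norm (by linarith) fun j => (dist_neg hmu ht j).1).1
  rw [F, F, ← tsum_mul_left, ← h.norm.of_norm.tsum_add h1]
  refine tsum_congr fun j => ?_
  have : (t : ℂ) - mu j ≠ 0 := norm_pos_iff.1 (by linarith [(dist_neg hmu ht j).1])
  field_simp
  ring

def Dec (f : ℝ → ℂ) : Prop := ∀ N : ℕ, ∃ C : ℝ, ∀ᶠ t : ℝ in atBot, ‖f t‖ * |t| ^ N ≤ C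

theorem Dec.tendsto {f : ℝ → ℂ} (h : Dec f) : Tendsto f atBot (𝓝 0) := by
  obtain ⟨C, hC⟩ := h 1
  refine squeeze_zero_norm' ?_ (tendsto_const_nhds (x := C).div_atTop tendsto_abs_atBot_atTop)
  filter_upwards [hC, eventually_lt_atBot 0] with t h1 h2
  rw [le_div_iff₀ (abs_pos.2 h2.ne)]
  simpa using h1

theorem Dec.mul {f : ℝ → ℂ} (h : Dec f) : Dec fun t => t * f t := by
  intro N
  obtain ⟨C, hC⟩ := h (N + 1)
  refine ⟨C, hC.mono fun t ht => ?_⟩
  rw [norm_mul, Complex.norm_real, Real.norm_eq_abs]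
  convert ht using 1
  ring

theorem Dec.congr {f g : ℝ → ℂ} (h : Dec f) (e : f =ᶠ[atBot] g) : Dec g := by
  intro N
  obtain ⟨C, hC⟩ := h N
  exact ⟨C, (hC.and e).mono fun t ht => ht.2 ▸ ht.1⟩

theorem moments (hmu : ∀ j : ℕ, |mu j - (((j : ℝ) + 1) * π) ^ 2| ≤ C₀) (K : ℕ) :
    ∀ s, Rap s → Dec (fun t => F mu s t) → HasSum (fun j => s j * (mu j : ℂ) ^ K) 0 := by
  have key : ∀ s, Rap s → Dec (fun t => F mu s t) →
      ∑' j, s j = 0 ∧ Dec (fun t => F mu (fun j => s j * mu j) t) := by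
    intro s h hd
    have e : (fun t : ℝ => t * F mu s t) =ᶠ[atBot]
        fun t => ∑' j, s j + F mu (fun j => s j * mu j) t :=
      (eventually_le_atBot _).mono fun t ht => step hmu h ht
    have h0 : ∑' j, s j = 0 := by
      have := tendsto_nhds_unique (hd.mul.tendsto.congr' e)
        (tendsto_const_nhds.add (tendsto_F hmu (h.mul hmu).norm))
      simpa using this.symm
    exact ⟨h0, hd.mul.congr (by simpa [h0] using e)⟩
  induction K with
  | zero =>
    intro s h hd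
    simpa [(key s h hd).1] using h.norm.of_norm.hasSum
  | succ K ih =>
    intro s h hd
    simpa only [pow_succ', mul_assoc] using ih _ (h.mul hmu) (key s h hd).2

theorem diff_dslope {f : ℂ → ℂ} (hf : Differentiable ℂ f) (c : ℂ) :
    Differentiable ℂ (dslope f c) := by
  rw [← differentiableOn_univ] at hf ⊢
  exact (Complex.differentiableOn_dslope univ_mem).mpr hf

theorem far1 (hmu : ∀ j : ℕ, |mu j - (((j : ℝ) + 1) * π) ^ 2| ≤ C₀) {n : ℕ} (hn : C₀ + 1 ≤ n)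
    {k : ℂ} (h : Bd n k) (j : ℕ) : 1 ≤ ‖k ^ 2 - mu j‖ := by
  have hC : 0 ≤ C₀ := (abs_nonneg _).trans (hmu 0)
  have a1 := PF.sq_sub_ge h (w := ((j : ℝ) + 1) * π) (by positivity)
  have hj0 : (0 : ℝ) ≤ j := Nat.cast_nonneg j
  have hd1 : 1 / 2 ≤ |(j : ℝ) + 1 - (n + 1 / 2)| := by
    rcases le_or_gt n j with h1 | h1
    · have : (n : ℝ) ≤ j := by exact_mod_cast h1
      exact le_trans (by linarith) (le_abs_self _)
    · have : (j : ℝ) + 1 ≤ n := by exact_mod_cast h1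
      exact le_trans (by linarith) (neg_le_abs _)
  rw [← sub_mul, abs_mul, abs_of_pos Real.pi_pos] at a1
  have a2 : ‖k ^ 2 - ((((j : ℝ) + 1) * π : ℝ) : ℂ) ^ 2‖ ≤ ‖k ^ 2 - mu j‖ + C₀ := by
    have := norm_add_le (k ^ 2 - mu j) (((mu j - (((j : ℝ) + 1) * π) ^ 2 : ℝ) : ℂ))
    rw [Complex.norm_real, Real.norm_eq_abs] at this
    have e3 : k ^ 2 - mu j + ((mu j - (((j : ℝ) + 1) * π) ^ 2 : ℝ) : ℂ)
        = k ^ 2 - ((((j : ℝ) + 1) * π : ℝ) : ℂ) ^ 2 := by push_cast; ring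
    rw [e3] at this
    linarith [hmu j]
  have a3 : 1 / 2 * 3 * (0 + (n : ℝ) * 3) / 2 ≤
      |(j : ℝ) + 1 - (n + 1 / 2)| * π * (((j : ℝ) + 1) * π + ((n : ℝ) + 1 / 2) * π) / 2 := by
    have := Real.pi_gt_three.le
    gcongr
    · positivity
    · linarith
  linarith

end Mom

open Mom

theorem moments_zero (E A : ℂ → ℂ) (hE : Differentiable ℂ E) (hA : Differentiable ℂ A)
    (mu : ℕ → ℝ) (hinj : Function.Injective mu) (C₀ : ℝ)
    (hmu : ∀ j : ℕ, |mu j - (((j : ℝ) + 1) * π) ^ 2| ≤ C₀)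
    (hz : ∀ z, A z = 0 ↔ ∃ j, z = (mu j : ℂ)) (hd : ∀ j, deriv A (mu j) ≠ 0)
    (hres : ∀ K : ℕ, Summable fun j : ℕ => (j : ℝ) ^ K * ‖E (mu j) / deriv A (mu j)‖)
    (hbd : ∃ C : ℝ, ∀ᶠ n : ℕ in atTop, ∀ k, Bd n k → ‖E (k ^ 2)‖ ≤ C * ‖A (k ^ 2)‖)
    (hdec : ∀ N : ℕ, ∃ C : ℝ, ∀ᶠ t : ℝ in atBot, ‖E t‖ * |t| ^ N ≤ C * ‖A t‖) :
    (∀ K : ℕ, HasSum (fun j => E (mu j) / deriv A (mu j) * (mu j : ℂ) ^ K) 0) ∧
      ((∀ j, E (mu j) = 0) → ∀ z, E z = 0) := by
  set r : ℕ → ℂ := fun j => E (mu j) / deriv A (mu j) with hr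
  have hR : Rap r := hres
  have hI : ∀ j, 1 ≤ ‖Complex.I - mu j‖ := fun j => by
    simpa using Complex.abs_im_le_norm (Complex.I - mu j)
  have hI0 : ∀ j, Complex.I - mu j ≠ 0 := fun j => norm_pos_iff.1 (by linarith [hI j])
  have hAI : A Complex.I ≠ 0 := fun h => by
    obtain ⟨j, hj⟩ := (hz _).1 h
    exact hI0 j (sub_eq_zero.2 hj)
  have hA0 : ∀ j, A (mu j) = 0 := fun j => (hz _).mpr ⟨j, rfl⟩
  set c := E Complex.I / A Complex.I with hc
  set G : ℂ → ℂ := fun z => E z - c * A z with hG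
  have hG0 : G Complex.I = 0 := by simp only [hG, hc]; field_simp; ring
  have hE1 : ∀ z, (z - Complex.I) * dslope G Complex.I z = G z := fun z => by
    simpa [hG0] using sub_smul_dslope G Complex.I z
  have hres1 : ∀ j, dslope G Complex.I (mu j) / deriv A (mu j) = -(r j / (Complex.I - mu j)) :=
    fun j => by
      have h1 := hE1 (mu j)
      simp only [hG, hA0, mul_zero, sub_zero] at h1
      simp only [hr, ← h1]
      have := hI0 j
      have := hd j
      field_simp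
      ring
  obtain ⟨C, hC⟩ := hbd
  have hpf := partial_fractions (dslope G Complex.I) A
    (diff_dslope (hE.sub (hA.const_mul c)) _) hA mu hinj C₀ hmu hz hd (∑' j, ‖r j‖)
    (fun j => by
      rw [hres1, norm_neg, norm_div]
      exact (div_le_self (norm_nonneg _) (hI j)).trans
        (hR.norm.le_tsum j fun _ _ => norm_nonneg _))
    (fun ε hε => by
      filter_upwards [hC, tendsto_natCast_atTop_atTop.eventually_ge_atTop ((|C| + ‖c‖) / ε),
        eventually_ge_atTop 1] with n h1 h2 h3 k hk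
      have h4 := hk.norm_ge
      have h5 : (1 : ℝ) ≤ n := by exact_mod_cast h3
      have h6 : (n : ℝ) + 1 ≤ ‖k‖ := by nlinarith [Real.pi_gt_three]
      have h7 : (n : ℝ) ≤ ‖k ^ 2 - Complex.I‖ := by
        have := norm_sub_norm_le (k ^ 2) Complex.I
        rw [norm_pow, Complex.norm_I] at this
        nlinarith
      have h8 : ‖G (k ^ 2)‖ ≤ (|C| + ‖c‖) * ‖A (k ^ 2)‖ := by
        refine (norm_sub_le _ _).trans ?_
        rw [norm_mul, add_mul]
        gcongr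
        exact (h1 k hk).trans (by gcongr; exact le_abs_self C)
      rw [← hE1, norm_mul] at h8
      rw [div_le_iff₀ hε] at h2
      refine le_of_mul_le_mul_left (a := (n : ℝ)) ?_ (by linarith)
      calc (n : ℝ) * ‖dslope G Complex.I (k ^ 2)‖
          ≤ ‖k ^ 2 - Complex.I‖ * ‖dslope G Complex.I (k ^ 2)‖ := by gcongr
        _ ≤ (|C| + ‖c‖) * ‖A (k ^ 2)‖ := h8
        _ ≤ n * ε * ‖A (k ^ 2)‖ := by gcongr
        _ = _ := by ring)
  have hrep : ∀ z, A z ≠ 0 → E z / A z = (c - F mu r Complex.I) + F mu r z := by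
    intro z hz0
    have h1 := ((hpf z hz0).mul_left (z - Complex.I)).add
      (bound hR.norm one_pos hI).1.hasSum
    have h2 : F mu r z = _ := (h1.congr_fun (g := fun j => r j / (z - mu j)) fun j => by
      have h3 : z - mu j ≠ 0 := fun h => hz0 (by rw [sub_eq_zero.1 h, hA0])
      have := hI0 j
      rw [hres1]
      field_simp
      ring).tsum_eq
    rw [h2, ← mul_div_assoc, hE1]
    simp only [hG, F]
    field_simp
    ring
  have hAt : ∀ᶠ t : ℝ in atBot, A t ≠ 0 := by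
    filter_upwards [eventually_le_atBot (-(2 * C₀ + 2))] with t ht h
    obtain ⟨j, hj⟩ := (hz _).1 h
    have := dist_neg hmu ht j
    rw [hj, sub_self, norm_zero] at this
    linarith [this.1, this.2]
  have hD : Dec fun t => E t / A t := fun N => by
    obtain ⟨C, hC⟩ := hdec N
    refine ⟨C, (hC.and hAt).mono fun t ht => ?_⟩
    rw [norm_div, div_mul_eq_mul_div, div_le_iff₀ (norm_pos_iff.2 ht.2)]
    exact ht.1
  have e : (fun t : ℝ => E t / A t) =ᶠ[atBot] fun t => (c - F mu r Complex.I) + F mu r t :=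
    hAt.mono fun t ht => hrep t ht
  have h0 : c - F mu r Complex.I = 0 := by
    have := tendsto_nhds_unique (hD.tendsto.congr' e)
      (tendsto_const_nhds.add (tendsto_F hmu hR.norm))
    simpa using this.symm
  refine ⟨fun K => moments hmu K r hR (hD.congr (by simpa [h0] using e)), fun h z => ?_⟩
  by_cases hz0 : A z = 0
  · obtain ⟨j, rfl⟩ := (hz _).1 hz0
    exact h j
  · have := hrep z hz0
    rw [h0] at this
    simpa [F, hr, h, hz0] using this

theorem exists_interp (A : ℂ → ℂ) (hA : Differentiable ℂ A)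
    (mu : ℕ → ℝ) (hinj : Function.Injective mu) (C₀ : ℝ)
    (hmu : ∀ j : ℕ, |mu j - (((j : ℝ) + 1) * π) ^ 2| ≤ C₀)
    (hz : ∀ z, A z = 0 ↔ ∃ j, z = (mu j : ℂ))
    (r : ℕ → ℝ) (hr : ∀ K : ℕ, Summable fun j : ℕ => (j : ℝ) ^ K * |r j|)
    (hm : ∀ K : ℕ, HasSum (fun j => r j * mu j ^ K) 0) :
    ∃ E : ℂ → ℂ, Differentiable ℂ E ∧ (∀ j, E (mu j) = r j * deriv A (mu j)) ∧
      (∀ t : ℝ, A t ≠ 0 → ∃ s : ℝ, E t = s * A t) ∧
      (∃ C : ℝ, ∀ᶠ n : ℕ in atTop, ∀ k, Bd n k → ‖E (k ^ 2)‖ ≤ C * ‖A (k ^ 2)‖) ∧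
      ∀ N : ℕ, ∃ C : ℝ, ∀ᶠ t : ℝ in atBot, ‖E t‖ * |t| ^ N ≤ C * ‖A t‖ := by
  have hR : Rap fun j => (r j : ℂ) := fun K => by simpa using hr K
  have hA0 : ∀ j, A (mu j) = 0 := fun j => (hz _).mpr ⟨j, rfl⟩
  have hds : ∀ (j : ℕ) (z : ℂ), z ≠ mu j → dslope A (mu j) z = A z / (z - mu j) := fun j z h => by
    rw [dslope_of_ne _ h, slope_def_field, hA0, sub_zero]
  set E : ℂ → ℂ := fun z => ∑' j, (r j : ℂ) * dslope A (mu j) z with hE
  have hrep : ∀ z : ℂ, (∀ j, z ≠ mu j) → E z = F mu (fun j => r j) z * A z := fun z h => by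
    rw [hE, F, ← tsum_mul_right]
    exact tsum_congr fun j => by rw [hds j z (h j)]; ring
  refine ⟨E, fun z => ?_, fun j => ?_, fun t ht => ?_, ⟨∑' j, ‖(r j : ℂ)‖, ?_⟩, fun N => ?_⟩
  · set R := ‖z‖ + 1
    obtain ⟨M1, h1⟩ := (isCompact_closedBall (0 : ℂ) (R + 1)).exists_bound_of_continuousOn
      hA.continuous.continuousOn
    obtain ⟨M2, h2⟩ := (isCompact_closedBall (0 : ℂ) (R + 1)).exists_bound_of_continuousOn
      hA.deriv.continuous.continuousOn
    have hb : ∀ j, ∀ w ∈ Metric.ball (0 : ℂ) R, ‖dslope A (mu j) w‖ ≤ max M1 M2 := by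
      intro j w hw
      have hw1 : ‖w‖ < R := by simpa using hw
      have hw2 : w ∈ Metric.closedBall (0 : ℂ) (R + 1) := by simp; linarith
      by_cases e : w = mu j
      · rw [← e, dslope_same]; exact (h2 w hw2).trans (le_max_right _ _)
      have hp : 0 < ‖w - mu j‖ := norm_pos_iff.2 (sub_ne_zero.2 e)
      rw [hds j w e, norm_div]
      by_cases hj : (mu j : ℂ) ∈ Metric.closedBall (0 : ℂ) (R + 1)
      · have := (convex_closedBall (0 : ℂ) (R + 1)).norm_image_sub_le_of_norm_deriv_le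
          (fun x _ => hA x) h2 hj hw2
        rw [hA0, sub_zero, ← div_le_iff₀ hp] at this
        exact this.trans (le_max_right _ _)
      · have h3 : R + 1 < ‖(mu j : ℂ)‖ := by simpa using hj
        have h4 := norm_sub_norm_le (mu j : ℂ) w
        rw [norm_sub_rev] at h4
        exact (div_le_self (norm_nonneg _) (by linarith)).trans
          ((h1 w hw2).trans (le_max_left _ _))
    have := Complex.differentiableOn_tsum_of_summable_norm (hR.norm.mul_right (max M1 M2))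
      (F := fun j w => (r j : ℂ) * dslope A (mu j) w)
      (fun j => ((diff_dslope hA _).const_mul _).differentiableOn) Metric.isOpen_ball
      (fun j w hw => by rw [norm_mul]; gcongr; exact hb j w hw)
    exact this.differentiableAt (Metric.isOpen_ball.mem_nhds (by simp [R]))
  · rw [hE]
    simp only
    rw [tsum_eq_single j, dslope_same]
    intro i hi
    rw [hds i _ (fun h => hi (hinj (by exact_mod_cast h.symm))), hA0]
    simp
  · refine ⟨∑' j, r j / (t - mu j), ?_⟩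
    rw [hrep t fun j h => ht (by rw [h, hA0])]
    simp [F, Complex.ofReal_tsum]
  · filter_upwards [tendsto_natCast_atTop_atTop.eventually_ge_atTop (C₀ + 1)] with n hn k hk
    have h1 := far1 hmu hn hk
    rw [hrep _ fun j h => by have := h1 j; rw [h, sub_self, norm_zero] at this; linarith,
      norm_mul]
    gcongr
    simpa using (bound hR.norm one_pos h1).2
  · refine ⟨∑' j, ‖(r j : ℂ) * (mu j : ℂ) ^ N‖, ?_⟩
    filter_upwards [eventually_le_atBot (-(2 * C₀ + 2))] with t ht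
    have h1 : ∀ j, 1 ≤ ‖(t : ℂ) - mu j‖ := fun j => by linarith [(dist_neg hmu ht j).1, (dist_neg hmu ht j).2]
    have h2 : (t : ℂ) ^ N * F mu (fun j => r j) t = F mu (fun j => r j * (mu j : ℂ) ^ N) t := by
      induction N with
      | zero => simp
      | succ N ih =>
        have h3 : ∑' j, (r j : ℂ) * (mu j : ℂ) ^ N = 0 := by
          have := (Complex.hasSum_ofReal.2 (hm N)).tsum_eq
          simpa using this
        rw [pow_succ', mul_assoc, ih, step hmu (hR.mul_pow hmu N) ht, h3, zero_add]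
        simp only [pow_succ, mul_assoc]
    have h4 := (bound (hR.mul_pow hmu N).norm one_pos h1).2
    rw [← h2, norm_mul, norm_pow, Complex.norm_real, Real.norm_eq_abs, div_one] at h4
    rw [hrep _ fun j h => by have := h1 j; rw [h, sub_self, norm_zero] at this; linarith,
      norm_mul, mul_right_comm, mul_comm _ (|t| ^ N)]
    gcongr

end Pool.Agent.P.MP_aabf10_an
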