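import Pool.Agent.P.MP_aabf10_an.Main

/-!
# Moving one Dirichlet datum by a double Darboux transformation
-/

open scoped ContDiff Topology Real
open Filter Finset Set MeasureTheory

namespace Pool.Agent.P.MP_aabf10_an

variable {q : ℝ → ℝ}

theorem Dr_shift (hq : Continuous q) (hp : Function.Periodic q 1) (x t : ℝ) :
    Dr (fun y => q (y + x)) t = Dr q t := by
  have hq' : Continuous fun y => q (y + x) := by fun_prop
  have a := solr_rep hq' ((thr_sol hq t).shift x) 1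
  have b := solr_rep hq' ((phr_sol hq t).shift x) 1
  obtain ⟨c1, c2, c3, c4⟩ := real_add_one hq hp t x
  have w := wrr hq t x
  simp only [zero_add, add_comm 1 x, c1, c2, c3, c4] at a b
  unfold Dr ar dr
  unfold ar at a
  unfold dr at b
  linear_combination (-phr' q t x / 2) * a.1 + (thr' q t x / 2) * b.1 - (thr q t x / 2) * b.2
    + (phr q t x / 2) * a.2 + ((thr q t 1 + phr' q t 1) / 2
      - (thr (fun y => q (y + x)) t 1 + phr' (fun y => q (y + x)) t 1) / 2) * w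

theorem no_two_eig (hq : Continuous q) {α β t₁ t₂ : ℝ} (h : α ≠ 0 ∨ β ≠ 0) (hlt : t₁ < t₂)
    (hD : ∀ t ∈ Icc t₁ t₂, Dr q t ≠ 0)
    (h1 : α * (α * cr q t₁ + β * dr q t₁) - β * (α * ar q t₁ + β * br q t₁) = 0)
    (h2 : α * (α * cr q t₂ + β * dr q t₂) - β * (α * ar q t₂ + β * br q t₂) = 0) : False := by
  have hs : ∀ t ∈ Icc t₁ t₂, 0 < Dr q t₁ * Dr q t := by
    intro t ht
    by_contra hle
    have c : ContinuousOn (fun t => Dr q t₁ * Dr q t) (Icc t₁ t) :=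
      (continuous_const.mul (Dr_cont hq)).continuousOn
    obtain ⟨s, hs, e⟩ := intermediate_value_Icc' ht.1 c
      (show (0 : ℝ) ∈ Set.Icc _ _ from ⟨not_lt.1 hle, mul_self_nonneg _⟩)
    exact mul_ne_zero (hD t₁ ⟨le_rfl, hlt.le⟩) (hD s ⟨hs.1, hs.2.trans ht.2⟩) e
  have hd := fun t => ((((((cr_hasDerivAt hq t).const_mul α).fun_add
    ((dr_hasDerivAt hq t).const_mul β)).const_mul α).fun_sub
    ((((ar_hasDerivAt hq t).const_mul α).fun_add
    ((br_hasDerivAt hq t).const_mul β)).const_mul β)).const_mul (-Dr q t₁))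
  have := cross_up (f := fun t => -Dr q t₁ *
      (α * (α * cr q t + β * dr q t) - β * (α * ar q t + β * br q t))) (L := 0)
    (continuous_iff_continuousAt.2 fun t => (hd t).continuousAt) ordConnected_Icc
    (fun t ht e => by
      have e' := (mul_eq_zero.1 e).resolve_left (neg_ne_zero.2 (hD t₁ ⟨le_rfl, hlt.le⟩))
      obtain ⟨ρ, r1, r2⟩ : ∃ ρ, α * ar q t + β * br q t = ρ * α ∧
          α * cr q t + β * dr q t = ρ * β := by
        rcases h with h | h
        · refine ⟨(α * ar q t + β * br q t) / α, by field_simp, ?_⟩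
          field_simp; linear_combination e'
        · refine ⟨(α * cr q t + β * dr q t) / β, ?_, by field_simp⟩
          field_simp; linear_combination -e'
      have m := mdetr hq t
      have r3 : ρ * (2 * Dr q t - ρ) = 1 := by
        unfold Dr
        rcases h with h | h
        · refine mul_left_cancel₀ h ?_
          linear_combination (-dr q t + ρ) * r1 + br q t * r2 + α * m
        · refine mul_left_cancel₀ h ?_
          linear_combination (-ar q t + ρ) * r2 + cr q t * r1 + β * m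
      have p1 := form_pos hq t h
      have p2 : 0 < Dr q t₁ * (2 * Dr q t - ρ) := by
        have := hs t ht
        set σ := 2 * Dr q t - ρ
        have e2 : Dr q t₁ * σ * (ρ ^ 2 + 1) = 2 * (Dr q t₁ * Dr q t) := by
          have : 2 * Dr q t = σ + ρ := by simp only [σ]; ring
          linear_combination (Dr q t₁ * ρ) * r3 - Dr q t₁ * this
        exact (pos_iff_pos_of_mul_pos (by linarith : 0 < Dr q t₁ * σ * (ρ ^ 2 + 1))).2
          (by positivity)
      have := cross_of_deriv (hd t) (lt_of_lt_of_eq (mul_pos p2 p1) (by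
        unfold Dr at *
        set s := (ar q t₁ + dr q t₁) / 2
        linear_combination (s * (α * J0 q t 1 + β * J1 q t 1)) * r1
          + (s * (β * J2 q t 1 + α * J1 q t 1)) * r2))
      rwa [e] at this)
    ⟨le_rfl, hlt.le⟩ ⟨hlt.le, le_rfl⟩ hlt (by simp only [h1, mul_zero, le_refl])
  simp only [h2, mul_zero, lt_irrefl] at this

theorem wr_ne (hq : Continuous q) (hp : Function.Periodic q 1) {ν₀ ν₁ ρ σ : ℝ}
    {u u' w w' : ℝ → ℝ} (su : IsSol (fun x => q x - ν₀) u u') (sw : IsSol (fun x => q x - ν₁) w w')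
    (pu : ∀ x, u (x + 1) = ρ * u x ∧ u' (x + 1) = ρ * u' x)
    (pw : ∀ x, w (x + 1) = σ * w x ∧ w' (x + 1) = σ * w' x)
    (nu : ∀ x, u x ≠ 0 ∨ u' x ≠ 0) (nw : ∀ x, w x ≠ 0 ∨ w' x ≠ 0) (hne : ν₀ ≠ ν₁)
    (hD : ∀ t ∈ uIcc ν₀ ν₁, Dr q t ≠ 0) (x : ℝ) : u x * w' x - u' x * w x ≠ 0 := by
  intro e
  have hq' : Continuous fun y => q (y + x) := by fun_prop
  have a := solr_rep hq' (su.shift x) 1
  have b := solr_rep hq' (sw.shift x) 1
  simp only [zero_add, add_comm 1 x, (pu x).1, (pu x).2, (pw x).1, (pw x).2] at a b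
  set p := fun y => q (y + x)
  have h0 : u x * (u x * cr p ν₀ + u' x * dr p ν₀) - u' x * (u x * ar p ν₀ + u' x * br p ν₀) = 0 := by
    unfold ar br cr dr
    linear_combination (-u x) * a.2 + u' x * a.1
  have h1 : u x * (u x * cr p ν₁ + u' x * dr p ν₁) - u' x * (u x * ar p ν₁ + u' x * br p ν₁) = 0 := by
    unfold ar br cr dr
    rcases nw x with h | h
    · refine mul_left_cancel₀ h ?_
      linear_combination (-u x ^ 2) * b.2 + (u x * u' x) * b.1
        + (u x * σ - u x * phr' p ν₁ 1 + u' x * phr p ν₁ 1) * e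
    · refine mul_left_cancel₀ h ?_
      linear_combination (-u x * u' x) * b.2 + (u' x ^ 2) * b.1
        + (u' x * σ + u x * thr' p ν₁ 1 - u' x * thr p ν₁ 1) * e
  have hD' : ∀ t ∈ uIcc ν₀ ν₁, Dr p t ≠ 0 := fun t ht => by
    rw [Dr_shift hq hp]; exact hD t ht
  rcases lt_or_gt_of_ne hne with l | l
  · exact no_two_eig hq' (nu x) l (by rwa [uIcc_of_le l.le] at hD') h0 h1
  · exact no_two_eig hq' (nu x) l (by rwa [uIcc_of_ge l.le] at hD') h1 h0

theorem DData.image_top {ν₀ ν₁ ρ σ : ℝ} {u u' w w' : ℝ → ℝ} (h : DData q ν₀ ν₁ ρ σ u u' w w') :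
    IsSol (fun x => (q x + 2 * (ν₁ - ν₀) * eta1 u u' w w' (ν₁ - ν₀) x) - ν₁)
      (fun x => u x * (u x * w' x - u' x * w x)⁻¹)
      (fun x => u' x * (u x * w' x - u' x * w x)⁻¹
          + (ν₁ - ν₀) * (u x ^ 2 * w x * (u x * w' x - u' x * w x)⁻¹ ^ 2)) := by
  constructor
  · intro x
    refine ((h.su.d1 x).fun_mul (h.inv_hasDerivAt x)).congr_deriv ?_
    ring
  · intro x
    have hi := h.inv_hasDerivAt x
    have hW := mul_inv_cancel₀ (h.ne x)
    refine (((h.su.d2 x).fun_mul hi).fun_add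
      ((((((h.su.d1 x).fun_pow 2).fun_mul (h.sw.d1 x)).fun_mul (hi.fun_pow 2))).const_mul
      (ν₁ - ν₀))).congr_deriv ?_
    unfold eta1
    generalize (u x * w' x - u' x * w x)⁻¹ = i at *
    simp only [Nat.cast_ofNat, Nat.add_one_sub_one, pow_one]
    linear_combination (-(ν₁ - ν₀) * u x * i) * hW

/-- the solution with initial data `τ, κ` -/
noncomputable def gs (q : ℝ → ℝ) (ν τ κ x : ℝ) : ℝ := τ * thr q ν x + κ * phr q ν x
noncomputable def gs' (q : ℝ → ℝ) (ν τ κ x : ℝ) : ℝ := τ * thr' q ν x + κ * phr' q ν x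

/-- `r = q - 2 (log V)''` with `V 0 = 1`, `V' = φ g`. -/
def IsMove (q : ℝ → ℝ) (ν₀ ν τ κ : ℝ) (r : ℝ → ℝ) : Prop :=
  ∃ V : ℝ → ℝ, V 0 = 1 ∧ (∀ x, V x ≠ 0) ∧ (∀ x, HasDerivAt V (phr q ν₀ x * gs q ν τ κ x) x) ∧
    ∀ x, r x - q x = -2 * ((phr' q ν₀ x * gs q ν τ κ x + phr q ν₀ x * gs' q ν τ κ x) * (V x)⁻¹)
      + 2 * (phr q ν₀ x * gs q ν τ κ x * (V x)⁻¹ * (phr q ν₀ x * gs q ν τ κ x * (V x)⁻¹))

theorem phr_shift (hq : Continuous q) (hp : Function.Periodic q 1) {t : ℝ} (hb : br q t = 0)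
    (x : ℝ) : phr q t (x + 1) = dr q t * phr q t x ∧ phr' q t (x + 1) = dr q t * phr' q t x := by
  obtain ⟨-, -, c, d⟩ := real_add_one hq hp t x
  rw [c, d, hb]; constructor <;> ring

theorem phr_ne (hq : Continuous q) (t x : ℝ) : phr q t x ≠ 0 ∨ phr' q t x ≠ 0 := by
  by_contra h
  push Not at h
  simpa [h.1, h.2] using wrr hq t x

theorem move (hq : Cinf q) {ν₀ ν η : ℝ} (hb : br q ν₀ = 0) (hne : ν₀ ≠ ν)
    (hη : η ^ 2 = Dr q ν ^ 2 - 1) (hD : ∀ t ∈ uIcc ν₀ ν, Dr q t ≠ 0) :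
    ∃ r ∈ Iso q, (∀ s, br q s = 0 → s ≠ ν₀ → s ≠ ν → br r s = 0 ∧ Nr r s = Nr q s) ∧
      br r ν = 0 ∧ Nr r ν = η ∧ IsMove q ν₀ ν (ν - ν₀) ((ν - ν₀) * (Nr q ν - η) / br q ν) r := by
  have c := hq.cont
  have b1 : br q ν ≠ 0 := fun e => by
    simpa [phr_zero c] using wr_ne c hq.2 (phr_sol c ν₀) (phr_sol c ν) (phr_shift c hq.2 hb)
      (phr_shift c hq.2 e) (phr_ne c _) (phr_ne c _) hne hD 0
  have hη' : (-η) ^ 2 = Dr q ν ^ 2 - 1 := by rw [neg_sq, hη]
  have h : DData q ν₀ ν (dr q ν₀) (Dr q ν + -η) (phr q ν₀) (phr' q ν₀) (Bl q ν (-η))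
      (Bl' q ν (-η)) :=
    ⟨phr_sol c _, Bl_sol c _ _, fun x => (phr_shift c hq.2 hb x).1,
      fun x => (phr_shift c hq.2 hb x).2, fun x => (Bl_shift c hq.2 hη' x).1,
      fun x => (Bl_shift c hq.2 hη' x).2,
      wr_ne c hq.2 (phr_sol c ν₀) (Bl_sol c ν _) (phr_shift c hq.2 hb) (Bl_shift c hq.2 hη')
        (phr_ne c _) (fun x => by
          by_contra h
          push Not at h
          apply b1
          have w := wrr c ν x
          unfold Bl Bl' at h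
          linear_combination phr' q ν x * h.1 - phr q ν x * h.2 - br q ν * w) hne hD⟩
  have hr := h.mem_iso hq
  have hDr := h.Dr_eq hq
  set r := fun x => q x + 2 * (ν - ν₀) *
    eta1 (phr q ν₀) (phr' q ν₀) (Bl q ν (-η)) (Bl' q ν (-η)) (ν - ν₀) x
  have cr := hr.1.cont
  have i0 := mul_inv_cancel₀ (h.ne 0)
  have i1 := mul_inv_cancel₀ (h.ne 1)
  have w1 := h.pw 0
  have w0 : Bl q ν (-η) 0 = br q ν := by simp [Bl, thr_zero c, phr_zero c]
  have u1 : phr q ν₀ 1 = 0 := hb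
  have hN : ∀ s, Nr r s = dr r s - Dr q s := fun s => by
    rw [← hDr]; unfold Nr Dr; ring
  rw [zero_add, w0] at w1
  have top := solr_rep cr h.image_top 1
  have img := fun s κ (hκ : κ * (ν - s) = ν - ν₀) => solr_rep cr (h.image_sol hκ (phr_sol c s)) 1
  beta_reduce at top img
  generalize (phr q ν₀ 0 * Bl' q ν (-η) 0 - phr' q ν₀ 0 * Bl q ν (-η) 0)⁻¹ = j0 at i0 top img
  generalize (phr q ν₀ 1 * Bl' q ν (-η) 1 - phr' q ν₀ 1 * Bl q ν (-η) 1)⁻¹ = j1 at i1 top img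
  simp only [phr_zero c, phr'_zero c, u1, w0, w1] at i0 i1 top img
  refine ⟨r, hr, fun s hs s0 s1 => ?_, ?_, ?_, ?_⟩
  · have h1 : ν - s ≠ 0 := sub_ne_zero.2 (Ne.symm s1)
    have hκ : (ν - ν₀) / (ν - s) * (ν - s) = ν - ν₀ := div_mul_cancel₀ _ h1
    have hκ1 : 1 - (ν - ν₀) / (ν - s) ≠ 0 := by
      intro e
      apply s0
      rw [← sub_eq_zero.1 e] at hκ
      linarith
    have s2 : phr q s 1 = 0 := hs
    obtain ⟨a1, a2⟩ := img s _ hκ
    rw [s2] at a1 a2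
    set κ := (ν - ν₀) / (ν - s)
    refine ⟨mul_left_cancel₀ hκ1 ?_, ?_⟩
    · unfold br at *; linear_combination -a1 + κ * phr r s 1 * i0
    · rw [hN]
      have : dr r s = dr q s := mul_left_cancel₀ hκ1 (by
        unfold dr; linear_combination -a2 + κ * phr' r s 1 * i0 - κ * phr' q s 1 * i1)
      rw [this]; unfold Nr Dr; ring
  · have : br r ν = phr r ν 1 := rfl
    linear_combination this + br q ν * top.1 - phr r ν 1 * i0
  · rw [hN]
    unfold dr
    linear_combination (Dr q ν + η) * br q ν * (Dr q ν - η) * top.2 + (Dr q ν + η) * i1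
      - (Dr q ν + η) * (Dr q ν - η) * phr' r ν 1 * i0 + phr' r ν 1 * hη
  · refine ⟨fun x => (phr q ν₀ x * Bl' q ν (-η) x - phr' q ν₀ x * Bl q ν (-η) x) * (-br q ν)⁻¹,
      ?_, fun x => mul_ne_zero (h.ne x) (inv_ne_zero (neg_ne_zero.2 b1)), fun x => ?_, fun x => ?_⟩
    · simp only [phr_zero c, phr'_zero c, w0]; field_simp; ring
    · refine ((wr_hasDerivAt h.su h.sw x).mul_const _).congr_deriv ?_
      unfold gs Bl; field_simp; ring
    · have := h.ne x
      simp only [r, eta1, mul_inv, inv_inv]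
      generalize (phr q ν₀ x * Bl' q ν (-η) x - phr' q ν₀ x * Bl q ν (-η) x)⁻¹ = i
      unfold gs gs' Bl Bl'; field_simp; ring

theorem isMove_refl (q : ℝ → ℝ) (ν₀ ν : ℝ) : IsMove q ν₀ ν 0 0 q :=
  ⟨fun _ => 1, rfl, fun _ => one_ne_zero, fun x => by simpa [gs] using hasDerivAt_const x (1 : ℝ),
    fun x => by simp [gs, gs']⟩

theorem IsGap.lt_of_lt {mu al be : ℕ → ℝ} (g : IsGap q mu al be) {i j : ℕ} (h : i < j) :
    be i < al j := by
  obtain ⟨k, rfl⟩ := Nat.exists_eq_add_of_lt h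
  have m : StrictMono be := strictMono_nat_of_lt_succ fun n =>
    (g.be_lt n).trans_le ((g.al_le _ (by omega)).trans (g.le_be _))
  exact (m.monotone (Nat.le_add_right i k)).trans_lt (g.be_lt _)

theorem IsGap.ne_of_mem {mu al be : ℕ → ℝ} (g : IsGap q mu al be) {i j : ℕ} (h : i ≠ j) {s t : ℝ}
    (hs : s ∈ Icc (al i) (be i)) (ht : t ∈ Icc (al j) (be j)) : s ≠ t := by
  rcases lt_or_gt_of_ne h with l | l
  · exact (hs.2.trans_lt ((g.lt_of_lt l).trans_le ht.1)).ne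
  · exact (ht.2.trans_lt ((g.lt_of_lt l).trans_le hs.1)).ne'

/-- `p` has Dirichlet data `(m j, e j)`, `j ≥ 1`. -/
def Dat (p : ℝ → ℝ) (m e : ℕ → ℝ) : Prop := ∀ j, 1 ≤ j → br p (m j) = 0 ∧ Nr p (m j) = e j

theorem move_gap (hq : Cinf q) {mu al be : ℕ → ℝ} (g : IsGap q mu al be) {p : ℝ → ℝ}
    (hp : p ∈ Iso q) {m e : ℕ → ℝ} (hm : ∀ j, 1 ≤ j → m j ∈ Icc (al j) (be j)) (hd : Dat p m e)
    {n : ℕ} (hn : 1 ≤ n) {ν η : ℝ} (hν : ν ∈ Icc (al n) (be n)) (hη : η ^ 2 = Dr q ν ^ 2 - 1)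
    (hc : ν = m n → η = e n) :
    ∃ r ∈ Iso q, Dat r (Function.update m n ν) (Function.update e n η) ∧
      IsMove p (m n) ν (ν - m n) ((ν - m n) * (Nr p ν - η) / br p ν) r := by
  by_cases h : ν = m n
  · refine ⟨p, hp, ?_, by simpa [h] using isMove_refl p (m n) (m n)⟩
    rw [hc h, h]; simpa using hd
  have eD := Dr_eq_of_iso hq hp
  obtain ⟨r, r1, r2, r3, r4, r5⟩ := move hp.1 (hd n hn).1 (Ne.symm h) (eD ▸ hη) fun t ht e0 => by
    have := g.ge_one hn (uIcc_subset_Icc (hm n hn) hν ht)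
    rw [← eD, e0] at this
    norm_num at this
  refine ⟨r, (iso_eq hp).symm ▸ r1, fun j hj => ?_, r5⟩
  by_cases e0 : j = n
  · subst e0; simp [r3, r4]
  · simp only [Function.update_of_ne e0]
    rw [← (hd j hj).2]
    exact r2 _ (hd j hj).1 (g.ne_of_mem e0 (hm j hj) (hm n hn)) (g.ne_of_mem e0 (hm j hj) hν)

theorem isGap_transfer (hq : Cinf q) {Q Q' : ℝ} (h0 : 0 ≤ Q) (h0' : 0 ≤ Q') {mu al be mu' : ℕ → ℝ}
    (h : IsDir q Q mu) (g : IsGap q mu al be) {p : ℝ → ℝ} (hp : p ∈ Iso q) (h' : IsDir p Q' mu') :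
    IsGap p mu' al be := by
  obtain ⟨al', be', g'⟩ := exists_isGap hp.1.cont h'
  have e := enum_unique (isEnum_edges hp.1.cont hp.1.2 h0' h' g')
    (isEnum_edges hq.cont hq.2 h0 h g) hp.2
  have e1 : be' = be := funext fun j => by simpa [edges_even] using congrFun e (2 * j)
  have e2 : ∀ j, 1 ≤ j → al' j = al j := fun j hj => by
    obtain ⟨i, rfl⟩ := Nat.exists_eq_add_of_le' hj
    simpa [edges_odd] using congrFun e (2 * i + 1)
  subst e1
  exact ⟨fun j hj => e2 j hj ▸ g'.al_le j hj, g'.le_be, fun j => e2 _ j.succ_pos ▸ g'.be_lt j,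
    fun j => e2 _ j.succ_pos ▸ g'.band j, g'.be_sq, fun j hj => e2 j hj ▸ g'.al_sq j hj,
    fun j hj => e2 j hj ▸ g'.gap j hj, g'.below, fun j hj => e2 j hj ▸ g'.dbl j hj⟩

theorem IsDir.eq_of_zero {Q : ℝ} {mu al be : ℕ → ℝ} (h : IsDir q Q mu) (g : IsGap q mu al be)
    {j : ℕ} {ν : ℝ} (hν : ν ∈ Icc (al j) (be j)) (hb : br q ν = 0) : mu j = ν := by
  obtain ⟨i, hi, rfl⟩ := (h.zero_iff ν).1 hb
  by_contra e
  exact g.ne_of_mem (fun e' : i = j => e (by rw [e'])) ⟨g.al_le i hi, g.le_be i⟩ hν rfl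

end Pool.Agent.P.MP_aabf10_an
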