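import Pool.Agent.P.MP_aabf10_an.Defs

/-!
# Maximum principle on squares, vanishing lemma and expansion in simple fractions
-/

open scoped ContDiff Topology Real
open Filter Finset

namespace Pool.Agent.P.MP_aabf10_an

/-- boundary of the square of half side `(n + 1/2) π` -/
def Bd (n : ℕ) (k : ℂ) : Prop :=
  (|k.re| = ((n : ℝ) + 1 / 2) * π ∧ |k.im| ≤ ((n : ℝ) + 1 / 2) * π) ∨
    (|k.im| = ((n : ℝ) + 1 / 2) * π ∧ |k.re| ≤ ((n : ℝ) + 1 / 2) * π)

theorem Bd.norm_ge {n : ℕ} {k : ℂ} (h : Bd n k) : ((n : ℝ) + 1 / 2) * π ≤ ‖k‖ := by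
  rcases h with ⟨h, -⟩ | ⟨h, -⟩
  · rw [← h]; exact Complex.abs_re_le_norm k
  · rw [← h]; exact Complex.abs_im_le_norm k

namespace PF

theorem norm_sin_sq (k : ℂ) :
    ‖Complex.sin k‖ ^ 2 = Real.sin k.re ^ 2 + Real.sinh k.im ^ 2 := by
  have h : Complex.sin k = ((Real.sin k.re * Real.cosh k.im : ℝ) : ℂ)
      + ((Real.cos k.re * Real.sinh k.im : ℝ) : ℂ) * Complex.I := by
    rw [Complex.sin_eq]; push_cast; ring
  rw [h, Complex.sq_norm, Complex.normSq_add_mul_I, mul_pow, mul_pow, Real.cosh_sq,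
    Real.cos_sq']
  ring

end PF

theorem Bd.sin_lower {n : ℕ} {k : ℂ} (h : Bd n k) : Real.exp |k.im| / 4 ≤ ‖Complex.sin k‖ := by
  have hs := PF.norm_sin_sq k
  have e1 : Real.sinh k.im ^ 2 = Real.sinh |k.im| ^ 2 := by
    rw [← Real.abs_sinh, sq_abs]
  have hpos := Real.exp_pos |k.im|
  have hneg := Real.exp_pos (-|k.im|)
  apply le_of_pow_le_pow_left₀ two_ne_zero (norm_nonneg _)
  rcases h with ⟨h, -⟩ | ⟨h, -⟩
  · have h1 : Real.cos k.re = 0 := by
      rw [← Real.cos_abs, h, Real.cos_eq_zero_iff]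
      exact ⟨n, by push_cast; ring⟩
    have h2 : Real.sin k.re ^ 2 = 1 := by rw [Real.sin_sq, h1]; norm_num
    rw [hs, h2, e1, add_comm, ← Real.cosh_sq, Real.cosh_eq]
    exact pow_le_pow_left₀ (by positivity) (by linarith) 2
  · have h1 : 1 ≤ |k.im| := by
      rw [h]
      have : (0 : ℝ) ≤ n := Nat.cast_nonneg n
      nlinarith [Real.pi_gt_three]
    have h2 : Real.exp (-|k.im|) ≤ 1 := Real.exp_le_one_iff.mpr (by linarith)
    have h3 : 2 ≤ Real.exp |k.im| := by linarith [Real.add_one_le_exp |k.im|]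
    have h4 : (Real.exp |k.im| / 4) ^ 2 ≤ Real.sinh |k.im| ^ 2 := by
      rw [Real.sinh_eq]
      exact pow_le_pow_left₀ (by positivity) (by linarith) 2
    rw [hs, e1]
    nlinarith [sq_nonneg (Real.sin k.re)]

namespace PF

def Good (E A : ℂ → ℂ) (z : ℂ) : Prop :=
  ∃ (n : ℕ) (g h : ℂ → ℂ), AnalyticAt ℂ g z ∧ AnalyticAt ℂ h z ∧
    g z ≠ 0 ∧ (∀ᶠ u in 𝓝 z, A u = (u - z) ^ n * g u) ∧ ∀ᶠ u in 𝓝 z, E u = (u - z) ^ n * h u

theorem exists_quot (E A : ℂ → ℂ) (hE : Differentiable ℂ E) (hA : Differentiable ℂ A) :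
    ∃ F : ℂ → ℂ, (∀ z, A z ≠ 0 → F z = E z / A z) ∧
      ∀ z, (A z = 0 → Good E A z) → DifferentiableAt ℂ F z := by
  classical
  have hch : ∀ z, ∃ c : ℂ, Good E A z → ∃ (n : ℕ) (g h : ℂ → ℂ), AnalyticAt ℂ g z ∧
      AnalyticAt ℂ h z ∧ g z ≠ 0 ∧ (∀ᶠ u in 𝓝 z, A u = (u - z) ^ n * g u) ∧
      (∀ᶠ u in 𝓝 z, E u = (u - z) ^ n * h u) ∧ c = h z / g z := by
    intro z
    by_cases hg : Good E A z
    · obtain ⟨n, g, h, h1, h2, h3, h4, h5⟩ := hg
      exact ⟨h z / g z, fun _ => ⟨n, g, h, h1, h2, h3, h4, h5, rfl⟩⟩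
    · exact ⟨0, fun h => absurd h hg⟩
  choose c hc using hch
  refine ⟨fun z => if A z = 0 then c z else E z / A z, fun z hz => if_neg hz, fun z hz => ?_⟩
  by_cases h0 : A z = 0
  · obtain ⟨n, g, h, h1, h2, h3, h4, h5, h6⟩ := hc z (hz h0)
    have hd : DifferentiableAt ℂ (fun u => h u / g u) z :=
      h2.differentiableAt.div h1.differentiableAt h3
    apply hd.congr_of_eventuallyEq
    filter_upwards [h4, h5, h1.continuousAt.eventually_ne h3] with u u1 u2 u3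
    by_cases hu : u = z
    · subst hu; rw [if_pos h0, h6]
    · have hp : (u - z) ^ n ≠ 0 := pow_ne_zero _ (sub_ne_zero.mpr hu)
      rw [if_neg (by rw [u1]; exact mul_ne_zero hp u3), u1, u2, mul_div_mul_left _ _ hp]
  · have hd : DifferentiableAt ℂ (fun u => E u / A u) z := (hE z).div (hA z) h0
    apply hd.congr_of_eventuallyEq
    filter_upwards [(hA z).continuousAt.eventually_ne h0] with u hu
    rw [if_neg hu]

def Sq (n : ℕ) (k : ℂ) : Prop :=
  |k.re| ≤ ((n : ℝ) + 1 / 2) * π ∧ |k.im| ≤ ((n : ℝ) + 1 / 2) * π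

theorem local_bound (E A : ℂ → ℂ) (hE : Differentiable ℂ E) (hA : Differentiable ℂ A) (n : ℕ)
    (hgood : ∀ k, Sq n k → A (k ^ 2) = 0 → Good E A (k ^ 2)) {ε : ℝ}
    (hbd : ∀ k, Bd n k → A (k ^ 2) ≠ 0 ∧ ‖E (k ^ 2) / A (k ^ 2)‖ ≤ ε)
    {k : ℂ} (hk : Sq n k) (h0 : A (k ^ 2) ≠ 0) : ‖E (k ^ 2) / A (k ^ 2)‖ ≤ ε := by
  obtain ⟨F, F1, F2⟩ := exists_quot E A hE hA
  set R : ℝ := ((n : ℝ) + 1 / 2) * π with hR
  have hR0 : 0 < R := by positivity
  have hne : -R ≠ R := by linarith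
  have hlt : -R < R := by linarith
  have hcl : ∀ u : ℂ, u ∈ closure (Set.Ioo (-R) R ×ℂ Set.Ioo (-R) R) ↔ Sq n u := by
    intro u
    rw [Complex.closure_reProdIm, closure_Ioo hne, Complex.mem_reProdIm, Set.mem_Icc, Set.mem_Icc,
      ← abs_le, ← abs_le]
    rfl
  rw [← F1 _ h0]
  refine Complex.norm_le_of_forall_mem_frontier_norm_le (f := fun u => F (u ^ 2))
    ((Metric.isBounded_Ioo (-R) R).reProdIm (Metric.isBounded_Ioo (-R) R)) ?_ ?_ ((hcl k).mpr hk)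
  · apply DifferentiableOn.diffContOnCl
    intro u hu
    have h1 := F2 (u ^ 2) (hgood u ((hcl u).mp hu))
    exact (h1.comp u (differentiableAt_id.pow 2)).differentiableWithinAt
  · intro u hu
    have hb : Bd n u := by
      rw [Complex.frontier_reProdIm, closure_Ioo hne, frontier_Ioo hlt] at hu
      have key : ∀ x : ℝ, x ∈ ({-R, R} : Set ℝ) → |x| = R := by
        rintro x (rfl | rfl)
        · rw [abs_neg, abs_of_pos hR0]
        · exact abs_of_pos hR0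
      rcases hu with hu | hu
      · rw [Complex.mem_reProdIm, Set.mem_Icc, ← abs_le] at hu
        exact Or.inr ⟨key _ hu.2, hu.1⟩
      · rw [Complex.mem_reProdIm, Set.mem_Icc, ← abs_le] at hu
        exact Or.inl ⟨key _ hu.1, hu.2⟩
    rw [F1 _ (hbd u hb).1]
    exact (hbd u hb).2

theorem eventually_sq (k : ℂ) : ∀ᶠ n : ℕ in atTop, Sq n k := by
  filter_upwards [tendsto_natCast_atTop_atTop.eventually_ge_atTop ‖k‖] with n hn
  have h0 : (0 : ℝ) ≤ n := Nat.cast_nonneg n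
  have : ‖k‖ ≤ ((n : ℝ) + 1 / 2) * π := by nlinarith [Real.pi_gt_three]
  exact ⟨(Complex.abs_re_le_norm k).trans this, (Complex.abs_im_le_norm k).trans this⟩

theorem exists_sqrt (z : ℂ) : ∃ k : ℂ, k ^ 2 = z :=
  IsAlgClosed.exists_pow_nat_eq z two_pos

end PF

theorem vanish (E A : ℂ → ℂ) (hE : Differentiable ℂ E) (hA : Differentiable ℂ A)
    (hgood : ∀ z, A z = 0 → ∃ (n : ℕ) (g h : ℂ → ℂ), AnalyticAt ℂ g z ∧ AnalyticAt ℂ h z ∧
      g z ≠ 0 ∧ (∀ᶠ u in 𝓝 z, A u = (u - z) ^ n * g u) ∧ ∀ᶠ u in 𝓝 z, E u = (u - z) ^ n * h u)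
    (hsmall : ∀ ε > 0, ∀ᶠ n : ℕ in atTop, ∀ k, Bd n k →
      A (k ^ 2) ≠ 0 ∧ ‖E (k ^ 2)‖ ≤ ε * ‖A (k ^ 2)‖) (z : ℂ) : E z = 0 := by
  by_cases h0 : A z = 0
  · obtain ⟨n, g, h, -, -, h3, h4, h5⟩ := hgood z h0
    have a1 := h4.self_of_nhds
    have a2 := h5.self_of_nhds
    rw [h0] at a1
    rw [a2, (mul_eq_zero.mp a1.symm).resolve_right h3, zero_mul]
  · obtain ⟨k, rfl⟩ := PF.exists_sqrt z
    have : ‖E (k ^ 2) / A (k ^ 2)‖ ≤ 0 := by
      apply le_of_forall_pos_le_add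
      intro ε hε
      obtain ⟨n, n1, n2⟩ := ((hsmall ε hε).and (PF.eventually_sq k)).exists
      rw [zero_add]
      refine PF.local_bound E A hE hA n (fun u _ hu => hgood _ hu) (fun u hu => ?_) n2 h0
      refine ⟨(n1 u hu).1, ?_⟩
      rw [norm_div, div_le_iff₀ (norm_pos_iff.mpr (n1 u hu).1)]
      exact (n1 u hu).2
    rw [norm_le_zero_iff, div_eq_zero_iff] at this
    exact this.resolve_right h0

namespace PF

theorem dist_real {n : ℕ} {k : ℂ} (h : Bd n k) (w : ℝ) :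
    abs (|w| - ((n : ℝ) + 1 / 2) * π) ≤ ‖k - w‖ := by
  have h1 : |k.re - w| ≤ ‖k - w‖ := by simpa using Complex.abs_re_le_norm (k - w)
  have h2 : |k.im| ≤ ‖k - w‖ := by simpa using Complex.abs_im_le_norm (k - w)
  have h3 := abs_abs_sub_abs_le_abs_sub w k.re
  rw [abs_sub_comm w k.re] at h3
  rcases h with ⟨h, -⟩ | ⟨h, h'⟩
  · rw [← h]; exact h3.trans h1
  · rw [abs_le]
    have := (abs_le.mp h3).2
    constructor <;> linarith [abs_nonneg w]

theorem sq_sub_ge {n : ℕ} {k : ℂ} (h : Bd n k) {w : ℝ} (hw : 0 ≤ w) :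
    |w - ((n : ℝ) + 1 / 2) * π| * (w + ((n : ℝ) + 1 / 2) * π) / 2 ≤ ‖k ^ 2 - (w : ℂ) ^ 2‖ := by
  have a1 := dist_real h w
  have a2 := dist_real h (-w)
  rw [abs_neg] at a2
  rw [abs_of_nonneg hw] at a1 a2
  have e : k ^ 2 - (w : ℂ) ^ 2 = (k - w) * (k - ((-w : ℝ) : ℂ)) := by push_cast; ring
  rw [e, norm_mul]
  set R : ℝ := ((n : ℝ) + 1 / 2) * π
  set x := ‖k - w‖
  set y := ‖k - ((-w : ℝ) : ℂ)‖
  have b1 : 2 * R ≤ x + y := by
    have := norm_add_le (k - w) (k - ((-w : ℝ) : ℂ))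
    have e2 : k - w + (k - ((-w : ℝ) : ℂ)) = 2 * k := by push_cast; ring
    rw [e2, norm_mul] at this
    have h2 : R ≤ ‖k‖ := h.norm_ge
    rw [Complex.norm_ofNat] at this
    change _ ≤ x + y at this
    linarith
  have b2 : 2 * w ≤ x + y := by
    have := norm_sub_le (k - ((-w : ℝ) : ℂ)) (k - w)
    have e2 : k - ((-w : ℝ) : ℂ) - (k - w) = ((2 * w : ℝ) : ℂ) := by push_cast; ring
    rw [e2, Complex.norm_real, Real.norm_eq_abs, abs_of_nonneg (by linarith)] at this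
    linarith
  have d0 := abs_nonneg (w - R)
  set d := |w - R|
  rcases le_total x y with hxy | hxy
  · have : d * ((w + R) / 2) ≤ x * y := mul_le_mul a1 (by linarith) (by
      have : 0 ≤ R := by positivity
      linarith) (norm_nonneg _)
    linarith
  · have : ((w + R) / 2) * d ≤ x * y := mul_le_mul (by linarith) a2 d0 (norm_nonneg _)
    linarith

/-- lower bound for the distance from `k ^ 2` to the zeros. -/
theorem far {mu : ℕ → ℝ} {C₀ : ℝ} (hmu : ∀ j : ℕ, |mu j - (((j : ℝ) + 1) * π) ^ 2| ≤ C₀)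
    {n : ℕ} (hn : C₀ ≤ n) {k : ℂ} (h : Bd n k) (j : ℕ) :
    √((n : ℝ) + 1 / 2) * |(((j : ℤ) - n : ℤ) : ℝ) + 1 / 2| ^ (3 / 2 : ℝ) ≤ ‖k ^ 2 - mu j‖ := by
  have a1 := sq_sub_ge h (w := ((j : ℝ) + 1) * π) (by positivity)
  set N : ℝ := (n : ℝ) + 1 / 2 with hN
  set d : ℝ := |(((j : ℤ) - n : ℤ) : ℝ) + 1 / 2| with hd
  have hn0 : (0 : ℝ) ≤ n := Nat.cast_nonneg n
  have hj0 : (0 : ℝ) ≤ j := Nat.cast_nonneg j
  have hd1 : 1 / 2 ≤ d := by
    rw [hd]
    rcases le_or_gt 0 ((j : ℤ) - n) with h1 | h1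
    · have : (0 : ℝ) ≤ (((j : ℤ) - n : ℤ) : ℝ) := by exact_mod_cast h1
      exact le_trans (by linarith) (le_abs_self _)
    · have : (((j : ℤ) - n : ℤ) : ℝ) ≤ -1 := by exact_mod_cast (by omega : (j : ℤ) - n ≤ -1)
      exact le_trans (by linarith) (neg_le_abs _)
  have e1 : |((j : ℝ) + 1) * π - N * π| = d * π := by
    rw [← sub_mul, abs_mul, abs_of_pos Real.pi_pos, hd, hN]
    congr 2
    push_cast; ring
  rw [e1] at a1
  set s : ℝ := (j : ℝ) + 1 + N with hs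
  have e2 : d * π * (((j : ℝ) + 1) * π + N * π) / 2 = π ^ 2 / 2 * (d * s) := by rw [hs]; ring
  rw [e2] at a1
  have hsN : N ≤ s := by linarith
  have hsd : d ≤ s := by
    rw [hd, abs_le]; push_cast; constructor <;> linarith
  have a2 : ‖k ^ 2 - ((((j : ℝ) + 1) * π : ℝ) : ℂ) ^ 2‖ ≤ ‖k ^ 2 - mu j‖ + C₀ := by
    have := norm_add_le (k ^ 2 - mu j) (((mu j - (((j : ℝ) + 1) * π) ^ 2 : ℝ) : ℂ))
    rw [Complex.norm_real, Real.norm_eq_abs] at this
    have e3 : k ^ 2 - mu j + ((mu j - (((j : ℝ) + 1) * π) ^ 2 : ℝ) : ℂ)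
        = k ^ 2 - ((((j : ℝ) + 1) * π : ℝ) : ℂ) ^ 2 := by push_cast; ring
    rw [e3] at this
    linarith [hmu j]
  have a3 : √N * d ^ (3 / 2 : ℝ) ≤ d * s := by
    have h1 : d ^ (3 / 2 : ℝ) = d * √d := by
      rw [show (3 / 2 : ℝ) = 1 + 1 / 2 by norm_num, Real.rpow_add (by linarith), Real.rpow_one,
        Real.sqrt_eq_rpow]
    have h2 : √N * √d ≤ s := by
      calc √N * √d ≤ √s * √s := by gcongr
        _ = s := Real.mul_self_sqrt (by linarith)
    rw [h1]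
    nlinarith
  have a4 : C₀ ≤ 2 * (d * s) := by nlinarith
  have a5 : 9 ≤ π ^ 2 := by nlinarith [Real.pi_gt_three]
  have a6 : 0 ≤ d * s := by nlinarith
  nlinarith

end PF

theorem partial_fractions (E A : ℂ → ℂ) (hE : Differentiable ℂ E) (hA : Differentiable ℂ A)
    (mu : ℕ → ℝ) (hinj : Function.Injective mu) (C₀ : ℝ)
    (hmu : ∀ j : ℕ, |mu j - (((j : ℝ) + 1) * π) ^ 2| ≤ C₀)
    (hz : ∀ z, A z = 0 ↔ ∃ j, z = (mu j : ℂ)) (hd : ∀ j, deriv A (mu j) ≠ 0) (C : ℝ)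
    (hres : ∀ j, ‖E (mu j) / deriv A (mu j)‖ ≤ C)
    (hsmall : ∀ ε > 0, ∀ᶠ n : ℕ in atTop, ∀ k, Bd n k → ‖E (k ^ 2)‖ ≤ ε * ‖A (k ^ 2)‖)
    (z : ℂ) (hz0 : A z ≠ 0) :
    HasSum (fun j => E (mu j) / deriv A (mu j) / (z - mu j)) (E z / A z) := by
  set r : ℕ → ℂ := fun j => E (mu j) / deriv A (mu j) with hr
  have hC : 0 ≤ C := (norm_nonneg _).trans (hres 0)
  have hA0 : ∀ j, A (mu j) = 0 := fun j => (hz _).mpr ⟨j, rfl⟩
  have hds : ∀ (f : ℂ → ℂ) (c : ℂ), Differentiable ℂ f → Differentiable ℂ (dslope f c) := by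
    intro f c hf
    rw [← differentiableOn_univ] at hf ⊢
    exact (Complex.differentiableOn_dslope univ_mem).mpr hf
  -- summability
  have hsum : Summable fun j => r j / (z - mu j) := by
    have hs : Summable fun j : ℕ => C * (1 / ((j : ℝ) + 1) ^ 2) := by
      apply Summable.mul_left
      have := (summable_nat_add_iff 1).mpr (Real.summable_one_div_nat_pow.mpr one_lt_two)
      simpa using this
    apply Summable.of_norm_bounded_eventually_nat hs
    filter_upwards [tendsto_natCast_atTop_atTop.eventually_ge_atTop (‖z‖ + C₀)] with j hj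
    have hj0 : (0 : ℝ) ≤ j := Nat.cast_nonneg j
    have h1 : ((j : ℝ) + 1) ^ 2 ≤ ‖z - mu j‖ := by
      have a1 : ‖(mu j : ℂ)‖ ≤ ‖z‖ + ‖z - mu j‖ := by
        have := norm_sub_le z (z - mu j)
        rwa [sub_sub_cancel] at this
      rw [Complex.norm_real, Real.norm_eq_abs] at a1
      have a2 := (abs_le.mp (hmu j)).1
      have a3 := le_abs_self (mu j)
      have a5 : 9 ≤ π ^ 2 := by nlinarith [Real.pi_gt_three]
      have a6 : ((j : ℝ) + 1) ^ 2 * 9 ≤ ((j : ℝ) + 1) ^ 2 * π ^ 2 := by gcongr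
      rw [mul_pow] at a2
      nlinarith
    rw [norm_div, mul_one_div]
    gcongr
    exact hres j
  have hS : Summable fun m : ℤ => 1 / |(m : ℝ) + 1 / 2| ^ (3 / 2 : ℝ) :=
    (Real.summable_one_div_int_add_rpow _ _).mpr (by norm_num)
  set S := ∑' m : ℤ, 1 / |(m : ℝ) + 1 / 2| ^ (3 / 2 : ℝ) with hSdef
  obtain ⟨k, rfl⟩ := PF.exists_sqrt z
  -- the quotient of the corrected numerator
  let EJ : ℕ → ℂ → ℂ := fun J u => E u - ∑ j ∈ range J, r j * dslope A (mu j) u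
  have hEJ : ∀ J, Differentiable ℂ (EJ J) := fun J =>
    hE.sub (Differentiable.fun_sum fun j _ => (hds A _ hA).const_mul _)
  have hquot : ∀ J u, A u ≠ 0 → EJ J u / A u = E u / A u - ∑ j ∈ range J, r j / (u - mu j) := by
    intro J u hu
    simp only [EJ]
    rw [sub_div, sum_div]
    congr 1
    apply sum_congr rfl
    intro j _
    have hne : u ≠ mu j := fun h => hu (h ▸ hA0 j)
    rw [dslope_of_ne _ hne, slope_def_field, hA0, sub_zero]
    have := sub_ne_zero.mpr hne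
    field_simp
  have hgood : ∀ J j, j < J → PF.Good (EJ J) A (mu j) := by
    intro J j hj
    have h0 : EJ J (mu j) = 0 := by
      simp only [EJ]
      rw [sum_eq_single j]
      · rw [dslope_same, hr]
        have := hd j
        field_simp
        ring
      · intro i _ hij
        have hne : (mu j : ℂ) ≠ mu i := fun h => hij (hinj (by exact_mod_cast h.symm))
        rw [dslope_of_ne _ hne, slope_def_field, hA0, hA0]
        simp
      · intro h; exact absurd (mem_range.mpr hj) h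
    refine ⟨1, dslope A (mu j), dslope (EJ J) (mu j), (hds A _ hA).analyticAt _,
      (hds _ _ (hEJ J)).analyticAt _, by rw [dslope_same]; exact hd j,
      Eventually.of_forall fun u => ?_, Eventually.of_forall fun u => ?_⟩
    · have := sub_smul_dslope A (mu j) u
      rw [hA0, sub_zero, smul_eq_mul] at this
      rw [pow_one, this]
    · have := sub_smul_dslope (EJ J) (mu j) u
      rw [h0, sub_zero, smul_eq_mul] at this
      rw [pow_one, this]
  have key : ‖E (k ^ 2) / A (k ^ 2) - ∑' j, r j / (k ^ 2 - mu j)‖ ≤ 0 := by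
    apply le_of_forall_pos_le_add
    intro ε hε
    have t1 : Tendsto (fun n : ℕ => C * S / √((n : ℝ) + 1 / 2)) atTop (𝓝 0) :=
      tendsto_const_nhds.div_atTop (Real.tendsto_sqrt_atTop.comp
        (tendsto_atTop_add_const_right _ _ tendsto_natCast_atTop_atTop))
    obtain ⟨n, n1, n2, n3, n4⟩ := ((hsmall (ε / 2) (by linarith)).and ((PF.eventually_sq k).and
      ((tendsto_natCast_atTop_atTop.eventually_ge_atTop C₀).and
        (t1.eventually_le_const (by linarith : 0 < ε / 2))))).exists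
    rw [zero_add]
    have t2 : Tendsto (fun J => ‖E (k ^ 2) / A (k ^ 2) - ∑ j ∈ range J, r j / (k ^ 2 - mu j)‖) atTop
        (𝓝 ‖E (k ^ 2) / A (k ^ 2) - ∑' j, r j / (k ^ 2 - mu j)‖) :=
      (tendsto_const_nhds.sub hsum.hasSum.tendsto_sum_nat).norm
    apply le_of_tendsto t2
    set R : ℝ := ((n : ℝ) + 1 / 2) * π with hR
    filter_upwards [tendsto_natCast_atTop_atTop.eventually_ge_atTop (2 * R ^ 2 + C₀)] with J hJ
    rw [← hquot J _ hz0]
    have hpos : ∀ j : ℕ, 0 < |(((j : ℤ) - n : ℤ) : ℝ) + 1 / 2| := by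
      intro j
      rw [abs_pos]
      intro h
      have h2 : (2 * ((j : ℤ) - n) + 1 : ℤ) = 0 := by
        have : ((2 * ((j : ℤ) - n) + 1 : ℤ) : ℝ) = 0 := by push_cast at h ⊢; linarith
        exact_mod_cast this
      omega
    have hN : 0 < √((n : ℝ) + 1 / 2) := by positivity
    refine PF.local_bound (EJ J) A (hEJ J) hA n (fun u hu h0 => ?_) (fun u hu => ?_) n2 hz0
    · obtain ⟨j, hj⟩ := (hz _).mp h0
      rw [hj]
      apply hgood J j
      by_contra hlt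
      have h1 : (J : ℝ) ≤ j := by exact_mod_cast not_lt.mp hlt
      have h2 : ‖u ^ 2‖ ≤ 2 * R ^ 2 := by
        rw [norm_pow, Complex.sq_norm, Complex.normSq_apply]
        have a1 : u.re ^ 2 ≤ R ^ 2 := sq_le_sq' (abs_le.mp hu.1).1 (abs_le.mp hu.1).2
        have a2 : u.im ^ 2 ≤ R ^ 2 := sq_le_sq' (abs_le.mp hu.2).1 (abs_le.mp hu.2).2
        nlinarith
      rw [hj, Complex.norm_real, Real.norm_eq_abs] at h2
      have a2 := (abs_le.mp (hmu j)).1
      have a3 := le_abs_self (mu j)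
      have hj0 : (0 : ℝ) ≤ j := Nat.cast_nonneg j
      have a5 : 9 ≤ π ^ 2 := by nlinarith [Real.pi_gt_three]
      have a6 : ((j : ℝ) + 1) ^ 2 * 9 ≤ ((j : ℝ) + 1) ^ 2 * π ^ 2 := by gcongr
      rw [mul_pow] at a2
      nlinarith
    · have hfar := fun j => PF.far hmu n3 hu j
      have hA1 : A (u ^ 2) ≠ 0 := by
        intro h0
        obtain ⟨j, hj⟩ := (hz _).mp h0
        have := hfar j
        rw [hj, sub_self, norm_zero] at this
        have h2 := mul_pos hN (Real.rpow_pos_of_pos (hpos j) (3 / 2))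
        linarith
      refine ⟨hA1, ?_⟩
      rw [hquot J _ hA1]
      have b1 : ‖E (u ^ 2) / A (u ^ 2)‖ ≤ ε / 2 := by
        rw [norm_div, div_le_iff₀ (norm_pos_iff.mpr hA1)]
        exact n1 u hu
      have b2 : ‖∑ j ∈ range J, r j / (u ^ 2 - mu j)‖ ≤ C * S / √((n : ℝ) + 1 / 2) := by
        refine (norm_sum_le _ _).trans ?_
        have c1 : ∀ j ∈ range J, ‖r j / (u ^ 2 - mu j)‖ ≤ C / √((n : ℝ) + 1 / 2) *
            (1 / |(((j : ℤ) - n : ℤ) : ℝ) + 1 / 2| ^ (3 / 2 : ℝ)) := by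
          intro j _
          have h2 := mul_pos hN (Real.rpow_pos_of_pos (hpos j) (3 / 2))
          rw [norm_div, div_mul_div_comm, mul_one]
          exact div_le_div₀ hC (hres j) h2 (hfar j)
        refine (sum_le_sum c1).trans ?_
        rw [← mul_sum, mul_div_right_comm]
        gcongr
        rw [← sum_image (f := fun m : ℤ => 1 / |(m : ℝ) + 1 / 2| ^ (3 / 2 : ℝ))
          (g := fun j : ℕ => (j : ℤ) - n) (fun a _ b _ h => by simpa using h)]
        exact hS.sum_le_tsum _ fun _ _ => by positivity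
      linarith [norm_sub_le (E (u ^ 2) / A (u ^ 2)) (∑ j ∈ range J, r j / (u ^ 2 - mu j))]
  rw [norm_le_zero_iff, sub_eq_zero] at key
  rw [key]
  exact hsum.hasSum

end Pool.Agent.P.MP_aabf10_an
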