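import Pool.Agent.P.MP_aabf10_an.RealF
import Pool.Agent.P.MP_aabf10_an.PF

/-!
# Multiplicities; the spectrum determines the discriminant
-/

open scoped ContDiff Topology Real
open Filter Finset Set MeasureTheory

namespace Pool.Agent.P.MP_aabf10_an

variable {q : ℝ → ℝ}

theorem IsSol.contDiff_two {p y y' : ℝ → ℝ} (hp : Continuous p) (h : IsSol p y y') :
    ContDiff ℝ 2 y := by
  have e1 : deriv y = y' := funext fun x => (h.d1 x).deriv
  have e2 : deriv y' = fun x => p x * y x := funext fun x => (h.d2 x).deriv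
  have h2 : ContDiff ℝ 1 y' := by
    rw [show (1 : WithTop ℕ∞) = 0 + 1 by norm_num, contDiff_succ_iff_deriv]
    refine ⟨fun x => (h.d2 x).differentiableAt, by simp, ?_⟩
    rw [e2, contDiff_zero]
    exact hp.mul h.cont
  rw [show (2 : WithTop ℕ∞) = 1 + 1 by norm_num, contDiff_succ_iff_deriv]
  exact ⟨fun x => (h.d1 x).differentiableAt, by simp, e1 ▸ h2⟩

theorem isSol_of_mem {s t : ℝ} {f : ℝ → ℝ} (h : f ∈ eigSpace q s t) :
    IsSol (fun x => q x - t) f (deriv f) := by
  obtain ⟨h1, h2, -⟩ := h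
  have hf' : Differentiable ℝ (deriv f) := (h1.iterate_deriv' 1 1).differentiable (by norm_num)
  exact ⟨fun x => (h1.differentiable (by norm_num) x).hasDerivAt, fun x =>
    (hf' x).hasDerivAt.congr_deriv (by linarith [h2 x])⟩

/-- the solution with given data at the origin -/
noncomputable def solMap (q : ℝ → ℝ) (t : ℝ) : (ℝ × ℝ) →ₗ[ℝ] (ℝ → ℝ) where
  toFun v := fun x => v.1 * thr q t x + v.2 * phr q t x
  map_add' u v := by funext x; simp; ring
  map_smul' c v := by funext x; simp; ring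

/-- monodromy minus a scalar -/
noncomputable def monoMap (q : ℝ → ℝ) (s t : ℝ) : (ℝ × ℝ) →ₗ[ℝ] (ℝ × ℝ) where
  toFun v := ((ar q t - s) * v.1 + br q t * v.2, cr q t * v.1 + (dr q t - s) * v.2)
  map_add' u v := by ext <;> simp <;> ring
  map_smul' c v := by ext <;> simp <;> ring

theorem solMap_inj (hq : Continuous q) (t : ℝ) : Function.Injective (solMap q t) := by
  rw [injective_iff_map_eq_zero]
  intro v hv
  have hs := (thr_sol hq t).lin (phr_sol hq t) v.1 v.2
  have h0 := congrFun hv 0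
  have h1 : v.1 * thr' q t 0 + v.2 * phr' q t 0 = 0 := by
    have := hs.d1 0
    rw [show (fun x => v.1 * thr q t x + v.2 * phr q t x) = fun _ => 0 from hv] at this
    exact this.unique (hasDerivAt_const _ _)
  simp only [solMap, LinearMap.coe_mk, AddHom.coe_mk, thr_zero hq, phr_zero hq, thr'_zero hq,
    phr'_zero hq, mul_one, mul_zero, add_zero, zero_add, Pi.zero_apply] at h0 h1
  exact Prod.ext h0 h1

theorem IsSol.shift_one_real (hp : Function.Periodic q 1) {t : ℝ} {y y' : ℝ → ℝ}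
    (h : IsSol (fun x => q x - t) y y') :
    IsSol (fun x => q x - t) (fun x => y (x + 1)) (fun x => y' (x + 1)) := by
  have := h.shift 1
  simpa only [hp _] using this

theorem eigSpace_eq (hq : Continuous q) (hp : Function.Periodic q 1) (s t : ℝ) :
    eigSpace q s t = (LinearMap.ker (monoMap q s t)).map (solMap q t) := by
  ext f
  constructor
  · intro hf
    have hs := isSol_of_mem hf
    have h3 : ∀ x, f (x + 1) = s * f x := hf.2.2
    have h4 : deriv f 1 = s * deriv f 0 := by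
      have a := (hs.d1 (0 + 1)).comp_add_const 0 1
      rw [show (fun x => f (x + 1)) = fun x => s * f x from funext h3] at a
      simpa using a.unique ((hs.d1 0).const_mul s)
    have r := solr_rep hq hs 1
    refine ⟨(f 0, deriv f 0), ?_, ?_⟩
    · have h5 := h3 0
      rw [zero_add] at h5
      simp only [SetLike.mem_coe, LinearMap.mem_ker, monoMap, LinearMap.coe_mk, AddHom.coe_mk,
        Prod.mk_eq_zero, ar, br, cr, dr]
      constructor
      · linear_combination h5 - r.1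
      · linear_combination h4 - r.2
    · funext x
      exact (solr_rep hq hs x).1.symm
  · rintro ⟨v, hv, rfl⟩
    have hs := (thr_sol hq t).lin (phr_sol hq t) v.1 v.2
    simp only [SetLike.mem_coe, LinearMap.mem_ker, monoMap, LinearMap.coe_mk, AddHom.coe_mk,
        Prod.mk_eq_zero, ar, br, cr, dr] at hv
    refine ⟨hs.contDiff_two (by fun_prop), fun x => ?_, fun x => ?_⟩
    · have e1 : deriv (solMap q t v) = fun x => v.1 * thr' q t x + v.2 * phr' q t x :=
        funext fun x => (hs.d1 x).deriv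
      rw [e1, (hs.d2 x).deriv]
      simp only [solMap, LinearMap.coe_mk, AddHom.coe_mk]
      ring
    · have r := (solr_rep hq (hs.shift_one_real hp) x).1
      simp only [zero_add] at r
      simp only [solMap, LinearMap.coe_mk, AddHom.coe_mk]
      rw [r]
      linear_combination thr q t x * hv.1 + phr q t x * hv.2

theorem mult_eq (hq : Continuous q) (hp : Function.Periodic q 1) (s t : ℝ) :
    mult q s t = Module.finrank ℝ (LinearMap.ker (monoMap q s t)) := by
  unfold mult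
  rw [eigSpace_eq hq hp]
  exact (Submodule.equivMapOfInjective _ (solMap_inj hq t) _).finrank_eq.symm

theorem mult_eq_zero (hq : Continuous q) (hp : Function.Periodic q 1) {s t : ℝ} (hs : s ^ 2 = 1)
    (h : Dr q t ≠ s) : mult q s t = 0 := by
  rw [mult_eq hq hp, Submodule.finrank_eq_zero, LinearMap.ker_eq_bot']
  intro v hv
  simp only [monoMap, LinearMap.coe_mk, AddHom.coe_mk, Prod.mk_eq_zero] at hv
  have hdet := mdetr hq t
  have hs0 : s ≠ 0 := by rintro rfl; norm_num at hs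
  have hne : (2 * s) * (s - Dr q t) ≠ 0 := mul_ne_zero (by simpa using hs0) (sub_ne_zero.2 h.symm)
  have e : (2 * s) * (s - Dr q t) = (ar q t - s) * (dr q t - s) - br q t * cr q t := by
    unfold Dr; linear_combination hs - hdet
  ext
  · refine (mul_eq_zero.1 ?_).resolve_left hne
    rw [e]; linear_combination (dr q t - s) * hv.1 - br q t * hv.2
  · refine (mul_eq_zero.1 ?_).resolve_left hne
    rw [e]; linear_combination (ar q t - s) * hv.2 - cr q t * hv.1

theorem mult_eq_two (hq : Continuous q) (hp : Function.Periodic q 1) {s t : ℝ}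
    (h : Dr q t = s) (hd : Dbl q t) : mult q s t = 2 := by
  have : monoMap q s t = 0 := by
    obtain ⟨h1, h2, h3⟩ := hd
    have ha : ar q t = s := by unfold Dr at h; unfold Nr at h3; linarith
    have hd : dr q t = s := by unfold Dr at h; unfold Nr at h3; linarith
    ext <;> simp [monoMap, h1, h2, ha, hd]
  rw [mult_eq hq hp, this, LinearMap.ker_zero, finrank_top]
  simp

theorem mult_eq_one (hq : Continuous q) (hp : Function.Periodic q 1) {s t : ℝ} (hs : s ^ 2 = 1)
    (h : Dr q t = s) (hd : ¬ Dbl q t) : mult q s t = 1 := by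
  rw [mult_eq hq hp]
  have hdet := mdetr hq t
  have hD : ar q t + dr q t = 2 * s := by unfold Dr at h; linarith
  have h1 : LinearMap.ker (monoMap q s t) ≠ ⊤ := by
    intro e
    have a : ((1 : ℝ), (0 : ℝ)) ∈ LinearMap.ker (monoMap q s t) := e ▸ Submodule.mem_top
    have b : ((0 : ℝ), (1 : ℝ)) ∈ LinearMap.ker (monoMap q s t) := e ▸ Submodule.mem_top
    simp only [LinearMap.mem_ker, monoMap, LinearMap.coe_mk, AddHom.coe_mk, Prod.mk_eq_zero,
      mul_one, mul_zero, add_zero, zero_add] at a b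
    exact hd ⟨b.1, a.2, by unfold Nr; linarith [a.1, b.2]⟩
  have h2 : LinearMap.ker (monoMap q s t) ≠ ⊥ := by
    intro e
    have a : (br q t, s - ar q t) ∈ LinearMap.ker (monoMap q s t) := by
      simp only [LinearMap.mem_ker, monoMap, LinearMap.coe_mk, AddHom.coe_mk, Prod.mk_eq_zero]
      constructor
      · ring
      · linear_combination -hdet + s * hD + hs
    have b : (s - dr q t, cr q t) ∈ LinearMap.ker (monoMap q s t) := by
      simp only [LinearMap.mem_ker, monoMap, LinearMap.coe_mk, AddHom.coe_mk, Prod.mk_eq_zero]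
      constructor
      · linear_combination -hdet + s * hD + hs
      · ring
    rw [e, Submodule.mem_bot, Prod.mk_eq_zero] at a b
    exact hd ⟨a.1, b.2, by unfold Nr; linarith [a.2, b.1]⟩
  have h3 := Submodule.finrank_lt h1
  have h4 : Module.finrank ℝ (LinearMap.ker (monoMap q s t)) ≠ 0 := by
    rwa [Ne, Submodule.finrank_eq_zero]
  have h5 : Module.finrank ℝ (ℝ × ℝ) = 2 := by simp
  omega

open Classical in
theorem mult_formula (hq : Continuous q) (hp : Function.Periodic q 1) {s : ℝ} (hs : s ^ 2 = 1)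
    (t : ℝ) : mult q s t = if Dr q t = s then (if Dr1 q t = 0 then 2 else 1) else 0 := by
  split_ifs with h1 h2
  · exact mult_eq_two hq hp h1 ((dbl_iff hq (by rw [h1, hs])).2 h2)
  · exact mult_eq_one hq hp hs h1 (fun h => h2 ((dbl_iff hq (by rw [h1, hs])).1 h))
  · exact mult_eq_zero hq hp hs h1

theorem Dr1_congr {p : ℝ → ℝ} (hq : Continuous q) (hp : Continuous p) (h : Dr p = Dr q) :
    Dr1 p = Dr1 q := funext fun t => (Dr_hasDerivAt hp t).unique (h ▸ Dr_hasDerivAt hq t)

theorem mem_iso_of_Dr {p : ℝ → ℝ} (hq : Cinf q) (hp : Cinf p) (h : Dr p = Dr q) : p ∈ Iso q := by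
  have h1 := Dr1_congr hq.1.continuous hp.1.continuous h
  refine ⟨hp, fun t => ⟨?_, ?_⟩⟩
  · rw [mult_formula hp.1.continuous hp.2 (by norm_num),
      mult_formula hq.1.continuous hq.2 (by norm_num), h, h1]
  · rw [mult_formula hp.1.continuous hp.2 (by norm_num),
      mult_formula hq.1.continuous hq.2 (by norm_num), h, h1]

theorem Dl_est (hq : Continuous q) {Q : ℝ} (hQ : ∀ x, |q x| ≤ Q) {k : ℂ} (hk0 : k ≠ 0)
    (hk : 2 * Q ≤ ‖k‖) : ‖Dl q (k ^ 2) - Complex.cos k‖ ≤ 2 * Q / ‖k‖ * Real.exp |k.im| := by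
  obtain ⟨a, -, -, d⟩ := est hq hQ hk0 hk (t := 1) (by simp)
  simp only [Complex.ofReal_one, mul_one] at a d
  have : Dl q (k ^ 2) - Complex.cos k =
      ((th q (k ^ 2) 1 - Complex.cos k) + (ph' q (k ^ 2) 1 - Complex.cos k)) / 2 := by
    unfold Dl ma md; ring
  rw [this, norm_div]
  have := norm_add_le (th q (k ^ 2) 1 - Complex.cos k) (ph' q (k ^ 2) 1 - Complex.cos k)
  simp only [Complex.norm_ofNat]
  linarith

theorem Nn_est (hq : Continuous q) {Q : ℝ} (hQ : ∀ x, |q x| ≤ Q) {k : ℂ} (hk0 : k ≠ 0)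
    (hk : 2 * Q ≤ ‖k‖) : ‖Nn q (k ^ 2)‖ ≤ 2 * Q / ‖k‖ * Real.exp |k.im| := by
  obtain ⟨a, -, -, d⟩ := est hq hQ hk0 hk (t := 1) (by simp)
  simp only [Complex.ofReal_one, mul_one] at a d
  have : Nn q (k ^ 2) =
      ((ph' q (k ^ 2) 1 - Complex.cos k) - (th q (k ^ 2) 1 - Complex.cos k)) / 2 := by
    unfold Nn ma md; ring
  rw [this, norm_div]
  have := norm_sub_le (ph' q (k ^ 2) 1 - Complex.cos k) (th q (k ^ 2) 1 - Complex.cos k)
  simp only [Complex.norm_ofNat]
  linarith

theorem mb_est (hq : Continuous q) {Q : ℝ} (hQ : ∀ x, |q x| ≤ Q) {k : ℂ} (hk0 : k ≠ 0)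
    (hk : 2 * Q ≤ ‖k‖) : ‖k * mb q (k ^ 2) - Complex.sin k‖ ≤ 2 * Q / ‖k‖ * Real.exp |k.im| := by
  simpa [mb] using (est hq hQ hk0 hk (t := 1) (by simp)).2.2.1

theorem mc_est (hq : Continuous q) {Q : ℝ} (hQ : ∀ x, |q x| ≤ Q) {k : ℂ} (hk0 : k ≠ 0)
    (hk : 2 * Q ≤ ‖k‖) : ‖mc q (k ^ 2) + k * Complex.sin k‖ ≤ 2 * Q * Real.exp |k.im| := by
  simpa [mc] using (est hq hQ hk0 hk (t := 1) (by simp)).2.1

theorem eventually_bd_ge (R : ℝ) : ∀ᶠ n : ℕ in atTop, ∀ k, Bd n k → R ≤ ‖k‖ := by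
  filter_upwards [tendsto_natCast_atTop_atTop.eventually (eventually_ge_atTop R)] with n hn k hk
  have := hk.norm_ge
  have h3 := Real.pi_gt_three
  have : (0 : ℝ) ≤ n := Nat.cast_nonneg n
  nlinarith

theorem mb_lower (hq : Continuous q) {Q : ℝ} (hQ : ∀ x, |q x| ≤ Q) {n : ℕ} {k : ℂ} (hb : Bd n k)
    (hk : 16 * Q + 1 ≤ ‖k‖) : Real.exp |k.im| / 8 ≤ ‖k‖ * ‖mb q (k ^ 2)‖ := by
  have hQ0 : 0 ≤ Q := (abs_nonneg _).trans (hQ 0)
  have hkp : 0 < ‖k‖ := by linarith
  have h1 := mb_est hq hQ (norm_pos_iff.1 hkp) (by linarith)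
  have h2 := hb.sin_lower
  have h3 := norm_sub_le (k * mb q (k ^ 2)) (k * mb q (k ^ 2) - Complex.sin k)
  rw [sub_sub_cancel, norm_mul] at h3
  have h4 : 2 * Q / ‖k‖ ≤ 1 / 8 := by rw [div_le_iff₀ hkp]; linarith
  have := mul_le_mul_of_nonneg_right h4 (Real.exp_pos |k.im|).le
  linarith

theorem Dl_sq_lower (hq : Continuous q) {Q : ℝ} (hQ : ∀ x, |q x| ≤ Q) {n : ℕ} {k : ℂ} (hb : Bd n k)
    (hk : 192 * Q + 1 ≤ ‖k‖) : Real.exp |k.im| ^ 2 / 32 ≤ ‖Dl q (k ^ 2) ^ 2 - 1‖ := by
  have hQ0 : 0 ≤ Q := (abs_nonneg _).trans (hQ 0)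
  have hkp : 0 < ‖k‖ := by linarith
  have h1 := Dl_est hq hQ (norm_pos_iff.1 hkp) (by linarith)
  have h2 := hb.sin_lower
  have hc := norm_cos_le k zero_le_one
  simp only [Complex.ofReal_one, mul_one] at hc
  set E := Real.exp |k.im|
  have hE : 0 < E := Real.exp_pos _
  have h4 : 2 * Q / ‖k‖ ≤ 1 / 96 := by rw [div_le_iff₀ hkp]; linarith
  have h5 : ‖Dl q (k ^ 2) - Complex.cos k‖ ≤ E / 96 := by
    have := mul_le_mul_of_nonneg_right h4 hE.le
    linarith
  set δ := Dl q (k ^ 2) - Complex.cos k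
  have e : Complex.sin k ^ 2 = δ * (δ + 2 * Complex.cos k) - (Dl q (k ^ 2) ^ 2 - 1) := by
    simp only [δ]; linear_combination Complex.sin_sq_add_cos_sq k
  have h6 : ‖δ + 2 * Complex.cos k‖ ≤ 3 * E := by
    refine (norm_add_le _ _).trans ?_
    rw [norm_mul, Complex.norm_ofNat]; linarith
  have h7 := norm_sub_le (δ * (δ + 2 * Complex.cos k)) (Dl q (k ^ 2) ^ 2 - 1)
  rw [← e, norm_pow, norm_mul] at h7
  have h8 := mul_le_mul h5 h6 (norm_nonneg _) (by positivity)
  have h9 : (E / 4) ^ 2 ≤ ‖Complex.sin k‖ ^ 2 := pow_le_pow_left₀ (by positivity) h2 2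
  nlinarith

theorem factor_one {f : ℂ → ℂ} (hf : Differentiable ℂ f) {z : ℂ} (h : f z = 0) :
    Differentiable ℂ (dslope f z) ∧ dslope f z z = deriv f z ∧
      ∀ u, f u = (u - z) * dslope f z u := by
  refine ⟨?_, dslope_same _ _, fun u => ?_⟩
  · rw [← differentiableOn_univ] at hf ⊢
    exact (Complex.differentiableOn_dslope univ_mem).2 hf
  · have := sub_smul_dslope f z u
    rw [h, sub_zero, smul_eq_mul] at this
    exact this.symm

theorem Dl_eq_of_iso {p : ℝ → ℝ} (hq : Cinf q) (hp : p ∈ Iso q) (z : ℂ) : Dl p z = Dl q z := by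
  have cq := hq.1.continuous
  have cp := hp.1.1.continuous
  obtain ⟨Q1, -, hQ1⟩ := exists_bound_periodic cq hq.2
  obtain ⟨Q2, -, hQ2⟩ := exists_bound_periodic cp hp.1.2
  have hQq : ∀ x, |q x| ≤ max Q1 Q2 := fun x => (hQ1 x).trans (le_max_left _ _)
  have hQp : ∀ x, |p x| ≤ max Q1 Q2 := fun x => (hQ2 x).trans (le_max_right _ _)
  set Q := max Q1 Q2
  have hQ0 : 0 ≤ Q := (abs_nonneg _).trans (hQq 0)
  have hE : Differentiable ℂ fun z => Dl p z - Dl q z := (Dl_diff cp).sub (Dl_diff cq)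
  have hA : Differentiable ℂ fun z => Dl q z ^ 2 - 1 := ((Dl_diff cq).pow 2).sub_const 1
  refine sub_eq_zero.1 (vanish _ _ hE hA ?_ ?_ z)
  · intro z hz
    obtain ⟨t, rfl⟩ : ∃ t : ℝ, z = t :=
      ⟨z.re, Complex.ext rfl (by simpa using im_eq_zero_of_Dl cq hz)⟩
    have hD : Dr q t ^ 2 = 1 := by
      rw [Dl_real cq] at hz
      have : Dr q t ^ 2 - 1 = 0 := by exact_mod_cast hz
      linarith
    have hm : mult p (Dr q t) t = mult q (Dr q t) t := by
      rcases sq_eq_one_iff.1 hD with h | h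
      · rw [h]; exact (hp.2 t).1
      · rw [h]; exact (hp.2 t).2
    rw [mult_formula cp hp.1.2 hD, mult_formula cq hq.2 hD, if_pos rfl] at hm
    have hpq : Dr p t = Dr q t := by
      by_contra hne
      rw [if_neg hne] at hm
      split_ifs at hm
    rw [if_pos hpq] at hm
    have hE0 : Dl p t - Dl q t = 0 := by rw [Dl_real cp, Dl_real cq, hpq, sub_self]
    obtain ⟨e1, e2, e3⟩ := factor_one hE hE0
    have dD : ∀ {r : ℝ → ℝ}, Continuous r → HasDerivAt (Dl r) (Dr1 r t) t := fun {r} hr =>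
      (((ma_hasDerivAt hr t).fun_add (md_hasDerivAt hr t)).div_const 2).congr_deriv (by
        simp only [ma_real hr, mb_real hr, mc_real hr, md_real hr, I0_one hr, I1_one hr,
          I2_one hr, Dr1, Nr]
        push_cast; ring)
    by_cases h1 : Dr1 q t = 0
    · have h2 : Dr1 p t = 0 := by
        by_contra hne
        rw [if_neg hne, if_pos h1] at hm
        omega
      have hE1 : dslope (fun z => Dl p z - Dl q z) t t = 0 := by
        rw [e2, ((dD cp).fun_sub (dD cq)).deriv, h1, h2]; simp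
      obtain ⟨f1, -, f3⟩ := factor_one e1 hE1
      obtain ⟨b0, c0, n0⟩ := (dbl_iff cq hD).2 h1
      obtain ⟨b1, b2, b3⟩ := factor_one (mb_diff cq) (z := t) (by rw [mb_real cq, b0]; simp)
      obtain ⟨c1, c2, c3⟩ := factor_one (mc_diff cq) (z := t) (by rw [mc_real cq, c0]; simp)
      obtain ⟨n1, n2, n3⟩ := factor_one (Nn_diff cq) (z := t) (by rw [Nn_real cq, n0]; simp)
      refine ⟨2, fun u => dslope (Nn q) t u ^ 2 + dslope (mb q) t u * dslope (mc q) t u,
        dslope (dslope (fun z => Dl p z - Dl q z) t) t,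
        ((n1.pow 2).add (b1.mul c1)).analyticAt _, f1.analyticAt _, ?_,
        Eventually.of_forall fun u => ?_, Eventually.of_forall fun u => ?_⟩
      · have dN : HasDerivAt (Nn q) _ t :=
          ((md_hasDerivAt cq t).fun_sub (ma_hasDerivAt cq t)).div_const 2
        have ha : ar q t = Dr q t := by unfold Dr; unfold Nr at n0; linarith
        have hd : dr q t = Dr q t := by unfold Dr; unfold Nr at n0; linarith
        simp only [n2, b2, c2, dN.deriv, (mb_hasDerivAt cq t).deriv, (mc_hasDerivAt cq t).deriv,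
          ma_real cq, mb_real cq, mc_real cq, md_real cq, I0_one cq, I1_one cq, I2_one cq, b0, c0,
          ha, hd]
        have cs := J_cs cq t
        have : ((0 * J2 q t 1 - Dr q t * J1 q t 1 - (Dr q t * J1 q t 1 - 0 * J0 q t 1)) / 2) ^ 2
            + (Dr q t * J2 q t 1 - 0 * J1 q t 1) * (0 * J1 q t 1 - Dr q t * J0 q t 1) ≠ 0 := by
          have e : ((0 * J2 q t 1 - Dr q t * J1 q t 1 - (Dr q t * J1 q t 1 - 0 * J0 q t 1)) / 2) ^ 2
            + (Dr q t * J2 q t 1 - 0 * J1 q t 1) * (0 * J1 q t 1 - Dr q t * J0 q t 1) =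
            Dr q t ^ 2 * (J1 q t 1 ^ 2 - J0 q t 1 * J2 q t 1) := by ring
          rw [e, hD]; linarith
        exact_mod_cast this
      · simp only []
        rw [disc cq, n3 u, b3 u, c3 u]; ring
      · rw [e3 u, f3 u]; ring
    · obtain ⟨a1, a2, a3⟩ := factor_one hA hz
      refine ⟨1, _, _, a1.analyticAt _, e1.analyticAt _, ?_,
        Eventually.of_forall fun u => by rw [pow_one]; exact a3 u,
        Eventually.of_forall fun u => by rw [pow_one]; exact e3 u⟩
      rw [a2, (((dD cq).fun_pow 2).sub_const 1).deriv, Dl_real cq]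
      have hD0 : Dr q t ≠ 0 := by rintro h; rw [h] at hD; norm_num at hD
      simp [hD0, h1]
  · intro ε hε
    filter_upwards [eventually_bd_ge (192 * Q + 1), eventually_bd_ge (128 * Q / ε)]
      with n h1 h2 k hk
    have hk1 := h1 k hk
    have hk2 := h2 k hk
    have hkp : 0 < ‖k‖ := by linarith
    have l := Dl_sq_lower cq hQq hk hk1
    have a := Dl_est cq hQq (norm_pos_iff.1 hkp) (by linarith)
    have b := Dl_est cp hQp (norm_pos_iff.1 hkp) (by linarith)
    have hE1 : 1 ≤ Real.exp |k.im| := Real.one_le_exp (abs_nonneg _)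
    set E := Real.exp |k.im|
    refine ⟨norm_pos_iff.1 (lt_of_lt_of_le (by positivity) l), ?_⟩
    have c := norm_sub_le (Dl p (k ^ 2) - Complex.cos k) (Dl q (k ^ 2) - Complex.cos k)
    rw [sub_sub_sub_cancel_right] at c
    have d : 2 * Q / ‖k‖ ≤ ε / 64 := by
      rw [div_le_iff₀ hε] at hk2
      rw [div_le_iff₀ hkp]; linarith
    have f := mul_le_mul_of_nonneg_right d (by linarith : 0 ≤ E)
    have g := mul_le_mul_of_nonneg_left l hε.le
    nlinarith [mul_le_mul_of_nonneg_left hE1 (by positivity : 0 ≤ ε * E)]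

theorem Dr_eq_of_iso {p : ℝ → ℝ} (hq : Cinf q) (hp : p ∈ Iso q) : Dr p = Dr q := by
  funext t
  have := Dl_eq_of_iso hq hp t
  rw [Dl_real hq.1.continuous, Dl_real hp.1.1.continuous] at this
  exact_mod_cast this

end Pool.Agent.P.MP_aabf10_an
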