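import Pool.Agent.P.MP_aabf10_an.Mult

/-!
# Enumeration of the Dirichlet eigenvalues by the Pruefer angle
-/

open scoped ContDiff Topology Real
open Filter Finset Set MeasureTheory

namespace Pool.Agent.P.MP_aabf10_an

variable {q : ℝ → ℝ}

theorem cross_up {f : ℝ → ℝ} (hf : Continuous f) {L : ℝ} {S : Set ℝ} (hS : S.OrdConnected)
    (h : ∀ t ∈ S, f t = L → (∀ᶠ u in 𝓝[>] t, L < f u) ∧ ∀ᶠ u in 𝓝[<] t, f u < L)
    {t₁ t₂ : ℝ} (h1 : t₁ ∈ S) (h2 : t₂ ∈ S) (hlt : t₁ < t₂) (hL : L ≤ f t₁) : L < f t₂ := by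
  by_contra hle
  push Not at hle
  obtain ⟨s, hs1, hs2, hs3⟩ : ∃ s, t₁ ≤ s ∧ s < t₂ ∧ L < f s := by
    rcases hL.eq_or_lt with e | e
    · obtain ⟨s, hs, hs'⟩ := (((h t₁ h1 e.symm).1).and (Ioo_mem_nhdsGT hlt)).exists
      exact ⟨s, hs'.1.le, hs'.2, hs⟩
    · exact ⟨t₁, le_rfl, hlt, e⟩
  have hc : IsCompact (Icc s t₂ ∩ {t | f t ≤ L}) :=
    isCompact_Icc.inter_right (isClosed_le hf continuous_const)
  obtain ⟨m, ⟨hm1, hm2⟩, hmin⟩ := hc.exists_isLeast ⟨t₂, ⟨hs2.le, le_rfl⟩, hle⟩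
  have hsm : s < m := lt_of_le_of_ne hm1.1 (by rintro rfl; exact absurd hm2 (not_le.2 hs3))
  have hgt : ∀ᶠ u in 𝓝[<] m, L < f u := by
    filter_upwards [Ioo_mem_nhdsLT hsm] with u hu
    by_contra hh
    exact absurd (hmin ⟨⟨hu.1.le, hu.2.le.trans hm1.2⟩, not_lt.1 hh⟩) (not_le.2 hu.2)
  have hge : L ≤ f m :=
    ge_of_tendsto (hf.continuousAt.tendsto.mono_left nhdsWithin_le_nhds) (hgt.mono fun _ => le_of_lt)
  have hmS : m ∈ S := hS.out h1 h2 ⟨hs1.trans hm1.1, hm1.2⟩
  obtain ⟨u, hu1, hu2⟩ := (((h m hmS (le_antisymm hm2 hge)).2).and hgt).exists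
  linarith

theorem cross_of_deriv {f : ℝ → ℝ} {f' t : ℝ} (h : HasDerivAt f f' t) (hp : 0 < f') :
    (∀ᶠ u in 𝓝[>] t, f t < f u) ∧ ∀ᶠ u in 𝓝[<] t, f u < f t := by
  have := (hasDerivAt_iff_tendsto_slope.1 h).eventually (Ioi_mem_nhds hp)
  constructor
  · filter_upwards [nhdsWithin_mono t (fun u (hu : u ∈ Ioi t) => hu.ne') this,
      self_mem_nhdsWithin] with u hu hu'
    rw [slope_def_field] at hu
    have := (div_pos_iff_of_pos_right (sub_pos.2 hu')).1 hu
    linarith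
  · filter_upwards [nhdsWithin_mono t (fun u (hu : u ∈ Iio t) => hu.ne) this,
      self_mem_nhdsWithin] with u hu hu'
    rw [slope_def_field] at hu
    have h3 : u - t < 0 := sub_neg.2 hu'
    have := (div_pos_iff.1 hu).resolve_left (fun hh => absurd hh.2 (not_lt.2 h3.le))
    linarith [this.1]

theorem thr_jc (hq : Continuous q) : Continuous fun u : ℝ × ℝ => thr q u.1 u.2 :=
  Complex.continuous_re.comp ((th_jc hq).comp (f := fun u : ℝ × ℝ => ((u.1 : ℂ), u.2))
    (by fun_prop))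
theorem thr'_jc (hq : Continuous q) : Continuous fun u : ℝ × ℝ => thr' q u.1 u.2 :=
  Complex.continuous_re.comp ((th'_jc hq).comp (f := fun u : ℝ × ℝ => ((u.1 : ℂ), u.2))
    (by fun_prop))
theorem phr_jc (hq : Continuous q) : Continuous fun u : ℝ × ℝ => phr q u.1 u.2 :=
  Complex.continuous_re.comp ((ph_jc hq).comp (f := fun u : ℝ × ℝ => ((u.1 : ℂ), u.2))
    (by fun_prop))
theorem phr'_jc (hq : Continuous q) : Continuous fun u : ℝ × ℝ => phr' q u.1 u.2 :=
  Complex.continuous_re.comp ((ph'_jc hq).comp (f := fun u : ℝ × ℝ => ((u.1 : ℂ), u.2))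
    (by fun_prop))

noncomputable def kap (t : ℝ) : ℝ := √(max t 1)

theorem kap_pos (t : ℝ) : 0 < kap t := Real.sqrt_pos.2 (lt_of_lt_of_le one_pos (le_max_right _ _))

noncomputable def pz (q : ℝ → ℝ) (t x : ℝ) : ℂ :=
  (phr' q t x : ℂ) + (kap t * phr q t x : ℝ) * Complex.I
noncomputable def pz1 (q : ℝ → ℝ) (t x : ℝ) : ℂ :=
  (((q x - t) * phr q t x : ℝ) : ℂ) + (kap t * phr' q t x : ℝ) * Complex.I
noncomputable def pL (q : ℝ → ℝ) (t x : ℝ) : ℂ := ∫ s in (0 : ℝ)..x, pz1 q t s / pz q t s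
/-- the Pruefer angle -/
noncomputable def pr (q : ℝ → ℝ) (t x : ℝ) : ℝ := (pL q t x).im

theorem pz_normSq_pos (hq : Continuous q) (t x : ℝ) :
    0 < phr' q t x ^ 2 + (kap t * phr q t x) ^ 2 := by
  have hw := wrr hq t x
  have hk := kap_pos t
  by_contra h
  have h1 : phr' q t x = 0 := by nlinarith [sq_nonneg (phr' q t x), sq_nonneg (kap t * phr q t x)]
  have h2 : kap t * phr q t x = 0 := by
    nlinarith [sq_nonneg (phr' q t x), sq_nonneg (kap t * phr q t x)]
  rw [h1, (mul_eq_zero.1 h2).resolve_left hk.ne'] at hw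
  simp at hw

theorem pz_ne (hq : Continuous q) (t x : ℝ) : pz q t x ≠ 0 := by
  intro h
  have := pz_normSq_pos hq t x
  have h2 := Complex.normSq_add_mul_I (phr' q t x) (kap t * phr q t x)
  rw [show (phr' q t x : ℂ) + (kap t * phr q t x : ℝ) * Complex.I = pz q t x from rfl, h] at h2
  simp only [map_zero] at h2
  linarith

theorem pq_jc (hq : Continuous q) : Continuous fun u : ℝ × ℝ => pz1 q u.1 u.2 / pz q u.1 u.2 := by
  have c1 := phr_jc hq
  have c2 := phr'_jc hq
  have c3 : Continuous kap := by unfold kap; fun_prop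
  refine Continuous.div ?_ ?_ fun u => pz_ne hq _ _
  · unfold pz1; fun_prop
  · unfold pz; fun_prop

theorem pr_cont (hq : Continuous q) : Continuous fun t => pr q t 1 :=
  Complex.continuous_im.comp
    (intervalIntegral.continuous_parametric_intervalIntegral_of_continuous' (pq_jc hq) 0 1)

theorem pL_hasDerivAt (hq : Continuous q) (t x : ℝ) :
    HasDerivAt (pL q t) (pz1 q t x / pz q t x) x :=
  hasDerivAt_prim ((pq_jc hq).comp (f := fun s : ℝ => (t, s)) (by fun_prop)) 0 x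

theorem pr_cont_x (hq : Continuous q) (t : ℝ) : Continuous (pr q t) :=
  Complex.continuous_im.comp
    (continuous_iff_continuousAt.2 fun x => (pL_hasDerivAt hq t x).continuousAt)

theorem pz_eq (hq : Continuous q) (t x : ℝ) : pz q t x = Complex.exp (pL q t x) := by
  have hd : ∀ x, HasDerivAt (pz q t) (pz1 q t x) x := fun x =>
    ((phr_sol hq t).d2 x).ofReal_comp.fun_add
      ((((phr_sol hq t).d1 x).const_mul (kap t)).ofReal_comp.mul_const Complex.I)
  have := const_of_hasDerivAt_zero (f := fun x => pz q t x * Complex.exp (-pL q t x))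
    (fun x => ((hd x).fun_mul (pL_hasDerivAt hq t x).fun_neg.cexp).congr_deriv (by
      have := pz_ne hq t x
      field_simp; ring)) x 0
  have h0 : pz q t 0 * Complex.exp (-pL q t 0) = 1 := by
    simp [pz, pL, phr_zero hq, phr'_zero hq]
  simp only [h0] at this
  rw [Complex.exp_neg] at this
  have hne := Complex.exp_ne_zero (pL q t x)
  field_simp at this
  exact this

theorem pr_polar (hq : Continuous q) (t x : ℝ) : ∃ R : ℝ, 0 < R ∧
    phr' q t x = R * Real.cos (pr q t x) ∧ kap t * phr q t x = R * Real.sin (pr q t x) := by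
  have := pz_eq hq t x
  refine ⟨Real.exp (pL q t x).re, Real.exp_pos _, ?_, ?_⟩
  · have h := congrArg Complex.re this
    rw [Complex.exp_re] at h
    simpa [pz, pr] using h
  · have h := congrArg Complex.im this
    rw [Complex.exp_im] at h
    simpa [pz, pr] using h

theorem pr_bound (hq : Continuous q) {Q : ℝ} (hQ : ∀ x, |q x| ≤ Q) {t : ℝ} (ht : 1 ≤ t) :
    |pr q t 1 - √t| ≤ Q / √t := by
  have hk : kap t = √t := by unfold kap; rw [max_eq_left ht]
  have hk0 := kap_pos t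
  have hk2 : kap t ^ 2 = t := by rw [hk, Real.sq_sqrt (by linarith)]
  have hc : Continuous fun s => pz1 q t s / pz q t s :=
    (pq_jc hq).comp (f := fun s : ℝ => (t, s)) (by fun_prop)
  have e : pr q t 1 - √t = ∫ s in (0 : ℝ)..1, ((pz1 q t s / pz q t s).im - kap t) := by
    have hc' : Continuous fun s => (pz1 q t s / pz q t s).im := Complex.continuous_im.comp hc
    rw [intervalIntegral.integral_sub (hc'.intervalIntegrable _ _)
      (continuous_const.intervalIntegrable _ _)]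
    have := Complex.imCLM.intervalIntegral_comp_comm (hc.intervalIntegrable (μ := volume) 0 1)
    simp only [Complex.imCLM_apply] at this
    rw [this]
    simp [pr, pL, hk]
  rw [e, ← hk]
  have := intervalIntegral.norm_integral_le_of_norm_le_const (a := 0) (b := 1) (C := Q / kap t)
    (f := fun s => (pz1 q t s / pz q t s).im - kap t) (fun s _ => ?_)
  · simpa using this
  have hn := pz_normSq_pos hq t s
  have e2 : (pz1 q t s / pz q t s).im - kap t =
      -(q s / kap t) * ((kap t * phr q t s) ^ 2 / (phr' q t s ^ 2 + (kap t * phr q t s) ^ 2)) := by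
    rw [Complex.div_im]
    have : Complex.normSq (pz q t s) = phr' q t s ^ 2 + (kap t * phr q t s) ^ 2 :=
      Complex.normSq_add_mul_I _ _
    rw [this]
    simp only [pz, pz1, Complex.add_im, Complex.ofReal_im, Complex.mul_im, Complex.ofReal_re,
      Complex.I_im, mul_one, Complex.I_re, mul_zero, add_zero, zero_add, Complex.add_re,
      Complex.mul_re, sub_self]
    have hn' := hn.ne'
    have hk' := hk0.ne'
    generalize kap t = κ at *
    generalize phr q t s = y at *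
    generalize phr' q t s = y' at *
    rw [← hk2]
    obtain ⟨D, hD⟩ : ∃ D, y' ^ 2 + (κ * y) ^ 2 = D := ⟨_, rfl⟩
    rw [hD] at hn' ⊢
    field_simp
    rw [← hD]; ring
  rw [e2, Real.norm_eq_abs, abs_mul, abs_neg, abs_div, abs_of_pos hk0]
  have h1 : |(kap t * phr q t s) ^ 2 / (phr' q t s ^ 2 + (kap t * phr q t s) ^ 2)| ≤ 1 := by
    rw [abs_of_nonneg (by positivity), div_le_one hn]
    nlinarith [sq_nonneg (phr' q t s)]
  have h2 : |q s| / kap t ≤ Q / kap t := div_le_div_of_nonneg_right (hQ s) hk0.le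
  calc _ ≤ Q / kap t * 1 := mul_le_mul h2 h1 (abs_nonneg _) ((by positivity : (0 : ℝ) ≤ _).trans h2)
    _ = _ := mul_one _

theorem neg_facts (hq : Continuous q) {Q : ℝ} (hQ : ∀ x, |q x| ≤ Q) {t : ℝ}
    (ht : t ≤ -(8 * Q + 4) ^ 2) :
    (∀ x ∈ Icc (0 : ℝ) 1, 0 < phr' q t x) ∧ 0 < br q t ∧ 1 < Dr q t := by
  have hQ0 : 0 ≤ Q := (abs_nonneg _).trans (hQ 0)
  set κ := √(-t)
  have hκ : 8 * Q + 4 ≤ κ := Real.le_sqrt_of_sq_le (by linarith)
  have hκ2 : κ ^ 2 = -t := Real.sq_sqrt (by nlinarith)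
  have hk2 : ((κ : ℂ) * Complex.I) ^ 2 = (t : ℂ) := by
    rw [mul_pow, Complex.I_sq, ← Complex.ofReal_pow, hκ2]; simp
  have hkn : ‖(κ : ℂ) * Complex.I‖ = κ := by simp [abs_of_nonneg (by linarith : 0 ≤ κ)]
  have hki : |((κ : ℂ) * Complex.I).im| = κ := by simp [abs_of_nonneg (by linarith : 0 ≤ κ)]
  have key : ∀ x ∈ Icc (0 : ℝ) 1, Real.exp (κ * x) / 4 ≤ thr q t x ∧
      Real.exp (κ * x) / 4 ≤ phr' q t x := by
    intro x hx
    obtain ⟨a, -, -, d⟩ := est hq hQ (k := (κ : ℂ) * Complex.I)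
      (norm_pos_iff.1 (by rw [hkn]; linarith)) (by rw [hkn]; linarith) hx
    have ec : Complex.cos ((κ : ℂ) * Complex.I * x) = (Real.cosh (κ * x) : ℝ) := by
      rw [show (κ : ℂ) * Complex.I * x = (κ * x : ℝ) * Complex.I by push_cast; ring,
        Complex.cos_mul_I, Complex.ofReal_cosh]
    rw [hk2, hkn, hki, ec] at a d
    rw [th_real hq, ← Complex.ofReal_sub, Complex.norm_real, Real.norm_eq_abs] at a
    rw [ph'_real hq, ← Complex.ofReal_sub, Complex.norm_real, Real.norm_eq_abs] at d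
    have h4 : 2 * Q / κ ≤ 1 / 4 := by rw [div_le_iff₀ (by linarith)]; linarith
    have h5 := mul_le_mul_of_nonneg_right h4 (Real.exp_pos (κ * x)).le
    have h6 : Real.exp (κ * x) / 2 ≤ Real.cosh (κ * x) := by
      rw [Real.cosh_eq]; linarith [Real.exp_pos (-(κ * x))]
    constructor
    · linarith [(abs_le.1 a).1]
    · linarith [(abs_le.1 d).1]
  have h1 : ∀ x ∈ Icc (0 : ℝ) 1, 0 < phr' q t x := fun x hx =>
    lt_of_lt_of_le (by positivity) (key x hx).2
  refine ⟨h1, ?_, ?_⟩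
  · have := ftc (phr_sol hq t).d1 (phr_sol hq t).cont' 0 1
    rw [phr_zero hq, sub_zero] at this
    unfold br
    rw [← this]
    exact intervalIntegral.intervalIntegral_pos_of_pos_on
      ((phr_sol hq t).cont'.intervalIntegrable _ _) (fun x hx => h1 x ⟨hx.1.le, hx.2.le⟩) one_pos
  · have := key 1 (by simp)
    rw [mul_one] at this
    have h2 := Real.add_one_le_exp κ
    unfold Dr ar dr
    linarith [this.1, this.2]

theorem ar_mul_dr (hq : Continuous q) {t : ℝ} (hb : br q t = 0) : ar q t * dr q t = 1 := by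
  have := mdetr hq t
  rw [hb] at this; linarith

theorem pr_cross (hq : Continuous q) (j : ℕ) (t : ℝ) (h : pr q t 1 = j * π) :
    (∀ᶠ u in 𝓝[>] t, j * π < pr q u 1) ∧ ∀ᶠ u in 𝓝[<] t, pr q u 1 < j * π := by
  obtain ⟨R, hR, h1, h2⟩ := pr_polar hq t 1
  rw [h] at h1 h2
  rw [Real.sin_nat_mul_pi, mul_zero] at h2
  rw [Real.cos_nat_mul_pi] at h1
  have hb : br q t = 0 := (mul_eq_zero.1 h2).resolve_left (kap_pos t).ne'
  have had := ar_mul_dr hq hb
  have hs : ((-1 : ℝ) ^ j) ^ 2 = 1 := by rw [← pow_mul, mul_comm, pow_mul]; simp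
  have hd : dr q t = R * (-1) ^ j := h1
  have ha : 0 < (-1) ^ j * ar q t := by
    have : R * ((-1) ^ j * ar q t) = 1 := by rw [hd] at had; linear_combination had
    by_contra hh
    nlinarith
  have hder := (br_hasDerivAt hq t).const_mul ((-1 : ℝ) ^ j)
  have hc := cross_of_deriv hder (by
    rw [hb, zero_mul, sub_zero, ← mul_assoc]; exact mul_pos ha (J2_pos hq t))
  simp only [hb, mul_zero] at hc
  have hnear : ∀ᶠ u in 𝓝 t, pr q u 1 ∈ Ioo (j * π - π) (j * π + π) :=
    (pr_cont hq).continuousAt.eventually (Ioo_mem_nhds (by simp only [h]; linarith [Real.pi_pos])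
      (by simp only [h]; linarith [Real.pi_pos]))
  have hsin : ∀ u, ∃ c : ℝ, 0 < c ∧ Real.sin (pr q u 1 - j * π) = c * ((-1) ^ j * br q u) := by
    intro u
    obtain ⟨R, hR, -, h2⟩ := pr_polar hq u 1
    refine ⟨kap u / R, div_pos (kap_pos u) hR, ?_⟩
    rw [Real.sin_sub_nat_mul_pi]
    have : Real.sin (pr q u 1) = kap u * br q u / R := by
      rw [eq_div_iff hR.ne']; unfold br; linarith
    rw [this]; ring
  constructor
  · filter_upwards [hc.1, nhdsWithin_le_nhds hnear] with u h1 h2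
    obtain ⟨c, hc0, hc1⟩ := hsin u
    by_contra hh
    have := Real.sin_nonpos_of_nonpos_of_neg_pi_le (x := pr q u 1 - j * π) (by linarith)
      (by linarith [h2.1])
    nlinarith [mul_pos hc0 h1]
  · filter_upwards [hc.2, nhdsWithin_le_nhds hnear] with u h1 h2
    obtain ⟨c, hc0, hc1⟩ := hsin u
    by_contra hh
    have := Real.sin_nonneg_of_nonneg_of_le_pi (x := pr q u 1 - j * π) (by linarith)
      (by linarith [h2.2])
    nlinarith [mul_neg_of_pos_of_neg hc0 h1]

theorem pr_up (hq : Continuous q) (j : ℕ) {t₁ t₂ : ℝ} (hlt : t₁ < t₂) (h : j * π ≤ pr q t₁ 1) :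
    j * π < pr q t₂ 1 :=
  cross_up (pr_cont hq) ordConnected_univ (fun t _ ht => pr_cross hq j t ht) (mem_univ _)
    (mem_univ _) hlt h

theorem pr_init (hq : Continuous q) {Q : ℝ} (hQ : ∀ x, |q x| ≤ Q) {t : ℝ}
    (ht : t ≤ -(8 * Q + 4) ^ 2) : 0 < pr q t 1 ∧ pr q t 1 < π := by
  obtain ⟨h1, h2, -⟩ := neg_facts hq hQ ht
  have hcos : ∀ x ∈ Icc (0 : ℝ) 1, Real.cos (pr q t x) ≠ 0 := by
    intro x hx h0
    obtain ⟨R, -, e, -⟩ := pr_polar hq t x
    have := h1 x hx
    rw [e, h0] at this; simp at this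
  have h0 : pr q t 0 = 0 := by simp [pr, pL]
  have hpi := Real.pi_pos
  have hu : pr q t 1 < π / 2 := by
    by_contra hh
    obtain ⟨x, hx, e⟩ := intermediate_value_Icc zero_le_one (pr_cont_x hq t).continuousOn
      (show π / 2 ∈ Icc (pr q t 0) (pr q t 1) from ⟨by rw [h0]; linarith, not_lt.1 hh⟩)
    exact hcos x hx (by rw [e, Real.cos_pi_div_two])
  have hl : -(π / 2) < pr q t 1 := by
    by_contra hh
    obtain ⟨x, hx, e⟩ := intermediate_value_Icc' zero_le_one (pr_cont_x hq t).continuousOn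
      (show -(π / 2) ∈ Icc (pr q t 1) (pr q t 0) from ⟨not_lt.1 hh, by rw [h0]; linarith⟩)
    exact hcos x hx (by rw [e, Real.cos_neg, Real.cos_pi_div_two])
  refine ⟨?_, by linarith⟩
  obtain ⟨R, hR, -, e⟩ := pr_polar hq t 1
  by_contra hh
  have := Real.sin_nonpos_of_nonpos_of_neg_pi_le (not_lt.1 hh) (by linarith)
  have h3 : 0 < kap t * phr q t 1 := mul_pos (kap_pos t) h2
  nlinarith

/-- The Dirichlet eigenvalues `mu 1 < mu 2 < ...`, with a dummy `mu 0` below the spectrum. -/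
structure IsDir (q : ℝ → ℝ) (Q : ℝ) (mu : ℕ → ℝ) : Prop where
  mono : StrictMono mu
  low : ∀ t ≤ mu 0, 0 < br q t ∧ 1 < Dr q t
  zero_iff : ∀ t, br q t = 0 ↔ ∃ j, 1 ≤ j ∧ t = mu j
  sign_d : ∀ j, 1 ≤ j → 0 < (-1) ^ j * dr q (mu j)
  sign_b : ∀ j, ∀ t ∈ Ioo (mu j) (mu (j + 1)), 0 < (-1) ^ j * br q t
  asym : ∀ j, 1 ≤ mu j → |√(mu j) - j * π| ≤ Q / √(mu j)
  large : ∀ j : ℕ, 2 + Q ≤ j * π → 1 ≤ mu j

theorem exists_isDir (hq : Continuous q) {Q : ℝ} (hQ : ∀ x, |q x| ≤ Q) : ∃ mu, IsDir q Q mu := by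
  have hQ0 : 0 ≤ Q := (abs_nonneg _).trans (hQ 0)
  have hpi := Real.pi_gt_three
  set t₀ := -(8 * Q + 4) ^ 2
  have hi := pr_init hq hQ (le_refl t₀)
  have hex : ∀ j : ℕ, ∃ t, (j = 0 → t = t₀) ∧ (1 ≤ j → t₀ < t ∧ pr q t 1 = j * π) := by
    intro j
    rcases Nat.eq_zero_or_pos j with rfl | hj
    · exact ⟨t₀, fun _ => rfl, fun h => absurd h (by norm_num)⟩
    have hj1 : (1 : ℝ) ≤ j := by exact_mod_cast hj
    set T := (j * π + Q + 1) ^ 2
    have hT1 : 1 ≤ j * π + Q + 1 := by nlinarith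
    have hT : √T = j * π + Q + 1 := Real.sqrt_sq (by linarith)
    have hb := pr_bound hq hQ (t := T) (by nlinarith)
    rw [hT] at hb
    have hq1 : Q / (j * π + Q + 1) ≤ Q := div_le_self hQ0 hT1
    have htT : t₀ ≤ T := by simp only [t₀, T]; nlinarith [sq_nonneg (8 * Q + 4)]
    obtain ⟨t, ht, e⟩ := intermediate_value_Icc htT (pr_cont hq).continuousOn
      (show (j : ℝ) * π ∈ Icc (pr q t₀ 1) (pr q T 1) from
        ⟨by nlinarith [hi.2], by linarith [(abs_le.1 hb).1]⟩)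
    refine ⟨t, fun h => absurd h hj.ne', fun _ => ⟨lt_of_le_of_ne ht.1 ?_, e⟩⟩
    rintro rfl
    simp only [] at e
    nlinarith [hi.2]
  choose mu h0 h1 using hex
  have m0 : mu 0 = t₀ := h0 0 rfl
  have hlow : ∀ j : ℕ, ∀ t, mu j < t → j * π < pr q t 1 := by
    intro j t ht
    refine pr_up hq j ht ?_
    rcases Nat.eq_zero_or_pos j with rfl | hj
    · rw [m0]; simpa using hi.1.le
    · exact (h1 j hj).2.ge
  have hup : ∀ j : ℕ, 1 ≤ j → ∀ t, t < mu j → pr q t 1 < j * π := by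
    intro j hj t ht
    by_contra hh
    exact absurd (pr_up hq j ht (not_lt.1 hh)) (by rw [(h1 j hj).2]; exact lt_irrefl _)
  have hmono : StrictMono mu := by
    refine strictMono_nat_of_lt_succ fun j => ?_
    rcases Nat.eq_zero_or_pos j with rfl | hj
    · rw [m0]; exact (h1 1 le_rfl).1
    · by_contra hh
      have a := (h1 j hj).2
      have b := (h1 (j + 1) (by omega)).2
      rcases (not_lt.1 hh).eq_or_lt with e | e
      · rw [e, a] at b; push_cast at b; linarith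
      · have := hlow (j + 1) _ e
        rw [a] at this; push_cast at this; linarith
  refine ⟨mu, hmono, fun t ht => (neg_facts hq hQ (ht.trans m0.le)).2, fun t => ⟨fun hb => ?_, ?_⟩,
    fun j hj => ?_, fun j t ht => ?_, fun j hj => ?_, fun j hj => ?_⟩
  · have ht : t₀ < t := by
      by_contra hh
      exact absurd hb (neg_facts hq hQ (not_lt.1 hh)).2.1.ne'
    obtain ⟨R, hR, -, e⟩ := pr_polar hq t 1
    rw [show phr q t 1 = 0 from hb, mul_zero] at e
    obtain ⟨n, hn⟩ := Real.sin_eq_zero_iff.1 ((mul_eq_zero.1 e.symm).resolve_left hR.ne')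
    have hpos := hlow 0 t (m0 ▸ ht)
    have hn0 : 0 < n := by
      have : (0 : ℝ) < n := by
        simp only [Nat.cast_zero, zero_mul] at hpos
        rw [← hn] at hpos
        exact (mul_pos_iff_of_pos_right Real.pi_pos).1 hpos
      exact_mod_cast this
    obtain ⟨j, rfl⟩ := Int.eq_ofNat_of_zero_le hn0.le
    have hj : 1 ≤ j := by exact_mod_cast hn0
    refine ⟨j, hj, ?_⟩
    rw [Int.cast_natCast] at hn
    rcases lt_trichotomy t (mu j) with h | h | h
    · exact absurd (hup j hj t h) (by rw [hn]; exact lt_irrefl _)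
    · exact h
    · exact absurd (hlow j t h) (by rw [hn]; exact lt_irrefl _)
  · rintro ⟨j, hj, rfl⟩
    obtain ⟨R, hR, -, e⟩ := pr_polar hq (mu j) 1
    rw [(h1 j hj).2, Real.sin_nat_mul_pi, mul_zero] at e
    exact (mul_eq_zero.1 e).resolve_left (kap_pos _).ne'
  · obtain ⟨R, hR, e, -⟩ := pr_polar hq (mu j) 1
    rw [(h1 j hj).2, Real.cos_nat_mul_pi] at e
    have hs : ((-1 : ℝ) ^ j) ^ 2 = 1 := by rw [← pow_mul, mul_comm, pow_mul]; simp
    rw [show dr q (mu j) = R * (-1) ^ j from e]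
    nlinarith
  · have a := hlow j t ht.1
    have b := hup (j + 1) (by omega) t ht.2
    push_cast at b
    obtain ⟨R, hR, -, e⟩ := pr_polar hq t 1
    have c := Real.sin_pos_of_pos_of_lt_pi (x := pr q t 1 - j * π) (by linarith) (by linarith)
    rw [Real.sin_sub_nat_mul_pi] at c
    have hk := kap_pos t
    have : kap t * ((-1) ^ j * br q t) = R * ((-1) ^ j * Real.sin (pr q t 1)) := by
      unfold br; linear_combination (-1) ^ j * e
    have h3 : 0 < kap t * ((-1) ^ j * br q t) := this ▸ mul_pos hR c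
    exact (mul_pos_iff_of_pos_left hk).1 h3
  · rcases Nat.eq_zero_or_pos j with rfl | hj0
    · rw [m0] at hj; simp only [t₀] at hj; nlinarith [sq_nonneg (8 * Q + 4)]
    · have := pr_bound hq hQ hj
      rwa [(h1 j hj0).2, abs_sub_comm] at this
  · by_contra hh
    have a := hlow j 1 (not_le.1 hh)
    have b := pr_bound hq hQ (le_refl 1)
    simp only [Real.sqrt_one, div_one] at b
    linarith [(abs_le.1 b).2]

end Pool.Agent.P.MP_aabf10_an
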