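import Pool.Agent.P.MP_aabf10_an.Defs

/-!
# Density of weighted polynomial values versus annihilators in `l^2`
-/

open scoped ContDiff Topology Real
open Filter Finset

namespace Pool.Agent.P.MP_aabf10_an

/-- no square summable sequence annihilates all weighted powers, except trivially -/
def Ann (a w : ℕ → ℝ) : Prop :=
  ∀ s : ℕ → ℝ, Summable (fun n => s n ^ 2) →
    (∀ k : ℕ, HasSum (fun n => s n * w n * a n ^ k) 0) → ∀ n, s n * w n = 0

/-- weighted polynomial values are dense in weighted `l^2` -/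
def Spn (a w : ℕ → ℝ) : Prop :=
  ∀ f : ℕ → ℝ, Summable (fun n => (w n * f n) ^ 2) → ∀ ε > 0, ∃ p : Polynomial ℝ,
    Summable (fun n => (w n * p.eval (a n)) ^ 2) ∧
    ∑' n, (w n * (f n - p.eval (a n))) ^ 2 < ε

lemma Dens.ann {a w : ℕ → ℝ} (h : Dens a w) : Ann a w := by
  intro s hs hk n₀
  by_cases hw : w n₀ = 0
  · rw [hw, mul_zero]
  have hp : ∀ p : Polynomial ℝ, HasSum (fun n => s n * (w n * p.eval (a n))) 0 := fun p => by
    have := hasSum_sum (s := range (p.natDegree + 1)) fun k _ => (hk k).mul_left (p.coeff k)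
    simp only [mul_zero, sum_const_zero] at this
    refine this.congr_fun fun n => ?_
    rw [Polynomial.eval_eq_sum_range, mul_sum, mul_sum]
    exact sum_congr rfl fun k _ => by ring
  have hS : 0 ≤ ∑' n, s n ^ 2 := tsum_nonneg fun n => sq_nonneg _
  have key : ∀ ε > 0, (s n₀ * w n₀) ^ 2 ≤ (∑' n, s n ^ 2) * ε := fun ε hε => by
    obtain ⟨p, hp1, hp2⟩ := h n₀ hw ε hε
    have t0 : Tendsto (fun T : Finset ℕ => ∑ n ∈ T, s n * (w n * p.eval (a n))) atTop (𝓝 0) :=
      hp p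
    have t1 : Tendsto (fun T : Finset ℕ => (∑ n ∈ T, s n * (w n * p.eval (a n)) - s n₀ * w n₀) ^ 2)
        atTop (𝓝 ((0 - s n₀ * w n₀) ^ 2)) := (t0.sub_const _).pow 2
    rw [zero_sub, neg_sq] at t1
    refine le_of_tendsto t1 ?_
    filter_upwards [eventually_ge_atTop {n₀}] with T hT
    have hm : n₀ ∈ T := hT (mem_singleton_self _)
    rw [← add_sum_erase T _ hm, hp1, mul_one, add_sub_cancel_left]
    exact (sum_mul_sq_le_sq_mul_sq _ _ _).trans (mul_le_mul
      (hs.sum_le_tsum _ fun _ _ => sq_nonneg _) (hp2 _ (notMem_erase _ _))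
      (sum_nonneg fun _ _ => sq_nonneg _) hS)
  have : (s n₀ * w n₀) ^ 2 ≤ 0 := le_of_forall_pos_le_add fun ε hε => by
    refine (key (ε / (∑' n, s n ^ 2 + 1)) (by positivity)).trans ?_
    rw [zero_add, mul_div_assoc', div_le_iff₀ (by positivity)]
    nlinarith
  exact pow_eq_zero_iff two_ne_zero |>.mp (le_antisymm this (sq_nonneg _))

lemma summable_sq_add {u v : ℕ → ℝ} (hu : Summable fun n => u n ^ 2)
    (hv : Summable fun n => v n ^ 2) : Summable fun n => (u n + v n) ^ 2 :=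
  Summable.of_nonneg_of_le (fun _ => sq_nonneg _)
    (fun n => by nlinarith [sq_nonneg (u n - v n)]) ((hu.add hv).mul_left 2)

lemma Spn.dens {a w : ℕ → ℝ} (h : Spn a w) : Dens a w := by
  intro n₀ hw ε hε
  have hf : Summable fun n => (w n * (if n = n₀ then 1 else 0 : ℝ)) ^ 2 :=
    summable_of_ne_finset_zero (s := {n₀}) fun n hn => by
      rw [if_neg (by simpa using hn)]; simp
  have hw2 : 0 < w n₀ ^ 2 := by positivity
  obtain ⟨p, hp1, hp2⟩ := h _ hf (min (w n₀ ^ 2 / 4) (ε / 4)) (by positivity)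
  have hs : Summable fun n => (w n * ((if n = n₀ then 1 else 0 : ℝ) - p.eval (a n))) ^ 2 := by
    have := summable_sq_add hf (v := fun n => -(w n * p.eval (a n))) (by simpa using hp1)
    exact this.congr fun n => by ring
  have h1 := (hs.sum_le_tsum {n₀} fun _ _ => sq_nonneg _).trans_lt
    (hp2.trans_le (min_le_left _ _))
  rw [sum_singleton, if_pos rfl, mul_pow] at h1
  have h2 : (1 - p.eval (a n₀)) ^ 2 < 1 / 4 := by
    by_contra hc
    nlinarith [mul_le_mul_of_nonneg_left (not_lt.mp hc) hw2.le]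
  have h3 : 1 / 2 ≤ p.eval (a n₀) := by nlinarith
  have h4 : 0 < p.eval (a n₀) := by linarith
  refine ⟨Polynomial.C (p.eval (a n₀))⁻¹ * p, by simp [h4.ne'], fun T hT => ?_⟩
  have h5 := (hs.sum_le_tsum T fun _ _ => sq_nonneg _).trans
    (hp2.trans_le (min_le_right _ _)).le
  have h6 : (p.eval (a n₀))⁻¹ ^ 2 ≤ 4 := by
    have : (p.eval (a n₀))⁻¹ ≤ 2 := by rw [inv_le_comm₀ h4 two_pos]; linarith
    nlinarith [inv_pos.mpr h4]
  have h7 : ∑ n ∈ T, (w n * (Polynomial.C (p.eval (a n₀))⁻¹ * p).eval (a n)) ^ 2 =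
      (p.eval (a n₀))⁻¹ ^ 2 *
        ∑ n ∈ T, (w n * ((if n = n₀ then 1 else 0 : ℝ) - p.eval (a n))) ^ 2 := by
    rw [mul_sum]
    refine sum_congr rfl fun n hn => ?_
    rw [if_neg fun h : n = n₀ => hT (h ▸ hn), Polynomial.eval_mul, Polynomial.eval_C]
    ring
  rw [h7]
  calc _ ≤ 4 * (ε / 4) := mul_le_mul h6 h5 (sum_nonneg fun _ _ => sq_nonneg _) (by norm_num)
    _ = ε := by ring

lemma mem_two_iff (u : ℕ → ℝ) : Memℓp u 2 ↔ Summable fun n => u n ^ 2 := by
  rw [memℓp_gen_iff (by norm_num)]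
  simp

lemma Ann.spn {a w : ℕ → ℝ} (H : ∀ k : ℕ, Summable fun n => (w n * a n ^ k) ^ 2)
    (h : Ann a w) : Spn a w := by
  intro f hf ε hε
  let v : ℕ → lp (fun _ : ℕ => ℝ) 2 := fun k => ⟨fun n => w n * a n ^ k, (mem_two_iff _).2 (H k)⟩
  let g : lp (fun _ : ℕ => ℝ) 2 := ⟨fun n => w n * f n, (mem_two_iff _).2 hf⟩
  let U := Submodule.span ℝ (Set.range v)
  have hU : ∀ u ∈ U, ∃ p : Polynomial ℝ, ∀ n, u n = w n * p.eval (a n) := fun u hu => by
    induction hu using Submodule.span_induction with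
    | mem x hx =>
      obtain ⟨k, rfl⟩ := hx
      exact ⟨Polynomial.X ^ k, fun n => by simp [v]⟩
    | zero => exact ⟨0, fun n => by simp⟩
    | add x y _ _ hx hy =>
      obtain ⟨p, hp⟩ := hx
      obtain ⟨q, hq⟩ := hy
      exact ⟨p + q, fun n => by simp [hp, hq, mul_add]⟩
    | smul c x _ hx =>
      obtain ⟨p, hp⟩ := hx
      exact ⟨Polynomial.C c * p, fun n => by simp [hp]; ring⟩
  have hg : g ∈ U.topologicalClosure := by
    rw [← Submodule.orthogonal_orthogonal_eq_closure, Submodule.mem_orthogonal]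
    intro s hs
    have h1 := h s ((mem_two_iff _).1 s.2) fun k => by
      have h2 := lp.hasSum_inner (𝕜 := ℝ) (v k) s
      rw [hs (v k) (Submodule.subset_span ⟨k, rfl⟩)] at h2
      exact h2.congr_fun fun n => by simp [v]; ring
    have h2 := lp.hasSum_inner (𝕜 := ℝ) s g
    have h3 : (fun n => inner ℝ (s n) (g n)) = fun _ => 0 := funext fun n => by
      simp only [g, RCLike.inner_apply, conj_trivial]
      linear_combination f n * h1 n
    rw [h3] at h2
    exact h2.unique hasSum_zero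
  obtain ⟨u, hu, hd⟩ := Metric.mem_closure_iff.1 hg (Real.sqrt ε) (Real.sqrt_pos.2 hε)
  obtain ⟨p, hp⟩ := hU u hu
  refine ⟨p, ((mem_two_iff _).1 u.2).congr fun n => by rw [hp], ?_⟩
  have h2 := lp.hasSum_inner (𝕜 := ℝ) (g - u) (g - u)
  rw [real_inner_self_eq_norm_sq] at h2
  have h3 : HasSum (fun n => (w n * (f n - p.eval (a n))) ^ 2) (‖g - u‖ ^ 2) :=
    h2.congr_fun fun n => by simp [g, hp]; ring
  rw [h3.tsum_eq, ← dist_eq_norm]
  exact (Real.lt_sqrt dist_nonneg).1 hd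

lemma summable_succ_pow {w : ℕ → ℝ} (hdec : ∀ k : ℕ, Summable fun n : ℕ => (n : ℝ) ^ k * w n)
    (k : ℕ) : Summable fun n : ℕ => ((n : ℝ) + 1) ^ k * w n := by
  have := summable_sum (s := range (k + 1)) fun m _ => (hdec m).mul_left (k.choose m : ℝ)
  refine this.congr fun n => ?_
  rw [add_pow, sum_mul]
  exact sum_congr rfl fun m _ => by ring

lemma summable_sq_of_abs {u v : ℕ → ℝ} (hv : Summable v) (h : ∀ n, |u n| ≤ v n) :
    Summable fun n => u n ^ 2 := by
  have h1 : Summable u := Summable.of_norm_bounded hv h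
  obtain ⟨M, hM⟩ := h1.tendsto_cofinite_zero.abs.bddAbove_range_of_cofinite
  refine Summable.of_nonneg_of_le (fun _ => sq_nonneg _) (fun n => ?_) (hv.mul_left M)
  rw [← sq_abs, sq]
  have := hM ⟨n, rfl⟩
  exact mul_le_mul this (h n) (abs_nonneg _) ((abs_nonneg _).trans this)

lemma summable_weighted {a w : ℕ → ℝ} (hw : ∀ n, 0 ≤ w n) {C : ℝ}
    (ha : ∀ n : ℕ, |a n - ((n : ℝ) * π) ^ 2| ≤ C)
    (hdec : ∀ k : ℕ, Summable fun n : ℕ => (n : ℝ) ^ k * w n) (k : ℕ) :
    Summable fun n => (w n * a n ^ k) ^ 2 := by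
  have hC : 0 ≤ C := (abs_nonneg _).trans (ha 0)
  refine summable_sq_of_abs ((summable_succ_pow hdec (2 * k)).mul_left ((π ^ 2 + C) ^ k))
    fun n => ?_
  have h1 : |a n| ≤ (π ^ 2 + C) * ((n : ℝ) + 1) ^ 2 := by
    have h2 := abs_le.1 (ha n)
    have h3 : (0 : ℝ) ≤ n := n.cast_nonneg
    have h4 : 0 ≤ C * n ^ 2 + C * n := by positivity
    have h5 : 0 ≤ π ^ 2 * n := by positivity
    have h6 : 0 ≤ π ^ 2 * n ^ 2 := by positivity
    have h7 : 0 ≤ π ^ 2 := by positivity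
    rw [abs_le]
    constructor <;> nlinarith
  rw [abs_mul, abs_of_nonneg (hw n), abs_pow, pow_mul, ← mul_assoc, ← mul_pow, mul_comm]
  exact mul_le_mul_of_nonneg_right (pow_le_pow_left₀ (abs_nonneg _) h1 k) (hw n)

lemma dens_iff_ann {a w : ℕ → ℝ} (H : ∀ k : ℕ, Summable fun n => (w n * a n ^ k) ^ 2) :
    Dens a w ↔ Ann a w := ⟨Dens.ann, fun h => (h.spn H).dens⟩

/-- density of all of weighted `l^2` versus density of the unit vectors -/
theorem spans_iff_dens (a w : ℕ → ℝ) (hw : ∀ n, 0 ≤ w n) (C : ℝ)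
    (ha : ∀ n : ℕ, |a n - ((n : ℝ) * π) ^ 2| ≤ C)
    (hdec : ∀ k : ℕ, Summable fun n : ℕ => (n : ℝ) ^ k * w n) :
    (∀ f : ℕ → ℝ, Summable (fun n => (w n * f n) ^ 2) → ∀ ε > 0, ∃ p : Polynomial ℝ,
      Summable (fun n => (w n * p.eval (a n)) ^ 2) ∧
      ∑' n, (w n * (f n - p.eval (a n))) ^ 2 < ε) ↔ Dens a w :=
  ⟨Spn.dens, fun h => h.ann.spn (summable_weighted hw ha hdec)⟩

end Pool.Agent.P.MP_aabf10_an
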