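import Pool.Agent.P.MP_aabf10_an.Est

/-!
# Sign facts for real spectral parameter; reality of eigenvalues
-/

open scoped ContDiff Topology Real
open Filter Finset Set MeasureTheory

namespace Pool.Agent.P.MP_aabf10_an

variable {q : ℝ → ℝ}

theorem sq_int_pos (hq : Continuous q) {z : ℂ} {y y' : ℝ → ℂ} (h : IsSol (pot q z) y y')
    (h0 : y 0 ≠ 0 ∨ y' 0 ≠ 0) : 0 < ∫ x in (0 : ℝ)..1, ‖y x‖ ^ 2 := by
  have hc := h.cont
  have := intervalIntegral.integral_lt_integral_of_continuousOn_of_le_of_exists_lt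
    (f := fun _ => (0 : ℝ)) (g := fun x => ‖y x‖ ^ 2) zero_lt_one continuousOn_const
    (by fun_prop) (fun x _ => by positivity) ?_
  · simpa using this
  by_contra hne
  push Not at hne
  have hz : ∀ x ∈ Icc (0 : ℝ) 1, y x = 0 := fun x hx => by
    have := hne x hx
    have h2 : ‖y x‖ ^ 2 = 0 := le_antisymm this (by positivity)
    simpa using h2
  have h1 : y' (1 / 2) = 0 := by
    have e : y =ᶠ[𝓝 (1 / 2)] fun _ => 0 := by
      filter_upwards [Icc_mem_nhds (show (0 : ℝ) < 1 / 2 by norm_num)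
        (show (1 / 2 : ℝ) < 1 by norm_num)] with x hx using hz x hx
    exact ((h.d1 (1 / 2)).congr_of_eventuallyEq e.symm).unique (hasDerivAt_const _ _)
  have h2 := hz (1 / 2) (by constructor <;> norm_num)
  have r := sol_rep hq h (1 / 2)
  have w := wr hq z (1 / 2)
  rw [h1, h2] at r
  have a1 : y 0 = 0 := by
    linear_combination (-ph' q z (1 / 2)) * r.1 + ph q z (1 / 2) * r.2 - y 0 * w
  have a2 : y' 0 = 0 := by
    linear_combination (th' q z (1 / 2)) * r.1 - th q z (1 / 2) * r.2 - y' 0 * w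
  tauto

theorem im_eq_zero_of_bdry (hq : Continuous q) {z : ℂ} {y y' : ℝ → ℂ} (h : IsSol (pot q z) y y')
    (h0 : y 0 ≠ 0 ∨ y' 0 ≠ 0)
    (hb : y 1 * (starRingEnd ℂ) (y' 1) - y' 1 * (starRingEnd ℂ) (y 1) =
      y 0 * (starRingEnd ℂ) (y' 0) - y' 0 * (starRingEnd ℂ) (y 0)) : z.im = 0 := by
  have hc : IsSol (pot q ((starRingEnd ℂ) z)) (fun x => (starRingEnd ℂ) (y x))
      (fun x => (starRingEnd ℂ) (y' x)) :=
    ⟨fun x => Complex.conjCLE.toContinuousLinearMap.hasFDerivAt.comp_hasDerivAt x (h.d1 x),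
     fun x => (Complex.conjCLE.toContinuousLinearMap.hasFDerivAt.comp_hasDerivAt x
      (h.d2 x)).congr_deriv (by simp [pot])⟩
  have := wr_integral (pot_cont hq _) (pot_cont hq _) h hc 0 1
  rw [hb, sub_self] at this
  have e : ∀ x, (pot q ((starRingEnd ℂ) z) x - pot q z x) * (y x * (starRingEnd ℂ) (y x)) =
      (z - (starRingEnd ℂ) z) * ((‖y x‖ ^ 2 : ℝ) : ℂ) := by
    intro x
    rw [Complex.mul_conj, Complex.normSq_eq_norm_sq]
    simp [pot]
  simp only [e] at this
  rw [intervalIntegral.integral_const_mul, intervalIntegral.integral_ofReal] at this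
  rcases mul_eq_zero.1 this with h1 | h1
  · have := congrArg Complex.im h1
    simp at this
    linarith
  · exact absurd (Complex.ofReal_eq_zero.1 h1) (sq_int_pos hq h h0).ne'

theorem im_eq_zero_of_mb (hq : Continuous q) {z : ℂ} (h : mb q z = 0) : z.im = 0 :=
  im_eq_zero_of_bdry hq (ph_sol hq z) (Or.inr (by simp [ph'_zero hq])) (by
    have : ph q z 1 = 0 := h
    simp [this, ph_zero hq])

theorem im_eq_zero_of_Dl (hq : Continuous q) {z : ℂ} (h : Dl q z ^ 2 - 1 = 0) : z.im = 0 := by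
  obtain ⟨s, hs, hD⟩ : ∃ s : ℝ, s ^ 2 = 1 ∧ Dl q z = s := by
    rcases mul_eq_zero.1 (show (Dl q z - 1) * (Dl q z + 1) = 0 by linear_combination h) with h | h
    · exact ⟨1, by norm_num, by simpa [sub_eq_zero] using h⟩
    · exact ⟨-1, by norm_num, by simpa [add_eq_zero_iff_eq_neg] using h⟩
  by_cases hb : mb q z = 0
  · exact im_eq_zero_of_mb hq hb
  have hs' : (s : ℂ) ^ 2 = 1 := by exact_mod_cast hs
  have hdet := mdet hq z
  have hD' : ma q z + md q z = 2 * s := by unfold Dl at hD; linear_combination 2 * hD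
  have hy := (th_sol hq z).lin (ph_sol hq z) (mb q z) (s - ma q z)
  refine im_eq_zero_of_bdry hq hy (Or.inl (by simpa [th_zero hq, ph_zero hq] using hb)) ?_
  have e1 : mb q z * th q z 1 + (s - ma q z) * ph q z 1 = s * mb q z := by
    change mb q z * ma q z + (s - ma q z) * mb q z = _; ring
  have e2 : mb q z * th' q z 1 + (s - ma q z) * ph' q z 1 = s * (s - ma q z) := by
    change mb q z * mc q z + (s - ma q z) * md q z = _
    linear_combination -hdet + s * hD' + hs'
  simp only [e1, e2, th_zero hq, ph_zero hq, th'_zero hq, ph'_zero hq, mul_one, mul_zero, add_zero,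
    zero_add, map_mul, Complex.conj_ofReal]
  linear_combination (mb q z * (starRingEnd ℂ) (s - ma q z) -
    (s - ma q z) * (starRingEnd ℂ) (mb q z)) * hs'

noncomputable def ar (q : ℝ → ℝ) (t : ℝ) : ℝ := thr q t 1
noncomputable def br (q : ℝ → ℝ) (t : ℝ) : ℝ := phr q t 1
noncomputable def cr (q : ℝ → ℝ) (t : ℝ) : ℝ := thr' q t 1
noncomputable def dr (q : ℝ → ℝ) (t : ℝ) : ℝ := phr' q t 1
noncomputable def Dr (q : ℝ → ℝ) (t : ℝ) : ℝ := (ar q t + dr q t) / 2
noncomputable def Nr (q : ℝ → ℝ) (t : ℝ) : ℝ := (dr q t - ar q t) / 2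
noncomputable def bxr (q : ℝ → ℝ) (t x : ℝ) : ℝ :=
  br q t * thr q t x ^ 2 + 2 * Nr q t * (thr q t x * phr q t x) - cr q t * phr q t x ^ 2
noncomputable def bx1r (q : ℝ → ℝ) (t x : ℝ) : ℝ :=
  2 * br q t * (thr q t x * thr' q t x)
    + 2 * Nr q t * (thr' q t x * phr q t x + thr q t x * phr' q t x)
    - 2 * cr q t * (phr q t x * phr' q t x)
noncomputable def J0 (q : ℝ → ℝ) (t : ℝ) (h : ℝ → ℝ) : ℝ :=
  ∫ s in (0 : ℝ)..1, h s * (thr q t s * thr q t s)
noncomputable def J1 (q : ℝ → ℝ) (t : ℝ) (h : ℝ → ℝ) : ℝ :=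
  ∫ s in (0 : ℝ)..1, h s * (thr q t s * phr q t s)
noncomputable def J2 (q : ℝ → ℝ) (t : ℝ) (h : ℝ → ℝ) : ℝ :=
  ∫ s in (0 : ℝ)..1, h s * (phr q t s * phr q t s)

theorem ma_real (hq : Continuous q) (t : ℝ) : ma q t = ar q t := th_real hq t 1
theorem mb_real (hq : Continuous q) (t : ℝ) : mb q t = br q t := ph_real hq t 1
theorem mc_real (hq : Continuous q) (t : ℝ) : mc q t = cr q t := th'_real hq t 1
theorem md_real (hq : Continuous q) (t : ℝ) : md q t = dr q t := ph'_real hq t 1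
theorem Dl_real (hq : Continuous q) (t : ℝ) : Dl q t = Dr q t := by
  simp [Dl, Dr, ma_real hq, md_real hq]
theorem Nn_real (hq : Continuous q) (t : ℝ) : Nn q t = Nr q t := by
  simp [Nn, Nr, ma_real hq, md_real hq]
theorem bx_real (hq : Continuous q) (t x : ℝ) : bx q t x = bxr q t x := by
  simp [bx, bxr, mb_real hq, mc_real hq, Nn_real hq, th_real hq, ph_real hq]
theorem bx1_real (hq : Continuous q) (t x : ℝ) : bx1 q t x = bx1r q t x := by
  simp [bx1, bx1r, mb_real hq, mc_real hq, Nn_real hq, th_real hq, ph_real hq, th'_real hq,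
    ph'_real hq]
theorem I0_real (hq : Continuous q) (t : ℝ) (h : ℝ → ℝ) :
    I0 q t (fun x => h x) 1 = J0 q t h := by
  simp only [I0, J0, th_real hq, ← intervalIntegral.integral_ofReal]; push_cast; rfl
theorem I1_real (hq : Continuous q) (t : ℝ) (h : ℝ → ℝ) :
    I1 q t (fun x => h x) 1 = J1 q t h := by
  simp only [I1, J1, th_real hq, ph_real hq, ← intervalIntegral.integral_ofReal]; push_cast; rfl
theorem I2_real (hq : Continuous q) (t : ℝ) (h : ℝ → ℝ) :
    I2 q t (fun x => h x) 1 = J2 q t h := by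
  simp only [I2, J2, ph_real hq, ← intervalIntegral.integral_ofReal]; push_cast; rfl
theorem I0_one (hq : Continuous q) (t : ℝ) : I0 q t 1 1 = J0 q t 1 := I0_real hq t 1
theorem I1_one (hq : Continuous q) (t : ℝ) : I1 q t 1 1 = J1 q t 1 := I1_real hq t 1
theorem I2_one (hq : Continuous q) (t : ℝ) : I2 q t 1 1 = J2 q t 1 := I2_real hq t 1

theorem thr_zero (hq : Continuous q) (t : ℝ) : thr q t 0 = 1 := by simp [thr, th_zero hq]
theorem thr'_zero (hq : Continuous q) (t : ℝ) : thr' q t 0 = 0 := by simp [thr', th'_zero hq]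
theorem phr_zero (hq : Continuous q) (t : ℝ) : phr q t 0 = 0 := by simp [phr, ph_zero hq]
theorem phr'_zero (hq : Continuous q) (t : ℝ) : phr' q t 0 = 1 := by simp [phr', ph'_zero hq]
theorem wrr (hq : Continuous q) (t x : ℝ) :
    thr q t x * phr' q t x - thr' q t x * phr q t x = 1 := by
  have := wr hq t x
  rw [th_real hq, th'_real hq, ph_real hq, ph'_real hq] at this
  exact_mod_cast this
theorem mdetr (hq : Continuous q) (t : ℝ) : ar q t * dr q t - cr q t * br q t = 1 := wrr hq t 1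
theorem discr (hq : Continuous q) (t : ℝ) : Dr q t ^ 2 - 1 = Nr q t ^ 2 + br q t * cr q t := by
  unfold Dr Nr
  linear_combination mdetr hq t

theorem solr_rep (hq : Continuous q) {t : ℝ} {y y' : ℝ → ℝ} (h : IsSol (fun x => q x - t) y y')
    (x : ℝ) : y x = y 0 * thr q t x + y' 0 * phr q t x ∧
      y' x = y 0 * thr' q t x + y' 0 * phr' q t x := by
  have := sol_rep hq h.ofReal x
  rw [th_real hq, th'_real hq, ph_real hq, ph'_real hq] at this
  exact_mod_cast this

theorem hasDerivAt_real {f : ℂ → ℂ} {g : ℝ → ℝ} {t g' : ℝ} (h : HasDerivAt f (g' : ℂ) t)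
    (e : ∀ s : ℝ, f s = g s) : HasDerivAt g g' t := by
  have := h.real_of_complex
  simpa [e] using this

theorem ar_hasDerivAt (hq : Continuous q) (t : ℝ) :
    HasDerivAt (ar q) (ar q t * J1 q t 1 - br q t * J0 q t 1) t :=
  hasDerivAt_real ((ma_hasDerivAt hq t).congr_deriv (by
    simp [ma_real hq, mb_real hq, I0_one hq, I1_one hq])) (ma_real hq)
theorem br_hasDerivAt (hq : Continuous q) (t : ℝ) :
    HasDerivAt (br q) (ar q t * J2 q t 1 - br q t * J1 q t 1) t :=
  hasDerivAt_real ((mb_hasDerivAt hq t).congr_deriv (by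
    simp [ma_real hq, mb_real hq, I2_one hq, I1_one hq])) (mb_real hq)
theorem cr_hasDerivAt (hq : Continuous q) (t : ℝ) :
    HasDerivAt (cr q) (cr q t * J1 q t 1 - dr q t * J0 q t 1) t :=
  hasDerivAt_real ((mc_hasDerivAt hq t).congr_deriv (by
    simp [mc_real hq, md_real hq, I0_one hq, I1_one hq])) (mc_real hq)
theorem dr_hasDerivAt (hq : Continuous q) (t : ℝ) :
    HasDerivAt (dr q) (cr q t * J2 q t 1 - dr q t * J1 q t 1) t :=
  hasDerivAt_real ((md_hasDerivAt hq t).congr_deriv (by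
    simp [mc_real hq, md_real hq, I2_one hq, I1_one hq])) (md_real hq)

/-- derivative of the discriminant -/
noncomputable def Dr1 (q : ℝ → ℝ) (t : ℝ) : ℝ :=
  -(1 / 2) * (br q t * J0 q t 1 + 2 * Nr q t * J1 q t 1 - cr q t * J2 q t 1)

theorem Dr_hasDerivAt (hq : Continuous q) (t : ℝ) : HasDerivAt (Dr q) (Dr1 q t) t :=
  (((ar_hasDerivAt hq t).fun_add (dr_hasDerivAt hq t)).div_const 2).congr_deriv (by
    unfold Dr1 Nr; ring)

theorem br_cont (hq : Continuous q) : Continuous (br q) :=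
  continuous_iff_continuousAt.2 fun t => (br_hasDerivAt hq t).continuousAt
theorem Dr_cont (hq : Continuous q) : Continuous (Dr q) :=
  continuous_iff_continuousAt.2 fun t => (Dr_hasDerivAt hq t).continuousAt
theorem Nr_cont (hq : Continuous q) : Continuous (Nr q) :=
  continuous_iff_continuousAt.2 fun t =>
    (((dr_hasDerivAt hq t).fun_sub (ar_hasDerivAt hq t)).div_const 2).continuousAt

theorem form_pos (hq : Continuous q) (t : ℝ) {α β : ℝ} (h : α ≠ 0 ∨ β ≠ 0) :
    0 < α ^ 2 * J0 q t 1 + 2 * α * β * J1 q t 1 + β ^ 2 * J2 q t 1 := by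
  have hs := ((thr_sol hq t).lin (phr_sol hq t) α β).ofReal
  have := sq_int_pos hq hs (by simpa [thr_zero hq, phr_zero hq, thr'_zero hq, phr'_zero hq] using h)
  have c1 := (thr_sol hq t).cont
  have c2 := (phr_sol hq t).cont
  unfold J0 J1 J2
  simp only [Pi.one_apply, one_mul]
  rw [← intervalIntegral.integral_const_mul, ← intervalIntegral.integral_const_mul,
    ← intervalIntegral.integral_const_mul, ← intervalIntegral.integral_add,
    ← intervalIntegral.integral_add]
  · refine this.trans_eq (intervalIntegral.integral_congr fun s _ => ?_)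
    rw [Complex.norm_real, Real.norm_eq_abs, sq_abs]; ring
  all_goals exact Continuous.intervalIntegrable (by fun_prop) _ _

theorem J2_pos (hq : Continuous q) (t : ℝ) : 0 < J2 q t 1 := by
  simpa using form_pos hq t (α := 0) (β := 1) (Or.inr one_ne_zero)

theorem J_cs (hq : Continuous q) (t : ℝ) : J1 q t 1 ^ 2 < J0 q t 1 * J2 q t 1 := by
  have h2 := J2_pos hq t
  have := form_pos hq t (α := J2 q t 1) (β := -J1 q t 1) (Or.inl h2.ne')
  have e : J2 q t 1 ^ 2 * J0 q t 1 + 2 * J2 q t 1 * -J1 q t 1 * J1 q t 1 +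
      (-J1 q t 1) ^ 2 * J2 q t 1 = J2 q t 1 * (J0 q t 1 * J2 q t 1 - J1 q t 1 ^ 2) := by ring
  rw [e] at this
  have := (mul_pos_iff_of_pos_left h2).1 this
  linarith

theorem br_mul_Dr1_neg (hq : Continuous q) {t : ℝ} (hb : br q t ≠ 0) (hD : Dr q t ^ 2 ≤ 1) :
    br q t * Dr1 q t < 0 := by
  have h1 := form_pos hq t (α := br q t) (β := Nr q t) (Or.inl hb)
  have h2 := J2_pos hq t
  have h3 := discr hq t
  have e : br q t * Dr1 q t = -(1 / 2) * ((br q t ^ 2 * J0 q t 1 + 2 * br q t * Nr q t * J1 q t 1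
      + Nr q t ^ 2 * J2 q t 1) + (1 - Dr q t ^ 2) * J2 q t 1) := by
    unfold Dr1; linear_combination (-(1 / 2) * J2 q t 1) * h3
  rw [e]
  nlinarith [mul_nonneg (sub_nonneg.2 hD) h2.le]

/-- The monodromy matrix is a scalar matrix. -/
def Dbl (q : ℝ → ℝ) (t : ℝ) : Prop := br q t = 0 ∧ cr q t = 0 ∧ Nr q t = 0

theorem Dbl.sq (hq : Continuous q) {t : ℝ} (h : Dbl q t) : Dr q t ^ 2 = 1 := by
  have := discr hq t
  rw [h.1, h.2.2] at this
  linarith

theorem dbl_iff (hq : Continuous q) {t : ℝ} (hD : Dr q t ^ 2 = 1) : Dbl q t ↔ Dr1 q t = 0 := by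
  constructor
  · rintro ⟨h1, h2, h3⟩; simp [Dr1, h1, h2, h3]
  · intro h
    have hb : br q t = 0 := by
      by_contra hb
      have := br_mul_Dr1_neg hq hb hD.le
      rw [h] at this; simp at this
    have h3 := discr hq t
    have hN : Nr q t = 0 := by
      rw [hD, hb] at h3
      exact pow_eq_zero_iff (two_ne_zero) |>.1 (by linarith)
    refine ⟨hb, ?_, hN⟩
    have h2 := J2_pos hq t
    simp only [Dr1, hb, hN] at h
    have : cr q t * J2 q t 1 = 0 := by linarith
    exact (mul_eq_zero.1 this).resolve_right h2.ne'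

end Pool.Agent.P.MP_aabf10_an
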