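import Pool.Agent.P.MP_aabf10_an.Tail
import Pool.Agent.P.MP_aabf10_an.Seq

/-!
# Every choice of Dirichlet data is realised on the isospectral manifold
-/

open scoped ContDiff Topology Real
open Filter Finset Set MeasureTheory

namespace Pool.Agent.P.MP_aabf10_an

variable {q : ℝ → ℝ}

theorem exists_delta {k t l : ℝ} (hk : 400 ≤ k) (hl : l ≤ 1) (h : |t - k ^ 2| ≤ l) :
    ∃ δ, (k + δ) ^ 2 = t ∧ |δ| ≤ l / 400 := by
  have h' := abs_le.1 h
  have t0 : 0 ≤ t := by nlinarith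
  refine ⟨√t - k, by rw [add_sub_cancel, Real.sq_sqrt t0], ?_⟩
  have e : t - k ^ 2 = (√t - k) * (√t + k) := by nlinarith [Real.sq_sqrt t0]
  rw [e, abs_mul, abs_of_nonneg (by positivity : 0 ≤ √t + k)] at h
  rw [le_div_iff₀ (by norm_num)]
  nlinarith [abs_nonneg (√t - k), Real.sqrt_nonneg t]

theorem b_local (hq : Continuous q) {Q : ℝ} (hQ1 : 1 ≤ Q) (hQ : ∀ x, |q x| ≤ Q) {j : ℕ} {k : ℝ}
    (hk : 400 * Q ≤ k) (hkj : |k - j * π| ≤ Q / k) (hb : br q (k ^ 2) = 0) {δ : ℝ}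
    (hδ : |δ| ≤ 1 / 2) : ∃ s : ℝ, 7 / 10 ≤ s ∧ s ≤ 11 / 10 ∧
      |(k + δ) * br q ((k + δ) ^ 2)| = s * |δ| := by
  have hδ' := abs_le.1 hδ
  have habs : ∀ y : ℝ, |(-1) ^ j * y| = |y| := fun y => by simp [abs_mul]
  obtain ⟨s₁, a1, a2, a3⟩ := mvt_range (f := fun x => (-1) ^ j * (x * br q (x ^ 2))) (a := k)
    (b := k + δ) (lo := 7 / 10) (hi := 11 / 10) (by norm_num) fun x hx => by
      have h1 : |x - k| ≤ 1 / 2 := by
        rw [Set.mem_uIcc] at hx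
        rw [abs_le]
        rcases hx with hx | hx <;> constructor <;> linarith [hx.1, hx.2]
      have h1' := abs_le.1 h1
      have h2 : Q / k ≤ 1 / 10 := by rw [div_le_iff₀ (by linarith)]; linarith
      have h3 := abs_le.1 (hkj.trans h2)
      have w2 : 12 * Q / x ≤ 1 / 10 := by rw [div_le_iff₀ (by linarith)]; linarith
      have w3 : 8 / 10 ≤ (-1) ^ j * Real.cos x := by
        rw [← Real.cos_sub_nat_mul_pi]
        have := Real.one_sub_sq_div_two_le_cos (x := x - j * π)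
        nlinarith only [this, h3.1, h3.2, h1'.1, h1'.2]
      have w4 : (-1) ^ j * Real.cos x ≤ 1 := by
        rw [← Real.cos_sub_nat_mul_pi]; exact Real.cos_le_one _
      obtain ⟨⟨b', h1, h2⟩, -, -⟩ := deriv_est hq hQ (k := x) (by linarith)
      rw [← habs, mul_sub] at h2
      have := abs_le.1 (h2.trans w2)
      exact ⟨_, h1.const_mul _, by linarith, by linarith⟩
  simp only [hb, mul_zero, zero_add, add_sub_cancel_left] at a3
  exact ⟨s₁, a1, a2, by rw [← habs, a3, abs_mul, abs_of_nonneg (by linarith)]⟩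

theorem kappa_bound (hq : Continuous q) {Q : ℝ} (hQ1 : 1 ≤ Q) (hQ : ∀ x, |q x| ≤ Q) {j : ℕ} {k : ℝ}
    (hk : 400 * Q ≤ k) (hk4 : k ≤ 4 * j) (hkj : |k - j * π| ≤ Q / k) (hb : br q (k ^ 2) = 0)
    {l α ν η : ℝ} (hl : l ≤ 1) (hα : |α - k ^ 2| ≤ l) (hα' : Dr q α ^ 2 = 1) (hν : |ν - k ^ 2| ≤ l)
    (hη : η ^ 2 = Dr q ν ^ 2 - 1) : ∃ k₁, k₁ ^ 2 = ν ∧ 2 * Q ≤ k₁ ∧ k₁ ≤ 5 * j ∧
      k₁ * |ν - k ^ 2| + |(ν - k ^ 2) * (Nr q ν - η) / br q ν| ≤ 400 * j ^ 2 * √l := by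
  have l0 : 0 ≤ l := (abs_nonneg _).trans hα
  obtain ⟨a, rfl, ha⟩ := exists_delta (by linarith) hl hα
  obtain ⟨δ, rfl, hδ⟩ := exists_delta (by linarith) hl hν
  have hδ' := abs_le.1 hδ
  have j1 : (100 : ℝ) ≤ j := by linarith
  set r := √l
  have r0 : 0 ≤ r := Real.sqrt_nonneg _
  have r2 : r ^ 2 = l := Real.sq_sqrt l0
  have r1 : r ≤ 1 := by nlinarith only [r0, r2, hl]
  have lr : l ≤ r := by nlinarith only [r0, r2, r1]
  have hc : ∀ κ : ℝ, 2 * Q ≤ κ → |cr q (κ ^ 2) / κ| ≤ 2 := fun κ h => by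
    rw [abs_div, abs_of_pos (by linarith : 0 < κ), div_le_iff₀ (by linarith)]
    exact (bd_real hq hQ (by linarith) h (x := 1) (by simp)).2.1
  have hγ : |(-1 : ℝ) ^ j * (cr q (k ^ 2) / k)| ≤ 2 := by
    simpa [abs_mul] using hc k (by linarith)
  set γ := (-1 : ℝ) ^ j * (cr q (k ^ 2) / k)
  have cross : ∀ s d : ℝ, 0 ≤ s → s ≤ 11 / 10 → |d| ≤ l / 400 → |s * d * γ| ≤ l / 100 := by
    intro s d h0 h1 h2
    rw [abs_mul, abs_mul, abs_of_nonneg h0]
    have := mul_le_mul (mul_le_mul h1 h2 (abs_nonneg _) (by norm_num)) hγ (abs_nonneg _)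
      (by positivity)
    linarith
  have n0 : |Nr q (k ^ 2)| ≤ r / 2 := by
    obtain ⟨s₁, s₂, s₃, a1, a2, a3, a4, a5, a6⟩ := local_form hq hQ1 hQ hk hkj hb (δ := a)
      (by linarith)
    have c1 := abs_le.1 (cross s₁ a (by linarith) a2 ha)
    have c2 : a ^ 2 ≤ (l / 400) ^ 2 := sq_le_sq' (abs_le.1 ha).1 (abs_le.1 ha).2
    have c3 : s₁ * s₂ * a ^ 2 ≤ 2 * a ^ 2 :=
      mul_le_mul_of_nonneg_right (by nlinarith only [a1, a2, a3, a4]) (sq_nonneg _)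
    have c4 : |Nr q (k ^ 2) + s₃ * a| ≤ r / 4 := abs_le_of_sq_le_sq' (by
      linarith only [a6, hα', c1.1, c3, c2, r2, l0, mul_nonneg l0 (sub_nonneg.2 hl)]) (by linarith)
      |> abs_le.2
    have c5 : |s₃ * a| ≤ r / 4 := by
      rw [abs_mul]
      linarith only [mul_le_mul a5 ha (abs_nonneg _) (by norm_num), lr, r0]
    have := abs_sub (Nr q (k ^ 2) + s₃ * a) (s₃ * a)
    rw [add_sub_cancel_right] at this
    linarith
  have n1 : η ^ 2 ≤ 2 * r ^ 2 := by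
    obtain ⟨s₁, s₂, s₃, a1, a2, a3, a4, a5, a6⟩ := local_form hq hQ1 hQ hk hkj hb (δ := δ)
      (by linarith)
    have c1 := abs_le.1 (cross s₁ δ (by linarith) a2 hδ)
    have c3 : 0 ≤ s₁ * s₂ * δ ^ 2 := mul_nonneg (by positivity) (sq_nonneg _)
    have c5 : |s₃ * δ| ≤ r / 2 := by
      rw [abs_mul]
      linarith only [mul_le_mul a5 hδ (abs_nonneg _) (by norm_num), lr, r0]
    have c6 := abs_le.1 ((abs_add_le _ _).trans (add_le_add n0 c5))
    have c7 : (Nr q (k ^ 2) + s₃ * δ) ^ 2 ≤ r ^ 2 := sq_le_sq' (by linarith) (by linarith)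
    linarith
  obtain ⟨s, s1, s2, s3⟩ := b_local hq hQ1 hQ hk hkj hb (δ := δ) (by linarith)
  have kp : 0 < k + δ := by linarith
  have n2 : Nr q ((k + δ) ^ 2) ^ 2 ≤ 3 * r ^ 2 := by
    have c1 := hc (k + δ) (by linarith)
    have c2 : |br q ((k + δ) ^ 2) * cr q ((k + δ) ^ 2)| ≤ l := by
      rw [show br q ((k + δ) ^ 2) * cr q ((k + δ) ^ 2) =
        (k + δ) * br q ((k + δ) ^ 2) * (cr q ((k + δ) ^ 2) / (k + δ)) by field_simp, abs_mul, s3]
      have := mul_le_mul (mul_le_mul s2 hδ (abs_nonneg _) (by norm_num)) c1 (abs_nonneg _)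
        (by positivity)
      linarith
    linarith [discr hq ((k + δ) ^ 2), (abs_le.1 c2).1]
  have n3 : |Nr q ((k + δ) ^ 2) - η| ≤ 4 * r := by
    have c1 := abs_le_of_sq_le_sq' (show η ^ 2 ≤ (2 * r) ^ 2 by linarith only [n1, sq_nonneg r]) (by linarith)
    have c2 := abs_le_of_sq_le_sq' (show Nr q ((k + δ) ^ 2) ^ 2 ≤ (2 * r) ^ 2 by
      linarith only [n2, sq_nonneg r])
      (by linarith)
    exact abs_le.2 ⟨by linarith [c1.2, c2.1], by linarith [c1.1, c2.2]⟩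
  have n4 : |((k + δ) ^ 2 - k ^ 2) / br q ((k + δ) ^ 2)| ≤ 64 * j ^ 2 := by
    rw [abs_div]
    refine div_le_of_le_mul₀ (abs_nonneg _) (by positivity) ?_
    rw [abs_mul, abs_of_pos kp] at s3
    rw [show (k + δ) ^ 2 - k ^ 2 = δ * (2 * k + δ) by ring, abs_mul,
      abs_of_pos (by linarith : 0 < 2 * k + δ)]
    refine le_of_mul_le_mul_left ?_ kp
    have c1 : (k + δ) * (2 * k + δ) ≤ (9 / 2 * j) * (9 * j) :=
      mul_le_mul (by linarith) (by linarith) (by linarith) (by linarith)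
    have c2 := mul_le_mul_of_nonneg_right c1 (abs_nonneg δ)
    have c3 := mul_le_mul_of_nonneg_right s1 (mul_nonneg (sq_nonneg (j : ℝ)) (abs_nonneg δ))
    rw [show (k + δ) * (64 * j ^ 2 * |br q ((k + δ) ^ 2)|) =
      64 * j ^ 2 * ((k + δ) * |br q ((k + δ) ^ 2)|) by ring, s3]
    linarith only [c2, c3, mul_nonneg (sq_nonneg (j : ℝ)) (abs_nonneg δ)]
  refine ⟨k + δ, rfl, by linarith, by linarith, ?_⟩
  rw [mul_div_right_comm, abs_mul]
  have c1 := mul_le_mul n4 n3 (abs_nonneg _) (by positivity)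
  have c2 := mul_le_mul (show k + δ ≤ j ^ 2 by nlinarith only [j1, hk4, hδ'.2, hl]) (hν.trans lr) (abs_nonneg _)
    (by positivity)
  linarith only [c1, c2, mul_nonneg (sq_nonneg (j : ℝ)) r0]

theorem exists_seq {α : Type*} {I : ℕ → α → Prop} {R : ℕ → α → α → Prop} {a : α} (h0 : I 0 a)
    (h : ∀ i x, I i x → ∃ y, I (i + 1) y ∧ R i x y) :
    ∃ f : ℕ → α, (∀ i, I i (f i)) ∧ ∀ i, R i (f i) (f (i + 1)) := by
  choose g g1 g2 using h
  let f : ∀ i, {x // I i x} := fun i => Nat.rec ⟨a, h0⟩ (fun i x => ⟨g i x.1 x.2, g1 i x.1 x.2⟩) i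
  exact ⟨fun i => (f i).1, fun i => (f i).2, fun i => g2 i _ (f i).2⟩

theorem Dat.congr {p : ℝ → ℝ} {m e m' e' : ℕ → ℝ} (h : Dat p m e)
    (hm : ∀ j, m' j = m j ∧ e' j = e j) : Dat p m' e' := fun j hj => by
  rw [(hm j).1, (hm j).2]; exact h j hj

theorem mem_iso_of_tendsto (hq : Cinf q) {P : ℕ → ℝ → ℝ} (hP : ∀ i, P i ∈ Iso q) {p : ℝ → ℝ}
    (hp : Cinf p) (h : TendstoUniformly P p atTop) : p ∈ Iso q := by
  refine mem_iso_of_Dr hq hp (funext fun t => ?_)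
  obtain ⟨a, -, d⟩ := mono_tendsto (fun i => (hP i).1.cont) hp.cont h t
  refine tendsto_nhds_unique ((a.add d).div_const 2) ?_
  exact tendsto_const_nhds.congr fun i => (congrFun (Dr_eq_of_iso hq (hP i)) t).symm

theorem realize_tail (hq : Cinf q) {Q : ℝ} (hQ1 : 1 ≤ Q) (hQ : ∀ x, |q x| ≤ Q)
    {mu al be : ℕ → ℝ} (h : IsDir q Q mu) (g : IsGap q mu al be) {ν η : ℕ → ℝ}
    (hν : ∀ j, 1 ≤ j → ν j ∈ Icc (al j) (be j)) (hη : ∀ j, 1 ≤ j → η j ^ 2 = Dr q (ν j) ^ 2 - 1)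
    (hc : ∀ j, 1 ≤ j → ν j = mu j → η j = Nr q (mu j)) :
    ∃ N, ∃ p ∈ Iso q, Dat p (fun j => if N ≤ j then ν j else mu j)
      fun j => if N ≤ j then η j else Nr q (mu j) := by
  have hd := sqrt_decay (by simp [ell]) g.ell_nonneg (ell_decay hq hQ1 hQ h g)
  set E : ℕ → ℝ := fun j => 400 * j ^ 2 * √(ell al be j)
  have E0 : ∀ j, 0 ≤ E j := fun j => by positivity
  have hE : ∀ K : ℕ, Summable fun j : ℕ => (j : ℝ) ^ K * E j := fun K =>
    ((hd (K + 2)).mul_left 400).congr fun j => by simp only [E]; ring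
  have hl : Tendsto (ell al be) atTop (𝓝 0) := by
    simpa using (ell_decay hq hQ1 hQ h g 0).tendsto_atTop_zero
  obtain ⟨N, N1, N2, N3⟩ := (((tendsto_sum_nat_add E).eventually
    (ge_mem_nhds (by norm_num : (0 : ℝ) < 1 / 32))).and ((ev_large (400 * Q)).and
      (eventually_forall_ge_atTop.2 (hl.eventually (ge_mem_nhds one_pos))))).exists
  have sE : Summable fun i => E (i + N) :=
    (summable_nat_add_iff N).2 (by simpa using hE 0)
  have N0 : 1 ≤ N := by exact_mod_cast (show (1 : ℝ) ≤ N by linarith)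
  have hmu : ∀ j, 1 ≤ j → mu j ∈ Icc (al j) (be j) := fun j hj => ⟨g.al_le j hj, g.le_be j⟩
  obtain ⟨P, I, R⟩ := exists_seq (a := q)
    (I := fun i p => p ∈ Iso q ∧ (∀ x, |p x| ≤ Q + 32 * ∑ l ∈ range i, E (l + N)) ∧
      Dat p (fun j => if N ≤ j ∧ j < i + N then ν j else mu j)
        fun j => if N ≤ j ∧ j < i + N then η j else Nr q (mu j))
    (R := fun i p r => ∃ k₀ k₁ τ κ : ℝ, (2 * (2 * Q) ≤ k₀ ∧ k₀ ≤ 5 * N * (i + 1)) ∧
      (2 * (2 * Q) ≤ k₁ ∧ k₁ ≤ 5 * N * (i + 1)) ∧ k₁ * |τ| + |κ| ≤ E (i + N) ∧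
      IsMove p (k₀ ^ 2) (k₁ ^ 2) τ κ r)
    ⟨⟨hq, fun _ => ⟨rfl, rfl⟩⟩, by simpa using hQ, fun j hj => by
      obtain ⟨j, rfl⟩ := Nat.exists_eq_add_of_le' hj
      simp [h.br_succ, show ¬ (N ≤ j + 1 ∧ j + 1 < N) by omega]⟩
    (by
      rintro i p ⟨p1, p2, p3⟩
      have hn : 1 ≤ i + N := by omega
      have hs := (sE.sum_le_tsum (range i) fun l _ => E0 _).trans N1
      have hs' := (sE.le_tsum i fun l _ => E0 _).trans N1
      have p2' : ∀ x, |p x| ≤ 2 * Q := fun x => (p2 x).trans (by linarith)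
      obtain ⟨r, r1, r2, r3⟩ := move_gap hq g p1 (fun j hj => by
        split_ifs
        exacts [hν j hj, hmu j hj]) p3 hn (hν _ hn) (hη _ hn) (by simpa using hc _ hn)
      simp only [lt_irrefl, and_false, if_false] at r3
      have iN : (N : ℝ) ≤ (i + N : ℕ) := by exact_mod_cast Nat.le_add_left N i
      obtain ⟨k, k2, k3, k4, -, k6⟩ := h.large_facts hQ1 (j := i + N) (by linarith)
      have kb : br p (k ^ 2) = 0 := by simpa [k2] using (p3 _ hn).1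
      have el : ell al be (i + N) = be (i + N) - al (i + N) := if_neg (by omega)
      have m1 := hmu _ hn
      have m2 := hν _ hn
      have eD := Dr_eq_of_iso hq p1
      obtain ⟨k₁, c1, c2, c3, c4⟩ := kappa_bound p1.1.cont (by linarith) p2' (j := i + N) (k := k)
        (by linarith) k4 (k6.trans (div_le_div_of_nonneg_right (by linarith) (by linarith))) kb
        (N3 _ (Nat.le_add_left N i)) (α := al (i + N)) (ν := ν (i + N)) (η := η (i + N))
        (by rw [k2, el]; exact abs_le.2 ⟨by linarith [m1.2], by linarith [m1.1, m1.2]⟩)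
        (eD ▸ g.al_sq _ hn)
        (by rw [k2, el]; exact abs_le.2 ⟨by linarith [m1.2, m2.1], by linarith [m1.1, m2.2]⟩)
        (eD ▸ hη _ hn)
      have big : ((i + N : ℕ) : ℝ) ≤ N * (i + 1) := by
        have : (1 : ℝ) ≤ N := by linarith
        push_cast; nlinarith [Nat.cast_nonneg (α := ℝ) i]
      rw [← k2] at r3
      refine ⟨r, ⟨r1, bound_of_periodic r1.1.2 fun x hx => ?_, r2.congr fun j => ?_⟩,
        k, k₁, _, _, ⟨by linarith, by linarith⟩, ⟨c2, by linarith⟩, c4, c1 ▸ r3⟩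
      · obtain ⟨V, V0, -, V1, V2⟩ := r3
        rw [← c1] at V1 V2 c4
        have := (move_bound p1.1.cont (by linarith) p2' (by linarith) c2 c4
          (hs'.trans (by norm_num)) V0 V1 hx).2.2
        rw [← V2] at this
        rw [sum_range_succ]
        linarith [abs_sub_abs_le_abs_sub (r x) (p x), p2 x]
      · by_cases e : j = i + N
        · subst e; simp
        · have : j < i + 1 + N ↔ j < i + N := by omega
          simp only [Function.update_of_ne e, this, and_self])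
  choose k₀ k₁ τ κ h0 h1 he hm using R
  obtain ⟨p, hp, lim⟩ := limit_of_moves (fun i => (I i).1.1) (Q := 2 * Q) (by linarith)
    (fun i x => ((I i).2.1 x).trans (by
      linarith [(sE.sum_le_tsum (range i) fun l _ => E0 _).trans N1])) h0 h1 he
    (fun i => ((sE.le_tsum i fun l _ => E0 _).trans N1).trans (by norm_num))
    (fun K => ((summable_nat_add_iff N).2 (hE K)).of_nonneg_of_le
      (fun i => mul_nonneg (by positivity) (E0 _)) fun i => mul_le_mul_of_nonneg_right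
        (pow_le_pow_left₀ (by positivity) (by push_cast; linarith) K) (E0 _)) hm
  refine ⟨N, p, mem_iso_of_tendsto hq (fun i => (I i).1) hp lim, fun j hj => ?_⟩
  obtain ⟨a, b, d⟩ := mono_tendsto (fun i => (I i).1.1.cont) hp.cont lim
    (if N ≤ j then ν j else mu j)
  have ev : ∀ᶠ i in atTop, br (P i) (if N ≤ j then ν j else mu j) = 0 ∧
      Nr (P i) (if N ≤ j then ν j else mu j) = if N ≤ j then η j else Nr q (mu j) := by
    filter_upwards [eventually_gt_atTop j] with i hi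
    simpa [show j < i + N by omega] using (I i).2.2 j hj
  exact ⟨tendsto_nhds_unique b (tendsto_const_nhds.congr' (ev.mono fun i hi => hi.1.symm)),
    tendsto_nhds_unique ((d.sub a).div_const 2)
      (tendsto_const_nhds.congr' (ev.mono fun i hi => hi.2.symm))⟩

theorem realize_of_comp (hq : Cinf q) {Q : ℝ} (hQ1 : 1 ≤ Q) (hQ : ∀ x, |q x| ≤ Q)
    {mu al be : ℕ → ℝ} (h : IsDir q Q mu) (g : IsGap q mu al be) {ν η : ℕ → ℝ}
    (hν : ∀ j, 1 ≤ j → ν j ∈ Icc (al j) (be j)) (hη : ∀ j, 1 ≤ j → η j ^ 2 = Dr q (ν j) ^ 2 - 1)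
    (hc : ∀ j, 1 ≤ j → ν j = mu j → η j = Nr q (mu j)) : ∃ p ∈ Iso q, Dat p ν η := by
  obtain ⟨N, hN⟩ := realize_tail hq hQ1 hQ h g hν hη hc
  induction N with
  | zero => simpa using hN
  | succ N ih =>
    obtain ⟨p, p1, p2⟩ := hN
    rcases Nat.eq_zero_or_pos N with rfl | hn
    · exact ⟨p, p1, fun j hj => by simpa [hj] using p2 j hj⟩
    obtain ⟨r, r1, r2, -⟩ := move_gap hq g p1 (fun j hj => by
      split_ifs
      exacts [hν j hj, ⟨g.al_le j hj, g.le_be j⟩]) p2 hn (hν _ hn) (hη _ hn)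
      (by simpa using hc _ hn)
    refine ih ⟨r, r1, r2.congr fun j => ?_⟩
    by_cases e : j = N
    · subst e; simp
    · have : N ≤ j ↔ N + 1 ≤ j := by omega
      simp only [Function.update_of_ne e, this, and_self]

/-- Dirichlet data of a member of the isospectral manifold -/
theorem exists_data_iso (hq : Cinf q) {Q : ℝ} (hQ1 : 1 ≤ Q) {mu al be : ℕ → ℝ} (h : IsDir q Q mu)
    (g : IsGap q mu al be) {p : ℝ → ℝ} (hp : p ∈ Iso q) :
    ∃ Q' mu', 1 ≤ Q' ∧ (∀ x, |p x| ≤ Q') ∧ IsDir p Q' mu' ∧ IsGap p mu' al be := by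
  obtain ⟨Q', h1, h2⟩ := exists_bound_periodic hp.1.cont hp.1.2
  obtain ⟨mu', h'⟩ := exists_isDir hp.1.cont h2
  exact ⟨Q', mu', h1, h2, h', isGap_transfer hq (by linarith) (by linarith) h g hp h'⟩

theorem realize (hq : Cinf q) {Q : ℝ} (hQ1 : 1 ≤ Q) (hQ : ∀ x, |q x| ≤ Q)
    {mu al be : ℕ → ℝ} (h : IsDir q Q mu) (g : IsGap q mu al be) {ν η : ℕ → ℝ}
    (hν : ∀ j, 1 ≤ j → ν j ∈ Icc (al j) (be j)) (hη : ∀ j, 1 ≤ j → η j ^ 2 = Dr q (ν j) ^ 2 - 1) :
    ∃ p ∈ Iso q, ∃ Q' mu', 1 ≤ Q' ∧ (∀ x, |p x| ≤ Q') ∧ IsDir p Q' mu' ∧ IsGap p mu' al be ∧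
      ∀ j, 1 ≤ j → mu' j = ν j ∧ Nr p (ν j) = η j := by
  have hbe : ∀ j, 1 ≤ j → be j ∈ Icc (al j) (be j) := fun j hj =>
    ⟨(g.al_le j hj).trans (g.le_be j), le_rfl⟩
  obtain ⟨o, o1, o2⟩ := realize_of_comp hq hQ1 hQ h g (ν := be) (η := fun _ => 0) hbe
    (fun j _ => by simp [g.be_sq]) fun j hj e => by
      have := discr hq.cont (mu j)
      rw [(h.zero_iff _).2 ⟨j, hj, rfl⟩, ← e, g.be_sq, e] at this
      exact (pow_eq_zero_iff two_ne_zero).1 (by linarith) |>.symm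
  obtain ⟨Q₀, m₀, a1, a2, a3, a4⟩ := exists_data_iso hq hQ1 h g o1
  have eD := Dr_eq_of_iso hq o1
  obtain ⟨p, p1, p2⟩ := realize_of_comp o1.1 a1 a2 a3 a4 hν (eD ▸ hη) fun j hj e => by
    have e' := a3.eq_of_zero a4 (hbe j hj) (o2 j hj).1
    have := hη j hj
    rw [e, e', g.be_sq, sub_self] at this
    rw [e', (o2 j hj).2, (pow_eq_zero_iff two_ne_zero).1 this]
  rw [← iso_eq o1] at p1
  obtain ⟨Q', m', b1, b2, b3, b4⟩ := exists_data_iso hq hQ1 h g p1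
  exact ⟨p, p1, Q', m', b1, b2, b3, b4, fun j hj =>
    ⟨b3.eq_of_zero b4 (hν j hj) (p2 j hj).1, (p2 j hj).2⟩⟩

end Pool.Agent.P.MP_aabf10_an
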