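import Pool.Agent.P.MP_aabf10_an.Quasi
import Pool.Agent.P.MP_aabf10_an.Transfer
import Pool.Agent.P.MP_aabf10_an.Defs3

/-!
# `l^1` density of weighted polynomial values, bounded annihilators and quasi-analyticity
-/

open scoped ContDiff Topology Real
open Filter Finset

namespace Pool.Agent.P.MP_aabf10_an

theorem dens1_transfer (a b w v : ℕ → ℝ) (ha : StrictMono a) (hb : StrictMono b) (C : ℝ)
    (h1 : ∀ n : ℕ, |a n - ((n : ℝ) * π) ^ 2| ≤ C) (h2 : ∀ n : ℕ, |b n - ((n : ℝ) * π) ^ 2| ≤ C)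
    (D : ℝ) (hv : ∀ n, |v n| ≤ D * |w n|) (h : Dens1 a w) : Dens1 b v := by
  obtain ⟨ca, hca, sa⟩ := exists_sep a ha C h1
  obtain ⟨cb, hcb, sb⟩ := exists_sep b hb C h2
  obtain ⟨L, hL, hdom⟩ := dominate a b ha hb (2 * C) (min ca cb) (lt_min hca hcb)
    (fun n => by
      have e1 := abs_le.mp (h1 n)
      have e2 := abs_le.mp (h2 n)
      rw [abs_le]
      constructor <;> linarith)
    (fun m n => (mul_le_mul_of_nonneg_right (min_le_left _ _) (sq_nonneg _)).trans (sa m n))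
    (fun m n => (mul_le_mul_of_nonneg_right (min_le_right _ _) (sq_nonneg _)).trans (sb m n))
  intro n₀ hv0 ε hε
  have hw0 : w n₀ ≠ 0 := by
    intro h0
    have := hv n₀
    rw [h0] at this
    exact hv0 (by simpa using this)
  have hM : 0 < |D| * L + 1 := by positivity
  obtain ⟨p, hp, hsum⟩ := h n₀ hw0 (ε / (|D| * L + 1)) (by positivity)
  obtain ⟨p', hp', hle⟩ := hdom n₀ p hp
  refine ⟨p', hp', fun T hT => ?_⟩
  have e1 : ∀ n ∈ T, |v n * p'.eval (b n)| ≤ (|D| * L + 1) * |w n * p.eval (a n)| := fun n _ => by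
    have e0 : |v n| ≤ |D| * |w n| :=
      (hv n).trans (mul_le_mul_of_nonneg_right (le_abs_self D) (abs_nonneg _))
    have e2 : |v n * p'.eval (b n)| ≤ |D| * |w n| * (L * |p.eval (a n)|) := by
      rw [abs_mul]
      exact mul_le_mul e0 (hle n) (abs_nonneg _) (by positivity)
    rw [abs_mul (w n)]
    nlinarith [mul_nonneg (abs_nonneg (w n)) (abs_nonneg (p.eval (a n)))]
  refine (Finset.sum_le_sum e1).trans ?_
  rw [← Finset.mul_sum]
  have e5 := mul_le_mul_of_nonneg_left (hsum T hT) hM.le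
  rwa [mul_div_cancel₀ _ hM.ne'] at e5

lemma sup1_mem_one_iff (u : ℕ → ℝ) : Memℓp u 1 ↔ Summable fun n => |u n| := by
  rw [memℓp_gen_iff (by norm_num)]
  simp

lemma sup1_summable {a w : ℕ → ℝ} (hw : ∀ n, 0 ≤ w n) {C : ℝ}
    (ha : ∀ n : ℕ, |a n - ((n : ℝ) * π) ^ 2| ≤ C)
    (hdec : ∀ k : ℕ, Summable fun n : ℕ => (n : ℝ) ^ k * w n) (k : ℕ) :
    Summable fun n => |w n * a n ^ k| := by
  have hC : 0 ≤ C := (abs_nonneg _).trans (ha 0)
  refine Summable.of_nonneg_of_le (fun _ => abs_nonneg _) (fun n => ?_)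
    ((summable_succ_pow hdec (2 * k)).mul_left ((π ^ 2 + C) ^ k))
  have h1 : |a n| ≤ (π ^ 2 + C) * ((n : ℝ) + 1) ^ 2 := by
    have h2 := abs_le.1 (ha n)
    have h3 : (0 : ℝ) ≤ n := n.cast_nonneg
    have h4 : 0 ≤ C * n ^ 2 + C * n := by positivity
    have h5 : 0 ≤ π ^ 2 * n := by positivity
    have h6 : 0 ≤ π ^ 2 * n ^ 2 := by positivity
    have h7 : 0 ≤ π ^ 2 := by positivity
    rw [abs_le]
    constructor <;> nlinarith
  rw [abs_mul, abs_of_nonneg (hw n), abs_pow, pow_mul, ← mul_assoc, ← mul_pow, mul_comm]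
  exact mul_le_mul_of_nonneg_right (pow_le_pow_left₀ (abs_nonneg _) h1 k) (hw n)

lemma sup1_sum_le_norm (u : lp (fun _ : ℕ => ℝ) 1) (T : Finset ℕ) : ∑ n ∈ T, |u n| ≤ ‖u‖ := by
  have := lp.sum_rpow_le_norm_rpow (p := 1) (by norm_num) u T
  simpa using this

theorem exists_ann_of_not_dens1 (a w : ℕ → ℝ) (hw : ∀ n, 0 ≤ w n) (C : ℝ)
    (ha : ∀ n : ℕ, |a n - ((n : ℝ) * π) ^ 2| ≤ C)
    (hdec : ∀ k : ℕ, Summable fun n : ℕ => (n : ℝ) ^ k * w n) (h : ¬ Dens1 a w) :
    ∃ r : ℕ → ℝ, (∀ n, |r n| ≤ w n) ∧ (∃ n, r n ≠ 0) ∧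
      ∀ k : ℕ, HasSum (fun n => r n * a n ^ k) 0 := by
  classical
  unfold Dens1 at h
  push Not at h
  obtain ⟨n₀, hw0, ε, hε, hne⟩ := h
  have hpos : 0 < w n₀ := lt_of_le_of_ne (hw n₀) hw0.symm
  let v : ℕ → lp (fun _ : ℕ => ℝ) 1 := fun k =>
    ⟨fun n => w n * a n ^ k, (sup1_mem_one_iff _).2 (sup1_summable hw ha hdec k)⟩
  let e : ℕ → lp (fun _ : ℕ => ℝ) 1 := fun n => lp.single 1 n (1 : ℝ)
  let U := Submodule.span ℝ (Set.range v)
  have hU : ∀ u ∈ U, ∃ p : Polynomial ℝ, ∀ n, u n = w n * p.eval (a n) := fun u hu => by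
    induction hu using Submodule.span_induction with
    | mem x hx =>
      obtain ⟨k, rfl⟩ := hx
      exact ⟨Polynomial.X ^ k, fun n => by simp [v]⟩
    | zero => exact ⟨0, fun n => by simp⟩
    | add x y _ _ hx hy =>
      obtain ⟨p, hp⟩ := hx
      obtain ⟨q, hq⟩ := hy
      exact ⟨p + q, fun n => by simp [hp, hq, mul_add]⟩
    | smul c x _ hx =>
      obtain ⟨p, hp⟩ := hx
      exact ⟨Polynomial.C c * p, fun n => by simp [hp]; ring⟩
  have hg : w n₀ • e n₀ ∉ (U.topologicalClosure : Set (lp (fun _ : ℕ => ℝ) 1)) := by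
    intro hg
    obtain ⟨u, hu, hd⟩ := Metric.mem_closure_iff.1 hg (min (w n₀ / 2) (ε / 2)) (by positivity)
    obtain ⟨p, hp⟩ := hU u hu
    rw [dist_eq_norm] at hd
    have hco : ∀ n, (w n₀ • e n₀ - u) n =
        (if n = n₀ then w n₀ else 0) - w n * p.eval (a n) := fun n => by
      rw [lp.coeFn_sub, Pi.sub_apply, hp, lp.coeFn_smul, Pi.smul_apply]
      congr 1
      by_cases hn : n = n₀
      · subst hn
        simp [e]
      · simp [e, hn]
    have h1 := (sup1_sum_le_norm (w n₀ • e n₀ - u) {n₀}).trans_lt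
      (hd.trans_le (min_le_left _ _))
    rw [sum_singleton, hco, if_pos rfl] at h1
    have h3 : 1 / 2 ≤ p.eval (a n₀) := by
      have := (abs_lt.1 h1).2
      by_contra hc
      nlinarith [not_le.1 hc]
    have h4 : 0 < p.eval (a n₀) := by linarith
    obtain ⟨T, hT, hlt⟩ := hne (Polynomial.C (p.eval (a n₀))⁻¹ * p) (by simp [h4.ne'])
    have h5 := (sup1_sum_le_norm (w n₀ • e n₀ - u) T).trans (hd.trans_le (min_le_right _ _)).le
    have h6 : (p.eval (a n₀))⁻¹ ≤ 2 := by rw [inv_le_comm₀ h4 two_pos]; linarith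
    have h7 : ∑ n ∈ T, |w n * (Polynomial.C (p.eval (a n₀))⁻¹ * p).eval (a n)| =
        (p.eval (a n₀))⁻¹ * ∑ n ∈ T, |(w n₀ • e n₀ - u) n| := by
      rw [mul_sum]
      refine sum_congr rfl fun n hn => ?_
      rw [hco, if_neg fun h : n = n₀ => hT (h ▸ hn), Polynomial.eval_mul, Polynomial.eval_C,
        zero_sub, abs_neg, mul_left_comm, abs_mul, abs_of_pos (inv_pos.2 h4)]
    rw [h7] at hlt
    have h8 := mul_le_mul h6 h5 (sum_nonneg fun _ _ => abs_nonneg _) (by norm_num)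
    linarith
  obtain ⟨φ, c, hφ1, hφ2⟩ := geometric_hahn_banach_point_closed
    (U.topologicalClosure.convex) U.isClosed_topologicalClosure hg
  have hc : c < 0 := by simpa using hφ2 0 U.topologicalClosure.zero_mem
  have hker : ∀ k, φ (v k) = 0 := fun k => by
    by_contra hk
    have hm : (c / φ (v k)) • v k ∈ U.topologicalClosure :=
      U.topologicalClosure.smul_mem _
        (U.le_topologicalClosure (Submodule.subset_span ⟨k, rfl⟩))
    have := hφ2 _ hm
    rw [map_smul, smul_eq_mul, div_mul_cancel₀ _ hk] at this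
    exact lt_irrefl _ this
  have hφ0 : φ (e n₀) ≠ 0 := fun h0 => by
    rw [map_smul, h0, smul_zero] at hφ1
    linarith
  have hN : 0 < ‖φ‖ + 1 := by positivity
  have hbd : ∀ n, |φ (e n)| ≤ ‖φ‖ + 1 := fun n => by
    have h1 := φ.le_opNorm (e n)
    have h2 : ‖e n‖ = 1 := by
      have := lp.norm_single (p := 1) (E := fun _ : ℕ => ℝ) (by norm_num) n (1 : ℝ)
      rwa [norm_one] at this
    rw [h2, mul_one, Real.norm_eq_abs] at h1
    linarith
  refine ⟨fun n => φ (e n) / (‖φ‖ + 1) * w n, fun n => ?_, ⟨n₀, ?_⟩, fun k => ?_⟩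
  · rw [abs_mul, abs_of_nonneg (hw n), abs_div, abs_of_pos hN]
    exact mul_le_of_le_one_left (hw n) ((div_le_one hN).2 (hbd n))
  · exact mul_ne_zero (div_ne_zero hφ0 hN.ne') hw0
  · have h1 := φ.hasSum (lp.hasSum_single (p := 1) (by norm_num) (v k))
    rw [hker] at h1
    have h2 := h1.mul_left (‖φ‖ + 1)⁻¹
    rw [mul_zero] at h2
    refine h2.congr_fun fun n => ?_
    have h3 : lp.single 1 n (v k n) = (w n * a n ^ k) • e n := by
      simp only [e]
      rw [← lp.single_smul]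
      simp [v]
    rw [h3, map_smul, smul_eq_mul]
    field_simp

theorem eq_zero_of_dens1 (a w r : ℕ → ℝ) (D : ℝ) (h : Dens1 a w) (hr : ∀ n, |r n| ≤ D * |w n|)
    (hm : ∀ k : ℕ, HasSum (fun n => r n * a n ^ k) 0) (n : ℕ) : r n = 0 := by
  by_cases hw : w n = 0
  · have := hr n
    rw [hw, abs_zero, mul_zero] at this
    exact abs_nonpos_iff.1 this
  have hp : ∀ p : Polynomial ℝ, HasSum (fun m => r m * p.eval (a m)) 0 := fun p => by
    have := hasSum_sum (s := range (p.natDegree + 1)) fun k _ => (hm k).mul_left (p.coeff k)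
    simp only [mul_zero, sum_const_zero] at this
    refine this.congr_fun fun m => ?_
    rw [Polynomial.eval_eq_sum_range, mul_sum]
    exact sum_congr rfl fun k _ => by ring
  have key : ∀ ε > 0, |r n| ≤ |D| * ε := fun ε hε => by
    obtain ⟨p, hp1, hp2⟩ := h n hw ε hε
    have t0 : Tendsto (fun T : Finset ℕ => ∑ m ∈ T, r m * p.eval (a m)) atTop (𝓝 0) := hp p
    have t1 : Tendsto (fun T : Finset ℕ => |∑ m ∈ T, r m * p.eval (a m) - r n|)
        atTop (𝓝 |0 - r n|) := (t0.sub_const _).abs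
    rw [zero_sub, abs_neg] at t1
    refine le_of_tendsto t1 ?_
    filter_upwards [eventually_ge_atTop {n}] with T hT
    have hmem : n ∈ T := hT (mem_singleton_self _)
    rw [← add_sum_erase T _ hmem, hp1, mul_one, add_sub_cancel_left]
    refine (abs_sum_le_sum_abs _ _).trans ?_
    refine le_trans (sum_le_sum (g := fun m => |D| * |w m * p.eval (a m)|) fun m _ => ?_) ?_
    · rw [abs_mul, abs_mul, ← mul_assoc]
      exact mul_le_mul_of_nonneg_right ((hr m).trans
        (mul_le_mul_of_nonneg_right (le_abs_self D) (abs_nonneg _))) (abs_nonneg _)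
    · rw [← mul_sum]
      exact mul_le_mul_of_nonneg_left (hp2 _ (notMem_erase _ _)) (abs_nonneg _)
  have : |r n| ≤ 0 := le_of_forall_pos_le_add fun ε hε => by
    refine (key (ε / (|D| + 1)) (by positivity)).trans ?_
    rw [zero_add, mul_div_assoc', div_le_iff₀ (by positivity)]
    nlinarith [abs_nonneg D]
  exact abs_nonpos_iff.1 this

lemma sup1_rapid {c : ℕ → ℂ} {w : ℕ → ℝ} {M : ℝ}
    (hdec : ∀ k : ℕ, Summable fun n : ℕ => (n : ℝ) ^ k * w n) (h : ∀ n, ‖c n‖ ≤ M * w n) :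
    Rapid c := fun k => by
  refine Summable.of_nonneg_of_le (fun n => by positivity) (fun n => ?_) ((hdec k).mul_left M)
  rw [mul_left_comm]
  exact mul_le_mul_of_nonneg_left (h n) (by positivity)

theorem qa_sup_iff_dens1 (w : ℕ → ℝ) (hw : ∀ n, 0 ≤ w n)
    (hdec : ∀ k : ℕ, Summable fun n : ℕ => (n : ℝ) ^ k * w n) :
    (∀ f, InClassSup w f → Flat f → f = 0) ↔
      Dens1 (fun n => ((n : ℝ) * π) ^ 2) (fun n => (n : ℝ) * w n) := by
  constructor
  · intro h
    by_contra hd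
    obtain ⟨r, hr, ⟨n₀, hn₀⟩, hk⟩ := exists_ann_of_not_dens1 _ _
      (fun n => mul_nonneg n.cast_nonneg (hw n)) 0 (fun n => by simp)
      (fun k => (hdec (k + 1)).congr fun n => by ring) hd
    have hr0 : r 0 = 0 := by simpa using hr 0
    have hn : n₀ ≠ 0 := fun h0 => hn₀ (h0 ▸ hr0)
    let c : ℕ → ℂ := fun n => ((r n / n : ℝ) : ℂ) * Complex.I
    have hb : ∀ n, ‖c n‖ ≤ 1 * w n := fun n => by
      have e : ‖c n‖ = |r n| / n := by simp [c]
      rw [e, one_mul]
      exact div_le_of_le_mul₀ n.cast_nonneg (hw n) (by rw [mul_comm]; exact hr n)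
    have hR := sup1_rapid hdec hb
    have hcl : InClassSup w (ser c 0) := by
      refine ⟨hR.cinf, by rw [hR.fc_ser]; simp [c], 1, fun n hn => ?_⟩
      rw [hR.fc_ser, if_neg (by omega), norm_div, Complex.norm_ofNat]
      linarith [hb n, norm_nonneg (c n)]
    have h1 := h _ hcl (hR.flat_iff.2
      ⟨fun j => by simp [c],
        fun j => (hk j).congr_fun fun n => by
          simp only [c, Complex.mul_I_im, Complex.ofReal_re]
          rcases eq_or_ne n 0 with rfl | hn0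
          · simp [hr0]
          · rw [div_mul_cancel₀ _ (by exact_mod_cast hn0)]⟩)
    have h2 : r n₀ / n₀ = 0 := by
      have := hR.eq_zero h1 hn
      simp only [c, mul_eq_zero, Complex.I_ne_zero, or_false] at this
      exact_mod_cast this
    exact hn₀ ((div_eq_zero_iff.1 h2).resolve_right (by exact_mod_cast hn))
  · intro h f hf hflat
    obtain ⟨hf1, hf0, C, hC⟩ := hf
    have hb : ∀ n, ‖2 * fc f n‖ ≤ 2 * |C| * w n := fun n => by
      rcases Nat.eq_zero_or_pos n with rfl | hn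
      · rw [hf0, mul_zero, norm_zero]
        exact mul_nonneg (by positivity) (hw 0)
      · rw [norm_mul, mul_assoc, Complex.norm_ofNat]
        exact mul_le_mul_of_nonneg_left ((hC n hn).trans
          (mul_le_mul_of_nonneg_right (le_abs_self _) (hw n))) zero_le_two
    have hR := sup1_rapid hdec hb
    have e := eq_ser hf1 hf0 hR
    rw [e] at hflat ⊢
    obtain ⟨h1, h2⟩ := hR.flat_iff.1 hflat
    have k1 := eq_zero_of_dens1 _ _ (fun n => (2 * fc f n).re) (2 * |C|) h (fun n => by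
      rcases Nat.eq_zero_or_pos n with rfl | hn
      · simp [hf0]
      · refine (Complex.abs_re_le_norm _).trans ((hb n).trans ?_)
        have : (1 : ℝ) ≤ n := by exact_mod_cast hn
        rw [abs_of_nonneg (mul_nonneg n.cast_nonneg (hw n))]
        exact mul_le_mul_of_nonneg_left (le_mul_of_one_le_left (hw n) this) (by positivity)) h1
    have k2 := eq_zero_of_dens1 _ _ (fun n => (2 * fc f n).im * n) (2 * |C|) h (fun n => by
      rw [abs_mul, abs_mul (n : ℝ), abs_of_nonneg (hw n), mul_comm |(n : ℝ)|, ← mul_assoc]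
      exact mul_le_mul_of_nonneg_right ((Complex.abs_im_le_norm _).trans (hb n))
        (abs_nonneg _)) h2
    refine ser_zero fun n => ?_
    rcases eq_or_ne n 0 with rfl | hn
    · rw [hf0, mul_zero]
    · exact Complex.ext (k1 n) ((mul_eq_zero.1 (k2 n)).resolve_right (by exact_mod_cast hn))

end Pool.Agent.P.MP_aabf10_an
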