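import Pool.Agent.P.MP_aabf10_an.Realize
import Pool.Agent.P.MP_aabf10_an.Span2
import Pool.Agent.P.MP_aabf10_an.Sup1
import Pool.Agent.P.MP_aabf10_an.Mom

/-!
# Uniform spanning from `l^1` density; moments of residues
-/

open scoped ContDiff Topology Real
open Filter Finset Set MeasureTheory

namespace Pool.Agent.P.MP_aabf10_an

variable {q : ℝ → ℝ}

theorem approx_fin {a w : ℕ → ℝ} (h : Dens1 a w) (y : ℕ → ℝ) (N : ℕ) : ∀ ε > 0,
    ∃ p : Polynomial ℝ, ∀ T : Finset ℕ,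
      ∑ n ∈ T, |w n * ((if n < N then y n else 0) - p.eval (a n))| ≤ ε := by
  induction N with
  | zero => exact fun ε hε => ⟨0, fun T => by simpa using hε.le⟩
  | succ N ih =>
    intro ε hε
    obtain ⟨p, hp⟩ := ih (ε / 2) (by positivity)
    have key : ∀ n, n ≠ N → (n < N + 1 ↔ n < N) := fun n hn => by omega
    by_cases hw : w N = 0
    · refine ⟨p, fun T => le_trans (le_of_eq (sum_congr rfl fun n _ => ?_))
        ((hp T).trans (by linarith))⟩
      by_cases e : n = N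
      · simp [e, hw]
      · simp only [key n e]
    obtain ⟨r, r1, r2⟩ := h N hw (ε / 2 / (|y N| + 1)) (by positivity)
    refine ⟨p + Polynomial.C (y N) * r, fun T => ?_⟩
    have a1 : ∀ n ∈ T, |w n * ((if n < N + 1 then y n else 0) -
        (p + Polynomial.C (y N) * r).eval (a n))| ≤
        |w n * ((if n < N then y n else 0) - p.eval (a n))| +
          if n ≠ N then |y N| * |w n * r.eval (a n)| else 0 := by
      intro n _
      simp only [Polynomial.eval_add, Polynomial.eval_mul, Polynomial.eval_C]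
      by_cases e : n = N
      · simp [e, r1]
      · simp only [key n e, ne_eq, e, not_false_eq_true, if_true]
        rw [← abs_mul]
        refine le_of_eq_of_le (congrArg abs ?_) (abs_sub _ _)
        ring
    refine (sum_le_sum a1).trans ?_
    rw [sum_add_distrib, ← sum_filter, ← mul_sum]
    have a2 := mul_le_mul_of_nonneg_left (r2 (T.filter (· ≠ N)) (by simp)) (abs_nonneg (y N))
    have a3 : |y N| * (ε / 2 / (|y N| + 1)) ≤ ε / 2 := by
      rw [mul_div_assoc', div_le_iff₀ (by positivity)]; nlinarith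
    linarith [hp T]

theorem tv_sup (hq : Continuous q) {Q : ℝ} (hQ1 : 1 ≤ Q) (hQ : ∀ x, |q x| ≤ Q)
    {mu al be : ℕ → ℝ} (h : IsDir q Q mu) (g : IsGap q mu al be) : ∃ K, 0 < K ∧ ∀ j,
    ∀ x ∈ Icc (0 : ℝ) 1, |tv q (mu (j + 1)) x| ≤ K * (((j + 1 : ℕ) : ℝ) * ell al be (j + 1)) := by
  obtain ⟨C, hC, H⟩ := tv_near hq hQ1 hQ h
  obtain ⟨E, hE, H2⟩ := om_ell hq hQ1 hQ h g
  refine ⟨3 * C * E, by positivity, fun j x hx => ?_⟩
  obtain ⟨A, B, a1, a2, a3⟩ := H j
  set s := C * (((j + 1 : ℕ) : ℝ) * om q mu (j + 1))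
  have s0 : 0 ≤ s := (abs_nonneg _).trans a1
  have a4 := (a3 x hx).trans (div_le_self s0 (by linarith [Nat.cast_nonneg (α := ℝ) j]))
  have a5 := mul_le_mul a1 (Real.abs_cos_le_one (2 * π * (j + 1 : ℕ) * x)) (abs_nonneg _) s0
  have a6 := mul_le_mul a2 (Real.abs_sin_le_one (2 * π * (j + 1 : ℕ) * x)) (abs_nonneg _) s0
  rw [← abs_mul] at a5 a6
  have a7 : s ≤ C * E * (((j + 1 : ℕ) : ℝ) * ell al be (j + 1)) := by
    have := mul_le_mul_of_nonneg_left (H2 j).1 (by positivity : 0 ≤ C * ((j + 1 : ℕ) : ℝ))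
    simp only [s]; linarith
  have a4' := abs_le.1 a4
  have a5' := abs_le.1 a5
  have a6' := abs_le.1 a6
  exact abs_le.2 ⟨by linarith, by linarith⟩

theorem spansSup_of_dens1 (hq : Cinf q) {Q : ℝ} (hQ1 : 1 ≤ Q) (hQ : ∀ x, |q x| ≤ Q)
    {mu al be : ℕ → ℝ} (h : IsDir q Q mu) (g : IsGap q mu al be)
    (H : Dens1 mu fun n => n * ell al be n) {G : ℕ → ℝ → ℝ} (hG : IsLenard q G) :
    SpansSup (Iso q) q G := by
  intro v hv ε hε
  obtain ⟨K, hK, bd⟩ := tv_sup hq.cont hQ1 hQ h g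
  have ht := hv.isTan hq
  obtain ⟨y, hy⟩ := ht.exists_co h
  obtain ⟨s1, u, hu, s2⟩ := expansion hq hQ1 hQ h hv.1 ht.mean
  obtain ⟨N, hN⟩ := exists_tail s1 hu s2 (ε := ε / 4) (by positivity)
  obtain ⟨p, hp⟩ := approx_fin H y (N + 1) (ε / 4 / (2 * K)) (by positivity)
  obtain ⟨n, c, rfl⟩ := exists_PPs q p
  have cX := XP_cinf hq n c
  refine ⟨XP q n c, (hG.mem_iff hq _).2 ⟨n, c, rfl⟩, fun x => ?_⟩
  refine (bound_of_periodic (hv.1.sub cX).2 (C := ε / 2) (fun x hx => ?_) x).trans_lt (by linarith)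
  have a1 := (expansion hq hQ1 hQ h cX (int_XP hq n c)).1 x hx
  simp only [fun j => TT_eq (h.br_succ j) (co_XP hq h n c j).1 (co_XP hq h n c j).2 x] at a1
  have a2 := hN x hx
  simp only [fun j => TT_eq (h.br_succ j) (hy j).1 (hy j).2 x] at a2
  have a3 : HasSum (fun j => 2 * (if j + 1 < N + 1 then y (j + 1) else 0) * tv q (mu (j + 1)) x)
      (∑ j ∈ range N, 2 * y (j + 1) * tv q (mu (j + 1)) x) := by
    have := hasSum_sum_of_ne_finset_zero (s := range N) (L := .unconditional ℕ) (f := fun j =>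
      2 * (if j + 1 < N + 1 then y (j + 1) else 0) * tv q (mu (j + 1)) x) fun j hj => by
        simp [show ¬ j < N by simpa using hj]
    rwa [sum_congr rfl fun j hj => by rw [if_pos (by simpa using hj)]] at this
  have a4 : |∑ j ∈ range N, 2 * y (j + 1) * tv q (mu (j + 1)) x - XP q n c x| ≤ ε / 4 := by
    refine le_of_tendsto' (a3.sub a1).tendsto_sum_nat.abs fun M => ?_
    have a5 := hp ((range M).map ⟨fun j => j + 1, fun a b e => by simpa using e⟩)
    rw [sum_map, le_div_iff₀' (by positivity), mul_sum] at a5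
    refine (abs_sum_le_sum_abs _ _).trans (le_trans (sum_le_sum fun j _ => ?_) a5)
    simp only [Function.Embedding.coeFn_mk]
    rw [← sub_mul, ← mul_sub, abs_mul, abs_mul, abs_two, abs_mul,
      abs_of_nonneg (mul_nonneg (by positivity) (g.ell_nonneg _))]
    have := mul_le_mul_of_nonneg_left (bd j x hx) (abs_nonneg
      ((if j + 1 < N + 1 then y (j + 1) else 0) - (PPs q n c).eval (mu (j + 1))))
    linarith
  have := abs_le.1 a2
  have := abs_le.1 a4
  exact abs_le.2 ⟨by linarith, by linarith⟩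

theorem IsDir.mb_zero_iff (hq : Continuous q) {Q : ℝ} {mu : ℕ → ℝ} (h : IsDir q Q mu) (z : ℂ) :
    mb q z = 0 ↔ ∃ j, z = (mu (j + 1) : ℂ) := by
  refine ⟨fun hz => ?_, by rintro ⟨j, rfl⟩; rw [mb_real hq, h.br_succ]; simp⟩
  have hz' : z = (z.re : ℂ) := Complex.ext rfl (by simpa using im_eq_zero_of_mb hq hz)
  rw [hz', mb_real hq] at hz
  obtain ⟨j, hj, e⟩ := (h.zero_iff z.re).1 (by exact_mod_cast hz)
  obtain ⟨i, rfl⟩ := Nat.exists_eq_add_of_le' hj
  exact ⟨i, by rw [hz', e]⟩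

/-- the reciprocal of the derivative of the Dirichlet function at a zero -/
noncomputable def rho (q : ℝ → ℝ) (t : ℝ) : ℝ := dr q t / J2 q t 1

theorem rho_ne (hq : Continuous q) {t : ℝ} (hb : br q t = 0) : rho q t ≠ 0 :=
  div_ne_zero (right_ne_zero_of_mul_eq_one (ar_mul_dr hq hb)) (J2_pos hq t).ne'

theorem deriv_mb (hq : Continuous q) {t : ℝ} (hb : br q t = 0) :
    deriv (mb q) t = (((rho q t)⁻¹ : ℝ) : ℂ) := by
  rw [(mb_hasDerivAt hq _).deriv, ma_real hq, mb_real hq, I2_one hq, hb, rho, inv_div,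
    div_eq_inv_mul, ← eq_inv_of_mul_eq_one_left (ar_mul_dr hq hb)]
  simp

theorem rho_bound (hq : Continuous q) {Q : ℝ} (hQ1 : 1 ≤ Q) (hQ : ∀ x, |q x| ≤ Q) {mu : ℕ → ℝ}
    (h : IsDir q Q mu) : ∃ D, 0 < D ∧ ∀ j, |rho q (mu (j + 1))| ≤ D * ((j + 1 : ℕ) : ℝ) ^ 2 := by
  refine exists_const (fun j => by positivity) (fun j e => absurd e (by positivity)) (C := 192) ?_
  filter_upwards [ev_large (200 * Q)] with j hj
  obtain ⟨k, -, -, hk4, hk5, -, -, d2, hJ⟩ := h.large_facts' hq hQ1 hQ (j := j + 1)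
    (by push_cast; linarith)
  have hJ0 := J2_pos hq (mu (j + 1))
  have h1 : k ^ 2 ≤ (4 * ((j + 1 : ℕ) : ℝ)) ^ 2 := pow_le_pow_left₀ (by linarith) hk4 2
  rw [rho, abs_div, abs_of_pos hJ0, div_le_iff₀ hJ0]
  rw [div_le_iff₀ (by nlinarith)] at hJ
  nlinarith [mul_le_mul_of_nonneg_left h1 hJ0.le]

theorem moments_real (hq : Cinf q) {Q : ℝ} (hQ1 : 1 ≤ Q) (hQ : ∀ x, |q x| ≤ Q)
    {mu al be : ℕ → ℝ} (h : IsDir q Q mu) (g : IsGap q mu al be) {E : ℂ → ℂ}
    (hE : Differentiable ℂ E) {e : ℕ → ℝ} (he : ∀ j, E (mu (j + 1)) = e j) {D : ℝ}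
    (hb : ∀ j, ((j + 1 : ℕ) : ℝ) * |e j| ≤ D * ell al be (j + 1))
    (hbd : ∃ C : ℝ, ∀ᶠ n : ℕ in atTop, ∀ k, Bd n k → ‖E (k ^ 2)‖ ≤ C * ‖mb q (k ^ 2)‖)
    (hdec : ∀ N : ℕ, ∃ C : ℝ, ∀ᶠ t : ℝ in atBot, ‖E t‖ * |t| ^ N ≤ C * ‖mb q t‖) :
    (∀ K : ℕ, HasSum (fun j => e j * rho q (mu (j + 1)) * mu (j + 1) ^ K) 0) ∧
      ((∀ j, e j = 0) → ∀ z, E z = 0) ∧
      ((Dens1 mu fun n => n * ell al be n) → ∀ z, E z = 0) := by
  have c := hq.cont
  obtain ⟨C₀, hC₀⟩ := h.exists_bound (by linarith)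
  obtain ⟨R, R0, hR⟩ := rho_bound c hQ1 hQ h
  have res : ∀ j, E (mu (j + 1)) / deriv (mb q) (mu (j + 1)) =
      ((e j * rho q (mu (j + 1)) : ℝ) : ℂ) := fun j => by
    rw [he, deriv_mb c (h.br_succ j)]; simp
  have rb : ∀ j, |e j * rho q (mu (j + 1))| ≤ R * D * (((j + 1 : ℕ) : ℝ) * ell al be (j + 1)) :=
    fun j => by
      rw [abs_mul]
      have a1 := mul_le_mul_of_nonneg_left (hR j) (abs_nonneg (e j))
      have a2 := mul_le_mul_of_nonneg_left (hb j) (by positivity : 0 ≤ R * ((j + 1 : ℕ) : ℝ))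
      linarith
  obtain ⟨m1, m2⟩ := moments_zero E (mb q) hE (mb_diff c) (fun j => mu (j + 1))
    (fun i j e => Nat.succ_injective (h.mono.injective e)) C₀
    (fun j => by simpa using hC₀ (j + 1)) (h.mb_zero_iff c)
    (fun j => by
      rw [deriv_mb c (h.br_succ j)]; exact_mod_cast inv_ne_zero (rho_ne c (h.br_succ j)))
    (fun K => (((summable_nat_add_iff 1).2 (ell_decay' hq hQ1 hQ h g K)).mul_left
      (R * D)).of_nonneg_of_le (fun j => by positivity) fun j => by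
        rw [res, Complex.norm_real, Real.norm_eq_abs]
        refine (mul_le_mul (pow_le_pow_left₀ (by positivity)
          (show (j : ℝ) ≤ (j + 1 : ℕ) by push_cast; linarith) K) (rb j) (abs_nonneg _)
          (by positivity)).trans_eq ?_
        ring) hbd hdec
  have m3 : ∀ K : ℕ, HasSum (fun j => e j * rho q (mu (j + 1)) * mu (j + 1) ^ K) 0 := fun K => by
    have := m1 K
    simp only [res] at this
    simpa [← Complex.ofReal_pow] using Complex.hasSum_re this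
  have m4 : (∀ j, e j = 0) → ∀ z, E z = 0 := fun H => m2 fun j => by simp [he, H]
  refine ⟨m3, m4, fun H => m4 fun j => ?_⟩
  have := eq_zero_of_dens1 mu _ (fun n => if n = 0 then 0 else e (n - 1) * rho q (mu n)) (R * D) H
    (fun n => by
      rcases n with _ | n
      · simp
      · rw [abs_of_nonneg (mul_nonneg (by positivity) (g.ell_nonneg _))]
        simpa using rb n)
    (fun K => (hasSum_nat_add_iff' 1).1 (by simpa using m3 K)) (j + 1)
  simpa [rho_ne c (h.br_succ j)] using this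

theorem Nr_bound (hq : Continuous q) {Q : ℝ} (hQ1 : 1 ≤ Q) (hQ : ∀ x, |q x| ≤ Q)
    {mu al be : ℕ → ℝ} (h : IsDir q Q mu) (g : IsGap q mu al be) : ∃ D, 0 < D ∧
    ∀ j, ((j + 1 : ℕ) : ℝ) * |Nr q (mu (j + 1))| ≤ D * ell al be (j + 1) := by
  obtain ⟨D, D0, H⟩ := om_ell hq hQ1 hQ h g
  exact ⟨D, D0, fun j => le_trans (le_add_of_nonneg_right (abs_nonneg _)) (H j).1⟩

theorem br_gap_bound (hq : Cinf q) {Q : ℝ} (hQ1 : 1 ≤ Q) (hQ : ∀ x, |q x| ≤ Q)
    {mu al be : ℕ → ℝ} (h : IsDir q Q mu) (g : IsGap q mu al be) {ν : ℕ → ℝ}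
    (hν : ∀ j, ν j ∈ Icc (al (j + 1)) (be (j + 1))) : ∃ D, 0 < D ∧
    ∀ j, ((j + 1 : ℕ) : ℝ) * |br q (ν j)| ≤ D * ell al be (j + 1) := by
  have d : ∀ j, |ν j - mu (j + 1)| ≤ ell al be (j + 1) := fun j => by
    have := g.al_le (j + 1) (by omega)
    have := g.le_be (j + 1)
    rw [ell_succ]
    exact abs_le.2 ⟨by linarith [(hν j).1], by linarith [(hν j).2]⟩
  refine exists_const (fun j => g.ell_nonneg _) (fun j e => ?_) (C := 1) ?_
  · have := d j
    rw [e, abs_nonpos_iff, sub_eq_zero] at this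
    simp [this, h.br_succ]
  have hl : Tendsto (ell al be) atTop (𝓝 0) := by
    simpa using (ell_decay hq hQ1 hQ h g 0).tendsto_atTop_zero
  filter_upwards [ev_large (200 * Q), ((tendsto_add_atTop_iff_nat 1).2 hl).eventually
    (ge_mem_nhds one_pos)] with j hj hl
  obtain ⟨k, k2, k3, -, k5, k6⟩ := h.large_facts hQ1 (j := j + 1) (by push_cast; linarith)
  obtain ⟨δ, e, hδ⟩ := exists_delta (by linarith) hl (k2 ▸ d j)
  obtain ⟨s, -, s2, s3⟩ := b_local hq.cont hQ1 hQ k5 k6 (k2 ▸ h.br_succ j) (δ := δ) (by linarith)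
  have hδ' := abs_le.1 hδ
  have j1 : (200 : ℝ) ≤ (j + 1 : ℕ) := by push_cast; linarith
  rw [e, abs_mul, abs_of_pos (by linarith)] at s3
  have := mul_le_mul_of_nonneg_right (show ((j + 1 : ℕ) : ℝ) ≤ k + δ by linarith)
    (abs_nonneg (br q (ν j)))
  have := mul_le_mul s2 hδ (abs_nonneg _) (by norm_num)
  linarith [g.ell_nonneg (j + 1)]

end Pool.Agent.P.MP_aabf10_an
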