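import Pool.Agent.P.MP_aabf10_an.Move

/-!
# Convergence of infinitely many Darboux moves
-/

open scoped ContDiff Topology Real
open Filter Finset Set MeasureTheory

namespace Pool.Agent.P.MP_aabf10_an

variable {q : ℝ → ℝ}

/-- polynomially bounded against the weight `w` on `[0, 1]` -/
def B0 (w : ℕ → ℝ) (F : ℕ → ℝ → ℝ) : Prop :=
  ∃ (C : ℝ) (K : ℕ), 0 ≤ C ∧ ∀ i, ∀ x ∈ Icc (0 : ℝ) 1, |F i x| ≤ C * ((i : ℝ) + 1) ^ K * w i

/-- the same for all derivatives up to order `k` -/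
def PB : ℕ → (ℕ → ℝ) → (ℕ → ℝ → ℝ) → Prop
  | 0, w, F => B0 w F
  | k + 1, w, F => B0 w F ∧ ∃ G, (∀ i x, HasDerivAt (F i) (G i x) x) ∧ PB k w G

variable {w : ℕ → ℝ} {F G : ℕ → ℝ → ℝ} {k : ℕ}

theorem B0.add (hw : ∀ i, 0 ≤ w i) (h : B0 w F) (g : B0 w G) : B0 w fun i x => F i x + G i x := by
  obtain ⟨C, K, c, h⟩ := h
  obtain ⟨D, L, d, g⟩ := g
  refine ⟨C + D, K + L, by positivity, fun i x hx => (abs_add_le _ _).trans ?_⟩
  have h1 : (1 : ℝ) ≤ i + 1 := by linarith [Nat.cast_nonneg (α := ℝ) i]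
  have a := mul_le_mul_of_nonneg_right (mul_le_mul_of_nonneg_left
    (pow_le_pow_right₀ h1 (Nat.le_add_right K L)) c) (hw i)
  have b := mul_le_mul_of_nonneg_right (mul_le_mul_of_nonneg_left
    (pow_le_pow_right₀ h1 (Nat.le_add_left L K)) d) (hw i)
  linarith [h i x hx, g i x hx]

theorem B0.mul (h : B0 w F) (g : B0 1 G) : B0 w fun i x => F i x * G i x := by
  obtain ⟨C, K, c, h⟩ := h
  obtain ⟨D, L, d, g⟩ := g
  refine ⟨C * D, K + L, by positivity, fun i x hx => ?_⟩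
  rw [abs_mul]
  refine (mul_le_mul (h i x hx) (g i x hx) (abs_nonneg _)
    ((abs_nonneg _).trans (h i x hx))).trans_eq ?_
  simp only [Pi.one_apply]; ring

theorem PB.b0 (h : PB k w F) : B0 w F := by
  cases k with
  | zero => exact h
  | succ k => exact h.1

theorem PB.mono (h : PB (k + 1) w F) : PB k w F := by
  induction k generalizing F with
  | zero => exact h.1
  | succ k ih => obtain ⟨a, g, b, c⟩ := h; exact ⟨a, g, b, ih c⟩

theorem PB.weight {v : ℕ → ℝ} (hv : ∀ i, w i ≤ v i) (h : PB k w F) : PB k v F := by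
  have key : ∀ F, B0 w F → B0 v F := fun F ⟨C, K, c, h⟩ => ⟨C, K, c, fun i x hx =>
    (h i x hx).trans (mul_le_mul_of_nonneg_left (hv i) (by positivity))⟩
  induction k generalizing F with
  | zero => exact key _ h
  | succ k ih => obtain ⟨a, g, b, c⟩ := h; exact ⟨key _ a, g, b, ih c⟩

theorem PB.param (hw : ∀ i, 0 ≤ w i) {c : ℕ → ℝ} (hc : B0 w fun i _ => c i) :
    PB k w fun i _ => c i := by
  induction k generalizing c with
  | zero => exact hc
  | succ k ih =>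
    exact ⟨hc, fun _ _ => 0, fun t x => hasDerivAt_const _ _,
      ih ⟨0, 0, le_rfl, fun i x _ => by simp⟩⟩

theorem PB.const (c : ℝ) : PB k 1 fun _ _ => c :=
  PB.param (fun _ => zero_le_one) ⟨|c|, 0, abs_nonneg c, fun i x _ => by simp⟩

theorem PB.add (hw : ∀ i, 0 ≤ w i) (h : PB k w F) (j : PB k w G) :
    PB k w fun i x => F i x + G i x := by
  induction k generalizing F G with
  | zero => exact B0.add hw h j
  | succ k ih =>
    obtain ⟨a, f', b, c⟩ := h
    obtain ⟨d, g', e, i⟩ := j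
    exact ⟨a.add hw d, _, fun t x => (b t x).fun_add (e t x), ih c i⟩

theorem PB.mul (hw : ∀ i, 0 ≤ w i) (h : PB k w F) (j : PB k 1 G) :
    PB k w fun i x => F i x * G i x := by
  induction k generalizing F G with
  | zero => exact B0.mul h j
  | succ k ih =>
    have h' := h.mono
    have j' := j.mono
    obtain ⟨a, f', b, c⟩ := h
    obtain ⟨d, g', e, i⟩ := j
    exact ⟨a.mul d, _, fun t x => (b t x).fun_mul (e t x), (ih c j').add hw (ih h' i)⟩

theorem PB.mul' (hw : ∀ i, 0 ≤ w i) (h : PB k 1 F) (j : PB k w G) :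
    PB k w fun i x => F i x * G i x := by
  simpa only [mul_comm] using j.mul hw h

theorem PB.inv (h : PB k 1 F) (h0 : ∀ i x, F i x ≠ 0) (h1 : ∀ i, ∀ x ∈ Icc (0 : ℝ) 1, 1 / 2 ≤ F i x) :
    PB k 1 fun i x => (F i x)⁻¹ := by
  have b : B0 1 fun i x => (F i x)⁻¹ := ⟨2, 0, zero_le_two, fun i x hx => by
    have := h1 i x hx
    rw [abs_of_pos (by positivity), inv_le_comm₀ (by positivity) (by simp)]
    simpa using this⟩
  have o : ∀ i, 0 ≤ (1 : ℕ → ℝ) i := fun _ => zero_le_one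
  induction k with
  | zero => exact b
  | succ k ih =>
    have h' := ih h.mono
    obtain ⟨-, f', d, c⟩ := h
    exact ⟨b, fun t x => -1 * f' t x * ((F t x)⁻¹ * (F t x)⁻¹),
      fun t x => ((d t x).fun_inv (h0 t x)).congr_deriv (by field_simp),
      ((PB.const _).mul o c).mul o (h'.mul o h')⟩

theorem PB.of_sol {p y y' : ℕ → ℝ → ℝ} (hp : PB k 1 p) (h : ∀ t, IsSol (p t) (y t) (y' t))
    (c1 : B0 1 y) (c2 : B0 1 y') : PB (k + 1) 1 y ∧ PB (k + 1) 1 y' := by
  have o : ∀ i, 0 ≤ (1 : ℕ → ℝ) i := fun _ => zero_le_one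
  induction k with
  | zero => exact ⟨⟨c1, y', fun t x => (h t).d1 x, c2⟩, c2, _, fun t x => (h t).d2 x, B0.mul hp c1⟩
  | succ k ih =>
    obtain ⟨a, b⟩ := ih hp.mono
    exact ⟨⟨c1, y', fun t x => (h t).d1 x, b⟩, c2, _, fun t x => (h t).d2 x, hp.mul o a⟩

theorem PB.iter (h : PB k w F) : B0 w fun i => iteratedDeriv k (F i) := by
  induction k generalizing F with
  | zero => simpa using h.b0
  | succ k ih =>
    obtain ⟨-, g, b, c⟩ := h
    have : ∀ t, deriv (F t) = g t := fun t => funext fun x => (b t x).deriv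
    simp only [iteratedDeriv_succ', this]
    exact ih c

theorem PB.of_iter (hF : ∀ i, Cinf (F i))
    (h : ∀ j ≤ k, B0 w fun i => iteratedDeriv j (F i)) : PB k w F := by
  induction k generalizing F with
  | zero => simpa [PB] using h 0 le_rfl
  | succ k ih =>
    refine ⟨by simpa using h 0 (by omega), fun i => deriv (F i), fun i => (hF i).hasDerivAt,
      ih (fun i => (hF i).deriv) fun j hj => ?_⟩
    simpa only [iteratedDeriv_succ'] using h (j + 1) (by omega)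

theorem bound_of_periodic {f : ℝ → ℝ} (hp : Function.Periodic f 1) {C : ℝ}
    (h : ∀ x ∈ Icc (0 : ℝ) 1, |f x| ≤ C) (x : ℝ) : |f x| ≤ C := by
  obtain ⟨y, hy, e⟩ := hp.exists_mem_Ico₀ one_pos x
  rw [e]; exact h y (Ico_subset_Icc_self hy)

theorem move_bound (hq : Continuous q) {Q : ℝ} (hQ1 : 1 ≤ Q) (hQ : ∀ x, |q x| ≤ Q)
    {k₀ k₁ τ κ e : ℝ} (h0 : 2 * Q ≤ k₀) (h1 : 2 * Q ≤ k₁) (he : k₁ * |τ| + |κ| ≤ e) (he' : e ≤ 1 / 4)
    {V : ℝ → ℝ} (V0 : V 0 = 1)
    (V1 : ∀ x, HasDerivAt V (phr q (k₀ ^ 2) x * gs q (k₁ ^ 2) τ κ x) x) {x : ℝ}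
    (hx : x ∈ Icc (0 : ℝ) 1) : 1 / 2 ≤ V x ∧ V x ≤ 2 ∧
      |-2 * ((phr' q (k₀ ^ 2) x * gs q (k₁ ^ 2) τ κ x + phr q (k₀ ^ 2) x * gs' q (k₁ ^ 2) τ κ x)
        * (V x)⁻¹) + 2 * (phr q (k₀ ^ 2) x * gs q (k₁ ^ 2) τ κ x * (V x)⁻¹ *
          (phr q (k₀ ^ 2) x * gs q (k₁ ^ 2) τ κ x * (V x)⁻¹))| ≤ 32 * e := by
  have a : ∀ x ∈ Icc (0 : ℝ) 1, |phr q (k₀ ^ 2) x * gs q (k₁ ^ 2) τ κ x| ≤ e ∧
      |phr' q (k₀ ^ 2) x * gs q (k₁ ^ 2) τ κ x + phr q (k₀ ^ 2) x * gs' q (k₁ ^ 2) τ κ x| ≤ 4 * e := by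
    intro x hx
    obtain ⟨-, -, u1, u2⟩ := bd_real hq hQ (by linarith) h0 hx
    obtain ⟨t1, t2, t3, t4⟩ := bd_real hq hQ (by linarith) h1 hx
    have u1' := u1.trans (show 2 / k₀ ≤ 1 by rw [div_le_one (by linarith)]; linarith)
    have t3' := t3.trans (show 2 / k₁ ≤ 1 by rw [div_le_one (by linarith)]; linarith)
    have p1 := abs_nonneg τ
    have p2 := abs_nonneg κ
    have g1 : |gs q (k₁ ^ 2) τ κ x| ≤ e := (abs_add_le _ _).trans (by
      rw [abs_mul, abs_mul]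
      nlinarith [mul_le_mul_of_nonneg_left t1 p1, mul_le_mul_of_nonneg_left t3' p2])
    have g2 : |gs' q (k₁ ^ 2) τ κ x| ≤ 2 * e := (abs_add_le _ _).trans (by
      rw [abs_mul, abs_mul]
      nlinarith [mul_le_mul_of_nonneg_left t2 p1, mul_le_mul_of_nonneg_left t4 p2])
    refine ⟨?_, (abs_add_le _ _).trans ?_⟩
    · rw [abs_mul]
      linarith [mul_le_mul u1' g1 (abs_nonneg _) zero_le_one]
    · rw [abs_mul, abs_mul]
      linarith [mul_le_mul u1' g2 (abs_nonneg _) zero_le_one,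
        mul_le_mul u2 g1 (abs_nonneg _) zero_le_two]
  have e0 : 0 ≤ e := (abs_nonneg _).trans (a x hx).1
  have b := norm_image_sub_le_of_norm_deriv_le_segment' (a := 0) (b := 1) (C := e)
    (fun x _ => (V1 x).hasDerivWithinAt) (fun x hx => (a x (Ico_subset_Icc_self hx)).1) x hx
  rw [V0, Real.norm_eq_abs] at b
  have b' := abs_le.1 (b.trans (show e * (x - 0) ≤ 1 / 4 by nlinarith [hx.1, hx.2]))
  refine ⟨by linarith, by linarith, (abs_add_le _ _).trans ?_⟩
  have i1 : |(V x)⁻¹| ≤ 2 := by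
    rw [abs_of_pos (inv_pos.2 (by linarith)), inv_le_comm₀ (by linarith) two_pos]; linarith
  have m1 := mul_le_mul (a x hx).2 i1 (abs_nonneg _) (by positivity)
  have m2 := mul_le_mul (a x hx).1 i1 (abs_nonneg _) e0
  rw [← abs_mul] at m1 m2
  have m3 := mul_le_mul m2 m2 (abs_nonneg _) (by positivity)
  rw [abs_mul (-2), abs_mul 2, abs_mul (_ * (V x)⁻¹), abs_neg, abs_two]
  nlinarith

theorem limit_of_moves {P : ℕ → ℝ → ℝ} (hP : ∀ i, Cinf (P i)) {Q L : ℝ} (hQ1 : 1 ≤ Q)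
    (hQ : ∀ i x, |P i x| ≤ Q) {k₀ k₁ τ κ e : ℕ → ℝ} (h0 : ∀ i, 2 * Q ≤ k₀ i ∧ k₀ i ≤ L * (i + 1))
    (h1 : ∀ i, 2 * Q ≤ k₁ i ∧ k₁ i ≤ L * (i + 1)) (he : ∀ i, k₁ i * |τ i| + |κ i| ≤ e i)
    (he' : ∀ i, e i ≤ 1 / 4) (hs : ∀ K : ℕ, Summable fun i : ℕ => ((i : ℝ) + 1) ^ K * e i)
    (hm : ∀ i, IsMove (P i) (k₀ i ^ 2) (k₁ i ^ 2) (τ i) (κ i) (P (i + 1))) :
    ∃ p, Cinf p ∧ TendstoUniformly P p atTop := by
  choose V V0 Vne V1 V2 using hm
  have o : ∀ i, 0 ≤ (1 : ℕ → ℝ) i := fun _ => zero_le_one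
  have bd := fun i x hx => move_bound (hP i).cont hQ1 (hQ i) (h0 i).1 (h1 i).1 (he i) (he' i)
    (V0 i) (V1 i) (x := x) hx
  have a1 : ∀ i, |τ i| ≤ e i ∧ |κ i| ≤ e i := fun i => by
    have := he i
    have := (h1 i).1
    constructor <;> nlinarith [abs_nonneg (τ i), abs_nonneg (κ i)]
  have e0 : ∀ i, 0 ≤ e i := fun i => (abs_nonneg _).trans (a1 i).1
  have L0 : 0 ≤ L := by have := h0 0; simp at this; linarith
  have sol : ∀ {n : ℕ} {k : ℕ → ℝ}, (∀ i, 2 * Q ≤ k i ∧ k i ≤ L * (i + 1)) → PB n 1 P →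
      (PB (n + 1) 1 (fun i => thr (P i) (k i ^ 2)) ∧ PB (n + 1) 1 fun i => thr' (P i) (k i ^ 2)) ∧
      PB (n + 1) 1 (fun i => phr (P i) (k i ^ 2)) ∧ PB (n + 1) 1 fun i => phr' (P i) (k i ^ 2) := by
    intro n k hk h
    have hp : PB n 1 fun i x => P i x - k i ^ 2 := by
      simpa only [sub_eq_add_neg] using h.add o (PB.param o (c := fun i => -k i ^ 2)
        ⟨L ^ 2, 2, sq_nonneg _, fun i x _ => by
          rw [abs_neg, abs_of_nonneg (sq_nonneg _), ← mul_pow, Pi.one_apply, mul_one]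
          exact pow_le_pow_left₀ (by linarith [(hk i).1]) (hk i).2 2⟩)
    have b := fun i x hx => bd_real (hP i).cont (hQ i) (by linarith [(hk i).1]) (hk i).1 (x := x) hx
    refine ⟨hp.of_sol (fun i => thr_sol (hP i).cont _) ⟨2, 0, zero_le_two, fun i x hx => ?_⟩
      ⟨2 * L, 1, by positivity, fun i x hx => ?_⟩, hp.of_sol (fun i => phr_sol (hP i).cont _)
      ⟨1, 0, zero_le_one, fun i x hx => ?_⟩ ⟨2, 0, zero_le_two, fun i x hx => ?_⟩⟩
    · simpa using (b i x hx).1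
    · simp only [pow_one, Pi.one_apply]; linarith [(b i x hx).2.1, (hk i).2]
    · simp only [pow_zero, Pi.one_apply, mul_one]
      refine (b i x hx).2.2.1.trans ?_
      rw [div_le_one (by linarith [(hk i).1])]; linarith [(hk i).1]
    · simpa using (b i x hx).2.2.2
  have step : ∀ n, PB n 1 P → PB (n + 1) e fun i x => P (i + 1) x - P i x := by
    intro n h
    obtain ⟨-, u, u'⟩ := sol h0 h
    obtain ⟨⟨t, t'⟩, f, f'⟩ := sol h1 h
    have cτ : PB (n + 1) e fun i _ => τ i :=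
      PB.param e0 ⟨1, 0, zero_le_one, fun i x _ => by simpa using (a1 i).1⟩
    have cκ : PB (n + 1) e fun i _ => κ i :=
      PB.param e0 ⟨1, 0, zero_le_one, fun i x _ => by simpa using (a1 i).2⟩
    have g : PB (n + 1) e fun i => gs (P i) (k₁ i ^ 2) (τ i) (κ i) :=
      (cτ.mul e0 t).add e0 (cκ.mul e0 f)
    have g' : PB (n + 1) e fun i => gs' (P i) (k₁ i ^ 2) (τ i) (κ i) :=
      (cτ.mul e0 t').add e0 (cκ.mul e0 f')
    have e1 : ∀ i, e i ≤ (1 : ℕ → ℝ) i := fun i => (he' i).trans (by norm_num)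
    have ug := u.mul' e0 g
    have hV : PB (n + 1) 1 V := ⟨⟨2, 0, zero_le_two, fun i x hx => by
      have := bd i x hx
      simp only [pow_zero, Pi.one_apply, mul_one]
      exact abs_le.2 ⟨by linarith [this.1], this.2.1⟩⟩, _, V1, (ug.weight e1).mono⟩
    have hi := hV.inv Vne fun i x hx => (bd i x hx).1
    simp only [V2]
    exact ((PB.const _).mul' e0 (((u'.mul' e0 g).add e0 (u.mul' e0 g')).mul e0 hi)).add e0
      ((PB.const _).mul' e0 ((ug.mul e0 hi).mul e0 ((ug.mul e0 hi).weight e1)))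
  have hδ : ∀ i, Cinf fun x => P (i + 1) x - P i x := fun i => (hP _).sub (hP _)
  have fin : ∀ n, PB n e (fun i x => P (i + 1) x - P i x) → ∃ v, Summable v ∧ ∀ i x,
      |iteratedDeriv n (fun x => P (i + 1) x - P i x) x| ≤ v i := fun n h => by
    obtain ⟨C, K, -, b⟩ := h.iter
    exact ⟨_, (hs K).mul_left C, fun i => bound_of_periodic ((hδ i).iter n).2 fun x hx =>
      (b i x hx).trans_eq (mul_assoc _ _ _)⟩
  have all : ∀ n, PB n 1 P := by
    intro n
    induction n using Nat.strong_induction_on with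
    | _ n ih =>
      refine PB.of_iter hP fun j hj => ?_
      rcases j with _ | j
      · exact ⟨Q, 0, by linarith, fun i x _ => by simpa using hQ i x⟩
      obtain ⟨v, hv, b⟩ := fin _ (step j (ih j (by omega)))
      obtain ⟨M, M1, hM⟩ := exists_bound_periodic ((hP 0).iter (j + 1)).cont ((hP 0).iter _).2
      have v0 : ∀ i, 0 ≤ v i := fun i => (abs_nonneg _).trans (b i 0)
      refine ⟨M + ∑' i, v i, 0, add_nonneg (by linarith) (tsum_nonneg v0), fun i x _ => ?_⟩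
      have : |iteratedDeriv (j + 1) (P i) x| ≤ M + ∑ l ∈ range i, v l := by
        induction i with
        | zero => simpa using hM x
        | succ i ih =>
          have := b i x
          rw [iteratedDeriv_fun_sub ((hP _).1.of_le (by exact_mod_cast le_top)).contDiffAt
            ((hP _).1.of_le (by exact_mod_cast le_top)).contDiffAt] at this
          rw [sum_range_succ]
          linarith [abs_sub_abs_le_abs_sub (iteratedDeriv (j + 1) (P (i + 1)) x)
            (iteratedDeriv (j + 1) (P i) x)]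
      simp only [pow_zero, Pi.one_apply, mul_one]
      linarith [hv.sum_le_tsum (range i) fun l _ => v0 l]
  choose v hv b using fun n => fin n (step n (all n)).mono
  refine ⟨fun x => P 0 x + ∑' i, (P (i + 1) x - P i x), ⟨(hP 0).1.add ?_, fun x => ?_⟩, ?_⟩
  · exact contDiff_tsum (N := ⊤) (v := v) (fun i => (hδ i).1) (fun k _ => hv k) fun k i x _ => by
      rw [norm_iteratedFDeriv_eq_norm_iteratedDeriv]; exact b k i x
  · simp only [(hP _).2 x]
  · have := tendstoUniformly_tsum_nat (hv 0) (f := fun i x => P (i + 1) x - P i x)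
      fun i x => by simpa using b 0 i x
    rw [Metric.tendstoUniformly_iff] at this ⊢
    intro ε hε
    filter_upwards [this ε hε] with i hi x
    have := hi x
    rw [sum_range_sub (fun i => P i x), Real.dist_eq] at this
    rw [Real.dist_eq]
    exact lt_of_eq_of_lt (congrArg abs (by ring)) this

theorem mono_tendsto {P : ℕ → ℝ → ℝ} (hP : ∀ i, Continuous (P i)) (hq : Continuous q)
    (h : TendstoUniformly P q atTop) (t : ℝ) :
    Tendsto (fun i => ar (P i) t) atTop (𝓝 (ar q t)) ∧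
    Tendsto (fun i => br (P i) t) atTop (𝓝 (br q t)) ∧
    Tendsto (fun i => dr (P i) t) atTop (𝓝 (dr q t)) := by
  have hl : ∀ ε > 0, ∀ᶠ i in atTop, ∀ x, |x| ≤ 1 → ‖pot (P i) t x - pot q t x‖ ≤ ε := by
    intro ε hε
    filter_upwards [Metric.tendstoUniformly_iff.1 h ε hε] with i hi x _
    have := (hi x).le
    rw [dist_comm, Real.dist_eq] at this
    simpa [pot, ← Complex.ofReal_sub] using this
  have a := sol_tendsto (pot_cont hq t) one_pos (fun i => pot_cont (hP i) t) hl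
    (fun i => th_sol (hP i) t) (th_sol hq t) (fun i => by rw [th_zero (hP i), th_zero hq])
    fun i => by rw [th'_zero (hP i), th'_zero hq]
  have b := sol_tendsto (pot_cont hq t) one_pos (fun i => pot_cont (hP i) t) hl
    (fun i => ph_sol (hP i) t) (ph_sol hq t) (fun i => by rw [ph_zero (hP i), ph_zero hq])
    fun i => by rw [ph'_zero (hP i), ph'_zero hq]
  have key : ∀ {f : ℕ → ℂ} {z : ℂ}, (∀ ε > 0, ∀ᶠ i in atTop, ‖f i - z‖ ≤ ε) →
      Tendsto (fun i => (f i).re) atTop (𝓝 z.re) := fun {f z} H =>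
    (Complex.continuous_re.tendsto z).comp (Metric.nhds_basis_closedBall.tendsto_right_iff.2
      fun ε hε => (H ε hε).mono fun i hi => by simpa [dist_eq_norm] using hi)
  exact ⟨key fun ε hε => (a ε hε).mono fun i hi => (hi 1 (by simp)).1,
    key fun ε hε => (b ε hε).mono fun i hi => (hi 1 (by simp)).1,
    key fun ε hε => (b ε hε).mono fun i hi => (hi 1 (by simp)).2⟩

end Pool.Agent.P.MP_aabf10_an
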