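import Pool.Agent.P.MP_aabf10_an.Darboux

/-!
# Tangent vectors of the isospectral manifold
-/

open scoped ContDiff Topology Real
open Filter Finset Set MeasureTheory

namespace Pool.Agent.P.MP_aabf10_an

variable {q : ℝ → ℝ}

theorem tangent_var (hq : Cinf q) {v : ℝ → ℝ} (hv : Continuous v) {γ : ℝ → ℝ → ℝ}
    (hγ : ∀ t, Continuous (γ t)) (h0 : γ 0 = q)
    (h : TendstoUniformly (fun t x => (γ t x - q x) / t) v (𝓝[≠] 0)) (z : ℂ) :
    Tendsto (fun t : ℝ => (ma (γ t) z - ma q z) / t) (𝓝[≠] 0)
      (𝓝 (mb q z * I0 q z (fun x => v x) 1 - ma q z * I1 q z (fun x => v x) 1)) ∧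
    Tendsto (fun t : ℝ => (mb (γ t) z - mb q z) / t) (𝓝[≠] 0)
      (𝓝 (mb q z * I1 q z (fun x => v x) 1 - ma q z * I2 q z (fun x => v x) 1)) ∧
    Tendsto (fun t : ℝ => (md (γ t) z - md q z) / t) (𝓝[≠] 0)
      (𝓝 (md q z * I1 q z (fun x => v x) 1 - mc q z * I2 q z (fun x => v x) 1)) := by
  have c := hq.cont
  have e : ∀ t : ℝ, (fun x => pot q z x + (t : ℂ) * (((γ t x - q x) / t : ℝ) : ℂ)) = pot (γ t) z := by
    intro t
    funext x
    rcases eq_or_ne t 0 with rfl | ht
    · simp [h0]
    · have : (t : ℂ) ≠ 0 := by exact_mod_cast ht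
      simp only [pot]; push_cast; field_simp; ring
  have key := fun (y y' : ℝ → ℝ → ℂ) (w w' : ℝ → ℂ) (hy : ∀ t, IsSol (pot (γ t) z) (y t) (y' t))
      (hw : IsSol (pot q z) w w') (a : ∀ t, y t 0 = w 0) (b : ∀ t, y' t 0 = w' 0) =>
    sol_deriv (l := 𝓝[≠] (0 : ℝ)) (pot_cont c z) one_pos
      (g := fun t x => (((γ t x - q x) / t : ℝ) : ℂ)) (h := fun x => (v x : ℂ))
      (t := fun t : ℝ => (t : ℂ)) (fun t => by have := hγ t; fun_prop) (by fun_prop)
      (tendsto_nhdsWithin_of_tendsto_nhds (by
        simpa using Complex.continuous_ofReal.tendsto 0))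
      (by filter_upwards [self_mem_nhdsWithin] with t ht using Complex.ofReal_ne_zero.2 ht)
      (fun ε hε => by
        filter_upwards [Metric.tendstoUniformly_iff.1 h ε hε] with t ht x _
        rw [← Complex.ofReal_sub, Complex.norm_real, norm_sub_rev]
        exact (ht x).le)
      (y := y) (y' := y') (fun t => by rw [e]; exact hy t) hw a b (x := 1) (by simp)
  have a := key _ _ _ _ (fun t => th_sol (hγ t) z) (th_sol c z)
    (fun t => by rw [th_zero (hγ t), th_zero c]) (fun t => by rw [th'_zero (hγ t), th'_zero c])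
  have b := key _ _ _ _ (fun t => ph_sol (hγ t) z) (ph_sol c z)
    (fun t => by rw [ph_zero (hγ t), ph_zero c]) (fun t => by rw [ph'_zero (hγ t), ph'_zero c])
  refine ⟨?_, b.1, b.2⟩
  have e2 : I1 q z (fun x => v x) 1 = ∫ s in (0 : ℝ)..1, (v s : ℂ) * (Ph (pot q z) s * th q z s) := by
    unfold I1 ph; congr 1; funext s; ring
  rw [e2]; exact a.1

theorem eq_zero_of_tendsto {f : ℝ → ℂ} {a : ℂ} (h : Tendsto f (𝓝[≠] 0) (𝓝 a)) (h0 : ∀ t, f t = 0) :
    a = 0 := tendsto_nhds_unique h (by rw [show f = fun _ => 0 from funext h0]; exact tendsto_const_nhds)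

/-- the conditions satisfied by tangent vectors -/
structure IsTan (q : ℝ → ℝ) (v : ℝ → ℝ) : Prop where
  mean : ∫ x in (0 : ℝ)..1, v x = 0
  coef : ∀ t, br q t = 0 → ∃ y, J2 q t v = -(2 * dr q t * Nr q t) * y ∧
    J1 q t v = -(dr q t * cr q t) * y

theorem isTan_of_curve (hq : Cinf q) {v : ℝ → ℝ} (hv : Cinf v) {γ : ℝ → ℝ → ℝ}
    (hγ : ∀ t, γ t ∈ Iso q) (h0 : γ 0 = q)
    (h : TendstoUniformly (fun t x => (γ t x - q x) / t) v (𝓝[≠] 0)) : IsTan q v := by
  have c := hq.cont
  have cγ := fun t => (hγ t).1.cont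
  have V := tangent_var hq hv.cont cγ h0 h
  have T1 : ∀ z, mb q z * I0 q z (fun x => v x) 1 + 2 * Nn q z * I1 q z (fun x => v x) 1
      - mc q z * I2 q z (fun x => v x) 1 = 0 := by
    intro z
    have := eq_zero_of_tendsto ((V z).1.add (V z).2.2) fun t => by
      have := Dl_eq_of_iso hq (hγ t) z
      unfold Dl at this
      rw [← add_div, show ma (γ t) z - ma q z + (md (γ t) z - md q z) = 0 by
        linear_combination 2 * this, zero_div]
    unfold Nn
    linear_combination this
  constructor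
  · obtain ⟨Q, hQ1, hQ⟩ := exists_bound_periodic c hq.2
    obtain ⟨H, H1, hH⟩ := exists_bound_periodic hv.cont hv.2
    have key : ∀ n : ℕ, 2 * Q ≤ n → |∫ x in (0 : ℝ)..1, v x| ≤ 2 * Q * H / n := by
      intro n hn
      have hpi := Real.pi_gt_three
      have n0 : (0 : ℝ) < n := by linarith
      set k : ℝ := n * π + π / 2
      have hk : (n : ℝ) ≤ k := by simp only [k]; nlinarith
      have hs : |Real.sin k| = 1 := by
        simp only [k]
        rw [add_comm, Real.sin_add_nat_mul_pi, Real.sin_pi_div_two]; simp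
      have hkn : ‖(k : ℂ)‖ = k := by simp [abs_of_pos (n0.trans_le hk)]
      have h1 := int_bx c ((k : ℂ) ^ 2) (h := fun x => v x) (by have := hv.cont; fun_prop) 1
      rw [T1] at h1
      have cb : Continuous (bx q ((k : ℂ) ^ 2)) :=
        continuous_iff_continuousAt.2 fun x => (bx_hasDerivAt c _ x).continuousAt
      have cv := hv.cont
      have h2 : ∫ x in (0 : ℝ)..1, (v x : ℂ) * (Complex.sin k - k * bx q (k ^ 2) x) =
          Complex.sin k * ((∫ x in (0 : ℝ)..1, v x : ℝ) : ℂ) := by
        have : ∀ x, (v x : ℂ) * (Complex.sin k - k * bx q (k ^ 2) x) =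
            Complex.sin k * v x - k * (v x * bx q (k ^ 2) x) := fun x => by ring
        simp only [this]
        rw [intervalIntegral.integral_sub, intervalIntegral.integral_const_mul,
          intervalIntegral.integral_const_mul, h1, intervalIntegral.integral_ofReal]
        · simp
        all_goals exact Continuous.intervalIntegrable (by fun_prop) _ _
      have h3 := norm_int_le' (f := fun x => (v x : ℂ) * (Complex.sin k - k * bx q (k ^ 2) x))
        (C := H * (2 * Q / k)) le_rfl zero_le_one le_rfl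
        (by have := n0.trans_le hk; positivity) fun x _ => by
          rw [norm_mul, norm_sub_rev, bx_eq_mb c hq.2]
          have := mb_est (q := fun y => q (y + x)) (by fun_prop) (fun y => hQ _) (k := k)
            (norm_pos_iff.1 (by rw [hkn]; linarith)) (by rw [hkn]; linarith)
          simp only [hkn, Complex.ofReal_im, abs_zero, Real.exp_zero, mul_one] at this
          exact mul_le_mul (by simpa using hH x) this (norm_nonneg _) (by linarith)
      rw [h2, norm_mul, ← Complex.ofReal_sin, Complex.norm_real, Complex.norm_real,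
        Real.norm_eq_abs, Real.norm_eq_abs, hs, one_mul] at h3
      refine h3.trans ?_
      rw [mul_div_assoc', mul_comm H]
      exact div_le_div_of_nonneg_left (by positivity) n0 hk
    refine abs_eq_zero.1 (le_antisymm (ge_of_tendsto (tendsto_const_div_atTop_nhds_zero_nat
      (2 * Q * H)) ((ev_large (2 * Q)).mono key)) (abs_nonneg _))
  · intro t hb
    have had := ar_mul_dr c hb
    have hd := right_ne_zero_of_mul_eq_one had
    have ha := left_ne_zero_of_mul_eq_one had
    have T := T1 t
    rw [mb_real c, Nn_real c, mc_real c, I0_real c, I1_real c, I2_real c, hb] at T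
    have T' : 2 * Nr q t * J1 q t v - cr q t * J2 q t v = 0 := by
      have : ((2 * Nr q t * J1 q t v - cr q t * J2 q t v : ℝ) : ℂ) = 0 := by
        push_cast; simpa using T
      exact_mod_cast this
    by_cases hN : Nr q t = 0
    swap
    · refine ⟨-J2 q t v / (2 * dr q t * Nr q t), by field_simp, ?_⟩
      field_simp; linarith
    by_cases hc : cr q t = 0
    swap
    · refine ⟨-J1 q t v / (dr q t * cr q t), ?_, by field_simp⟩
      rw [hN] at T' ⊢
      have : cr q t * J2 q t v = 0 := by linarith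
      rw [(mul_eq_zero.1 this).resolve_left hc]; simp
    have hd : Dbl q t := ⟨hb, hc, hN⟩
    have hdγ : ∀ s, Dbl (γ s) t := fun s => by
      have e := Dr_eq_of_iso hq (hγ s)
      exact (dbl_iff (cγ s) (by rw [e]; exact hd.sq c)).2 (by
        rw [Dr1_congr c (cγ s) e]; exact (dbl_iff c (hd.sq c)).1 hd)
    have e2 := eq_zero_of_tendsto (V t).2.1 fun s => by
      rw [mb_real (cγ s), mb_real c, (hdγ s).1, hb]; simp
    have e1 := eq_zero_of_tendsto ((V t).2.2.sub (V t).1) fun s => by
      have a := (hdγ s).2.2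
      unfold Nr at a hN
      rw [md_real (cγ s), md_real c, ma_real (cγ s), ma_real c, ← sub_div]
      have : dr (γ s) t - dr q t - (ar (γ s) t - ar q t) = 0 := by linarith
      rw [show (dr (γ s) t : ℂ) - dr q t - (ar (γ s) t - ar q t) = 0 by exact_mod_cast this, zero_div]
    rw [mb_real c, ma_real c, I1_real c, I2_real c, hb] at e2
    rw [mb_real c, ma_real c, md_real c, mc_real c, I0_real c, I1_real c, I2_real c, hb, hc] at e1
    have f2 : ar q t * J2 q t v = 0 := by
      have : ((ar q t * J2 q t v : ℝ) : ℂ) = 0 := by push_cast; simpa using e2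
      exact_mod_cast this
    have f1 : (dr q t + ar q t) * J1 q t v = 0 := by
      have : (((dr q t + ar q t) * J1 q t v : ℝ) : ℂ) = 0 := by
        push_cast; simp only [Complex.ofReal_zero, zero_mul] at e1; linear_combination e1
      exact_mod_cast this
    have hne : dr q t + ar q t ≠ 0 := by
      intro e
      have := hd.sq c
      unfold Dr at this
      rw [add_comm, e] at this; norm_num at this
    exact ⟨0, by simp [(mul_eq_zero.1 f2).resolve_left ha],
      by simp [(mul_eq_zero.1 f1).resolve_left hne]⟩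

theorem Tangent.isTan (hq : Cinf q) {v : ℝ → ℝ} (h : Tangent (Iso q) q v) : IsTan q v := by
  obtain ⟨hv, γ, h1, h2, h3⟩ := h
  exact isTan_of_curve hq hv h1 h2 (by simpa using h3 0)

/-- the basic tangent vector attached to a Dirichlet eigenvalue -/
noncomputable def tv (q : ℝ → ℝ) (t x : ℝ) : ℝ := dr q t / J2 q t 1 * bx1r q t x

theorem TT_eq {t y : ℝ} {v : ℝ → ℝ} (hb : br q t = 0) (h2 : J2 q t v = -(2 * dr q t * Nr q t) * y)
    (h1 : J1 q t v = -(dr q t * cr q t) * y) (x : ℝ) : TT q t v x = 2 * y * tv q t x := by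
  unfold TT tv bx1r
  rw [h1, h2, hb]; ring

theorem bx1r_cont (hq : Continuous q) : Continuous fun u : ℝ × ℝ => bx1r q u.1 u.2 := by
  have := thr_jc hq
  have := thr'_jc hq
  have := phr_jc hq
  have := phr'_jc hq
  have := br_cont hq
  have := Nr_cont hq
  have : Continuous (cr q) := continuous_iff_continuousAt.2 fun t => (cr_hasDerivAt hq t).continuousAt
  unfold bx1r
  fun_prop

theorem bxr_hasDerivAt (hq : Continuous q) (t x : ℝ) : HasDerivAt (bxr q t) (bx1r q t x) x := by
  have h1 := (thr_sol hq t).d1 x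
  have h2 := (phr_sol hq t).d1 x
  exact ((((h1.fun_pow 2).const_mul (br q t)).fun_add ((h1.fun_mul h2).const_mul
    (2 * Nr q t))).fun_sub ((h2.fun_pow 2).const_mul (cr q t))).congr_deriv (by
      unfold bx1r; simp; ring)

theorem bxr_periodic (hq : Continuous q) (hp : Function.Periodic q 1) (t x : ℝ) :
    bxr q t (x + 1) = bxr q t x := by
  have := bx_periodic hq hp t x
  rw [bx_real hq, bx_real hq] at this
  exact_mod_cast this

theorem bx1r_periodic (hq : Continuous q) (hp : Function.Periodic q 1) (t x : ℝ) :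
    bx1r q t (x + 1) = bx1r q t x := by
  have := bx1_periodic hq hp t x
  rw [bx1_real hq, bx1_real hq] at this
  exact_mod_cast this

theorem bx1r_cinf (hq : Cinf q) (t : ℝ) : Cinf (bx1r q t) := by
  obtain ⟨a, b⟩ := (thr_sol hq.cont t).smooth (hq.1.sub contDiff_const)
  obtain ⟨c, d⟩ := (phr_sol hq.cont t).smooth (hq.1.sub contDiff_const)
  refine ⟨?_, bx1r_periodic hq.cont hq.2 t⟩
  unfold bx1r
  fun_prop

theorem int_bx1r (hq : Cinf q) (t : ℝ) : ∫ x in (0 : ℝ)..1, bx1r q t x = 0 := by
  rw [ftc (bxr_hasDerivAt hq.cont t) (bx1r_cinf hq t).cont, ← bxr_periodic hq.cont hq.2 t 0,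
    zero_add, sub_self]

/-- pairing of `bx1r` at a different parameter with the Dirichlet data -/
theorem J_bx1r (hq : Cinf q) {t : ℝ} (hb : br q t = 0) (s : ℝ) :
    2 * (s - t) * J2 q t (bx1r q s) = -(2 * dr q t * Nr q t) * br q s ∧
    2 * (s - t) * J1 q t (bx1r q s) = -(dr q t * cr q t) * br q s := by
  have c := hq.cont
  have h1 := (thr_sol c s).d1
  have h2 := (thr_sol c s).d2
  have h3 := (phr_sol c s).d1
  have h4 := (phr_sol c s).d2
  set w2 := fun x => 2 * (q x - s) * bxr q s x + (2 * br q s * thr' q s x ^ 2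
    + 4 * Nr q s * (thr' q s x * phr' q s x) - 2 * cr q s * phr' q s x ^ 2)
  have d2 : ∀ x, HasDerivAt (bx1r q s) (w2 x) x := fun x =>
    (((((h1 x).fun_mul (h2 x)).const_mul (2 * br q s)).fun_add ((((h2 x).fun_mul (h3 x)).fun_add
      ((h1 x).fun_mul (h4 x))).const_mul (2 * Nr q s))).fun_sub
      (((h3 x).fun_mul (h4 x)).const_mul (2 * cr q s))).congr_deriv (by simp only [w2, bxr]; ring)
  have d3 : ∀ x, HasDerivAt w2 (4 * (q x - s) * bx1r q s x + 2 * deriv q x * bxr q s x) x := fun x =>
    (((((hq.hasDerivAt x).sub_const s).const_mul 2).fun_mul (bxr_hasDerivAt c s x)).fun_add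
      (((((h2 x).fun_pow 2).const_mul (2 * br q s)).fun_add
      (((h2 x).fun_mul (h4 x)).const_mul (4 * Nr q s))).fun_sub
      (((h4 x).fun_pow 2).const_mul (2 * cr q s)))).congr_deriv (by simp [bx1r]; ring)
  have c1 := (bx1r_cinf hq s).cont
  have c2 : Continuous (bxr q s) :=
    continuous_iff_continuousAt.2 fun x => (bxr_hasDerivAt c s x).continuousAt
  have c3 := hq.deriv.cont
  have G := gauge_dir hq hb (bxr_hasDerivAt c s) d2 d3 (by fun_prop)
    (by simpa using bxr_periodic c hq.2 s 0) (by simpa using bx1r_periodic c hq.2 s 0)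
  have e : (fun x => -(1 / 2) * (4 * (q x - s) * bx1r q s x + 2 * deriv q x * bxr q s x)
      + 2 * (q x - t) * bx1r q s x + deriv q x * bxr q s x) =
      fun x => (2 * (s - t)) * bx1r q s x + 0 * bx1r q s x := by funext x; ring
  rw [e, J2_add c t c1 c1, J1_add c t c1 c1,
    show bxr q s 0 = br q s by simp [bxr, thr_zero c, phr_zero c]] at G
  simpa using G

theorem J_bx1r_self (hq : Cinf q) {t : ℝ} (hb : br q t = 0) :
    J2 q t (bx1r q t) = -Nr q t * J2 q t 1 ∧ J1 q t (bx1r q t) = -(cr q t / 2) * J2 q t 1 := by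
  have c := hq.cont
  have had := ar_mul_dr c hb
  have c1 := bx1r_cont c
  have c2 := (thr_sol c t).cont
  have c3 := (phr_sol c t).cont
  have sl := hasDerivAt_iff_tendsto_slope.1 (br_hasDerivAt c t)
  have aux : ∀ (F : ℝ → ℝ) (a : ℝ), Continuous F → (∀ s, 2 * (s - t) * F s = a * br q s) →
      2 * F t = a * (ar q t * J2 q t 1) := by
    intro F a hF h
    have l1 : Tendsto (fun s => 2 * F s) (𝓝[≠] t) (𝓝 (2 * F t)) :=
      tendsto_nhdsWithin_of_tendsto_nhds ((continuous_const.mul hF).tendsto t)
    have l2 := sl.const_mul a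
    rw [hb, zero_mul, sub_zero] at l2
    refine tendsto_nhds_unique l1 (l2.congr' ?_)
    filter_upwards [self_mem_nhdsWithin] with s hs
    have : s - t ≠ 0 := sub_ne_zero.2 hs
    rw [slope_def_field, hb, sub_zero, mul_div_assoc', ← h s]; field_simp
  have a2 := aux (fun s => J2 q t (bx1r q s)) _
    (intervalIntegral.continuous_parametric_intervalIntegral_of_continuous'
      (f := fun s x => bx1r q s x * (phr q t x * phr q t x))
      (c1.mul ((c3.mul c3).comp continuous_snd)) 0 1) fun s => (J_bx1r hq hb s).1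
  have a1 := aux (fun s => J1 q t (bx1r q s)) _
    (intervalIntegral.continuous_parametric_intervalIntegral_of_continuous'
      (f := fun s x => bx1r q s x * (thr q t x * phr q t x))
      (c1.mul ((c2.mul c3).comp continuous_snd)) 0 1) fun s => (J_bx1r hq hb s).2
  constructor
  · linear_combination a2 / 2 - (Nr q t * J2 q t 1) * had
  · linear_combination a1 / 2 - (cr q t / 2 * J2 q t 1) * had

end Pool.Agent.P.MP_aabf10_an
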